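import Pool.Agent.Helper319LP.Mon

/-! Base change, and leading coefficients of monomial elements of the group. -/

namespace LP319

open Matrix

set_option linter.unusedSectionVars false

section forms

variable {ι : Type*} [Fintype ι] [DecidableEq ι] {F : Type*} [Field F] {d : ℕ}

theorem mult_expand (φ : MultilinearMap F (fun _ : Fin d => (ι → F)) F) (v : Fin d → (ι → F)) :
    φ v = ∑ μ : Fin d → ι, (∏ i, v i (μ i)) * φ (fun i => Pi.single (μ i) 1) := by
  have h1 : v = fun i => ∑ p, v i p • (Pi.single p 1 : ι → F) := by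
    funext i
    ext q
    rw [Finset.sum_apply, Finset.sum_eq_single q]
    · simp
    · intro b _ hb
      simp [Pi.single_eq_of_ne (Ne.symm hb)]
    · simp
  conv_lhs => rw [h1]
  rw [MultilinearMap.map_sum]
  apply Finset.sum_congr rfl
  intro μ _
  rw [MultilinearMap.map_smul_univ, smul_eq_mul]

theorem mult_ext (φ ψ : MultilinearMap F (fun _ : Fin d => (ι → F)) F)
    (h : ∀ μ : Fin d → ι, φ (fun i => Pi.single (μ i) 1) = ψ (fun i => Pi.single (μ i) 1))
    (v : Fin d → (ι → F)) : φ v = ψ v := by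
  rw [mult_expand φ, mult_expand ψ]
  simp only [h]

/-- The derivative of a form along a matrix. -/
def DX (φ : MultilinearMap F (fun _ : Fin d => (ι → F)) F) (X : Matrix ι ι F) :
    MultilinearMap F (fun _ : Fin d => (ι → F)) F :=
  ∑ i, φ.compLinearMap (fun j => if j = i then X.mulVecLin else LinearMap.id)

theorem DX_apply (φ : MultilinearMap F (fun _ : Fin d => (ι → F)) F) (X : Matrix ι ι F)
    (v : Fin d → (ι → F)) : DX φ X v = ∑ i, φ (Function.update v i (X.mulVec (v i))) := by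
  unfold DX
  rw [_root_.sum_apply]
  apply Finset.sum_congr rfl
  intro i _
  rw [MultilinearMap.compLinearMap_apply]
  congr 1
  funext j
  by_cases h : j = i
  · subst h; simp
  · simp [h]

theorem invForm_iff (g : Submodule F (Matrix ι ι F))
    (φ : MultilinearMap F (fun _ : Fin d => (ι → F)) F) :
    InvForm g φ ↔ ∀ X ∈ g, ∀ v, DX φ X v = 0 := by
  unfold InvForm
  simp only [DX_apply]

theorem DX_add (φ : MultilinearMap F (fun _ : Fin d => (ι → F)) F) (X Y : Matrix ι ι F)
    (v : Fin d → (ι → F)) : DX φ (X + Y) v = DX φ X v + DX φ Y v := by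
  simp only [DX_apply, Matrix.add_mulVec, MultilinearMap.map_update_add, Finset.sum_add_distrib]

theorem DX_smul (φ : MultilinearMap F (fun _ : Fin d => (ι → F)) F) (a : F) (X : Matrix ι ι F)
    (v : Fin d → (ι → F)) : DX φ (a • X) v = a * DX φ X v := by
  simp only [DX_apply, Matrix.smul_mulVec, MultilinearMap.map_update_smul, smul_eq_mul,
    Finset.mul_sum]

theorem invForm_span (s : Set (Matrix ι ι F))
    (φ : MultilinearMap F (fun _ : Fin d => (ι → F)) F)
    (h : ∀ X ∈ s, ∀ v, DX φ X v = 0) : InvForm (Submodule.span F s) φ := by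
  rw [invForm_iff]
  intro X hX
  induction hX using Submodule.span_induction with
  | mem x hx => exact h x hx
  | zero =>
    intro v
    have := DX_smul φ 0 0 v
    rw [zero_smul, zero_mul] at this
    exact this
  | add x y _ _ hx hy => intro v; rw [DX_add, hx, hy, add_zero]
  | smul a x _ hx => intro v; rw [DX_smul, hx, mul_zero]

variable {E : Type*} [Field E] [Algebra E F]

/-- Extension of vectors. -/
def av (v : ι → E) : ι → F := fun p => algebraMap E F (v p)

theorem av_single (p : ι) : av (Pi.single p (1 : E)) = (Pi.single p (1 : F) : ι → F) := by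
  ext q
  unfold av
  by_cases h : q = p
  · subst h; simp
  · simp [Pi.single_eq_of_ne h]

theorem av_mulVec (X : Matrix ι ι E) (v : ι → E) :
    (av (X.mulVec v) : ι → F) = (X.map (algebraMap E F)).mulVec (av v) := by
  ext p
  simp only [av, Matrix.mulVec, dotProduct, map_sum, map_mul, Matrix.map_apply]

theorem av_update (v : Fin d → (ι → E)) (i : Fin d) (w : ι → E) :
    (fun j => (av ((Function.update v i w) j) : ι → F)) =
      Function.update (fun j => av (v j)) i (av w) := by
  funext j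
  by_cases h : j = i
  · subst h; simp
  · simp [h]

/-- Extension of scalars of a form. -/
noncomputable def extF (F : Type*) [Field F] [Algebra E F]
    (φ : MultilinearMap E (fun _ : Fin d => (ι → E)) E) :
    MultilinearMap F (fun _ : Fin d => (ι → F)) F :=
  ∑ μ : Fin d → ι, (algebraMap E F (φ (fun i => Pi.single (μ i) 1))) •
    (MultilinearMap.mkPiAlgebra F (Fin d) F).compLinearMap (fun i => LinearMap.proj (μ i))

theorem extF_apply (φ : MultilinearMap E (fun _ : Fin d => (ι → E)) E) (v : Fin d → (ι → F)) :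
    extF F φ v = ∑ μ : Fin d → ι, (∏ i, v i (μ i)) *
      algebraMap E F (φ (fun i => Pi.single (μ i) 1)) := by
  unfold extF
  rw [_root_.sum_apply]
  apply Finset.sum_congr rfl
  intro μ _
  rw [_root_.smul_apply, MultilinearMap.compLinearMap_apply,
    MultilinearMap.mkPiAlgebra_apply, smul_eq_mul, mul_comm]
  rfl

theorem extF_av (φ : MultilinearMap E (fun _ : Fin d => (ι → E)) E) (v : Fin d → (ι → E)) :
    extF F φ (fun i => av (v i)) = algebraMap E F (φ v) := by
  rw [extF_apply, mult_expand φ v, map_sum]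
  apply Finset.sum_congr rfl
  intro μ _
  rw [map_mul, map_prod]
  rfl

theorem mult_ext_av (φ ψ : MultilinearMap F (fun _ : Fin d => (ι → F)) F)
    (h : ∀ v : Fin d → (ι → E), φ (fun i => av (v i)) = ψ (fun i => av (v i)))
    (v : Fin d → (ι → F)) : φ v = ψ v := by
  apply mult_ext
  intro μ
  have := h (fun i => Pi.single (μ i) 1)
  simpa only [av_single] using this

theorem DX_extF (φ : MultilinearMap E (fun _ : Fin d => (ι → E)) E) (X : Matrix ι ι E)
    (hX : ∀ v, DX φ X v = 0) (v : Fin d → (ι → F)) :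
    DX (extF F φ) (X.map (algebraMap E F)) v = 0 := by
  have := mult_ext_av (E := E) (DX (extF F φ) (X.map (algebraMap E F))) 0 (by
    intro w
    rw [DX_apply]
    simp only [← av_mulVec, ← av_update, extF_av]
    rw [← map_sum, ← DX_apply, hX, map_zero]
    rfl) v
  exact this

end forms

section base

variable {ty : Ty} {n : ℕ} {F : Type*} [Field F] {E : Type*} [Field E] [Algebra E F]

theorem extF_inv {d : ℕ} (φ : MultilinearMap E (fun _ : Fin d => (Idx ty n → E)) E)
    (hφ : InvForm (LieAlg ty n E) φ) : InvForm (LieAlg ty n F) (extF F φ) := by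
  apply invForm_span
  rw [invForm_iff] at hφ
  rintro X (⟨b, i, hb, rfl⟩ | ⟨b, i, hb, rfl⟩) v
  · rw [← rE_map (algebraMap E F)]
    exact DX_extF φ _ (hφ _ (rE_mem hb i)) v
  · rw [← rH_map (algebraMap E F)]
    exact DX_extF φ _ (hφ _ (rH_mem hb i)) v

theorem Nor_map {g : GL (Idx ty n) E} (hg : g ∈ Nor (LieAlg ty n E)) :
    ga (algebraMap E F) g ∈ Nor (LieAlg ty n F) := by
  have key : ∀ g : GL (Idx ty n) E, g ∈ Nor (LieAlg ty n E) → ∀ X ∈ LieAlg ty n F,
      Ad (ga (algebraMap E F) g) X ∈ LieAlg ty n F := by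
    intro g hg X hX
    unfold LieAlg at hX
    induction hX using Submodule.span_induction with
    | mem x hx =>
      rcases hx with ⟨b, i, hb, rfl⟩ | ⟨b, i, hb, rfl⟩
      · rw [← rE_map (algebraMap E F), Ad_map]
        exact LieAlg_map _ ((hg _).mp (rE_mem hb i))
      · rw [← rH_map (algebraMap E F), Ad_map]
        exact LieAlg_map _ ((hg _).mp (rH_mem hb i))
    | zero => rw [Ad_zero]; exact Submodule.zero_mem _
    | add y z _ _ hy hz => rw [Ad_add]; exact Submodule.add_mem _ hy hz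
    | smul a y _ hy => rw [Ad_smul]; exact Submodule.smul_mem _ _ hy
  apply mem_Nor_of (key g hg)
  rw [← map_inv]
  exact key _ (inv_mem hg)

theorem Cen_of_gen {z : GL (Idx ty n) F}
    (h : ∀ b i, IsRt ty b → Ad z (rE ty n F b i) = rE ty n F b i) : z ∈ Cen (LieAlg ty n F) := by
  intro X hX
  unfold LieAlg at hX
  induction hX using Submodule.span_induction with
  | mem x hx =>
    rcases hx with ⟨b, i, hb, rfl⟩ | ⟨b, i, hb, rfl⟩
    · exact h b i hb
    · rw [← rE_comm_neg hb, Ad_sub, Ad_mul_mat, Ad_mul_mat, h b i hb, h (-b) i hb.neg]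
  | zero => rw [Ad_zero]
  | add y z _ _ hy hz => rw [Ad_add, hy, hz]
  | smul a y _ hy => rw [Ad_smul, hy]

theorem Cen_map {g : GL (Idx ty n) E} (hg : g ∈ Cen (LieAlg ty n E)) :
    ga (algebraMap E F) g ∈ Cen (LieAlg ty n F) := by
  apply Cen_of_gen
  intro b i hb
  rw [← rE_map (algebraMap E F), Ad_map, hg _ (rE_mem hb i)]

theorem Gp_map {g : GL (Idx ty n) E} (hg : g ∈ Gp (LieAlg ty n E)) :
    ga (algebraMap E F) g ∈ Gp (LieAlg ty n F) := by
  refine ⟨Nor_map hg.1, ?_⟩
  intro d φ hφ v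
  rw [invForm_iff] at hφ
  have h1 := mult_ext_av (E := E)
    (φ.compLinearMap (fun _ => Matrix.mulVecLin (ga (algebraMap E F) g : Matrix _ _ F))) φ (by
    intro w
    rw [MultilinearMap.compLinearMap_apply]
    simp only [Matrix.mulVecLin_apply]
    rw [← sub_eq_zero, ← Module.forall_dual_apply_eq_zero_iff E]
    intro l
    -- the form over E
    let avl : (Idx ty n → E) →ₗ[E] (Idx ty n → F) :=
      { toFun := av
        map_add' := by intro a b; ext p; simp [av]
        map_smul' := by intro a b; ext p; simp [av, Algebra.smul_def] }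
    let ψ : MultilinearMap E (fun _ : Fin d => (Idx ty n → E)) E :=
      (l.compMultilinearMap (φ.restrictScalars E)).compLinearMap (fun _ => avl)
    have hψ : ∀ w, ψ w = l (φ (fun i => av (w i))) := fun w => rfl
    have hψi : InvForm (LieAlg ty n E) ψ := by
      intro X hX u
      simp only [hψ]
      rw [← map_sum]
      simp only [av_update, av_mulVec]
      rw [← DX_apply, hφ _ (LieAlg_map _ hX), map_zero]
    have h2 := hg.2 d ψ hψi w
    rw [hψ, hψ] at h2
    rw [map_sub, sub_eq_zero, ← h2]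
    congr 2
    funext i
    rw [av_mulVec]; rfl) v
  exact h1

end base

section lead

variable {ι : Type*} [Fintype ι] [DecidableEq ι] {F : Type*} [Field F] {E : Type*} [Field E]
  (lc : F →*₀ E)

theorem map_lc_mul' (A B : Matrix ι ι F) (hB : Mono B) :
    (A * B).map lc = A.map lc * B.map lc := by
  obtain ⟨π, hπ⟩ := hB
  ext p r
  rw [Matrix.map_apply, Matrix.mul_apply, Matrix.mul_apply, Finset.sum_eq_single (π r),
    Finset.sum_eq_single (π r), Matrix.map_apply, Matrix.map_apply, map_mul]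
  · intro q _ hq
    rw [Matrix.map_apply, Matrix.map_apply, hπ q r hq, map_zero, mul_zero]
  · simp
  · intro q _ hq
    rw [hπ q r hq, mul_zero]
  · simp

variable {ty : Ty} {n : ℕ} [Algebra E F]

theorem lc_int (hlc : ∀ x : E, lc (algebraMap E F x) = x) (z : ℤ) : lc ((z : ℤ) : F) = (z : E) := by
  have := hlc (z : E)
  rwa [map_intCast] at this

theorem rE_map_lc (hlc : ∀ x : E, lc (algebraMap E F x) = x) (b : Fin 8 → ℤ) (i : Fin n) :
    (rE ty n F b i).map lc = rE ty n E b i := by
  ext p q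
  rw [Matrix.map_apply, rE_apply, rE_apply]
  split_ifs
  · exact lc_int lc hlc _
  · simp

theorem lcG_Nor [CharZero F] (hlc : ∀ x : E, lc (algebraMap E F x) = x)
    (N : MonG (Idx ty n) F) (hN : N.1 ∈ Nor (LieAlg ty n F)) :
    lcG lc N ∈ Nor (LieAlg ty n E) := by
  have key : ∀ N : MonG (Idx ty n) F, N.1 ∈ Nor (LieAlg ty n F) → ∀ X ∈ LieAlg ty n E,
      Ad (lcG lc N) X ∈ LieAlg ty n E := by
    intro N hN
    apply Ad_LieAlg_of
    intro b i hb
    obtain ⟨b', j, c, hb', hc, he⟩ := Ad_rE_mono hN N.2 hb i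
    refine ⟨b', j, lc c, hb', ?_⟩
    rw [Ad_eq_iff] at he ⊢
    have h1 := congrArg (fun M : Matrix _ _ F => M.map lc) he
    beta_reduce at h1
    rw [map_lc_mul lc _ _ N.2, map_lc_mul' lc _ _ N.2, rE_map_lc lc hlc] at h1
    have h2 : (c • rE ty n F b' j).map lc = lc c • rE ty n E b' j := by
      rw [← rE_map_lc lc hlc]
      ext p q
      simp [Matrix.map_apply, Matrix.smul_apply]
    rw [h2] at h1
    exact h1
  apply mem_Nor_of (key N hN)
  rw [← map_inv]
  exact key _ (inv_mem hN)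

theorem lcG_Cen [CharZero F] (hlc : ∀ x : E, lc (algebraMap E F x) = x)
    (N : MonG (Idx ty n) F) (hN : N.1 ∈ Cen (LieAlg ty n F)) :
    lcG lc N ∈ Cen (LieAlg ty n E) := by
  apply Cen_of_gen
  intro b i hb
  have he := hN _ (rE_mem hb i)
  rw [Ad_eq_iff] at he ⊢
  have h1 := congrArg (fun M : Matrix _ _ F => M.map lc) he
  beta_reduce at h1
  rw [map_lc_mul lc _ _ N.2, map_lc_mul' lc _ _ N.2, rE_map_lc lc hlc] at h1
  exact h1

theorem mono_single (N : Matrix ι ι F) (π : Equiv.Perm ι) (hπ : ∀ p q, p ≠ π q → N p q = 0)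
    (q : ι) : N.mulVec (Pi.single q 1) = N (π q) q • (Pi.single (π q) (1 : F) : ι → F) := by
  ext p
  rw [Matrix.mulVec_single_one, Matrix.col_apply, Pi.smul_apply, smul_eq_mul]
  by_cases h : p = π q
  · subst h; simp
  · rw [hπ p q h, Pi.single_eq_of_ne h, mul_zero]

theorem lcG_Gp [CharZero F] (hlc : ∀ x : E, lc (algebraMap E F x) = x)
    (N : MonG (Idx ty n) F) (hN : N.1 ∈ Gp (LieAlg ty n F)) :
    lcG lc N ∈ Gp (LieAlg ty n E) := by
  refine ⟨lcG_Nor lc hlc N hN.1, ?_⟩
  intro d φ hφ v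
  obtain ⟨π, hπ⟩ := N.2
  have hπ' : ∀ p q, p ≠ π q → (lcG lc N : Matrix _ _ E) p q = 0 := by
    intro p q hpq
    rw [lcG_val, Matrix.map_apply, hπ p q hpq, map_zero]
  have h1 := mult_ext (φ.compLinearMap (fun _ => Matrix.mulVecLin (lcG lc N : Matrix _ _ E))) φ (by
    intro μ
    rw [MultilinearMap.compLinearMap_apply]
    simp only [Matrix.mulVecLin_apply, mono_single _ π hπ']
    rw [MultilinearMap.map_smul_univ, smul_eq_mul]
    have h2 := hN.2 d (extF F φ) (extF_inv φ hφ) (fun i => Pi.single (μ i) 1)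
    simp only [mono_single _ π hπ] at h2
    rw [MultilinearMap.map_smul_univ, smul_eq_mul] at h2
    have h3 : ∀ μ : Fin d → Idx ty n, extF F φ (fun i => Pi.single (μ i) 1) =
        algebraMap E F (φ (fun i => Pi.single (μ i) 1)) := by
      intro μ
      have := extF_av (F := F) φ (fun i => Pi.single (μ i) 1)
      simpa only [av_single] using this
    rw [h3, h3 μ] at h2
    have h4 := congrArg lc h2
    rw [map_mul, map_prod, hlc, hlc] at h4
    rw [← h4]
    rfl) v
  exact h1

end lead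

section chars

variable {ty : Ty} {n : ℕ} {F : Type*} [Field F]

/-- Positions of the same root element. -/
def SameRt (p q p' q' : Idx ty n) : Prop :=
  IsRt ty (p.1.1 - q.1.1) ∧ p.2 = q.2 ∧ p'.2 = q'.2 ∧ p.2 = p'.2 ∧ p.1.1 - q.1.1 = p'.1.1 - q'.1.1

theorem dg_Nor_iff [CharZero F] (v : Idx ty n → Fˣ) : dg v ∈ Nor (LieAlg ty n F) ↔
    ∀ p q p' q' : Idx ty n, SameRt p q p' q' → v p * (v q)⁻¹ = v p' * (v q')⁻¹ := by
  constructor
  · rintro h p q p' q' ⟨h1, h2, h3, h4, h5⟩
    obtain ⟨b', j, c, hb', hc, he⟩ := Ad_rE_mono h (dg_mem_MonG v) h1 p.2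
    have key : ∀ r s : Idx ty n, r.1.1 - s.1.1 = p.1.1 - q.1.1 → r.2 = p.2 → s.2 = p.2 →
        ((v r * (v s)⁻¹ : Fˣ) : F) = c := by
      intro r s hrs hr hs
      have h6 := congrFun (congrFun he r) s
      rw [Ad_dg, rE_apply_ne hrs hr hs, Matrix.smul_apply, rE_apply, smul_eq_mul] at h6
      have hne : (v r : F) * ((sg (p.1.1 - q.1.1) s.1.1 : ℤ) : F) * (((v s)⁻¹ : Fˣ) : F) ≠ 0 :=
        mul_ne_zero (mul_ne_zero (Units.ne_zero _) (sg_cast_ne _ _)) (Units.ne_zero _)
      have h7 : r.2 = j ∧ s.2 = j ∧ r.1.1 = s.1.1 + b' := by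
        by_contra hcon
        rw [if_neg hcon, mul_zero] at h6
        exact hne h6
      have h8 : b' = p.1.1 - q.1.1 := by rw [← hrs, h7.2.2]; abel
      rw [if_pos h7, h8] at h6
      have h9 : (v r : F) * (((v s)⁻¹ : Fˣ) : F) * ((sg (p.1.1 - q.1.1) s.1.1 : ℤ) : F) =
          c * ((sg (p.1.1 - q.1.1) s.1.1 : ℤ) : F) := by
        rw [← h6]; ring
      rw [Units.val_mul]
      exact mul_right_cancel₀ (sg_cast_ne _ _) h9
    apply Units.ext
    rw [key p q rfl rfl h2.symm, key p' q' h5.symm h4.symm (h3.symm.trans h4.symm)]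
  · intro h
    have key : ∀ v : Idx ty n → Fˣ, (∀ p q p' q' : Idx ty n, SameRt p q p' q' →
        v p * (v q)⁻¹ = v p' * (v q')⁻¹) → ∀ X ∈ LieAlg ty n F, Ad (dg v) X ∈ LieAlg ty n F := by
      intro v h
      apply Ad_LieAlg_of
      intro b i hb
      obtain ⟨p0, q0, h1, h2, h3⟩ := rE_ne hb i
      refine ⟨b, i, ((v p0 * (v q0)⁻¹ : Fˣ) : F), hb, ?_⟩
      ext p q
      rw [Ad_dg, Matrix.smul_apply, smul_eq_mul]
      by_cases hpq : p.2 = i ∧ q.2 = i ∧ p.1.1 = q.1.1 + b
      · have h4 : p.1.1 - q.1.1 = b := by rw [hpq.2.2]; abel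
        rw [rE_apply_ne h4 hpq.1 hpq.2.1, ← h p q p0 q0 ⟨by rw [h4]; exact hb,
          hpq.1.trans hpq.2.1.symm, h2.trans h3.symm, hpq.1.trans h2.symm, h4.trans h1.symm⟩,
          Units.val_mul]
        ring
      · rw [rE_apply, if_neg hpq]; simp
    apply mem_Nor_of (key v h)
    rw [← map_inv]
    apply key
    intro p q p' q' hs
    have := h p q p' q' hs
    simp only [Pi.inv_apply, inv_inv]
    have h2 := congrArg (fun x => x⁻¹) this
    simp only [_root_.mul_inv_rev, inv_inv] at h2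
    rw [mul_comm, h2, mul_comm]

theorem dg_Cen_iff (v : Idx ty n → Fˣ) : dg v ∈ Cen (LieAlg ty n F) ↔
    ∀ p q : Idx ty n, IsRt ty (p.1.1 - q.1.1) → p.2 = q.2 → v p = v q := by
  constructor
  · intro h p q h1 h2
    have h3 := congrFun (congrFun (h _ (rE_mem h1 p.2)) p) q
    rw [Ad_dg, rE_apply_ne rfl rfl h2.symm] at h3
    have h4 : (v p : F) * (((v q)⁻¹ : Fˣ) : F) * ((sg (p.1.1 - q.1.1) q.1.1 : ℤ) : F) =
        1 * ((sg (p.1.1 - q.1.1) q.1.1 : ℤ) : F) := by
      rw [one_mul]; nth_rewrite 2 [← h3]; ring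
    have h5 := mul_right_cancel₀ (sg_cast_ne _ _) h4
    rw [← Units.val_mul] at h5
    have h6 : v p * (v q)⁻¹ = 1 := Units.ext h5
    exact mul_inv_eq_one.mp h6
  · intro h
    apply Cen_of_gen
    intro b i hb
    ext p q
    rw [Ad_dg]
    by_cases hpq : p.2 = i ∧ q.2 = i ∧ p.1.1 = q.1.1 + b
    · have h4 : p.1.1 - q.1.1 = b := by rw [hpq.2.2]; abel
      rw [h p q (by rw [h4]; exact hb) (hpq.1.trans hpq.2.1.symm), mul_comm, ← mul_assoc,
        ← Units.val_mul, inv_mul_cancel, Units.val_one, one_mul]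
    · rw [rE_apply, if_neg hpq]; simp

theorem dg_Gp_iff (v : Idx ty n → Fˣ) : dg v ∈ Gp (LieAlg ty n F) ↔
    dg v ∈ Nor (LieAlg ty n F) ∧ ∀ (d : ℕ)
      (φ : MultilinearMap F (fun _ : Fin d => (Idx ty n → F)) F), InvForm (LieAlg ty n F) φ →
      ∀ μ : Fin d → Idx ty n, φ (fun i => Pi.single (μ i) 1) ≠ 0 → ∏ i, v (μ i) = 1 := by
  have hact : ∀ (d : ℕ) (φ : MultilinearMap F (fun _ : Fin d => (Idx ty n → F)) F)
      (μ : Fin d → Idx ty n), φ (fun i => (dg v : Matrix _ _ F).mulVec (Pi.single (μ i) 1)) =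
      ((∏ i, v (μ i) : Fˣ) : F) * φ (fun i => Pi.single (μ i) 1) := by
    intro d φ μ
    have h1 := mono_single (dg v : Matrix (Idx ty n) (Idx ty n) F) 1
      (fun p q hpq => Matrix.diagonal_apply_ne _ hpq)
    simp only [h1]
    rw [MultilinearMap.map_smul_univ, smul_eq_mul, Units.coe_prod]
    congr 1
    apply Finset.prod_congr rfl
    intro i _
    rw [dg_val]
    simp
  constructor
  · rintro ⟨h1, h2⟩
    refine ⟨h1, ?_⟩
    intro d φ hφ μ hμ
    have h3 := h2 d φ hφ (fun i => Pi.single (μ i) 1)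
    rw [hact] at h3
    have h4 : ((∏ i, v (μ i) : Fˣ) : F) * φ (fun i => Pi.single (μ i) 1) =
        1 * φ (fun i => Pi.single (μ i) 1) := by rw [h3, one_mul]
    exact Units.ext (mul_right_cancel₀ hμ h4)
  · rintro ⟨h1, h2⟩
    refine ⟨h1, ?_⟩
    intro d φ hφ w
    have h3 := mult_ext (φ.compLinearMap (fun _ => Matrix.mulVecLin (dg v : Matrix _ _ F))) φ (by
      intro μ
      rw [MultilinearMap.compLinearMap_apply]
      simp only [Matrix.mulVecLin_apply]
      rw [hact]
      by_cases hμ : φ (fun i => Pi.single (μ i) 1) = 0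
      · rw [hμ, mul_zero]
      · rw [h2 d φ hφ μ hμ, Units.val_one, one_mul]) w
    exact h3

end chars

end LP319
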