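import Pool.Agent.Helper319LP.Gen

/-! A cocycle modulo the centraliser can be conjugated to a monomial one. -/

namespace LP319

open Matrix

set_option linter.unusedSectionVars false

section

variable {ι : Type*} [Fintype ι] [DecidableEq ι] {F F' : Type*} [Field F] [Field F']

/-- The entrywise action of a field homomorphism on invertible matrices. -/
abbrev ga (f : F →+* F') : GL ι F →* GL ι F' := Matrix.GeneralLinearGroup.map f

theorem ga_val (f : F →+* F') (g : GL ι F) :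
    (ga f g : Matrix ι ι F') = (g : Matrix ι ι F).map f := rfl

theorem ga_inv_val (f : F →+* F') (g : GL ι F) :
    (((ga f g)⁻¹ : GL ι F') : Matrix ι ι F') = ((g⁻¹ : GL ι F) : Matrix ι ι F).map f := by
  rw [← map_inv]; rfl

theorem Ad_map (f : F →+* F') (g : GL ι F) (X : Matrix ι ι F) :
    Ad (ga f g) (X.map f) = (Ad g X).map f := by
  unfold Ad
  rw [ga_inv_val, ga_val, Matrix.map_mul, Matrix.map_mul]

/-- Monomial matrices. -/
def Mono (g : Matrix ι ι F) : Prop := ∃ π : Equiv.Perm ι, ∀ p q, p ≠ π q → g p q = 0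

theorem mono_of_diag (N : GL ι F) (h h' : ι → F) (hh : Function.Injective h)
    (hh' : Function.Injective h')
    (hN : (N : Matrix ι ι F) * Matrix.diagonal h' = Matrix.diagonal h * (N : Matrix ι ι F)) :
    Mono (N : Matrix ι ι F) := by
  have h1 : ∀ p q, (N : Matrix ι ι F) p q ≠ 0 → h p = h' q := by
    intro p q hpq
    have h2 := congrFun (congrFun hN p) q
    rw [Matrix.mul_diagonal, Matrix.diagonal_mul, mul_comm] at h2
    exact (mul_right_cancel₀ hpq h2).symm
  have h2 : ∀ q, ∃ p, (N : Matrix ι ι F) p q ≠ 0 := by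
    intro q
    by_contra hcon
    push Not at hcon
    have h3 : (((N⁻¹ : GL ι F) : Matrix ι ι F) * (N : Matrix ι ι F)) q q = 1 := by
      rw [← Units.val_mul, inv_mul_cancel, Units.val_one, Matrix.one_apply_eq]
    rw [Matrix.mul_apply, Finset.sum_eq_zero] at h3
    · exact zero_ne_one h3
    · intro r _; rw [hcon r, mul_zero]
  choose f hf using h2
  have hinj : Function.Injective f := by
    intro q q' hqq
    apply hh'
    rw [← h1 _ _ (hf q), ← h1 _ _ (hf q'), hqq]
  refine ⟨Equiv.ofBijective f (Finite.injective_iff_bijective.mp hinj), ?_⟩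
  intro p q hpq
  by_contra hne
  apply hpq
  rw [Equiv.ofBijective_apply]
  exact hh ((h1 _ _ hne).trans (h1 _ _ (hf q)).symm)

end

section

variable {Γ : Type*} [Group Γ] {F : Type*} [Field F] (ρ : Γ →* RingAut F)

/-- Functions on `Γ` invariant on the right under the stabiliser of a finite set. -/
def Cont {α : Type*} (f : Γ → α) : Prop :=
  ∃ S : Finset F, ∀ σ τ, (∀ x ∈ S, ρ τ x = x) → f (σ * τ) = f σ

/-- The pointwise stabiliser of a set. -/
def Stb (S : Finset F) : Subgroup Γ where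
  carrier := {τ | ∀ x ∈ S, ρ τ x = x}
  mul_mem' := by
    intro a b ha hb x hx
    rw [map_mul, RingAut.mul_apply, hb x hx, ha x hx]
  one_mem' := by intro x _; rw [map_one]; rfl
  inv_mem' := by
    intro a ha x hx
    have h1 := ha x hx
    nth_rewrite 1 [← h1]
    rw [← RingAut.mul_apply, ← map_mul, inv_mul_cancel, map_one]; rfl

theorem Stb_finite (hfin : ∀ x : F, (Set.range fun σ => ρ σ x).Finite) (S : Finset F) :
    Finite (Γ ⧸ Stb ρ S) := by
  have : ∀ x : F, Finite (Set.range fun σ => ρ σ x) := fun x => (hfin x).to_subtype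
  let f : Γ ⧸ Stb ρ S → ((x : S) → Set.range fun σ => ρ σ (x : F)) :=
    fun c x => ⟨ρ c.out (x : F), ⟨c.out, rfl⟩⟩
  apply Finite.of_injective f
  intro c c' h
  have h1 : c.out⁻¹ * c'.out ∈ Stb ρ S := by
    intro x hx
    have h2 : ρ c.out x = ρ c'.out x := congrArg Subtype.val (congrFun h ⟨x, hx⟩)
    rw [map_mul, RingAut.mul_apply, ← h2, ← RingAut.mul_apply, ← map_mul, inv_mul_cancel, map_one]
    rfl
  have h3 := QuotientGroup.eq.mpr h1
  rwa [QuotientGroup.out_eq', QuotientGroup.out_eq'] at h3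

end

section

variable {Γ : Type*} [Group Γ] {ι : Type*} [Fintype ι] [DecidableEq ι] {F : Type*} [Field F]

/-- Cocycles in the normaliser modulo the centraliser. -/
structure PC (ρ : Γ →* RingAut F) (g : Submodule F (Matrix ι ι F)) (m : Γ → GL ι F) : Prop where
  nor : ∀ σ, m σ ∈ Nor g
  coc : ∀ σ τ, m σ * ga (ρ σ : F →+* F) (m τ) * (m (σ * τ))⁻¹ ∈ Cen g
  cont : Cont ρ m

theorem PC.one {ρ : Γ →* RingAut F} {g : Submodule F (Matrix ι ι F)} {m : Γ → GL ι F}
    (h : PC ρ g m) : m 1 ∈ Cen g := by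
  have h1 := h.coc 1 1
  have h2 : ga (ρ 1 : F →+* F) (m 1) = m 1 := by
    rw [map_one]
    apply Units.ext
    ext i j
    rfl
  rw [h2, mul_one, mul_assoc, mul_inv_cancel, mul_one] at h1
  exact h1

/-- The twisted fixed points. -/
def Tw (ρ : Γ →* RingAut F) (g : Submodule F (Matrix ι ι F)) (m : Γ → GL ι F) :
    AddSubgroup (Matrix ι ι F) where
  carrier := {X | X ∈ g ∧ ∀ σ, Ad (m σ) (X.map (ρ σ : F →+* F)) = X}
  add_mem' := by
    rintro X Y ⟨hX, hX2⟩ ⟨hY, hY2⟩
    refine ⟨g.add_mem hX hY, ?_⟩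
    intro σ
    rw [Matrix.map_add _ (map_add _), Ad_add, hX2, hY2]
  zero_mem' := by
    refine ⟨g.zero_mem, ?_⟩
    intro σ
    rw [Matrix.map_zero _ (map_zero _), Ad_zero]
  neg_mem' := by
    rintro X ⟨hX, hX2⟩
    refine ⟨g.neg_mem hX, ?_⟩
    intro σ
    have : (-X).map (ρ σ : F →+* F) = (-1 : F) • X.map (ρ σ : F →+* F) := by
      ext i j; simp
    rw [this, Ad_smul, hX2, neg_one_smul]

theorem mem_span_Tw {ρ : Γ →* RingAut F} {g : Submodule F (Matrix ι ι F)} {m : Γ → GL ι F}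
    (hfin : ∀ x : F, (Set.range fun σ => ρ σ x).Finite) (h : PC ρ g m)
    {X0 : Matrix ι ι F} (hX0 : X0 ∈ g) (hX : ∀ σ, X0.map (ρ σ : F →+* F) = X0) :
    X0 ∈ Submodule.span F (Tw ρ g m : Set (Matrix ι ι F)) := by
  classical
  obtain ⟨S, hS⟩ := h.cont
  have hfinite := Stb_finite ρ hfin S
  have : Fintype (Γ ⧸ Stb ρ S) := Fintype.ofFinite _
  by_contra hcon
  obtain ⟨l, hl1, hl2⟩ := Submodule.exists_le_ker_of_notMem hcon
  -- the invariants
  let A : Subring F :=
    { carrier := {a | ∀ τ ∈ Stb ρ S, ρ τ a = a}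
      mul_mem' := fun {a b} ha hb τ hτ => by rw [map_mul, ha τ hτ, hb τ hτ]
      one_mem' := fun τ _ => map_one _
      add_mem' := fun {a b} ha hb τ hτ => by rw [map_add, ha τ hτ, hb τ hτ]
      zero_mem' := fun τ _ => map_zero _
      neg_mem' := fun {a} ha τ hτ => by rw [map_neg, ha τ hτ] }
  have hAS : ∀ x ∈ S, x ∈ A := fun x hx τ hτ => hτ x hx
  let χ : Γ ⧸ Stb ρ S → (A →* F) := fun c =>
    ((ρ c.out : F →+* F).comp A.subtype : A →+* F)
  have hχ : ∀ c (a : A), χ c a = ρ c.out (a : F) := fun c a => rfl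
  have hχinj : Function.Injective χ := by
    intro c c' hcc
    have h1 : c.out⁻¹ * c'.out ∈ Stb ρ S := by
      intro x hx
      have h2 : ρ c.out x = ρ c'.out x := by
        have := congrArg (fun f : A →* F => f ⟨x, hAS x hx⟩) hcc
        exact this
      rw [map_mul, RingAut.mul_apply, ← h2, ← RingAut.mul_apply, ← map_mul, inv_mul_cancel,
        map_one]
      rfl
    have h3 := QuotientGroup.eq.mpr h1
    rwa [QuotientGroup.out_eq', QuotientGroup.out_eq'] at h3
  have hli : LinearIndependent F (fun c => (χ c : A → F)) :=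
    (linearIndependent_monoidHom A F).comp χ hχinj
  -- the traces
  have htr : ∀ a : A, ∑ c : Γ ⧸ Stb ρ S, l (Ad (m c.out) X0) * χ c a = 0 := by
    intro a
    let φ : Γ → Matrix ι ι F := fun τ => ρ τ (a : F) • Ad (m τ) X0
    have hφ : ∀ τ (η : Γ), η ∈ Stb ρ S → φ (τ * η) = φ τ := by
      intro τ η hη
      simp only [φ]
      rw [hS τ η hη, map_mul, RingAut.mul_apply, a.2 η hη]
    have hφout : ∀ τ : Γ, φ (Quotient.out (QuotientGroup.mk τ : Γ ⧸ Stb ρ S)) = φ τ := by
      intro τ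
      obtain ⟨η, hη⟩ := QuotientGroup.mk_out_eq_mul (Stb ρ S) τ
      rw [hη]
      exact hφ τ η η.2
    have hφσ : ∀ σ τ, Ad (m σ) ((φ τ).map (ρ σ : F →+* F)) = φ (σ * τ) := by
      intro σ τ
      simp only [φ]
      have e1 : (ρ τ (a : F) • Ad (m τ) X0).map (ρ σ : F →+* F) =
          ρ σ (ρ τ (a : F)) • (Ad (m τ) X0).map (ρ σ : F →+* F) := by
        ext i j; simp
      rw [e1, Ad_smul, ← Ad_map, hX, ← Ad_mul, map_mul, RingAut.mul_apply]
      congr 1
      have h3 := h.coc σ τ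
      have h4 : m σ * ga (ρ σ : F →+* F) (m τ) =
          (m σ * ga (ρ σ : F →+* F) (m τ) * (m (σ * τ))⁻¹) * m (σ * τ) := by
        rw [inv_mul_cancel_right]
      rw [h4, Ad_mul]
      exact h3 _ ((h.nor (σ * τ) X0).mp hX0)
    have hmem : (∑ c : Γ ⧸ Stb ρ S, φ c.out) ∈ Tw ρ g m := by
      refine ⟨Submodule.sum_mem _ fun c _ => g.smul_mem _ ((h.nor _ X0).mp hX0), ?_⟩
      intro σ
      have e1 : (∑ c : Γ ⧸ Stb ρ S, φ c.out).map (ρ σ : F →+* F) =
          ∑ c : Γ ⧸ Stb ρ S, (φ c.out).map (ρ σ : F →+* F) := by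
        ext i j; simp [Matrix.sum_apply]
      have e2 : ∀ f : Γ ⧸ Stb ρ S → Matrix ι ι F, Ad (m σ) (∑ c, f c) = ∑ c, Ad (m σ) (f c) := by
        intro f
        simp only [Ad, Finset.mul_sum, Finset.sum_mul]
      rw [e1, e2]
      refine Fintype.sum_equiv (MulAction.toPerm σ) _ _ ?_
      intro c
      rw [hφσ, MulAction.toPerm_apply, ← hφout (σ * c.out)]
      congr 2
      conv_rhs => rw [← QuotientGroup.out_eq' c]
      rfl
    have h5 : l (∑ c : Γ ⧸ Stb ρ S, φ c.out) = 0 := hl2 (Submodule.subset_span hmem)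
    rw [map_sum] at h5
    rw [← h5]
    apply Finset.sum_congr rfl
    intro c _
    simp only [φ, map_smul, smul_eq_mul, hχ]
    ring
  have hz := Fintype.linearIndependent_iff.mp hli (fun c => l (Ad (m c.out) X0)) (by
    funext a
    rw [Finset.sum_apply]
    simp only [Pi.smul_apply, smul_eq_mul, Pi.zero_apply]
    exact htr a)
  have h6 := hz (QuotientGroup.mk 1)
  apply hl1
  rw [← h6]
  congr 1
  obtain ⟨η, hη⟩ := QuotientGroup.mk_out_eq_mul (Stb ρ S) 1
  have h7 : m (Quotient.out (QuotientGroup.mk 1 : Γ ⧸ Stb ρ S)) = m 1 := by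
    rw [hη]
    exact hS 1 η η.2
  rw [h7]
  exact (h.one X0 hX0).symm

end

section

variable {Γ : Type*} [Group Γ] {ty : Ty} {n : ℕ} {F F' : Type*} [Field F] [Field F']

theorem rE_map (f : F →+* F') (b : Fin 8 → ℤ) (i : Fin n) :
    (rE ty n F b i).map f = rE ty n F' b i := by
  ext p q
  rw [Matrix.map_apply, rE_apply, rE_apply]
  split_ifs <;> simp

theorem rH_map (f : F →+* F') (b : Fin 8 → ℤ) (i : Fin n) :
    (rH ty n F b i).map f = rH ty n F' b i := by
  unfold rH
  rw [Matrix.diagonal_map (map_zero f)]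
  congr 1
  funext p
  split_ifs <;> simp

theorem LieAlg_map (f : F →+* F') {X : Matrix (Idx ty n) (Idx ty n) F}
    (hX : X ∈ LieAlg ty n F) : X.map f ∈ LieAlg ty n F' := by
  unfold LieAlg at hX
  induction hX using Submodule.span_induction with
  | mem x hx =>
    rcases hx with ⟨c, j, hc, rfl⟩ | ⟨c, j, hc, rfl⟩
    · rw [rE_map]; exact rE_mem hc j
    · rw [rH_map]; exact rH_mem hc j
  | zero => rw [Matrix.map_zero _ (map_zero _)]; exact Submodule.zero_mem _
  | add x y _ _ hx hy =>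
    rw [Matrix.map_add _ (map_add _)]; exact Submodule.add_mem _ hx hy
  | smul a x _ hx =>
    have : (a • x).map f = f a • x.map f := by ext i j; simp
    rw [this]; exact Submodule.smul_mem _ _ hx

theorem span_Tw {ρ : Γ →* RingAut F} {m : Γ → GL (Idx ty n) F}
    (hfin : ∀ x : F, (Set.range fun σ => ρ σ x).Finite) (h : PC ρ (LieAlg ty n F) m) :
    LieAlg ty n F ≤ Submodule.span F (Tw ρ (LieAlg ty n F) m : Set _) := by
  conv_lhs => unfold LieAlg
  rw [Submodule.span_le]
  rintro X (⟨b, i, hb, rfl⟩ | ⟨b, i, hb, rfl⟩)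
  · exact mem_span_Tw hfin h (rE_mem hb i) (fun σ => rE_map _ b i)
  · exact mem_span_Tw hfin h (rH_mem hb i) (fun σ => rH_map _ b i)

/-- Conjugation to a monomial cocycle. -/
theorem exists_mono [IsAlgClosed F] [CharZero F] {ρ : Γ →* RingAut F} {m : Γ → GL (Idx ty n) F}
    (hfin : ∀ x : F, (Set.range fun σ => ρ σ x).Finite) (h : PC ρ (LieAlg ty n F) m) :
    ∃ g ∈ Gp (LieAlg ty n F), ∀ σ, Mono ((g⁻¹ * m σ * ga (ρ σ : F →+* F) g : GL (Idx ty n) F) :
      Matrix (Idx ty n) (Idx ty n) F) := by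
  classical
  -- a basis made of twisted fixed points
  let s : Set (LieAlg ty n F) := {X | (X : Matrix _ _ F) ∈ Tw ρ (LieAlg ty n F) m}
  have hs : ⊤ ≤ Submodule.span F s := by
    rintro ⟨X, hX⟩ -
    have h1 := span_Tw hfin h hX
    have h2 : (Tw ρ (LieAlg ty n F) m : Set (Matrix (Idx ty n) (Idx ty n) F)) =
        (LieAlg ty n F).subtype '' s := by
      ext Y
      constructor
      · intro hY; exact ⟨⟨Y, hY.1⟩, hY, rfl⟩
      · rintro ⟨Z, hZ, rfl⟩; exact hZ
    rw [h2, Submodule.span_image] at h1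
    obtain ⟨Z, hZ, hZ2⟩ := h1
    have : Z = ⟨X, hX⟩ := Subtype.ext hZ2
    rw [← this]; exact hZ
  let bs := Module.Basis.ofSpan hs
  have : Finite ((linearIndepOn_empty F id).extend (Set.empty_subset s)) :=
    Module.Finite.finite_basis bs
  have : Fintype ((linearIndepOn_empty F id).extend (Set.empty_subset s)) := Fintype.ofFinite _
  have hbs : ∀ j, ((bs j : LieAlg ty n F) : Matrix _ _ F) ∈ Tw ρ (LieAlg ty n F) m := by
    intro j
    exact Module.Basis.ofSpan_subset hs ⟨j, rfl⟩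
  obtain ⟨D, hD, hD2⟩ := gen_conj bs
  obtain ⟨w, hw⟩ := exists_int_point D hD
  obtain ⟨g, hg, k, hk, hgk⟩ := hD2 _ hw
  have hX : (∑ j, ((w j : ℤ) : F) • (bs j : Matrix (Idx ty n) (Idx ty n) F)) ∈
      Tw ρ (LieAlg ty n F) m := by
    apply AddSubgroup.sum_mem
    intro j _
    have : ((w j : ℤ) : F) • (bs j : Matrix (Idx ty n) (Idx ty n) F) =
        (w j) • (bs j : Matrix (Idx ty n) (Idx ty n) F) := by
      rw [Int.cast_smul_eq_zsmul]
    rw [this]
    exact AddSubgroup.zsmul_mem _ (hbs j) _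
  rw [hgk] at hX
  refine ⟨g, hg, ?_⟩
  intro σ
  have h1 := hX.2 σ
  rw [← Ad_map, ← Ad_mul] at h1
  have h2 : Ad (g⁻¹ * (m σ * ga (ρ σ : F →+* F) g)) ((Matrix.diagonal k).map (ρ σ : F →+* F)) =
      Matrix.diagonal k := by
    rw [Ad_mul, h1, Ad_inv_Ad]
  rw [Matrix.diagonal_map (map_zero _), ← mul_assoc] at h2
  refine mono_of_diag _ k _ hk ?_ ((Ad_eq_iff _ _ _).mp h2)
  intro a b hab
  exact hk ((ρ σ).injective hab)

end

end LP319
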