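import Mathlib

/-! The root and weight combinatorics of E6 and E7 inside the lattice of signature (1,7):
definitions. -/

namespace LP319

/-- The two Killing-Cartan types considered. -/
inductive Ty
  | E6
  | E7

/-- The form of signature (1,7) on the lattice of rank 8. -/
def ip (x y : Fin 8 → ℤ) : ℤ := x 0 * y 0 - ∑ i : Fin 7, x i.succ * y i.succ

/-- The vector (-3; 1,1,1,1,1,1,1). -/
def Kv : Fin 8 → ℤ := Fin.cons (-3) (fun _ => 1)

/-- Roots: norm -2, orthogonal to `Kv`, and for E6 last coordinate zero. -/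
def IsRt : Ty → (Fin 8 → ℤ) → Prop
  | .E6, x => ip x x = -2 ∧ ip x Kv = 0 ∧ x 7 = 0
  | .E7, x => ip x x = -2 ∧ ip x Kv = 0

/-- Weights: norm -1 and, for E7, product -1 with `Kv` (56 vectors), for E6, product 1 or -1
with `Kv` and last coordinate zero (27 vectors and their opposites). -/
def IsWt : Ty → (Fin 8 → ℤ) → Prop
  | .E6, x => ip x x = -1 ∧ (ip x Kv = -1 ∨ ip x Kv = 1) ∧ x 7 = 0
  | .E7, x => ip x x = -1 ∧ ip x Kv = -1

/-- A bilinear form modulo 2 that gives the signs. -/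
def Bf (x y : Fin 8 → ℤ) : ℤ := x 0 * y 0 + ∑ i : Fin 8, ∑ j : Fin 8, if i < j then x i * y j else 0

/-- The sign (-1)^(Bf x y). -/
def sg (x y : Fin 8 → ℤ) : ℤ := ((Bf x y).negOnePow : ℤˣ)

/-- The type of weights. -/
abbrev Wt (ty : Ty) := {x : Fin 8 → ℤ // IsWt ty x}

/-- The type of roots. -/
abbrev Rt (ty : Ty) := {x : Fin 8 → ℤ // IsRt ty x}

end LP319
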