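import Pool.Agent.Helper319LP.Root

/-! The Lie algebra of type E6^n or E7^n acting on n copies of the 54- or 56-dimensional space,
its normaliser, its centraliser and the simply connected group: definitions. -/

namespace LP319

open Matrix

instance instFinWt (ty : Ty) : Finite (Wt ty) := finite_Wt ty

noncomputable instance instWt (ty : Ty) : Fintype (Wt ty) := Fintype.ofFinite _

instance instFinRt (ty : Ty) : Finite (Rt ty) := finite_Rt ty

noncomputable instance instRt (ty : Ty) : Fintype (Rt ty) := Fintype.ofFinite _

/-- Index set of the representation: weights times components. -/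
abbrev Idx (ty : Ty) (n : ℕ) := Wt ty × Fin n

section defs

variable (ty : Ty) (n : ℕ) (L : Type*) [Field L]

/-- Root element for the root `b` on the component `i`. -/
def rE (b : Fin 8 → ℤ) (i : Fin n) : Matrix (Idx ty n) (Idx ty n) L :=
  Matrix.of fun p q => if p.2 = i ∧ q.2 = i ∧ p.1.1 = q.1.1 + b then ((sg b q.1.1 : ℤ) : L) else 0

/-- Coroot element for the root `b` on the component `i`. -/
def rH (b : Fin 8 → ℤ) (i : Fin n) : Matrix (Idx ty n) (Idx ty n) L :=
  Matrix.diagonal fun p => if p.2 = i then ((ip b p.1.1 : ℤ) : L) else 0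

/-- The Lie algebra: the span of all root elements and coroot elements. -/
def LieAlg : Submodule L (Matrix (Idx ty n) (Idx ty n) L) :=
  Submodule.span L ({X | ∃ b i, IsRt ty b ∧ X = rE ty n L b i} ∪
    {X | ∃ b i, IsRt ty b ∧ X = rH ty n L b i})

end defs

section general

variable {ι : Type*} [Fintype ι] [DecidableEq ι] {F : Type*} [Field F]

/-- Conjugation of a matrix by an invertible matrix. -/
def Ad (g : GL ι F) (X : Matrix ι ι F) : Matrix ι ι F :=
  (g : Matrix ι ι F) * X * ((g⁻¹ : GL ι F) : Matrix ι ι F)

/-- A multilinear form killed by all elements of a space of matrices. -/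
def InvForm (g : Submodule F (Matrix ι ι F)) {d : ℕ}
    (φ : MultilinearMap F (fun _ : Fin d => (ι → F)) F) : Prop :=
  ∀ X ∈ g, ∀ v : Fin d → (ι → F), ∑ i, φ (Function.update v i (X.mulVec (v i))) = 0

/-- `x` normalises the space `g` of matrices. -/
def IsNor (g : Submodule F (Matrix ι ι F)) (x : GL ι F) : Prop := ∀ X, X ∈ g ↔ Ad x X ∈ g

/-- `x` centralises the space `g` of matrices. -/
def IsCen (g : Submodule F (Matrix ι ι F)) (x : GL ι F) : Prop := ∀ X ∈ g, Ad x X = X

/-- `x` normalises `g` and fixes every multilinear form that is invariant under `g`. -/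
def IsGp (g : Submodule F (Matrix ι ι F)) (x : GL ι F) : Prop :=
  IsNor g x ∧ ∀ (d : ℕ) (φ : MultilinearMap F (fun _ : Fin d => (ι → F)) F),
    InvForm g φ → ∀ v, φ (fun i => (x : Matrix ι ι F).mulVec (v i)) = φ v

end general

end LP319
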