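import Pool.Agent.Helper319LP.KDef

/-! Milnor K-groups by generators and relations. -/

namespace LP319

universe u


section

variable {q : ℕ} {L : Type u} [Field L]

theorem sym_update_mul (a : Fin q → Lˣ) (i : Fin q) (u v : Lˣ) :
    sym (Function.update a i (u * v)) = sym (Function.update a i u) +
      sym (Function.update a i v) := by
  have h : QuotientAddGroup.mk' (AddSubgroup.closure (KMRel q L))
      (FreeAbelianGroup.of (Function.update a i (u * v)) -
      FreeAbelianGroup.of (Function.update a i u) -
      FreeAbelianGroup.of (Function.update a i v)) = 0 := by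
    rw [← AddMonoidHom.mem_ker, QuotientAddGroup.ker_mk']
    exact AddSubgroup.subset_closure (Or.inl ⟨a, i, u, v, rfl⟩)
  rw [map_sub, map_sub, sub_sub] at h
  exact sub_eq_zero.mp h

theorem sym_steinberg (a : Fin q → Lˣ) {i j : Fin q} (hij : i ≠ j)
    (h : (a i : L) + (a j : L) = 1) : sym a = 0 := by
  have : QuotientAddGroup.mk' (AddSubgroup.closure (KMRel q L))
      (FreeAbelianGroup.of a) = 0 := by
    rw [← AddMonoidHom.mem_ker, QuotientAddGroup.ker_mk']
    exact AddSubgroup.subset_closure (Or.inr ⟨a, i, j, hij, h, rfl⟩)
  exact this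

theorem KM_induction {p : KM q L → Prop} (h0 : p 0) (hs : ∀ a, p (sym a))
    (hn : ∀ x, p x → p (-x)) (ha : ∀ x y, p x → p y → p (x + y)) (x : KM q L) : p x := by
  obtain ⟨y, rfl⟩ := QuotientAddGroup.mk'_surjective (AddSubgroup.closure (KMRel q L)) x
  induction y using FreeAbelianGroup.induction_on with
  | zero => rw [map_zero]; exact h0
  | of a => exact hs a
  | neg a h => rw [map_neg]; exact hn _ h
  | add x y hx hy => rw [map_add]; exact ha _ _ hx hy

/-- A homomorphism out of the Milnor K-group. -/
noncomputable def KM.lift {A : Type*} [AddCommGroup A] (f : (Fin q → Lˣ) → A)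
    (h1 : ∀ a i u v, f (Function.update a i (u * v)) = f (Function.update a i u) +
      f (Function.update a i v))
    (h2 : ∀ a i j, i ≠ j → (a i : L) + (a j : L) = 1 → f a = 0) : KM q L →+ A :=
  QuotientAddGroup.lift _ (FreeAbelianGroup.lift f) (by
    have : AddSubgroup.closure (KMRel q L) ≤ (FreeAbelianGroup.lift f).ker := by
      rw [AddSubgroup.closure_le]
      rintro x (⟨a, i, u, v, rfl⟩ | ⟨a, i, j, hij, h, rfl⟩)
      · change FreeAbelianGroup.lift f _ = 0
        simp [h1 a i u v]
      · change FreeAbelianGroup.lift f _ = 0
        simp [h2 a i j hij h]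
    exact fun x hx => this hx)

theorem KM.lift_sym {A : Type*} [AddCommGroup A] (f : (Fin q → Lˣ) → A) (h1 h2)
    (a : Fin q → Lˣ) : KM.lift f h1 h2 (sym a) = f a := by
  change QuotientAddGroup.lift _ (FreeAbelianGroup.lift f) _
    (QuotientAddGroup.mk' _ (FreeAbelianGroup.of a)) = _
  rw [QuotientAddGroup.mk'_apply, QuotientAddGroup.lift_mk]
  simp

/-- Left multiplication by a symbol of degree one. -/
noncomputable def KM.cons (u : Lˣ) : KM q L →+ KM (q + 1) L :=
  KM.lift (fun a => sym (Fin.cons u a : Fin (q + 1) → Lˣ))
    (by
      intro a i x y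
      rw [Fin.cons_update, Fin.cons_update, Fin.cons_update]
      exact sym_update_mul _ _ _ _)
    (by
      intro a i j hij h
      exact sym_steinberg (i := i.succ) (j := j.succ) _ (fun h2 => hij (Fin.succ_injective _ h2))
        (by simpa using h))

theorem KM.cons_sym (u : Lˣ) (a : Fin q → Lˣ) :
    KM.cons u (sym a) = sym (Fin.cons u a : Fin (q + 1) → Lˣ) := KM.lift_sym _ _ _ _

theorem KM.cons_mul (u v : Lˣ) (x : KM q L) : KM.cons (u * v) x = KM.cons u x + KM.cons v x := by
  induction x using KM_induction with
  | h0 => simp
  | hs a =>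
    rw [KM.cons_sym, KM.cons_sym, KM.cons_sym]
    have := sym_update_mul (Fin.cons u a : Fin (q + 1) → Lˣ) 0 u v
    simpa [Fin.update_cons_zero] using this
  | hn x h => rw [map_neg, h, map_neg, map_neg]; abel
  | ha x y hx hy => rw [map_add, hx, hy, map_add, map_add]; abel

/-- Functoriality. -/
noncomputable def KM.map {M : Type*} [Field M] (f : L →+* M) : KM q L →+ KM q M :=
  KM.lift (fun a => sym (fun i => Units.map (f : L →* M) (a i)))
    (by
      intro a i x y
      have h : ∀ z, (fun j => Units.map (f : L →* M) (Function.update a i z j)) =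
          Function.update (fun j => Units.map (f : L →* M) (a j)) i
            (Units.map (f : L →* M) z) := by
        intro z
        funext j
        by_cases hj : j = i
        · subst hj; simp
        · simp [hj]
      rw [h, h, h, map_mul]
      exact sym_update_mul _ _ _ _)
    (by
      intro a i j hij h
      exact sym_steinberg _ hij (by
        simp only [Units.coe_map, MonoidHom.coe_coe]
        rw [← map_add, h, map_one]))

theorem KM.map_sym {M : Type*} [Field M] (f : L →+* M) (a : Fin q → Lˣ) :
    KM.map f (sym a) = sym (fun i => Units.map (f : L →* M) (a i)) := KM.lift_sym _ _ _ _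

theorem KM.map_map {M M' : Type*} [Field M] [Field M'] (f : L →+* M) (g : M →+* M')
    (x : KM q L) : KM.map g (KM.map f x) = KM.map (g.comp f) x := by
  induction x using KM_induction with
  | h0 => simp
  | hs a => rw [KM.map_sym, KM.map_sym, KM.map_sym]; rfl
  | hn x h => rw [map_neg, map_neg, h, map_neg]
  | ha x y hx hy => rw [map_add, map_add, hx, hy, map_add]

theorem KM.map_id (x : KM q L) : KM.map (RingHom.id L) x = x := by
  induction x using KM_induction with
  | h0 => simp
  | hs a => rw [KM.map_sym]; rfl
  | hn x h => rw [map_neg, h]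
  | ha x y hx hy => rw [map_add, hx, hy]

theorem KM.map_cons {M : Type*} [Field M] (f : L →+* M) (u : Lˣ) (x : KM q L) :
    KM.map f (KM.cons u x) = KM.cons (Units.map (f : L →* M) u) (KM.map f x) := by
  induction x using KM_induction with
  | h0 => simp
  | hs a =>
    rw [KM.map_sym, KM.cons_sym, KM.cons_sym, KM.map_sym]
    congr 1
    funext i
    refine Fin.cases ?_ (fun j => ?_) i <;> simp
  | hn x h => rw [map_neg, map_neg, h, map_neg, map_neg]
  | ha x y hx hy => rw [map_add, map_add, hx, hy, map_add, map_add]

theorem sym_update_one (a : Fin q → Lˣ) (i : Fin q) : sym (Function.update a i 1) = 0 := by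
  have := sym_update_mul a i 1 1
  rw [one_mul] at this
  exact left_eq_add.mp this

theorem sym_update_inv (a : Fin q → Lˣ) (i : Fin q) (u : Lˣ) :
    sym (Function.update a i u⁻¹) = - sym (Function.update a i u) := by
  have := sym_update_mul a i u u⁻¹
  rw [mul_inv_cancel, sym_update_one] at this
  exact (neg_eq_of_add_eq_zero_right this.symm).symm

theorem sym_update_pow (a : Fin q → Lˣ) (i : Fin q) (u : Lˣ) (d : ℕ) :
    sym (Function.update a i (u ^ d)) = d • sym (Function.update a i u) := by
  induction d with
  | zero => rw [pow_zero, sym_update_one, zero_smul]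
  | succ d ih => rw [pow_succ, sym_update_mul, ih, succ_nsmul]

end

section bilinear

variable {L A : Type*} [Field L] [AddCommGroup A] (B : Lˣ → Lˣ → A)
  (h1 : ∀ x x' y, B (x * x') y = B x y + B x' y) (h2 : ∀ x y y', B x (y * y') = B x y + B x y')
  (h3 : ∀ x y : Lˣ, (x : L) + (y : L) = 1 → B x y = 0)

include h1 h2 h3

theorem B_neg (x : Lˣ) : B x (-x) = 0 := by
  have h1one : ∀ y, B 1 y = 0 := by
    intro y
    have := h1 1 1 y
    rw [one_mul] at this
    exact left_eq_add.mp this
  have h1inv : ∀ x y, B x⁻¹ y = - B x y := by
    intro x y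
    have := h1 x x⁻¹ y
    rw [mul_inv_cancel, h1one] at this
    exact (neg_eq_of_add_eq_zero_right this.symm).symm
  have h2one : ∀ y, B y 1 = 0 := by
    intro y
    have := h2 y 1 1
    rw [one_mul] at this
    exact left_eq_add.mp this
  have h2inv : ∀ x y, B x y⁻¹ = - B x y := by
    intro x y
    have := h2 x y y⁻¹
    rw [mul_inv_cancel, h2one] at this
    exact (neg_eq_of_add_eq_zero_right this.symm).symm
  by_cases hx : x = 1
  · rw [hx]; exact h1one _
  · have hx0 : (x : L) ≠ 0 := Units.ne_zero x
    have hx1 : (x : L) ≠ 1 := fun h => hx (Units.ext h)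
    have e1 : (1 : L) - x ≠ 0 := sub_ne_zero.mpr hx1.symm
    have e2 : (1 : L) - ((x⁻¹ : Lˣ) : L) ≠ 0 := by
      intro h
      apply hx1
      have : ((x⁻¹ : Lˣ) : L) = 1 := (sub_eq_zero.mp h).symm
      rw [Units.val_inv_eq_inv_val] at this
      exact inv_eq_one.mp this
    have e3 : -x = Units.mk0 _ e1 * (Units.mk0 _ e2)⁻¹ := by
      apply Units.ext
      rw [Units.val_neg, Units.val_mul, Units.val_inv_eq_inv_val, Units.val_mk0, Units.val_mk0,
        Units.val_inv_eq_inv_val, eq_mul_inv_iff_mul_eq₀ (by
          rw [← Units.val_inv_eq_inv_val]; exact e2)]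
      field_simp
      ring
    rw [e3, h2, h2inv, h3 x _ (by rw [Units.val_mk0]; ring), zero_add, ← h1inv]
    exact h3 _ _ (by rw [Units.val_mk0]; ring)

theorem B_anti (x y : Lˣ) : B x y = - B y x := by
  have h := B_neg B h1 h2 h3 (x * y)
  rw [h1] at h
  have e1 : -(x * y) = (-x) * y := by apply Units.ext; simp
  have e2 : -(x * y) = x * (-y) := by apply Units.ext; simp
  rw [e1, h2, B_neg B h1 h2 h3 x, zero_add, ← e1, e2, h2, B_neg B h1 h2 h3 y, add_zero] at h
  exact eq_neg_of_add_eq_zero_left h

theorem B_self (x : Lˣ) : B x x = B x (-1) := by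
  have e1 : x = (-x) * (-1) := by apply Units.ext; simp
  conv_lhs => rw [show B x x = B x ((-x) * (-1)) by rw [← e1]]
  rw [h2, B_neg B h1 h2 h3 x, zero_add]

end bilinear

section symbols

variable {q : ℕ} {L : Type u} [Field L]

theorem upd_comm (a : Fin q → Lˣ) {i j : Fin q} (hij : i ≠ j) (x y : Lˣ) :
    Function.update (Function.update a i x) j y = Function.update (Function.update a j y) i x :=
  Function.update_comm hij x y a

theorem sym_swap (a : Fin q → Lˣ) {i j : Fin q} (hij : i ≠ j) (x y : Lˣ) :
    sym (Function.update (Function.update a i x) j y) =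
      - sym (Function.update (Function.update a i y) j x) := by
  refine B_anti (fun x y => sym (Function.update (Function.update a i x) j y)) ?_ ?_ ?_ x y
  · intro x x' y
    beta_reduce
    rw [upd_comm a hij, upd_comm a hij, upd_comm a hij]
    exact sym_update_mul _ _ _ _
  · intro x y y'
    exact sym_update_mul _ _ _ _
  · intro x y hxy
    refine sym_steinberg _ hij ?_
    rw [Function.update_self, Function.update_of_ne hij, Function.update_self]
    exact hxy

theorem sym_same (a : Fin q → Lˣ) {i j : Fin q} (hij : i ≠ j) (x : Lˣ) :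
    sym (Function.update (Function.update a i x) j x) =
      sym (Function.update (Function.update a i x) j (-1)) := by
  refine B_self (fun x y => sym (Function.update (Function.update a i x) j y)) ?_ ?_ ?_ x
  · intro x x' y
    beta_reduce
    rw [upd_comm a hij, upd_comm a hij, upd_comm a hij]
    exact sym_update_mul _ _ _ _
  · intro x y y'
    exact sym_update_mul _ _ _ _
  · intro x y hxy
    refine sym_steinberg _ hij ?_
    rw [Function.update_self, Function.update_of_ne hij, Function.update_self]
    exact hxy

/-- Generation by symbols with entries in a generating set. -/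
theorem KM_gen (S : Set Lˣ) (hS : Subgroup.closure S = ⊤) (H : AddSubgroup (KM q L))
    (h : ∀ a : Fin q → Lˣ, (∀ i, a i ∈ S) → sym a ∈ H) : H = ⊤ := by
  have key : ∀ T : Finset (Fin q), ∀ a : Fin q → Lˣ, (∀ i, i ∉ T → a i ∈ S) → sym a ∈ H := by
    intro T
    induction T using Finset.induction_on with
    | empty => intro a ha; exact h a (fun i => ha i (by simp))
    | insert i T hi ih =>
      intro a ha
      let P : Subgroup Lˣ :=
        { carrier := {x | sym (Function.update a i x) ∈ H}
          mul_mem' := fun {x y} hx hy => by
            change sym _ ∈ H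
            rw [sym_update_mul]; exact H.add_mem hx hy
          one_mem' := by
            change sym _ ∈ H
            rw [sym_update_one]; exact H.zero_mem
          inv_mem' := fun {x} hx => by
            change sym _ ∈ H
            rw [sym_update_inv]; exact H.neg_mem hx }
      have hSP : S ⊆ P := by
        intro x hx
        refine ih _ ?_
        intro j hj
        by_cases hji : j = i
        · subst hji; rwa [Function.update_self]
        · rw [Function.update_of_ne hji]
          exact ha j (by simp [hji, hj])
      have hP : P = ⊤ := by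
        rw [eq_top_iff, ← hS]
        exact (Subgroup.closure_le P).mpr hSP
      have : a i ∈ P := by rw [hP]; trivial
      have h2 : sym (Function.update a i (a i)) ∈ H := this
      rwa [Function.update_eq_self] at h2
  rw [eq_top_iff]
  intro x _
  induction x using KM_induction with
  | h0 => exact H.zero_mem
  | hs a => exact key Finset.univ a (fun i hi => absurd (Finset.mem_univ i) hi)
  | hn x hx => exact H.neg_mem (hx trivial)
  | ha x y hx hy => exact H.add_mem (hx trivial) (hy trivial)

/-- Replace repeated entries by `-1`. -/
theorem sym_repl (a : Fin (q + 1) → Lˣ) (t : Lˣ) (h0 : a 0 = t) (T : Finset (Fin (q + 1)))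
    (hT0 : 0 ∉ T) (hT : ∀ j ∈ T, a j = t) : sym a = sym (fun j => if j ∈ T then -1 else a j) := by
  classical
  induction T using Finset.induction_on with
  | empty => simp
  | insert i T hi ih =>
    rw [ih (fun h => hT0 (Finset.mem_insert_of_mem h)) (fun j hj => hT j (Finset.mem_insert_of_mem hj))]
    have hi0 : (0 : Fin (q + 1)) ≠ i := fun h => hT0 (by rw [h]; exact Finset.mem_insert_self _ _)
    have hT0' : (0 : Fin (q + 1)) ∉ T := fun h => hT0 (Finset.mem_insert_of_mem h)
    have e1 : (fun j => if j ∈ T then -1 else a j) = Function.update (Function.update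
        (fun j => if j ∈ T then -1 else a j) 0 t) i t := by
      funext j
      by_cases hji : j = i
      · subst hji
        rw [Function.update_self, if_neg hi]
        exact hT j (Finset.mem_insert_self _ _)
      · rw [Function.update_of_ne hji]
        by_cases hj0 : j = 0
        · subst hj0
          rw [Function.update_self, if_neg hT0', h0]
        · rw [Function.update_of_ne hj0]
    have e2 : (fun j => if j ∈ insert i T then -1 else a j) = Function.update (Function.update
        (fun j => if j ∈ T then -1 else a j) 0 t) i (-1) := by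
      funext j
      by_cases hji : j = i
      · subst hji
        rw [Function.update_self, if_pos (Finset.mem_insert_self _ _)]
      · rw [Function.update_of_ne hji]
        by_cases hj0 : j = 0
        · subst hj0
          rw [Function.update_self, if_neg hT0, h0]
        · rw [Function.update_of_ne hj0]
          simp [hji]
    rw [e1, e2]
    exact sym_same _ hi0 t

/-- The main generation statement. -/
theorem KM_top {k K : Type*} [Field k] [Field K] (c : k →+* K) (t : Kˣ) (d : ℕ)
    (V : Set Kˣ) (hV : ∀ u ∈ V, ∃ w : Kˣ, w ^ d = u)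
    (hgen : Subgroup.closure (Set.range (fun a : kˣ => Units.map (c : k →* K) a) ∪ {t} ∪ V) = ⊤)
    (H : AddSubgroup (KM (q + 1) K)) (hd : ∀ x : KM (q + 1) K, d • x ∈ H)
    (hH : ∀ (a : kˣ) (v : KM q k), KM.cons (Units.map (c : k →* K) a * t) (KM.map c v) ∈ H) :
    H = ⊤ := by
  classical
  apply KM_gen _ hgen
  intro a ha
  have htv : ∀ v : KM q k, KM.cons t (KM.map c v) ∈ H := by
    intro v
    have := hH 1 v
    rwa [map_one, one_mul] at this
  by_cases hv : ∃ i, a i ∈ V
  · obtain ⟨i, hi⟩ := hv
    obtain ⟨w, hw⟩ := hV _ hi
    have : a = Function.update a i (w ^ d) := by rw [hw, Function.update_eq_self]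
    rw [this, sym_update_pow]
    exact hd _
  push Not at hv
  have hct : ∀ i, (∃ x : kˣ, Units.map (c : k →* K) x = a i) ∨ a i = t := by
    intro i
    rcases ha i with (h | h) | h
    · exact Or.inl h
    · exact Or.inr h
    · exact absurd h (hv i)
  -- the case of a first entry equal to t
  have case0 : ∀ a : Fin (q + 1) → Kˣ, a 0 = t →
      (∀ i, (∃ x : kˣ, Units.map (c : k →* K) x = a i) ∨ a i = t) → sym a ∈ H := by
    intro a h0 hct
    let T : Finset (Fin (q + 1)) := Finset.univ.filter (fun j => j ≠ 0 ∧ a j = t)
    have h1 := sym_repl a t h0 T (by simp [T]) (fun j hj => (Finset.mem_filter.mp hj).2.2)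
    rw [h1]
    have h2 : ∀ j : Fin q, ∃ x : kˣ, Units.map (c : k →* K) x =
        (if j.succ ∈ T then -1 else a j.succ) := by
      intro j
      by_cases hj : j.succ ∈ T
      · refine ⟨-1, ?_⟩
        rw [if_pos hj]
        apply Units.ext
        simp
      · rw [if_neg hj]
        rcases hct j.succ with h | h
        · exact h
        · exfalso
          apply hj
          simp [T, h]
    choose x hx using h2
    have h3 : (fun j => if j ∈ T then -1 else a j) =
        (Fin.cons t (fun j => Units.map (c : k →* K) (x j)) : Fin (q + 1) → Kˣ) := by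
      funext j
      refine Fin.cases ?_ (fun i => ?_) j
      · rw [Fin.cons_zero, if_neg (by simp [T]), h0]
      · rw [Fin.cons_succ, hx]
    rw [h3, ← KM.cons_sym, ← KM.map_sym]
    exact htv _
  by_cases ht : ∃ i, a i = t
  · obtain ⟨i, hi⟩ := ht
    by_cases hi0 : i = 0
    · subst hi0; exact case0 a hi hct
    · have h1 : a = Function.update (Function.update a 0 (a 0)) i t := by
        rw [Function.update_eq_self, ← hi, Function.update_eq_self]
      rw [h1, sym_swap a (Ne.symm hi0)]
      apply H.neg_mem
      apply case0
      · rw [Function.update_of_ne (Ne.symm hi0), Function.update_self]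
      · intro j
        by_cases hji : j = i
        · subst hji
          rw [Function.update_self]; exact hct 0
        · rw [Function.update_of_ne hji]
          by_cases hj0 : j = 0
          · subst hj0; rw [Function.update_self]; exact Or.inr rfl
          · rw [Function.update_of_ne hj0]; exact hct j
  · push Not at ht
    have h2 : ∀ i, ∃ x : kˣ, Units.map (c : k →* K) x = a i := fun i =>
      (hct i).resolve_right (ht i)
    choose x hx using h2
    have h3 : a = (Fin.cons (Units.map (c : k →* K) (x 0))
        (fun j => Units.map (c : k →* K) (x j.succ)) : Fin (q + 1) → Kˣ) := by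
      funext j
      refine Fin.cases ?_ (fun i => ?_) j
      · rw [Fin.cons_zero, hx]
      · rw [Fin.cons_succ, hx]
    rw [h3, ← KM.cons_sym, ← KM.map_sym]
    have h4 := H.sub_mem (hH (x 0) (sym fun j => x j.succ)) (htv (sym fun j => x j.succ))
    rwa [KM.cons_mul, add_sub_cancel_right] at h4

end symbols

end LP319
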