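import Pool.Agent.Helper319LP.Tr
import Pool.Agent.Helper319LP.KM

/-! Torsors under isotypical groups of type E6 and E7, norm maps on Milnor K-groups, and the
property C^q. -/

namespace LP319

universe u

/-- The absolute Galois group (fields of characteristic zero are meant). -/
abbrev GalG (L : Type u) [Field L] := AlgebraicClosure L ≃ₐ[L] AlgebraicClosure L

/-- The entrywise action of a Galois automorphism on invertible matrices. -/
noncomputable abbrev gact {ty : Ty} {n : ℕ} {L : Type u} [Field L] (σ : GalG L) :
    GL (Idx ty n) (AlgebraicClosure L) →* GL (Idx ty n) (AlgebraicClosure L) :=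
  ga (σ : AlgebraicClosure L →+* AlgebraicClosure L)

/-- A torsor under an isotypical simply connected group of type `ty` over a field `L` of
characteristic zero, with `n` geometric factors.

`m` is a continuous 1-cocycle in the automorphism group of the split Lie algebra of type `ty^n`,
each automorphism being written as conjugation by an element of the normaliser; it gives a form of
the split simply connected group `Gp`. `b` is a continuous 1-cocycle with values in this form. -/
structure Torsor (ty : Ty) (n : ℕ) (L : Type u) [Field L] where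
  m : GalG L → GL (Idx ty n) (AlgebraicClosure L)
  b : GalG L → GL (Idx ty n) (AlgebraicClosure L)
  m_mem : ∀ σ, m σ ∈ Nor (LieAlg ty n (AlgebraicClosure L))
  m_coc : ∀ σ τ, m σ * gact σ (m τ) * (m (σ * τ))⁻¹ ∈ Cen (LieAlg ty n (AlgebraicClosure L))
  b_mem : ∀ σ, b σ ∈ Gp (LieAlg ty n (AlgebraicClosure L))
  b_coc : ∀ σ τ, b (σ * τ) = b σ * (m σ * gact σ (b τ) * (m σ)⁻¹)
  fin : ∃ M : IntermediateField L (AlgebraicClosure L), FiniteDimensional L M ∧
    ∀ σ τ, (∀ x ∈ M, τ x = x) → m (σ * τ) = m σ ∧ b (σ * τ) = b σ

/-- The torsor has a point over the extension `M` of `L`, embedded by `i` in the algebraic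
closure. -/
def Torsor.HasPoint {ty : Ty} {n : ℕ} {L : Type u} [Field L] (T : Torsor ty n L) {M : Type u}
    [Field M] [Algebra L M] (i : M →ₐ[L] AlgebraicClosure L) : Prop :=
  ∃ g ∈ Gp (LieAlg ty n (AlgebraicClosure L)), ∀ σ : GalG L, (∀ x : M, σ (i x) = i x) →
    T.b σ = g⁻¹ * (T.m σ * gact σ g * (T.m σ)⁻¹)

/-- Norm maps on Milnor K-groups of all finite extensions, with their standard properties. -/
structure NormMaps where
  /-- the norm map -/
  N : ∀ (q : ℕ) (L M : Type u) [Field L] [Field M] [Algebra L M] [FiniteDimensional L M],
    KM q M →+ KM q L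
  /-- transitivity in towers -/
  trans : ∀ (q : ℕ) (L M P : Type u) [Field L] [Field M] [Field P] [Algebra L M] [Algebra M P]
    [Algebra L P] [IsScalarTower L M P] [FiniteDimensional L M] [FiniteDimensional M P]
    [FiniteDimensional L P] (x : KM q P), N q L M (N q M P x) = N q L P x
  /-- the norm of an element coming from below is multiplication by the degree -/
  deg : ∀ (q : ℕ) (L M : Type u) [Field L] [Field M] [Algebra L M] [FiniteDimensional L M]
    (x : KM q L), N q L M (KM.map (algebraMap L M) x) = Module.finrank L M • x
  /-- projection formula -/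
  proj1 : ∀ (q : ℕ) (L M : Type u) [Field L] [Field M] [Algebra L M] [FiniteDimensional L M]
    (a : Lˣ) (y : KM q M),
    N (q + 1) L M (KM.cons (Units.map (algebraMap L M : L →* M) a) y) = KM.cons a (N q L M y)
  /-- projection formula -/
  proj2 : ∀ (q : ℕ) (L M : Type u) [Field L] [Field M] [Algebra L M] [FiniteDimensional L M]
    (y : Mˣ) (x : KM q L),
    N (q + 1) L M (KM.cons y (KM.map (algebraMap L M) x)) =
      KM.cons (Units.map (Algebra.norm L : M →* L) y) x
  /-- base change along linearly disjoint extensions -/
  bc : ∀ (q : ℕ) (L M L' M' : Type u) [Field L] [Field M] [Field L'] [Field M'] [Algebra L M]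
    [FiniteDimensional L M] [Algebra L' M'] [FiniteDimensional L' M'] (f : L →+* L')
    (g : M →+* M'), (∀ x, g (algebraMap L M x) = algebraMap L' M' (f x)) →
    Algebra.adjoin L' (Set.range g) = ⊤ → Module.finrank L' M' = Module.finrank L M →
    ∀ y : KM q M, N q L' M' (KM.map g y) = KM.map f (N q L M y)

/-- The subgroup of the Milnor K-group generated by the norms from the finite extensions over
which the torsor has a point. -/
noncomputable def NormSub (N : NormMaps.{u}) (q : ℕ) {ty : Ty} {n : ℕ} {L : Type u} [Field L]
    (T : Torsor ty n L) : AddSubgroup (KM q L) :=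
  AddSubgroup.closure {x | ∃ (M : Type u) (_ : Field M) (_ : Algebra L M)
    (_ : FiniteDimensional L M) (i : M →ₐ[L] AlgebraicClosure L), T.HasPoint i ∧
      ∃ y : KM q M, x = N.N q L M y}

/-- The property C^q for the Killing-Cartan type `ty`: over every finite extension `L` of `K`
and for every torsor under an isotypical group of type `ty` over `L`, the norms generate. -/
def HasC (N : NormMaps.{u}) (ty : Ty) (q : ℕ) (K : Type u) [Field K] : Prop :=
  ∀ (L : Type u) [Field L] [Algebra K L] [FiniteDimensional K L] (n : ℕ) (T : Torsor ty n L),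
    NormSub N q T = ⊤

end LP319
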