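import Pool.Agent.Helper319LP.Gal

/-! Extensions of a Laurent series field by constants and by roots of the variable. -/

namespace LP319

universe u

open Polynomial Pool.Agent.Helper165.P1

set_option linter.unusedSectionVars false

section

variable {k kb K Kb : Type*} [Field k] [Field kb] [Algebra k kb] [Field K] [Field Kb]
  [Algebra K Kb] {ψ : K ≃+* LaurentSeries k} {ι : Kb →+* HQ kb}

/-- Linear independence of products of constants and powers of a root of the variable. -/
theorem IsPu.linInd (h : IsPu ψ ι) {a : kb →+* Kb} (ha : ∀ c, ι (a c) = HahnSeries.single 0 c)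
    (m : ℕ) (hm : 0 < m) {T : Kb} (hT : ι T = HahnSeries.single (1 / m : ℚ) 1)
    {d : ℕ} (e : Fin d → kb) (he : LinearIndependent k e) (y : Fin m → Fin d → K)
    (h0 : ∑ j : Fin m, ∑ l, a (e l) * T ^ (j : ℕ) * algebraMap K Kb (y j l) = 0) :
    ∀ j l, y j l = 0 := by
  classical
  -- the series
  let z : HahnSeries ℤ kb := ∑ j : Fin m, ∑ l, HahnSeries.single (j : ℤ) (e l) *
        hmap (algebraMap k kb) (NP.expandHom m hm (ψ (y j l)))
  have hz : eHom m hm z = 0 := by
    have h1 := congrArg ι h0
    rw [map_zero] at h1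
    rw [← h1]
    simp only [z, map_sum, map_mul, map_pow]
    apply Finset.sum_congr rfl
    intro j _
    apply Finset.sum_congr rfl
    intro l _
    rw [ha, hT, h.base, HahnSeries.single_pow, HahnSeries.single_mul_single, eHom_single,
      eHom_expand_emb]
    congr 2
    · rw [nsmul_eq_mul]
      push_cast
      congr 1
      ring
    · rw [one_pow, mul_one]
  have hz0 : z = 0 := (map_eq_zero (eHom m hm)).mp hz
  intro j0 l0
  have hcoef : ∀ N : ℤ, (ψ (y j0 l0)).coeff N = 0 := by
    intro N
    have h1 := congrArg (fun w => HahnSeries.coeff w ((m : ℤ) * N + j0)) hz0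
    simp only [z, HahnSeries.coeff_sum, HahnSeries.coeff_single_mul, hmap_coeff,
      HahnSeries.coeff_zero] at h1
    rw [Finset.sum_eq_single j0] at h1
    · have h2 : (m : ℤ) * N + (j0 : ℤ) - (j0 : ℤ) = m * N := by ring
      simp only [h2, NP.expandHom_coeff] at h1
      have h3 : ∑ l, (ψ (y j0 l)).coeff N • e l = 0 := by
        rw [← h1]
        apply Finset.sum_congr rfl
        intro l _
        rw [Algebra.smul_def, mul_comm]
      exact Fintype.linearIndependent_iff.mp he _ h3 l0
    · intro j _ hj
      apply Finset.sum_eq_zero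
      intro l _
      rw [NP.expandHom_coeff_of_not_dvd, map_zero, mul_zero]
      intro hdvd
      apply hj
      have h2 : (m : ℤ) ∣ (j0 : ℤ) - (j : ℤ) := by
        have h3 := dvd_sub hdvd (Dvd.intro N rfl : (m : ℤ) ∣ m * N)
        have h4 : (m : ℤ) * N + (j0 : ℤ) - (j : ℤ) - m * N = (j0 : ℤ) - (j : ℤ) := by ring
        rwa [h4] at h3
      have h5 := Int.emod_eq_emod_iff_emod_sub_eq_zero.mpr (Int.emod_eq_zero_of_dvd h2)
      rw [Int.emod_eq_of_lt (by positivity) (by exact_mod_cast j0.2),
        Int.emod_eq_of_lt (by positivity) (by exact_mod_cast j.2)] at h5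
      apply Fin.ext
      exact_mod_cast h5.symm
    · simp
  have h6 : ψ (y j0 l0) = 0 := by
    ext N; rw [hcoef]; rfl
  exact (map_eq_zero ψ).mp h6

variable {M : Type*} [Field M] [Algebra k M] [FiniteDimensional k M] (i : M →ₐ[k] kb)

/-- The compositum of the constants with `K`. -/
noncomputable def Kc (K : Type*) [Field K] {Kb : Type*} [Field Kb] [Algebra K Kb] (a : kb →+* Kb)
    (i : M →ₐ[k] kb) : IntermediateField K Kb :=
  IntermediateField.adjoin K (Set.range fun x : M => a (i x))

theorem a_sum (h : IsPu ψ ι) {a : kb →+* Kb} (ha : ∀ c, ι (a c) = HahnSeries.single 0 c)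
    (x : M) : a (i x) = ∑ l, a (i (Module.finBasis k M l)) *
      algebraMap K Kb (ψ.symm (HahnSeries.single 0 ((Module.finBasis k M).repr x l))) := by
  have h1 := (Module.finBasis k M).sum_repr x
  conv_lhs => rw [← h1]
  rw [map_sum, map_sum]
  apply Finset.sum_congr rfl
  intro l _
  rw [map_smul, Algebra.smul_def, map_mul, h.a_alg ha, mul_comm]

theorem mem_Kc [Algebra.IsAlgebraic K Kb] (h : IsPu ψ ι) {a : kb →+* Kb}
    (ha : ∀ c, ι (a c) = HahnSeries.single 0 c) (x : Kb) : x ∈ Kc K a i ↔
    ∃ y : Fin (Module.finrank k M) → K,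
      x = ∑ l, a (i (Module.finBasis k M l)) * algebraMap K Kb (y l) := by
  constructor
  · intro hx
    have h1 : x ∈ (Kc K a i).toSubalgebra := hx
    clear hx
    unfold Kc at h1
    rw [IntermediateField.adjoin_toSubalgebra] at h1
    induction h1 using Algebra.adjoin_induction with
    | mem x hx =>
      obtain ⟨x', rfl⟩ := hx
      exact ⟨_, a_sum i h ha x'⟩
    | algebraMap r =>
      have h2 := a_sum i h ha (1 : M)
      rw [map_one, map_one] at h2
      refine ⟨fun l => ψ.symm (HahnSeries.single 0 ((Module.finBasis k M).repr 1 l)) * r, ?_⟩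
      conv_lhs => rw [← one_mul (algebraMap K Kb r), h2]
      rw [Finset.sum_mul]
      apply Finset.sum_congr rfl
      intro l _
      rw [map_mul, mul_assoc]
    | add x y hx hy ihx ihy =>
      obtain ⟨u, hu⟩ := ihx
      obtain ⟨v, hv⟩ := ihy
      refine ⟨fun l => u l + v l, ?_⟩
      rw [hu, hv, ← Finset.sum_add_distrib]
      apply Finset.sum_congr rfl
      intro l _
      rw [map_add, mul_add]
    | mul x y hx hy ihx ihy =>
      obtain ⟨u, hu⟩ := ihx
      obtain ⟨v, hv⟩ := ihy
      refine ⟨fun l => ∑ p, ∑ q, ψ.symm (HahnSeries.single 0 ((Module.finBasis k M).repr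
        (Module.finBasis k M p * Module.finBasis k M q) l)) * (u p * v q), ?_⟩
      rw [hu, hv, Finset.sum_mul_sum]
      simp only [map_sum, Finset.mul_sum]
      rw [Finset.sum_comm (s := Finset.univ) (t := Finset.univ) (f := fun l p => ∑ q, a (i (Module.finBasis k M l)) *
        algebraMap K Kb (ψ.symm (HahnSeries.single 0 ((Module.finBasis k M).repr
        (Module.finBasis k M p * Module.finBasis k M q) l)) * (u p * v q)))]
      apply Finset.sum_congr rfl
      intro p _
      rw [Finset.sum_comm]
      apply Finset.sum_congr rfl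
      intro q _
      have h3 := a_sum i h ha (Module.finBasis k M p * Module.finBasis k M q)
      have h4 : a (i (Module.finBasis k M p)) * algebraMap K Kb (u p) *
          (a (i (Module.finBasis k M q)) * algebraMap K Kb (v q)) =
          a (i (Module.finBasis k M p * Module.finBasis k M q)) * algebraMap K Kb (u p * v q) := by
        rw [map_mul, map_mul, map_mul]; ring
      rw [h4, h3, Finset.sum_mul]
      apply Finset.sum_congr rfl
      intro l _
      rw [map_mul (algebraMap K Kb) (ψ.symm _)]
      ring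
  · rintro ⟨y, rfl⟩
    apply sum_mem
    intro l _
    apply mul_mem
    · exact IntermediateField.subset_adjoin _ _ ⟨_, rfl⟩
    · exact (Kc K a i).algebraMap_mem _

/-- The constants inside the compositum. -/
noncomputable def aj (K : Type*) [Field K] {Kb : Type*} [Field Kb] [Algebra K Kb] (a : kb →+* Kb)
    (i : M →ₐ[k] kb) : M →+* Kc K a i where
  toFun x := ⟨a (i x), IntermediateField.subset_adjoin _ _ ⟨x, rfl⟩⟩
  map_one' := Subtype.ext (by simp)
  map_mul' x y := Subtype.ext (by simp)
  map_zero' := Subtype.ext (by simp)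
  map_add' x y := Subtype.ext (by simp)

theorem finBasis_li : LinearIndependent k (fun l => i (Module.finBasis k M l)) :=
  (Module.finBasis k M).linearIndependent.map' i.toLinearMap
    (LinearMap.ker_eq_bot.mpr i.injective)

/-- The basis of the compositum. -/
theorem Kc_basis [Algebra.IsAlgebraic K Kb] [IsAlgClosed Kb] (h : IsPu ψ ι) {a : kb →+* Kb}
    (ha : ∀ c, ι (a c) = HahnSeries.single 0 c) :
    ∃ b : Module.Basis (Fin (Module.finrank k M)) K (Kc K a i),
      ∀ l, b l = aj K a i (Module.finBasis k M l) := by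
  obtain ⟨t, ht⟩ := h.exists_T (1 / (1 : ℕ) : ℚ)
  have hli : LinearIndependent K (fun l => aj K a i (Module.finBasis k M l)) := by
    rw [Fintype.linearIndependent_iff]
    intro g hg l0
    have h1 := congrArg (fun x : Kc K a i => (x : Kb)) hg
    have h2 : ∑ l, a (i (Module.finBasis k M l)) * algebraMap K Kb (g l) = 0 := by
      have h3 : ((∑ l, g l • aj K a i (Module.finBasis k M l) : Kc K a i) : Kb) = 0 := by
        rw [hg]; rfl
      have h4 := map_sum (Kc K a i).val (fun l => g l • aj K a i (Module.finBasis k M l))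
        Finset.univ
      have h5 : (Kc K a i).val (∑ l, g l • aj K a i (Module.finBasis k M l)) = 0 := h3
      rw [h4] at h5
      rw [← h5]
      apply Finset.sum_congr rfl
      intro l _
      rw [map_smul, Algebra.smul_def, mul_comm]
      rfl
    have h3 := h.linInd ha 1 one_pos ht (fun l => i (Module.finBasis k M l)) (finBasis_li i)
      (fun _ => g) (by simpa using h2)
    exact h3 0 l0
  refine ⟨Module.Basis.mk hli ?_, fun l => Module.Basis.mk_apply _ _ l⟩
  rintro ⟨x, hx⟩ -
  obtain ⟨y, hy⟩ := (mem_Kc i h ha x).mp hx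
  have : (⟨x, hx⟩ : Kc K a i) = ∑ l, y l • aj K a i (Module.finBasis k M l) := by
    have h6 : (Kc K a i).val ⟨x, hx⟩ =
        (Kc K a i).val (∑ l, y l • aj K a i (Module.finBasis k M l)) := by
      rw [map_sum]
      change x = _
      rw [hy]
      apply Finset.sum_congr rfl
      intro l _
      rw [map_smul, Algebra.smul_def, mul_comm]
      rfl
    exact (Kc K a i).val.injective h6
  rw [this]
  exact Submodule.sum_mem _ fun l _ => Submodule.smul_mem _ _ (Submodule.subset_span ⟨l, rfl⟩)

theorem Kc_finrank [Algebra.IsAlgebraic K Kb] [IsAlgClosed Kb] (h : IsPu ψ ι) {a : kb →+* Kb}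
    (ha : ∀ c, ι (a c) = HahnSeries.single 0 c) :
    Module.finrank K (Kc K a i) = Module.finrank k M := by
  obtain ⟨b, -⟩ := Kc_basis i h ha
  rw [Module.finrank_eq_card_basis b, Fintype.card_fin]

theorem Kc_fin [Algebra.IsAlgebraic K Kb] [IsAlgClosed Kb] (h : IsPu ψ ι) {a : kb →+* Kb}
    (ha : ∀ c, ι (a c) = HahnSeries.single 0 c) : FiniteDimensional K (Kc K a i) := by
  obtain ⟨b, -⟩ := Kc_basis i h ha
  exact Module.Finite.of_basis b

theorem Kc_adjoin [Algebra.IsAlgebraic K Kb] [IsAlgClosed Kb] (h : IsPu ψ ι) {a : kb →+* Kb}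
    (ha : ∀ c, ι (a c) = HahnSeries.single 0 c) :
    Algebra.adjoin K (Set.range (aj K a i)) = ⊤ := by
  obtain ⟨b, hb⟩ := Kc_basis i h ha
  rw [eq_top_iff]
  intro x _
  rw [← b.sum_repr x]
  apply sum_mem
  intro l _
  apply Subalgebra.smul_mem
  rw [hb]
  exact Algebra.subset_adjoin ⟨_, rfl⟩

/-- The minimal polynomial of a root of the variable. -/
theorem minpoly_root [Algebra.IsAlgebraic K Kb] [IsAlgClosed Kb] (h : IsPu ψ ι) {a : kb →+* Kb}
    (ha : ∀ c, ι (a c) = HahnSeries.single 0 c) (m : ℕ) (hm : 0 < m) {T : Kb}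
    (hT : ι T = HahnSeries.single (1 / m : ℚ) 1) :
    minpoly (Kc K a i) T = X ^ m -
      C (algebraMap K (Kc K a i) (ψ.symm (HahnSeries.single 1 1))) := by
  classical
  symm
  apply minpoly.unique'
  · exact monic_X_pow_sub_C _ hm.ne'
  · rw [map_sub, map_pow, aeval_X, aeval_C, h.T_pow m hm hT]
    rw [← IsScalarTower.algebraMap_apply K (Kc K a i) Kb, sub_self]
  · intro q hq
    by_cases hq0 : q = 0
    · exact Or.inl hq0
    right
    intro h0
    apply hq0
    rw [degree_X_pow_sub_C hm] at hq
    have hdeg : q.natDegree < m := by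
      rw [← natDegree_lt_iff_degree_lt hq0] at hq
      exact hq
    rw [aeval_eq_sum_range' hdeg, Finset.sum_range] at h0
    have h1 : ∀ j : Fin m, ∃ y : Fin (Module.finrank k M) → K, (q.coeff j : Kb) =
        ∑ l, a (i (Module.finBasis k M l)) * algebraMap K Kb (y l) := fun j =>
      (mem_Kc i h ha _).mp (q.coeff j).2
    choose y hy using h1
    have h2 := h.linInd ha m hm hT (fun l => i (Module.finBasis k M l)) (finBasis_li i) y (by
      rw [← h0]
      apply Finset.sum_congr rfl
      intro j _
      rw [Algebra.smul_def]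
      have h3 : algebraMap (Kc K a i) Kb (q.coeff j) = (q.coeff j : Kb) := rfl
      rw [h3, hy, Finset.sum_mul]
      apply Finset.sum_congr rfl
      intro l _
      ring)
    ext j
    by_cases hj : j < m
    · have h3 := hy ⟨j, hj⟩
      simp only [h2, map_zero, mul_zero, Finset.sum_const_zero] at h3
      rw [coeff_zero, h3]
      rfl
    · rw [coeff_eq_zero_of_natDegree_lt (by omega)]
      simp

end

end LP319
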