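import Pool.Agent.Helper319LP.PF

/-! Finite extensions of a Laurent series field of characteristic zero are Laurent series
fields. -/

namespace LP319

universe u

open Polynomial Pool.Agent.Helper165.P1

set_option linter.unusedSectionVars false

section

variable {k kb K Kb : Type*} [Field k] [Field kb] [Algebra k kb] [Field K] [Field Kb]
  [Algebra K Kb] {ψ : K ≃+* LaurentSeries k} {ι : Kb →+* HQ kb}
  [IsAlgClosed kb] [Algebra.IsAlgebraic k kb] [IsAlgClosed Kb] [Algebra.IsAlgebraic K Kb]
  [IsGalois k kb] [IsGalois K Kb]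

theorem mem_of_fixed (L : IntermediateField K Kb) (x : Kb)
    (hx : ∀ σ : Kb ≃ₐ[K] Kb, (∀ y ∈ L, σ y = y) → σ x = x) : x ∈ L := by
  rw [← InfiniteGalois.fixedField_fixingSubgroup L, IntermediateField.mem_fixedField_iff]
  intro σ hσ
  exact hx σ ((IntermediateField.mem_fixingSubgroup_iff L σ).mp hσ)

/-- The terms of an element of an extension lie in the extension. -/
theorem mono_mem (h : IsPu ψ ι) {a : kb →+* Kb} (ha : ∀ c, ι (a c) = HahnSeries.single 0 c)
    (L : IntermediateField K Kb) {x : Kb} (hx : x ∈ L) (r : ℚ) {x' : Kb}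
    (hx' : ι x' = HahnSeries.single r ((ι x).coeff r)) : x' ∈ L := by
  obtain ⟨m, hm, z, hz⟩ := h.pui x
  by_cases hr : ∃ N : ℤ, (N : ℚ) / m = r
  swap
  · push Not at hr
    have h1 : (ι x).coeff r = 0 := by rw [← hz]; exact eHom_coeff_of_ne _ _ _ _ hr
    rw [h1, HahnSeries.single_eq_zero] at hx'
    rw [(map_eq_zero ι).mp hx']
    exact zero_mem L
  obtain ⟨N, rfl⟩ := hr
  rw [← hz, eHom_coeff, ← eHom_single m hm] at hx'
  apply mem_of_fixed
  intro σ hσ
  obtain ⟨σ', hσ'⟩ := h.exists_bar ha σ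
  obtain ⟨t, ht⟩ := h.exists_T (1 / m : ℚ)
  obtain ⟨ζ, -, -, hcf⟩ := h.cf ha m hm ht σ σ' hσ'
  have h1 := hcf x z hz.symm
  rw [hσ x hx, ← hz] at h1
  have h2 : z = sc ζ (hmap (σ' : kb →+* kb) z) := RingHom.injective (eHom (E := kb) m hm) h1
  apply h.inj
  rw [hcf x' _ hx', hx', hmap_single, sc_single]
  congr 2
  conv_rhs => rw [h2]
  rfl

/-- The exponents occurring in a finite extension have bounded denominators. -/
theorem exp_bound (h : IsPu ψ ι) {a : kb →+* Kb} (ha : ∀ c, ι (a c) = HahnSeries.single 0 c)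
    (L : IntermediateField K Kb) [FiniteDimensional K L] {x : Kb} (hx : x ∈ L) {r : ℚ} {c : kb}
    (hc : c ≠ 0) (hxr : ι x = HahnSeries.single r c) :
    ∃ n : ℤ, (n : ℚ) = ((Module.finrank K L).factorial : ℚ) * r := by
  classical
  let P := minpoly K (⟨x, hx⟩ : L)
  have hPm : P.Monic := minpoly.monic (Algebra.IsIntegral.isIntegral _)
  have hPd : P.natDegree ≤ Module.finrank K L := minpoly.natDegree_le _
  have hP0 : aeval x P = 0 := by
    have h1 : aeval (⟨x, hx⟩ : L) P = 0 := minpoly.aeval _ _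
    have h2 := congrArg L.val h1
    rw [map_zero] at h2
    rw [← h2]
    exact (Polynomial.aeval_algHom_apply L.val (⟨x, hx⟩ : L) P)
  -- two exponents agree modulo the integers
  have hex : ∃ j j' : ℕ, j < j' ∧ j' ≤ Module.finrank K L ∧ ∃ n : ℤ, (n : ℚ) = ((j' - j : ℕ) : ℚ) * r := by
    by_contra hcon
    push Not at hcon
    -- the leading term
    have h1 := congrArg ι hP0
    rw [map_zero, aeval_eq_sum_range, map_sum] at h1
    have h2 : ∀ j, ι (P.coeff j • x ^ j) = emb k kb (ψ (P.coeff j)) *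
        HahnSeries.single ((j : ℚ) * r) (c ^ j) := by
      intro j
      rw [Algebra.smul_def, map_mul, h.base, map_pow, hxr, HahnSeries.single_pow, nsmul_eq_mul]
    simp only [h2] at h1
    have h3 := congrArg (fun w => HahnSeries.coeff w ((P.natDegree : ℚ) * r)) h1
    simp only [HahnSeries.coeff_sum, HahnSeries.coeff_mul_single, HahnSeries.coeff_zero] at h3
    rw [Finset.sum_eq_single P.natDegree] at h3
    · have h4 : ψ (P.coeff P.natDegree) = 1 := by
        have : P.coeff P.natDegree = 1 := hPm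
        rw [this, map_one]
      rw [h4, map_one, sub_self, HahnSeries.coeff_one, if_pos rfl, one_mul] at h3
      exact pow_ne_zero _ hc h3
    · intro j hj hjne
      have hjlt : j < P.natDegree := by
        have := Finset.mem_range.mp hj
        omega
      rw [emb_coeff_ne, zero_mul]
      intro n hn
      apply hcon j P.natDegree hjlt hPd n
      rw [hn, Nat.cast_sub hjlt.le]
      ring
    · intro hn
      exact absurd (Finset.mem_range.mpr (Nat.lt_succ_self _)) hn
  obtain ⟨j, j', hlt, hle, n, hn⟩ := hex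
  have hdvd : (j' - j) ∣ (Module.finrank K L).factorial :=
    Nat.dvd_factorial (by omega) (by omega)
  obtain ⟨s, hs⟩ := hdvd
  refine ⟨s * n, ?_⟩
  rw [hs]
  push_cast
  rw [hn]
  ring

/-- The field of constants of an extension. -/
def kst (h : IsPu ψ ι) {a : kb →+* Kb} (ha : ∀ c, ι (a c) = HahnSeries.single 0 c)
    (L : IntermediateField K Kb) : IntermediateField k kb where
  carrier := {c | a c ∈ L}
  mul_mem' := fun {x y} hx hy => by
    change a (x * y) ∈ L
    rw [map_mul]; exact mul_mem hx hy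
  one_mem' := by
    change a 1 ∈ L
    rw [map_one]; exact one_mem L
  add_mem' := fun {x y} hx hy => by
    change a (x + y) ∈ L
    rw [map_add]; exact add_mem hx hy
  zero_mem' := by
    change a 0 ∈ L
    rw [map_zero]; exact zero_mem L
  algebraMap_mem' := fun x => by
    change a (algebraMap k kb x) ∈ L
    rw [h.a_alg ha]; exact L.algebraMap_mem _
  inv_mem' := fun x hx => by
    change a x⁻¹ ∈ L
    rw [map_inv₀]; exact inv_mem hx

theorem kst_fin (h : IsPu ψ ι) {a : kb →+* Kb} (ha : ∀ c, ι (a c) = HahnSeries.single 0 c)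
    (L : IntermediateField K Kb) [FiniteDimensional K L] : FiniteDimensional k (kst h ha L) := by
  classical
  have hrank : Module.rank k (kst h ha L) ≤ (Module.finrank K L : ℕ) := by
    apply rank_le
    intro s hs
    obtain ⟨t, ht⟩ := h.exists_T (1 / (1 : ℕ) : ℚ)
    let e : Fin s.card → kst h ha L := fun j => (s.equivFin.symm j : kst h ha L)
    have he : LinearIndependent k e := hs.comp _ s.equivFin.symm.injective
    have he2 : LinearIndependent k (fun j => ((e j : kst h ha L) : kb)) :=
      he.map' (kst h ha L).val.toLinearMap (LinearMap.ker_eq_bot.mpr (kst h ha L).val.injective)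
    have hli : LinearIndependent K (fun j => (⟨a (e j), (e j).2⟩ : L)) := by
      rw [Fintype.linearIndependent_iff]
      intro g hg l0
      have h4 := congrArg L.val hg
      rw [map_zero, map_sum] at h4
      have h3 := h.linInd ha 1 one_pos ht (fun j => ((e j : kst h ha L) : kb)) he2
        (fun _ => g) (by
          simp only [Finset.univ_unique, Finset.sum_singleton]
          rw [← h4]
          apply Finset.sum_congr rfl
          intro l _
          rw [map_smul, Algebra.smul_def, mul_comm]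
          simp)
      exact h3 0 l0
    have := hli.fintype_card_le_finrank
    rwa [Fintype.card_fin] at this
  exact Module.rank_lt_aleph0_iff.mp (hrank.trans_lt (Cardinal.natCast_lt_aleph0))

/-- The exponents of an extension form a cyclic group. -/
theorem exists_unif (h : IsPu ψ ι) {a : kb →+* Kb} (ha : ∀ c, ι (a c) = HahnSeries.single 0 c)
    (L : IntermediateField K Kb) [FiniteDimensional K L] :
    ∃ (e : ℕ) (_ : 0 < e) (c0 : kbˣ) (T0 : Kb), T0 ∈ L ∧
      ι T0 = HahnSeries.single (1 / e : ℚ) (c0 : kb) ∧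
      ∀ (x : Kb) (r : ℚ), x ∈ L → (ι x).coeff r ≠ 0 → ∃ n : ℤ, (n : ℚ) / e = r := by
  classical
  obtain ⟨N, hN⟩ : ∃ N, (Module.finrank K L).factorial = N := ⟨_, rfl⟩
  have hNpos : 0 < N := by rw [← hN]; exact Nat.factorial_pos _
  have hNq : (N : ℚ) ≠ 0 := by exact_mod_cast hNpos.ne'
  -- the group of exponents times N
  let H : AddSubgroup ℤ :=
    { carrier := {n | ∃ (c : kb) (x : Kb), c ≠ 0 ∧ x ∈ L ∧ ι x = HahnSeries.single ((n : ℚ) / N) c}
      add_mem' := by
        rintro n n' ⟨c, x, hc, hx, hxc⟩ ⟨c', x', hc', hx', hxc'⟩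
        refine ⟨c * c', x * x', mul_ne_zero hc hc', mul_mem hx hx', ?_⟩
        rw [map_mul, hxc, hxc', HahnSeries.single_mul_single]
        congr 2
        push_cast; ring
      zero_mem' := by
        refine ⟨1, 1, one_ne_zero, one_mem L, ?_⟩
        rw [map_one]; simp
      neg_mem' := by
        rintro n ⟨c, x, hc, hx, hxc⟩
        refine ⟨c⁻¹, x⁻¹, inv_ne_zero hc, inv_mem hx, ?_⟩
        rw [map_inv₀, hxc, HahnSeries.inv_single]
        congr 2
        push_cast; ring }
  have hH : ∀ n, n ∈ H ↔ ∃ (c : kb) (x : Kb), c ≠ 0 ∧ x ∈ L ∧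
      ι x = HahnSeries.single ((n : ℚ) / N) c := fun n => Iff.rfl
  obtain ⟨g, hg⟩ := Int.subgroup_cyclic H
  rw [← AddSubgroup.zmultiples_eq_closure] at hg
  -- N belongs to H
  have hNH : (N : ℤ) ∈ H := by
    rw [hH]
    refine ⟨1, algebraMap K Kb (ψ.symm (HahnSeries.single 1 1)), one_ne_zero,
      L.algebraMap_mem _, ?_⟩
    rw [h.base, RingEquiv.apply_symm_apply, emb_single, (algebraMap k kb).map_one]
    congr 1
    push_cast
    field_simp
  rw [hg, AddSubgroup.mem_zmultiples_iff] at hNH
  obtain ⟨s, hs⟩ := hNH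
  rw [smul_eq_mul] at hs
  have hg0 : g ≠ 0 := by
    rintro rfl
    rw [mul_zero] at hs
    exact hNpos.ne (by exact_mod_cast hs)
  have hs0 : s ≠ 0 := by
    rintro rfl
    rw [zero_mul] at hs
    exact hNpos.ne (by exact_mod_cast hs)
  -- normalise signs
  let g' : ℤ := if 0 < s then g else -g
  let e : ℕ := s.natAbs
  have he : 0 < e := Int.natAbs_pos.mpr hs0
  have hg' : (e : ℤ) * g' = N := by
    simp only [e, g']
    split_ifs with hpos
    · rw [Int.natAbs_of_nonneg hpos.le]; exact hs
    · rw [Int.ofNat_natAbs_of_nonpos (by omega)]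
      rw [← hs]; ring
  have hg'H : g' ∈ H := by
    rw [hg, AddSubgroup.mem_zmultiples_iff]
    simp only [g']
    split_ifs
    · exact ⟨1, by simp⟩
    · exact ⟨-1, by simp⟩
  have hHg' : ∀ n ∈ H, ∃ j : ℤ, n = j * g' := by
    intro n hn
    rw [hg, AddSubgroup.mem_zmultiples_iff] at hn
    obtain ⟨j, hj⟩ := hn
    simp only [g']
    split_ifs
    · exact ⟨j, by rw [← hj, smul_eq_mul]⟩
    · exact ⟨-j, by rw [← hj, smul_eq_mul]; ring⟩
  have heq : ∀ j : ℤ, ((j * g' : ℤ) : ℚ) / N = (j : ℚ) / e := by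
    intro j
    have h1 : (N : ℚ) = (e : ℚ) * (g' : ℚ) := by
      have := congrArg (fun z : ℤ => (z : ℚ)) hg'
      push_cast at this
      exact this.symm
    have he0 : (e : ℚ) ≠ 0 := by exact_mod_cast he.ne'
    have hg0' : (g' : ℚ) ≠ 0 := by
      intro h0
      rw [h0, mul_zero] at h1
      exact hNq h1
    rw [h1]
    push_cast
    field_simp
  obtain ⟨c0, T0, hc0, hT0, hT0c⟩ := (hH g').mp hg'H
  refine ⟨e, he, Units.mk0 c0 hc0, T0, hT0, ?_, ?_⟩
  · rw [hT0c]
    congr 1
    have := heq 1
    rw [one_mul] at this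
    rw [this]
    push_cast
    rfl
  · intro x r hx hr
    obtain ⟨x', hx'⟩ := h.exists_single r ((ι x).coeff r)
    have hx'L := mono_mem h ha L hx r hx'
    obtain ⟨n, hn⟩ := exp_bound h ha L hx'L hr hx'
    rw [hN] at hn
    have hrn : r = (n : ℚ) / N := by
      rw [hn]; field_simp
    have hnH : n ∈ H := by
      rw [hH]
      exact ⟨_, x', hr, hx'L, by rw [hx', ← hrn]⟩
    obtain ⟨j, hj⟩ := hHg' n hnH
    refine ⟨j, ?_⟩
    rw [← heq, ← hj, ← hrn]

end

end LP319
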