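import Pool.Agent.Helper319LP.FE

/-! Finite extensions of a Laurent series field of characteristic zero are Laurent series
fields: the isomorphism. -/

namespace LP319

universe u

open Polynomial Pool.Agent.Helper165.P1

set_option linter.unusedSectionVars false

section

variable {k kb K Kb : Type*} [Field k] [Field kb] [Algebra k kb] [Field K] [Field Kb]
  [Algebra K Kb] {ψ : K ≃+* LaurentSeries k} {ι : Kb →+* HQ kb}

/-- Laurent series over an intermediate field as Puiseux series. -/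
noncomputable def Phi (l : IntermediateField k kb) (e : ℕ) (he : 0 < e) (c0 : kbˣ) :
    LaurentSeries l →+* HQ kb :=
  (eHom e he).comp ((sc c0).comp (hmap (algebraMap l kb)))

theorem Phi_coeff (l : IntermediateField k kb) (e : ℕ) (he : 0 < e) (c0 : kbˣ)
    (y : LaurentSeries l) (j : ℤ) :
    (Phi l e he c0 y).coeff ((j : ℚ) / e) = ((c0 ^ j : kbˣ) : kb) * (y.coeff j : l) := by
  unfold Phi
  rw [RingHom.comp_apply, RingHom.comp_apply, eHom_coeff, sc_coeff, hmap_coeff]
  rfl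

theorem Phi_coeff_ne (l : IntermediateField k kb) (e : ℕ) (he : 0 < e) (c0 : kbˣ)
    (y : LaurentSeries l) (r : ℚ) (hr : ∀ j : ℤ, (j : ℚ) / e ≠ r) :
    (Phi l e he c0 y).coeff r = 0 := by
  unfold Phi
  rw [RingHom.comp_apply]
  exact eHom_coeff_of_ne _ _ _ _ hr

theorem single_zpow' (r : ℚ) (c : kbˣ) (n : ℤ) :
    (HahnSeries.single r (c : kb)) ^ n = HahnSeries.single ((n : ℚ) * r) (((c ^ n : kbˣ)) : kb) := by
  cases n with
  | ofNat n =>
    rw [Int.ofNat_eq_natCast, zpow_natCast, HahnSeries.single_pow, nsmul_eq_mul, zpow_natCast]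
    push_cast
    rfl
  | negSucc n =>
    rw [zpow_negSucc, HahnSeries.single_pow, HahnSeries.inv_single, nsmul_eq_mul, zpow_negSucc,
      Units.val_inv_eq_inv_val]
    congr 2
    push_cast
    ring

variable [IsAlgClosed kb] [Algebra.IsAlgebraic k kb] [IsAlgClosed Kb] [Algebra.IsAlgebraic K Kb]
  [IsGalois k kb] [IsGalois K Kb]

theorem mem_Phi (h : IsPu ψ ι) {a : kb →+* Kb} (ha : ∀ c, ι (a c) = HahnSeries.single 0 c)
    (L : IntermediateField K Kb) (e : ℕ) (he : 0 < e) (c0 : kbˣ) {T0 : Kb} (hT0 : T0 ∈ L)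
    (hT0c : ι T0 = HahnSeries.single (1 / e : ℚ) (c0 : kb))
    (hex : ∀ (x : Kb) (r : ℚ), x ∈ L → (ι x).coeff r ≠ 0 → ∃ n : ℤ, (n : ℚ) / e = r)
    {x : Kb} (hx : x ∈ L) : ∃ y : LaurentSeries (kst h ha L), Phi (kst h ha L) e he c0 y = ι x := by
  classical
  have hmem : ∀ j : ℤ, ((c0 ^ (-j) : kbˣ) : kb) * (ι x).coeff ((j : ℚ) / e) ∈ kst h ha L := by
    intro j
    obtain ⟨x', hx'⟩ := h.exists_single ((j : ℚ) / e) ((ι x).coeff ((j : ℚ) / e))
    have hx'L := mono_mem h ha L hx _ hx'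
    have h1 : a (((c0 ^ (-j) : kbˣ) : kb) * (ι x).coeff ((j : ℚ) / e)) = T0 ^ (-j) * x' := by
      apply h.inj
      rw [ha, map_mul ι, map_zpow₀ ι, hT0c, single_zpow', hx', HahnSeries.single_mul_single]
      have h2 : (((-j : ℤ) : ℚ) * (1 / e) + (j : ℚ) / e) = 0 := by
        push_cast
        ring
      rw [h2]
    change a _ ∈ L
    rw [h1]
    exact mul_mem (zpow_mem hT0 _) hx'L
  have hbd : BddBelow (Function.support fun j : ℤ =>
      (⟨((c0 ^ (-j) : kbˣ) : kb) * (ι x).coeff ((j : ℚ) / e), hmem j⟩ : kst h ha L)) := by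
    refine ⟨⌊(e : ℚ) * (ι x).order⌋, ?_⟩
    intro j hj
    have hj' : (ι x).coeff ((j : ℚ) / e) ≠ 0 := by
      intro h0
      apply hj
      apply Subtype.ext
      change _ * _ = (0 : kb)
      rw [h0, mul_zero]
    have h2 := HahnSeries.order_le_of_coeff_ne_zero hj'
    have heq : (0 : ℚ) < e := by exact_mod_cast he
    rw [le_div_iff₀ heq] at h2
    have h3 : ((⌊(e : ℚ) * (ι x).order⌋ : ℤ) : ℚ) ≤ (j : ℚ) := by
      refine (Int.floor_le _).trans ?_
      rw [mul_comm]; exact h2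
    exact_mod_cast h3
  refine ⟨HahnSeries.ofSuppBddBelow _ hbd, ?_⟩
  ext r
  by_cases hr : ∃ j : ℤ, (j : ℚ) / e = r
  · obtain ⟨j, rfl⟩ := hr
    rw [Phi_coeff]
    change _ * (((c0 ^ (-j) : kbˣ) : kb) * (ι x).coeff ((j : ℚ) / e)) = _
    rw [← mul_assoc, ← Units.val_mul, ← zpow_add, add_neg_cancel, zpow_zero, Units.val_one, one_mul]
  · rw [Phi_coeff_ne _ _ _ _ _ _ (fun j hj => hr ⟨j, hj⟩)]
    by_contra hne
    exact hr (hex x r hx (Ne.symm hne))

theorem Phi_mem (h : IsPu ψ ι) {a : kb →+* Kb} (ha : ∀ c, ι (a c) = HahnSeries.single 0 c)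
    (L : IntermediateField K Kb) [FiniteDimensional K L] (e : ℕ) (he : 0 < e) (c0 : kbˣ) {T0 : Kb}
    (hT0 : T0 ∈ L) (hT0c : ι T0 = HahnSeries.single (1 / e : ℚ) (c0 : kb))
    (y : LaurentSeries (kst h ha L)) : ∃ x ∈ L, ι x = Phi (kst h ha L) e he c0 y := by
  classical
  have := kst_fin h ha L
  have hc0 : IsIntegral k (c0 : kb) := Algebra.IsIntegral.isIntegral _
  have := IntermediateField.adjoin.finiteDimensional hc0
  let k' : IntermediateField k kb := kst h ha L ⊔ IntermediateField.adjoin k {(c0 : kb)}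
  have hk' : FiniteDimensional k k' := IntermediateField.finiteDimensional_sup _ _
  obtain ⟨T, hT⟩ := h.exists_T (1 / e : ℚ)
  let z : HahnSeries ℤ kb := sc c0 (hmap (algebraMap (kst h ha L) kb) y)
  have hz : ∀ n, z.coeff n ∈ k' := by
    intro n
    change ((c0 ^ n : kbˣ) : kb) * ((y.coeff n : kst h ha L) : kb) ∈ k'
    apply mul_mem
    · rw [Units.val_zpow_eq_zpow_val]
      apply zpow_mem
      exact (le_sup_right : _ ≤ k') (IntermediateField.mem_adjoin_simple_self k _)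
    · exact (le_sup_left : _ ≤ k') (y.coeff n).2
  obtain ⟨_, -, hx⟩ := h.form ha e he hT k' hz
  obtain ⟨x, hx⟩ : ∃ x, ι x = eHom e he z := ⟨_, hx⟩
  refine ⟨x, ?_, hx⟩
  apply mem_of_fixed
  intro σ hσ
  obtain ⟨σ', hσ'⟩ := h.exists_bar ha σ
  obtain ⟨ζ, -, -, hcf⟩ := h.cf ha e he hT σ σ' hσ'
  apply h.inj
  rw [hcf x z hx, hx]
  congr 1
  -- the rescaling acts trivially
  have hT1 := hcf T0 (HahnSeries.single 1 (c0 : kb)) (by
    rw [hT0c, eHom_single]
    congr 1)
  rw [hσ T0 hT0, hT0c, hmap_single, sc_single, eHom_single, zpow_one] at hT1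
  have hT2 := congrArg (fun w => HahnSeries.coeff w (1 / e : ℚ)) hT1
  have h11 : ((1 : ℤ) : ℚ) / e = 1 / e := by push_cast; rfl
  rw [h11] at hT2
  simp only [HahnSeries.coeff_single_same] at hT2
  -- hT2 : c0 = ζ * σ' c0
  have hT3 : c0 = ζ * Units.map (σ' : kb →* kb) c0 := Units.ext hT2
  ext n
  rw [sc_coeff, hmap_coeff]
  change ((ζ ^ n : kbˣ) : kb) * σ' (((c0 ^ n : kbˣ) : kb) * ((y.coeff n : kst h ha L) : kb)) =
    ((c0 ^ n : kbˣ) : kb) * ((y.coeff n : kst h ha L) : kb)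
  have h4 : σ' ((y.coeff n : kst h ha L) : kb) = ((y.coeff n : kst h ha L) : kb) := by
    apply a.injective
    rw [← hσ']
    exact hσ _ (y.coeff n).2
  have h5 : σ' ((c0 ^ n : kbˣ) : kb) = ((Units.map (σ' : kb →* kb) c0 ^ n : kbˣ) : kb) := by
    rw [← map_zpow]; rfl
  rw [map_mul, h4, h5, ← mul_assoc, ← Units.val_mul, ← mul_zpow, ← hT3]

/-- A finite extension inside the algebraic closure is a Laurent series field. -/
theorem exists_iso (h : IsPu ψ ι) (L : IntermediateField K Kb) [FiniteDimensional K L] :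
    ∃ (l : IntermediateField k kb) (_ : FiniteDimensional k l), Nonempty (L ≃+* LaurentSeries l) := by
  obtain ⟨a, ha⟩ := h.exists_alg
  obtain ⟨e, he, c0, T0, hT0, hT0c, hex⟩ := exists_unif h ha L
  refine ⟨kst h ha L, kst_fin h ha L, ?_⟩
  have h1 : ∀ y : LaurentSeries (kst h ha L), ∃ x : L,
      (ι.comp (algebraMap L Kb)) x = Phi (kst h ha L) e he c0 y := by
    intro y
    obtain ⟨x, hx, hxy⟩ := Phi_mem h ha L e he c0 hT0 hT0c y
    exact ⟨⟨x, hx⟩, hxy⟩
  obtain ⟨g, hg⟩ := liftThrough (Phi (kst h ha L) e he c0) (ι.comp (algebraMap L Kb))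
    (RingHom.injective _) h1
  have hgb : Function.Bijective g := by
    refine ⟨g.injective, ?_⟩
    intro x
    obtain ⟨y, hy⟩ := mem_Phi h ha L e he c0 hT0 hT0c hex x.2
    refine ⟨y, ?_⟩
    apply (ι.comp (algebraMap L Kb)).injective
    rw [hg, hy]
    rfl
  exact ⟨(RingEquiv.ofBijective g hgb).symm⟩

end

/-- A finite extension of a Laurent series field over a field of characteristic zero is a Laurent
series field over a finite extension. -/
theorem exists_laurent {k K L : Type u} [Field k] [CharZero k] [Field K] [CharZero K] [Field L]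
    [Algebra K L] [FiniteDimensional K L] (ψ : K ≃+* LaurentSeries k) :
    ∃ (l : IntermediateField k (AlgebraicClosure k)) (_ : FiniteDimensional k l),
      Nonempty (L ≃+* LaurentSeries l) := by
  obtain ⟨ι, h⟩ := exists_isPu (kb := AlgebraicClosure k) (Kb := AlgebraicClosure K) ψ
  let j : L →ₐ[K] AlgebraicClosure K := IsAlgClosed.lift
  have e1 : L ≃ₐ[K] j.fieldRange := AlgEquiv.ofInjectiveField j
  have : FiniteDimensional K j.fieldRange := LinearEquiv.finiteDimensional e1.toLinearEquiv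
  obtain ⟨l, hl, ⟨e2⟩⟩ := exists_iso h j.fieldRange
  exact ⟨l, hl, ⟨e1.toRingEquiv.trans e2⟩⟩

end LP319
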