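import Pool.Agent.Helper319LP.NS4
import Pool.Agent.Helper319LP.FE2

/-! The main theorem. -/

namespace EKn

open LP319 Polynomial Pool.Agent.Helper165.P1

universe u

section conv

variable {ty : Ty} {n : ℕ} {L : Type u} [Field L]

/-- Comparison with the auxiliary notion of torsor. -/
noncomputable def Torsor.old (T : Torsor ty n L) : LP319.Torsor ty n L where
  m := T.m
  b := T.b
  m_mem := T.m_mem
  m_coc := T.m_coc
  b_mem := T.b_mem
  b_coc := T.b_coc
  fin := by
    obtain ⟨M, hM, h⟩ := T.m_cont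
    obtain ⟨M', hM', h'⟩ := T.b_cont
    exact ⟨M ⊔ M', IntermediateField.finiteDimensional_sup _ _, fun σ τ hτ =>
      ⟨h σ τ (fun x hx => hτ x ((le_sup_left : M ≤ M ⊔ M') hx)),
        h' σ τ (fun x hx => hτ x ((le_sup_right : M' ≤ M ⊔ M') hx))⟩⟩

/-- Comparison with the auxiliary notion of torsor. -/
noncomputable def ofOld (T : LP319.Torsor ty n L) : Torsor ty n L where
  m := T.m
  b := T.b
  m_mem := T.m_mem
  m_coc := T.m_coc
  b_mem := T.b_mem
  b_coc := T.b_coc
  m_cont := by
    obtain ⟨M, hM, h⟩ := T.fin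
    exact ⟨M, hM, fun σ τ hτ => (h σ τ hτ).1⟩
  b_cont := by
    obtain ⟨M, hM, h⟩ := T.fin
    exact ⟨M, hM, fun σ τ hτ => (h σ τ hτ).2⟩

theorem hasPoint_old (T : Torsor ty n L) {M : Type u} [Field M] [Algebra L M]
    (i : M →ₐ[L] AlgebraicClosure L) : T.old.HasPoint i ↔ T.HasPoint i := Iff.rfl

theorem hasPoint_ofOld (T : LP319.Torsor ty n L) {M : Type u} [Field M] [Algebra L M]
    (i : M →ₐ[L] AlgebraicClosure L) : (ofOld T).HasPoint i ↔ T.HasPoint i := Iff.rfl

end conv

section

variable {k K : Type u} [Field k] [Field K]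

theorem norm_step [CharZero k] [CharZero K] {q : ℕ} {ty : Ty} {n : ℕ}
    {ψ : K ≃+* LaurentSeries k}
    {ι : AlgebraicClosure K →+* HQ (AlgebraicClosure k)} (h : IsPu ψ ι)
    {a : AlgebraicClosure k →+* AlgebraicClosure K} (ha : ∀ c, ι (a c) = HahnSeries.single 0 c)
    (T : Torsor ty n K) (M : Type u) [Field M] [Algebra k M] [FiniteDimensional k M]
    (i : M →ₐ[k] AlgebraicClosure k) (m : ℕ) (hm : 0 < m) (hev : Even m)
    {t : AlgebraicClosure K} (ht : ι t = HahnSeries.single (1 / m : ℚ) 1)
    (hpt : ∃ g : GLb ty n K, GpL g ∧ ∀ σ : Gal K,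
          (∀ x : M, act σ (a (i x)) = a (i x)) → act σ t = t →
          T.b σ = g⁻¹ * tw T.m σ g) (y : KM q M) (x : KM q k) (hN : IsNorm q k M y x) :
    KM.cons (-(var ψ)) (KM.map (cst ψ) x) ∈ NormSub (q + 1) T := by
  have hfd : FiniteDimensional K (Kc K a i) := Kc_fin i h ha
  have hint : IsIntegral (Kc K a i) t :=
    (Algebra.IsAlgebraic.isAlgebraic (R := Kc K a i) t).isIntegral
  have ht0 : t ≠ 0 := by
    rintro rfl
    rw [map_zero] at ht
    have := congrArg (fun x => HahnSeries.coeff x (1 / m : ℚ)) ht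
    simp at this
  let P := IntermediateField.adjoin (Kc K a i) {t}
  have hfd2 : FiniteDimensional (Kc K a i) P := IntermediateField.adjoin.finiteDimensional hint
  let tP : P := IntermediateField.AdjoinSimple.gen (Kc K a i) t
  have htP : algebraMap P (AlgebraicClosure K) tP = t := rfl
  have htP0 : tP ≠ 0 := by
    intro h0
    apply ht0
    rw [← htP, h0, map_zero]
  let π : (Kc K a i)ˣ := Units.map (algebraMap K (Kc K a i) : K →* Kc K a i) (var ψ)
  have hmin : minpoly (Kc K a i) tP = X ^ m - C (π : Kc K a i) := by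
    have h4 : minpoly (Kc K a i) tP = minpoly (Kc K a i) t :=
      IntermediateField.minpoly_gen (Kc K a i) t
    rw [h4, minpoly_root i h ha m hm ht]
    rfl
  have hgen : IntermediateField.adjoin (Kc K a i) {tP} = ⊤ := by
    rw [Field.primitive_element_iff_minpoly_natDegree_eq, IntermediateField.adjoin.finrank hint]
    exact congrArg natDegree (IntermediateField.minpoly_gen (Kc K a i) t)
  have h1 := IsNorm.base h ha hN i
  have h2 := h1.cons (-(var ψ))
  have h3 : Units.map (algebraMap K (Kc K a i) : K →* Kc K a i) (-(var ψ)) = -π := by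
    apply Units.ext
    simp [π]
  rw [h3] at h2
  have h4 := normStep_root (q := q) (L := Kc K a i) (M := P) (s := tP)
    (Algebra.IsIntegral.isIntegral _) hgen m hm hev π hmin (Units.mk0 tP htP0) rfl
    (KM.map (aj K a i) y)
  have h5 := IsNorm.step (L := K) (Kc K a i) P _ _ _ h4 h2
  apply AddSubgroup.subset_closure
  refine ⟨P, inferInstance, inferInstance, (P.val.restrictScalars K), _, ?_, h5⟩
  obtain ⟨g, hg, hg2⟩ := hpt
  refine ⟨g, hg, ?_⟩
  intro σ hσ
  apply hg2
  · intro x
    exact hσ (algebraMap (Kc K a i) P (aj K a i x))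
  · exact hσ tP

/-- The per-field theorem. -/
theorem per_field [CharZero k] [CharZero K] {q : ℕ} {ty : Ty} (ψ : K ≃+* LaurentSeries k)
    (H0 : ∀ (n : ℕ) (T0 : Torsor ty n k), NormSub q T0 = ⊤) {n : ℕ} (T : Torsor ty n K) :
    NormSub (q + 1) T = ⊤ := by
  -- norms of symbols with first entry minus the variable
  have key : ∀ (ψ : K ≃+* LaurentSeries k) (v : KM q k),
      KM.cons (-(var ψ)) (KM.map (cst ψ) v) ∈ NormSub (q + 1) T := by
    intro ψ v
    obtain ⟨ι, h⟩ := exists_isPu (kb := AlgebraicClosure k) (Kb := AlgebraicClosure K) ψ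
    obtain ⟨a, ha⟩ := h.exists_alg
    obtain ⟨T0, hT0⟩ := special h ha T.old
    have hv : v ∈ NormSub q (ofOld T0) := by rw [H0]; trivial
    unfold NormSub at hv
    induction hv using AddSubgroup.closure_induction with
    | mem x hx =>
      obtain ⟨M, _, _, i, y, hi, hN⟩ := hx
      have hfd : FiniteDimensional k M := hN.fin
      obtain ⟨m, hm, t, hev, ht, hpt⟩ := hT0 M i hi
      exact norm_step h ha T M i m hm hev ht hpt y x hN
    | zero => rw [map_zero, map_zero]; exact AddSubgroup.zero_mem _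
    | add x y _ _ hx hy => rw [map_add, map_add]; exact AddSubgroup.add_mem _ hx hy
    | neg x _ hx => rw [map_neg, map_neg]; exact AddSubgroup.neg_mem _ hx
  obtain ⟨M, hM, hpt⟩ := T.old.exists_point
  have hd : 0 < Module.finrank K M := Module.finrank_pos
  refine KM_top (cst ψ) (-(var ψ)) (Module.finrank K M)
    {u : Kˣ | (ψ u).order = 0 ∧ (ψ u).leadingCoeff = 1}
    (fun u hu => unit_root ψ _ hd u hu.1 hu.2) (unit_gen ψ) _ ?_ ?_
  · intro x
    apply AddSubgroup.subset_closure
    exact ⟨M, inferInstance, inferInstance, M.val, _, hpt, IsNorm.deg x⟩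
  · intro c v
    have h1 := key (ψ.trans (scE c⁻¹)) v
    rw [cst_scE, var_scE, ← mul_neg] at h1
    exact h1

end

/-- The property passes to Laurent series. -/
theorem HasC.laurent {ty : Ty} {q : ℕ} {k : Type u} [Field k] [CharZero k]
    (h : HasC ty q k) : HasC ty (q + 1) (LaurentSeries k) := by
  intro L _ _ _ n T
  have hK : CharZero (LaurentSeries k) :=
    charZero_of_injective_algebraMap (algebraMap k (LaurentSeries k)).injective
  have hL : CharZero L :=
    charZero_of_injective_algebraMap (algebraMap (LaurentSeries k) L).injective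
  obtain ⟨l, hl, ⟨e⟩⟩ := exists_laurent (L := L) (RingEquiv.refl (LaurentSeries k))
  have hl0 : CharZero l := charZero_of_injective_algebraMap (algebraMap k l).injective
  exact per_field e (fun n T0 => h l n T0) T

end EKn
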