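import Pool.Agent.Helper319LP.Grp

/-! The invariant bilinear form and its consequences. -/

namespace LP319

open Matrix

section

variable {ty : Ty} {n : ℕ} {L : Type*} [Field L]

/-- The partner of an index. -/
def ptn (p : Idx ty n) : Idx ty n := (⟨kap ty - p.1.1, isWt_kap_sub p.1.2⟩, p.2)

theorem ptn_iff (p q : Idx ty n) : (p.2 = q.2 ∧ p.1.1 + q.1.1 = kap ty) ↔ q = ptn p := by
  constructor
  · rintro ⟨h1, h2⟩
    refine Prod.ext (Subtype.ext ?_) h1.symm
    change q.1.1 = kap ty - p.1.1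
    rw [← h2]; abel
  · rintro rfl
    refine ⟨rfl, ?_⟩
    change p.1.1 + (kap ty - p.1.1) = kap ty
    abel

theorem ptn_inj {p q : Idx ty n} (h : ptn p = ptn q) : p = q := by
  have h1 : kap ty - p.1.1 = kap ty - q.1.1 := congrArg (fun x : Idx ty n => x.1.1) h
  have h2 : p.2 = q.2 := (congrArg (fun x : Idx ty n => x.2) h : (ptn p).2 = (ptn q).2)
  exact Prod.ext (Subtype.ext (sub_right_injective h1)) h2

variable (ty n L) in
/-- The matrix of the invariant form. -/
def Fm : Matrix (Idx ty n) (Idx ty n) L :=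
  Matrix.of fun p q => if q = ptn p then ((sg p.1.1 (kap ty) : ℤ) : L) else 0

theorem Fm_apply (p q : Idx ty n) :
    Fm ty n L p q = if q = ptn p then ((sg p.1.1 (kap ty) : ℤ) : L) else 0 := rfl

theorem Fm_mul : Fm ty n L * (Fm ty n L).transpose = 1 := by
  ext p r
  rw [Matrix.mul_apply, Finset.sum_eq_single (ptn p)]
  · rw [Matrix.transpose_apply, Fm_apply, Fm_apply, if_pos rfl, Matrix.one_apply]
    by_cases h : p = r
    · subst h
      rw [if_pos rfl, if_pos rfl, ← Int.cast_mul, sg_mul_self, Int.cast_one]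
    · rw [if_neg (fun h2 => h (ptn_inj h2)), if_neg h, mul_zero]
  · intro q _ hq
    rw [Fm_apply, if_neg hq, zero_mul]
  · simp

theorem Fm_inv_rE {b : Fin 8 → ℤ} (hb : IsRt ty b) (i : Fin n) :
    (rE ty n L b i).transpose * Fm ty n L + Fm ty n L * rE ty n L b i = 0 := by
  ext p q
  rw [Matrix.add_apply, Matrix.mul_apply, Matrix.mul_apply]
  -- first sum: r = p + b, q = partner r ; second : r = partner p, r = q + b
  by_cases h : p.2 = i ∧ q.2 = i ∧ p.1.1 + b + q.1.1 = kap ty
  · obtain ⟨h1, h2, h3⟩ := h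
    have hw1 : IsWt ty (p.1.1 + b) := by
      have : p.1.1 + b = kap ty - q.1.1 := by rw [← h3]; abel
      rw [this]; exact isWt_kap_sub q.1.2
    have hs1 : ∑ r, (rE ty n L b i).transpose p r * Fm ty n L r q =
        ((sg b p.1.1 * sg (p.1.1 + b) (kap ty) : ℤ) : L) := by
      rw [Finset.sum_eq_single (⟨⟨p.1.1 + b, hw1⟩, i⟩ : Idx ty n)]
      · rw [Matrix.transpose_apply, rE_apply, if_pos ⟨rfl, h1, rfl⟩, Fm_apply, if_pos]
        · push_cast; rfl
        · exact (ptn_iff _ _).mp ⟨h2.symm, h3⟩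
      · intro r _ hr
        rw [Matrix.transpose_apply, rE_apply, if_neg, zero_mul]
        rintro ⟨a1, a2, a3⟩
        exact hr (Prod.ext (Subtype.ext a3) a1)
      · simp
    have hs2 : ∑ r, Fm ty n L p r * rE ty n L b i r q =
        ((sg p.1.1 (kap ty) * sg b q.1.1 : ℤ) : L) := by
      rw [Finset.sum_eq_single (ptn p)]
      · rw [Fm_apply, if_pos rfl, rE_apply, if_pos]
        · push_cast; rfl
        · refine ⟨h1, h2, ?_⟩
          change kap ty - p.1.1 = q.1.1 + b
          rw [← h3]; abel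
      · intro r _ hr
        rw [Fm_apply, if_neg hr, zero_mul]
      · simp
    rw [hs1, hs2]
    have h4 : q.1.1 = kap ty + -p.1.1 + -b := by rw [← h3]; abel
    rw [h4, sg_add_left, sg_add_right, sg_add_right, sg_neg_right, sg_neg_right, sg_self hb]
    push_cast
    simp
    ring
  · rw [Finset.sum_eq_zero, Finset.sum_eq_zero]
    · simp
    · intro r _
      by_cases hr : r = ptn p
      · rw [rE_apply, if_neg, mul_zero]
        rintro ⟨a1, a2, a3⟩
        apply h
        rw [hr] at a1 a3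
        refine ⟨a1, a2, ?_⟩
        have a4 : kap ty - p.1.1 = q.1.1 + b := a3
        have a5 : p.1.1 + b + q.1.1 = p.1.1 + (q.1.1 + b) := by abel
        rw [a5, ← a4]; abel
      · rw [Fm_apply, if_neg hr, zero_mul]
    · intro r _
      rw [Matrix.transpose_apply, rE_apply]
      by_cases hr : r.2 = i ∧ p.2 = i ∧ r.1.1 = p.1.1 + b
      · rw [Fm_apply, if_neg (c := q = ptn r), mul_zero]
        intro hq
        apply h
        obtain ⟨a1, a2, a3⟩ := hr
        have a4 := (ptn_iff r q).mpr hq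
        refine ⟨a2, a4.1.symm.trans a1, ?_⟩
        rw [← a3]; exact a4.2
      · rw [if_neg hr, zero_mul]

theorem Fm_inv_rH {b : Fin 8 → ℤ} (hb : IsRt ty b) (i : Fin n) :
    (rH ty n L b i).transpose * Fm ty n L + Fm ty n L * rH ty n L b i = 0 := by
  ext p q
  rw [Matrix.add_apply, rH, Matrix.diagonal_transpose, Matrix.diagonal_mul, Matrix.mul_diagonal,
    Fm_apply]
  by_cases h : q = ptn p
  · rw [if_pos h]
    have h2 := (ptn_iff p q).mpr h
    by_cases hi : p.2 = i
    · rw [if_pos hi, if_pos (h2.1.symm.trans hi)]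
      have h3 : ip b p.1.1 + ip b q.1.1 = 0 := by
        rw [← ip_add_right, h2.2, ip_kap hb]
      have h4 : ((ip b p.1.1 : ℤ) : L) + ((ip b q.1.1 : ℤ) : L) = 0 := by
        rw [← Int.cast_add, h3, Int.cast_zero]
      rw [mul_comm, ← mul_add, h4, mul_zero]; rfl
    · rw [if_neg hi, if_neg (fun h3 => hi (h2.1.trans h3))]; simp
  · rw [if_neg h]; simp

theorem Fm_inv (X : Matrix (Idx ty n) (Idx ty n) L) (hX : X ∈ LieAlg ty n L) :
    X.transpose * Fm ty n L + Fm ty n L * X = 0 := by
  unfold LieAlg at hX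
  induction hX using Submodule.span_induction with
  | mem x hx =>
    rcases hx with ⟨c, j, hc, rfl⟩ | ⟨c, j, hc, rfl⟩
    · exact Fm_inv_rE hc j
    · exact Fm_inv_rH hc j
  | zero => simp
  | add x y _ _ hx hy =>
    rw [Matrix.transpose_add, Matrix.add_mul, Matrix.mul_add]
    have : x.transpose * Fm ty n L + y.transpose * Fm ty n L +
      (Fm ty n L * x + Fm ty n L * y) = (x.transpose * Fm ty n L + Fm ty n L * x) +
      (y.transpose * Fm ty n L + Fm ty n L * y) := by abel
    rw [this, hx, hy, add_zero]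
  | smul a x _ hx =>
    rw [Matrix.transpose_smul, Matrix.smul_mul, Matrix.mul_smul, ← smul_add, hx, smul_zero]

/-- Elements of the group commute with the centraliser of the Lie algebra. -/
theorem G_comm_C {x z : GL (Idx ty n) L} (hx : x ∈ Gp (LieAlg ty n L))
    (hz : z ∈ Cen (LieAlg ty n L)) : x * z = z * x :=
  Gp_comm_Cen (Fm ty n L) _ Fm_inv Fm_mul hx hz

/-- The root subgroup element. -/
noncomputable def rx {b : Fin 8 → ℤ} (hb : IsRt ty b) (i : Fin n) (a : L) : GL (Idx ty n) L :=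
  uni (a • rE ty n L b i) (by rw [Matrix.smul_mul, Matrix.mul_smul, rE_sq hb, smul_zero, smul_zero])

theorem rx_mem [CharZero L] {b : Fin 8 → ℤ} (hb : IsRt ty b) (i : Fin n) (a : L) :
    rx hb i a ∈ Gp (LieAlg ty n L) := by
  apply uni_mem_Gp
  · exact Submodule.smul_mem _ _ (rE_mem hb i)
  · intro Y hY
    rw [Matrix.smul_mul, Matrix.mul_smul, ← smul_sub]
    exact Submodule.smul_mem _ _ (rE_comm_mem hb i hY)

end

end LP319
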