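import Mathlib

/-! Generic surjectivity of a polynomial map whose differential is onto at one point. -/

open MvPolynomial

namespace LP319

section

variable {I J E : Type*} [Field E]

theorem const_of_pderiv_zero [CharZero E] (P : MvPolynomial J E)
    (h : ∀ j, pderiv j P = 0) : P = C (coeff 0 P) := by
  classical
  ext m
  rw [coeff_C]
  split_ifs with h0
  · rw [h0]
  · obtain ⟨j, hj⟩ : ∃ j, m j ≠ 0 := by
      by_contra hcon
      push Not at hcon
      exact h0 (Finsupp.ext (fun j => by simpa using (hcon j).symm))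
    have h1 := coeff_pderiv (i := j) P (m - Finsupp.single j 1)
    rw [h j, coeff_zero, Finsupp.sub_add_single_one_cancel hj] at h1
    rcases mul_eq_zero.mp h1.symm with h2 | h2
    · exact h2
    · exfalso
      have h3 : ((((m - Finsupp.single j 1 : J →₀ ℕ) j) + 1 : ℕ) : E) ≠ 0 :=
        Nat.cast_ne_zero.mpr (by omega)
      apply h3
      rw [Nat.cast_add, Nat.cast_one]
      exact h2

theorem chain_rule [Fintype J] (Ψ : J → MvPolynomial I E) (i : I) (P : MvPolynomial J E) :
    pderiv i (aeval Ψ P) = ∑ j, aeval Ψ (pderiv j P) * pderiv i (Ψ j) := by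
  classical
  induction P using MvPolynomial.induction_on with
  | C a => simp
  | add p q hp hq =>
    simp only [map_add, hp, hq, add_mul, Finset.sum_add_distrib]
  | mul_X p j hp =>
    rw [map_mul, aeval_X, Derivation.leibniz, hp]
    simp only [Derivation.leibniz, pderiv_X, smul_eq_mul, map_add, map_mul, aeval_X, add_mul,
      Finset.sum_add_distrib, Finset.mul_sum]
    congr 1
    · rw [Finset.sum_eq_single j]
      · simp
      · intro b _ hb
        rw [Pi.single_eq_of_ne hb.symm]
        simp
      · simp
    · apply Finset.sum_congr rfl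
      intro x _
      ring

theorem totalDegree_pderiv_lt (P : MvPolynomial J E) (j : J) (h : pderiv j P ≠ 0) :
    (pderiv j P).totalDegree < P.totalDegree := by
  classical
  obtain ⟨m, hm, hdeg⟩ := Finset.exists_mem_eq_sup (pderiv j P).support
    (by rwa [Finset.nonempty_iff_ne_empty, Ne, support_eq_empty])
    (fun m => m.degree)
  have h1 : coeff (m + Finsupp.single j 1) P ≠ 0 := by
    intro h2
    rw [mem_support_iff, coeff_pderiv, h2, zero_mul] at hm
    exact hm rfl
  have h3 : (m + Finsupp.single j 1).degree ≤ P.totalDegree := by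
    have := le_totalDegree (mem_support_iff.mpr h1)
    exact this
  have h4 : (pderiv j P).totalDegree = m.degree := by
    rw [← hdeg]; rfl
  rw [h4]
  rw [map_add] at h3
  have h5 : (Finsupp.single j 1 : J →₀ ℕ).degree = 1 := by
    simp
  omega

theorem aeval_injective [CharZero E] [Fintype I] [Fintype J] (Ψ : J → MvPolynomial I E) (p : I → E)
    (hs : ∀ w : J → E, ∃ v : I → E, ∀ j, ∑ i, v i * eval p (pderiv i (Ψ j)) = w j) :
    Function.Injective (aeval (R := E) Ψ) := by
  classical
  rw [injective_iff_map_eq_zero]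
  -- the matrix of the differential
  choose B hB using fun k : J => hs (Pi.single k 1)
  let A : Matrix J J (MvPolynomial I E) := Matrix.of fun k j => ∑ i, C (B k i) * pderiv i (Ψ j)
  have hdet : A.det ≠ 0 := by
    intro h0
    have h1 : (A.map (eval p)).det = 0 := by
      have := (eval p).map_det A
      rw [h0, map_zero] at this
      exact this.symm
    have h2 : A.map (eval p) = 1 := by
      ext k j
      simp only [A, Matrix.map_apply, Matrix.of_apply, map_sum, map_mul, eval_C]
      rw [hB k j, Matrix.one_apply]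
      by_cases hkj : k = j
      · subst hkj; simp
      · rw [if_neg hkj, Pi.single_eq_of_ne (Ne.symm hkj)]
    rw [h2, Matrix.det_one] at h1
    exact one_ne_zero h1
  have key : ∀ n : ℕ, ∀ P : MvPolynomial J E, P.totalDegree = n → aeval Ψ P = 0 → P = 0 := by
    intro n
    induction n using Nat.strong_induction_on with
    | _ n ih =>
      intro P hP hz
      have h1 : ∀ j, aeval Ψ (pderiv j P) = 0 := by
        have h2 : A.mulVec (fun j => aeval Ψ (pderiv j P)) = 0 := by
          ext1 k
          simp only [Matrix.mulVec, dotProduct, A, Matrix.of_apply, Pi.zero_apply]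
          have h3 : ∀ i, ∑ j, aeval Ψ (pderiv j P) * pderiv i (Ψ j) = 0 := by
            intro i
            rw [← chain_rule, hz, map_zero]
          calc ∑ j, (∑ i, C (B k i) * pderiv i (Ψ j)) * aeval Ψ (pderiv j P)
              = ∑ i, C (B k i) * ∑ j, aeval Ψ (pderiv j P) * pderiv i (Ψ j) := by
                simp only [Finset.sum_mul, Finset.mul_sum]
                rw [Finset.sum_comm]
                apply Finset.sum_congr rfl; intro i _
                apply Finset.sum_congr rfl; intro j _
                ring
            _ = 0 := by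
              apply Finset.sum_eq_zero
              intro i _
              rw [h3 i, mul_zero]
        have h4 := Matrix.eq_zero_of_mulVec_eq_zero hdet h2
        intro j
        exact congrFun h4 j
      have h5 : ∀ j, pderiv j P = 0 := by
        intro j
        by_contra hne
        have hlt := totalDegree_pderiv_lt P j hne
        exact hne (ih _ (hP ▸ hlt) _ rfl (h1 j))
      have h6 := const_of_pderiv_zero P h5
      rw [h6] at hz ⊢
      rw [aeval_C] at hz
      have : coeff 0 P = 0 := by
        have h7 : (algebraMap E (MvPolynomial I E)) (coeff 0 P) = algebraMap E _ 0 := by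
          rw [hz, map_zero]
        exact (algebraMap E (MvPolynomial I E)).injective h7
      rw [this, C_0]
  intro P hP
  exact key _ P rfl hP

theorem range_contains_basicOpen {R S : Type*} [CommRing R] [IsDomain R] [CommRing S] [IsDomain S]
    (f : R →+* S) (hf : f.FinitePresentation) (hinj : Function.Injective f) (F0 : S) (hF0 : F0 ≠ 0) :
    ∃ D : R, D ≠ 0 ∧ ∀ x : PrimeSpectrum R, D ∉ x.asIdeal →
      x ∈ PrimeSpectrum.comap f '' (PrimeSpectrum.basicOpen F0) := by
  have hc := PrimeSpectrum.isConstructible_comap_image hf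
    (PrimeSpectrum.isConstructible_basicOpen (f := F0))
  obtain ⟨S', hS'⟩ := PrimeSpectrum.exists_constructibleSetData_iff.mpr hc
  have hbot : (⊥ : PrimeSpectrum R) ∈ S'.toSet := by
    rw [hS']
    refine ⟨⊥, ?_, ?_⟩
    · change F0 ∉ (⊥ : Ideal S)
      rwa [Ideal.mem_bot]
    ext x
    simp only [PrimeSpectrum.comap_asIdeal, Ideal.mem_comap]
    change f x ∈ (⊥ : Ideal S) ↔ x ∈ (⊥ : Ideal R)
    rw [Ideal.mem_bot, Ideal.mem_bot]
    exact map_eq_zero_iff f hinj
  unfold PrimeSpectrum.ConstructibleSetData.toSet at hbot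
  simp only [Set.mem_iUnion] at hbot
  obtain ⟨c, hc1, hc2⟩ := hbot
  unfold PrimeSpectrum.BasicConstructibleSetData.toSet at hc2
  refine ⟨c.f, ?_, ?_⟩
  · intro h0
    apply hc2.2
    rw [h0]
    simp
  · intro x hx
    rw [← hS']
    unfold PrimeSpectrum.ConstructibleSetData.toSet
    simp only [Set.mem_iUnion]
    refine ⟨c, hc1, ?_⟩
    unfold PrimeSpectrum.BasicConstructibleSetData.toSet
    refine ⟨?_, ?_⟩
    · rw [PrimeSpectrum.mem_zeroLocus]
      intro g hg
      have := hc2.1
      rw [PrimeSpectrum.mem_zeroLocus] at this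
      have h3 := this hg
      change g ∈ (⊥ : Ideal R) at h3
      rw [Ideal.mem_bot] at h3
      rw [h3]
      exact x.asIdeal.zero_mem
    · rw [PrimeSpectrum.mem_zeroLocus]
      intro h
      exact hx (h (Set.mem_singleton _))

/-- Generic surjectivity. -/
theorem generic_surj [IsAlgClosed E] [CharZero E] [Fintype I] [Fintype J]
    (Ψ : J → MvPolynomial I E) (p : I → E)
    (hs : ∀ w : J → E, ∃ v : I → E, ∀ j, ∑ i, v i * eval p (pderiv i (Ψ j)) = w j)
    (F0 : MvPolynomial I E) (hF0 : F0 ≠ 0) :
    ∃ D : MvPolynomial J E, D ≠ 0 ∧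
      ∀ w : J → E, eval w D ≠ 0 → ∃ x : I → E, eval x F0 ≠ 0 ∧ ∀ j, eval x (Ψ j) = w j := by
  have hinj := aeval_injective Ψ p hs
  have hfp : (aeval (R := E) Ψ : MvPolynomial J E →+* MvPolynomial I E).FinitePresentation := by
    apply RingHom.FinitePresentation.of_finiteType.mp
    have : Algebra.FiniteType E (MvPolynomial I E) := inferInstance
    have h1 : (algebraMap E (MvPolynomial I E)).FiniteType :=
      RingHom.finiteType_algebraMap.mpr this
    have h2 : (algebraMap E (MvPolynomial I E)) =
      (aeval (R := E) Ψ : MvPolynomial J E →+* MvPolynomial I E).comp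
        (algebraMap E (MvPolynomial J E)) := by
      ext x; simp
    rw [h2] at h1
    exact RingHom.FiniteType.of_comp_finiteType h1
  obtain ⟨D, hD, hD2⟩ := range_contains_basicOpen _ hfp hinj F0 hF0
  refine ⟨D, hD, ?_⟩
  intro w hw
  have hmax : (vanishingIdeal E {w} : Ideal (MvPolynomial J E)).IsMaximal :=
    isMaximal_iff_eq_vanishingIdeal_singleton.mpr ⟨w, rfl⟩
  obtain ⟨q, hqF, hq⟩ := hD2 ⟨vanishingIdeal E {w}, hmax.isPrime⟩ (by
    change D ∉ vanishingIdeal E {w}
    rw [mem_vanishingIdeal_singleton_iff]
    exact hw)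
  have hqp := q.isPrime
  have hF1 : F0 ∉ q.asIdeal := hqF
  rw [← IsPrime.vanishingIdeal_zeroLocus (K := E) q.asIdeal, mem_vanishingIdeal_iff] at hF1
  push Not at hF1
  obtain ⟨x, hx, hx2⟩ := hF1
  rw [mem_zeroLocus_iff] at hx
  refine ⟨x, hx2, ?_⟩
  intro j
  have h1 : (X j - C (w j) : MvPolynomial J E) ∈ vanishingIdeal E {w} := by
    rw [mem_vanishingIdeal_singleton_iff]; simp
  have h2 : (X j - C (w j) : MvPolynomial J E) ∈ (PrimeSpectrum.comap
      (aeval (R := E) Ψ : MvPolynomial J E →+* MvPolynomial I E) q).asIdeal := by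
    rw [hq]; exact h1
  rw [PrimeSpectrum.comap_asIdeal, Ideal.mem_comap] at h2
  have h3 := hx _ h2
  simp at h3
  exact sub_eq_zero.mp h3

/-- A nonzero polynomial has a nonzero value at an integer point. -/
theorem exists_int_point [CharZero E] [Finite J] (D : MvPolynomial J E) (hD : D ≠ 0) :
    ∃ w : J → ℤ, eval (fun j => ((w j : ℤ) : E)) D ≠ 0 := by
  by_contra hcon
  push Not at hcon
  apply hD
  apply funext_set (s := fun _ => Set.range (Int.cast : ℤ → E))
  · intro j
    exact Set.infinite_range_of_injective Int.cast_injective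
  · intro x hx
    have : ∀ j, ∃ z : ℤ, (z : E) = x j := fun j => hx j (Set.mem_univ j)
    choose w hw using this
    have h1 := hcon w
    have h2 : (fun j => ((w j : ℤ) : E)) = x := funext hw
    rw [h2] at h1
    rw [h1, map_zero]

end

end LP319
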