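import Pool.Agent.Helper319LP.Pu

/-! Structure of elements of the algebraic closure of a Laurent series field. -/

namespace LP319

open Polynomial Pool.Agent.Helper165.P1

section sc

variable {R : Type*} [Field R]

/-- Rescaling of the variable. -/
noncomputable def sc (c : Rˣ) : HahnSeries ℤ R →+* HahnSeries ℤ R where
  toFun z :=
    { coeff := fun n => ((c ^ n : Rˣ) : R) * z.coeff n
      isPWO_support' := z.isPWO_support.mono (by
        intro n hn h0
        apply hn
        simp only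
        rw [h0, mul_zero]) }
  map_one' := by
    ext n
    simp only [HahnSeries.coeff_one]
    split_ifs with h
    · subst h; simp
    · simp
  map_mul' x y := by
    ext n
    rw [HahnSeries.coeff_mul]
    simp only
    rw [HahnSeries.coeff_mul, Finset.mul_sum]
    apply Finset.sum_congr
    · ext ij
      simp only [Finset.mem_antidiagonal, HahnSeries.mem_support, ne_eq, mul_eq_zero,
        Units.ne_zero, false_or]
    · intro ij hij
      rw [Finset.mem_antidiagonal] at hij
      rw [← hij.2.2, zpow_add, Units.val_mul]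
      ring
  map_zero' := by ext n; simp
  map_add' x y := by ext n; simp [mul_add]

theorem sc_coeff (c : Rˣ) (z : HahnSeries ℤ R) (n : ℤ) :
    (sc c z).coeff n = ((c ^ n : Rˣ) : R) * z.coeff n := rfl

theorem sc_single (c : Rˣ) (n : ℤ) (r : R) :
    sc c (HahnSeries.single n r) = HahnSeries.single n (((c ^ n : Rˣ) : R) * r) := by
  ext m
  rw [sc_coeff]
  by_cases h : m = n
  · subst h; simp
  · rw [HahnSeries.coeff_single_of_ne h, HahnSeries.coeff_single_of_ne h, mul_zero]

end sc

section dec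

variable {k kb : Type*} [Field k] [Field kb] [Algebra k kb]

theorem bddBelow_coeff (z : HahnSeries ℤ kb) : ∃ N : ℤ, ∀ n, z.coeff n ≠ 0 → N ≤ n := by
  by_cases hz : z = 0
  · exact ⟨0, fun n hn => absurd (by rw [hz]; simp) hn⟩
  · exact ⟨z.order, fun n hn => HahnSeries.order_le_of_coeff_ne_zero hn⟩

/-- Decomposition of a Laurent series with coefficients in a finite extension. -/
theorem dec (k' : IntermediateField k kb) [FiniteDimensional k k'] (m : ℕ) (hm : 0 < m)
    (z : HahnSeries ℤ kb) (hz : ∀ n, z.coeff n ∈ k') :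
    ∃ (x : Fin m → Fin (Module.finrank k k') → LaurentSeries k),
      z = ∑ j : Fin m, ∑ l, HahnSeries.single (j : ℤ) ((Module.finBasis k k' l : k') : kb) *
        hmap (algebraMap k kb) (NP.expandHom m hm (x j l)) := by
  classical
  let e := Module.finBasis k k'
  have hbdd : ∀ (j : Fin m) (l : Fin (Module.finrank k k')), BddBelow (Function.support
      (fun n : ℤ => e.repr ⟨z.coeff (m * n + j), hz _⟩ l)) := by
    intro j l
    obtain ⟨N, hN⟩ := bddBelow_coeff z
    refine ⟨- |N| - j, ?_⟩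
    intro n hn
    have h1 : z.coeff (m * n + j) ≠ 0 := by
      intro h0
      apply hn
      have : (⟨z.coeff (m * n + j), hz _⟩ : k') = 0 := Subtype.ext h0
      simp only
      rw [this, map_zero]; rfl
    have h2 := hN _ h1
    by_contra hcon
    push Not at hcon
    have h3 : (m : ℤ) ≥ 1 := by exact_mod_cast hm
    have h4 : (0 : ℤ) ≤ |N| := abs_nonneg N
    have h5 : - |N| ≤ N := neg_abs_le N
    have h6 : (0 : ℤ) ≤ (j : ℤ) := by positivity
    have h7 : n < 0 := by linarith
    have h8 : (m : ℤ) * n ≤ n := by nlinarith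
    linarith
  refine ⟨fun j l => HahnSeries.ofSuppBddBelow _ (hbdd j l), ?_⟩
  ext N
  rw [HahnSeries.coeff_sum]
  simp only [HahnSeries.coeff_sum, HahnSeries.coeff_single_mul, hmap_coeff]
  have hmz : (m : ℤ) ≠ 0 := by exact_mod_cast hm.ne'
  have hmod0 : 0 ≤ N % m := Int.emod_nonneg _ hmz
  have hmodlt : N % m < m := Int.emod_lt_of_pos _ (by exact_mod_cast hm)
  let j0 : Fin m := ⟨(N % m).toNat, by omega⟩
  have hj0 : ((j0 : ℕ) : ℤ) = N % m := Int.toNat_of_nonneg hmod0
  rw [Finset.sum_eq_single j0]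
  · have h1 : N - (j0 : ℤ) = (m : ℤ) * (N / m) := by
      rw [hj0]
      have := Int.mul_ediv_add_emod N m
      linarith
    simp only [h1, NP.expandHom_coeff, HahnSeries.coeff_ofSuppBddBelow]
    have h2 : (m : ℤ) * (N / m) + (j0 : ℤ) = N := by rw [← h1]; ring
    simp only [h2]
    have h3 := e.sum_repr ⟨z.coeff N, hz N⟩
    have h4 := congrArg (fun y : k' => (y : kb)) h3
    refine h4.symm.trans ?_
    push_cast
    apply Finset.sum_congr rfl
    intro l _
    rw [Algebra.smul_def, mul_comm]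
  · intro j _ hj
    apply Finset.sum_eq_zero
    intro l _
    rw [NP.expandHom_coeff_of_not_dvd, map_zero, mul_zero]
    intro hdvd
    apply hj
    have h1 : (N - (j : ℤ)) % m = 0 := Int.emod_eq_zero_of_dvd hdvd
    have h2 : N % m = (j : ℤ) % m := Int.emod_eq_emod_iff_emod_sub_eq_zero.mpr h1
    have h3 : (j : ℤ) % m = j := Int.emod_eq_of_lt (by positivity) (by exact_mod_cast j.2)
    apply Fin.ext
    have : ((j : ℕ) : ℤ) = ((j0 : ℕ) : ℤ) := by rw [hj0, h2, h3]
    exact_mod_cast this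
  · simp

end dec

section main

variable {k kb K Kb : Type*} [Field k] [Field kb] [Algebra k kb] [Field K] [Field Kb]
  [Algebra K Kb] {ψ : K ≃+* LaurentSeries k} {ι : Kb →+* HQ kb}

/-- The coefficients of an element lie in a finite extension. -/
theorem IsPu.coeff_fin [Algebra.IsAlgebraic K Kb] [Algebra.IsAlgebraic k kb] [IsAlgClosed Kb]
    [IsGalois k kb] (h : IsPu ψ ι) (x : Kb) :
    ∃ k' : IntermediateField k kb, FiniteDimensional k k' ∧ ∀ r, (ι x).coeff r ∈ k' := by
  obtain ⟨s, hs⟩ := h.exists_s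
  obtain ⟨S, hS⟩ := h.smooth hs x
  refine ⟨IntermediateField.adjoin k S, ?_, ?_⟩
  · apply IntermediateField.finiteDimensional_adjoin
    intro y _
    exact (Algebra.IsAlgebraic.isAlgebraic y).isIntegral
  · intro r
    rw [← InfiniteGalois.fixedField_fixingSubgroup (IntermediateField.adjoin k (S : Set kb)),
      IntermediateField.mem_fixedField_iff]
    intro τ hτ
    have h1 : s τ x = x := by
      apply hS
      intro y hy
      exact hτ ⟨y, IntermediateField.subset_adjoin _ _ hy⟩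
    have h2 := hs τ x
    rw [h1] at h2
    conv_rhs => rw [h2]
    rfl

/-- The form of an element of the algebraic closure. -/
theorem IsPu.form [Algebra.IsAlgebraic K Kb] [Algebra.IsAlgebraic k kb] [IsAlgClosed Kb]
    [IsGalois k kb] (h : IsPu ψ ι) {a : kb →+* Kb} (ha : ∀ c, ι (a c) = HahnSeries.single 0 c)
    (m : ℕ) (hm : 0 < m) {T : Kb} (hT : ι T = HahnSeries.single (1 / m : ℚ) 1)
    {z : HahnSeries ℤ kb} (k' : IntermediateField k kb) [FiniteDimensional k k']
    (hz : ∀ n, z.coeff n ∈ k') :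
    ∃ y : Fin m → Fin (Module.finrank k k') → K,
      z = ∑ j : Fin m, ∑ l, HahnSeries.single (j : ℤ) ((Module.finBasis k k' l : k') : kb) *
        hmap (algebraMap k kb) (NP.expandHom m hm (ψ (y j l))) ∧
      ι (∑ j : Fin m, ∑ l, a ((Module.finBasis k k' l : k') : kb) * T ^ (j : ℕ) *
        algebraMap K Kb (y j l)) = eHom m hm z := by
  obtain ⟨x, hx⟩ := dec k' m hm z hz
  refine ⟨fun j l => ψ.symm (x j l), ?_, ?_⟩
  · simp only [RingEquiv.apply_symm_apply]
    exact hx
  · rw [hx]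
    simp only [map_sum, map_mul, map_pow]
    apply Finset.sum_congr rfl
    intro j _
    apply Finset.sum_congr rfl
    intro l _
    rw [ha, hT, h.base, RingEquiv.apply_symm_apply, HahnSeries.single_pow,
      HahnSeries.single_mul_single]
    congr 1
    · unfold eHom
      rw [HahnSeries.embDomainRingHom_apply, HahnSeries.embDomain_single]
      have h1 : (0 : ℚ) + (j : ℕ) • (1 / m : ℚ) = divHom m (j : ℤ) := by
        change _ = (((j : ℕ) : ℤ) : ℚ) / m
        rw [nsmul_eq_mul]
        push_cast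
        ring
      rw [h1, one_pow, mul_one]
      rfl
    · unfold emb
      rw [RingHom.comp_apply]
      have h1 := eHom_expand 1 m one_pos hm (hmap (algebraMap k kb) (x j l))
      have h2 : NP.expandHom m hm (hmap (algebraMap k kb) (x j l)) =
          hmap (algebraMap k kb) (NP.expandHom m hm (x j l)) := by
        ext N
        rw [hmap_coeff]
        by_cases hN : (m : ℤ) ∣ N
        · obtain ⟨n, rfl⟩ := hN
          rw [NP.expandHom_coeff, NP.expandHom_coeff, hmap_coeff]
        · rw [NP.expandHom_coeff_of_not_dvd _ _ _ _ hN, NP.expandHom_coeff_of_not_dvd _ _ _ _ hN,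
            map_zero]
      rw [← h2, ← h1]
      exact eHom_congr (mul_one m) _ _ _

theorem IsPu.form' [Algebra.IsAlgebraic K Kb] [Algebra.IsAlgebraic k kb] [IsAlgClosed Kb]
    [IsGalois k kb] (h : IsPu ψ ι) {a : kb →+* Kb} (ha : ∀ c, ι (a c) = HahnSeries.single 0 c)
    (m : ℕ) (hm : 0 < m) {T : Kb} (hT : ι T = HahnSeries.single (1 / m : ℚ) 1)
    {z : HahnSeries ℤ kb} {x : Kb} (hx : ι x = eHom m hm z) :
    ∃ (d : ℕ) (e : Fin d → kb) (y : Fin m → Fin d → K),
      z = ∑ j : Fin m, ∑ l, HahnSeries.single (j : ℤ) (e l) *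
        hmap (algebraMap k kb) (NP.expandHom m hm (ψ (y j l))) ∧
      x = ∑ j : Fin m, ∑ l, a (e l) * T ^ (j : ℕ) * algebraMap K Kb (y j l) := by
  obtain ⟨k', hk', hc⟩ := h.coeff_fin x
  obtain ⟨y, hy1, hy2⟩ := h.form ha m hm hT (z := z) k' (by
    intro n
    have := hc ((n : ℚ) / m)
    rwa [hx, eHom_coeff] at this)
  refine ⟨_, fun l => ((Module.finBasis k k' l : k') : kb), y, hy1, ?_⟩
  apply h.inj
  rw [hy2, hx]

/-- Two automorphisms that agree on constants and on a root of the variable agree. -/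
theorem IsPu.agree [Algebra.IsAlgebraic K Kb] [Algebra.IsAlgebraic k kb] [IsAlgClosed Kb]
    [IsGalois k kb] (h : IsPu ψ ι) {a : kb →+* Kb} (ha : ∀ c, ι (a c) = HahnSeries.single 0 c)
    (m : ℕ) (hm : 0 < m) {T : Kb} (hT : ι T = HahnSeries.single (1 / m : ℚ) 1)
    {z : HahnSeries ℤ kb} {x : Kb} (hx : ι x = eHom m hm z) (σ σ' : Kb ≃ₐ[K] Kb)
    (h1 : ∀ c, σ (a c) = σ' (a c)) (h2 : σ T = σ' T) : σ x = σ' x := by
  obtain ⟨d, e, y, -, rfl⟩ := h.form' ha m hm hT hx
  simp only [map_sum, map_mul, map_pow, AlgEquiv.commutes, h1, h2]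

theorem IsPu.a_alg (h : IsPu ψ ι) {a : kb →+* Kb} (ha : ∀ c, ι (a c) = HahnSeries.single 0 c)
    (x : k) : a (algebraMap k kb x) = algebraMap K Kb (ψ.symm (HahnSeries.single 0 x)) := by
  apply h.inj
  rw [ha, h.base, RingEquiv.apply_symm_apply, emb_single]
  simp

/-- The restriction to constants. -/
theorem IsPu.exists_bar [IsAlgClosed kb] [Algebra.IsAlgebraic k kb] (h : IsPu ψ ι)
    {a : kb →+* Kb} (ha : ∀ c, ι (a c) = HahnSeries.single 0 c) (σ : Kb ≃ₐ[K] Kb) :
    ∃ σ' : kb ≃ₐ[k] kb, ∀ c, σ (a c) = a (σ' c) := by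
  obtain ⟨g, hg⟩ := liftThrough ((σ : Kb →+* Kb).comp a) a a.injective (by
    intro c
    have hP : minpoly k c ≠ 0 := minpoly.ne_zero (Algebra.IsAlgebraic.isAlgebraic c).isIntegral
    refine mem_of_root a ((minpoly k c).map (algebraMap k kb))
      ((Polynomial.map_ne_zero_iff (RingHom.injective _)).mpr hP) _ ?_
    rw [eval₂_map]
    have h1 : a.comp (algebraMap k kb) =
        ((σ : Kb →+* Kb).comp a).comp (algebraMap k kb) := by
      ext1 x
      simp only [RingHom.comp_apply]
      rw [h.a_alg ha]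
      exact (σ.commutes _).symm
    rw [h1, ← Polynomial.hom_eval₂, ← Polynomial.aeval_def, minpoly.aeval, map_zero])
  let g' : kb →ₐ[k] kb :=
    { g with
      commutes' := fun x => by
        apply a.injective
        change a (g (algebraMap k kb x)) = _
        rw [hg]
        simp only [RingHom.comp_apply]
        rw [h.a_alg ha]
        exact σ.commutes _ }
  refine ⟨AlgEquiv.ofBijective g' (Algebra.IsAlgebraic.algHom_bijective g'), ?_⟩
  intro c
  exact (hg c).symm

theorem IsPu.s_alg (h : IsPu ψ ι) {a : kb →+* Kb} (ha : ∀ c, ι (a c) = HahnSeries.single 0 c)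
    {s : (kb ≃ₐ[k] kb) →* (Kb ≃ₐ[K] Kb)}
    (hs : ∀ σ x, ι (s σ x) = hmap (σ : kb →+* kb) (ι x)) (σ : kb ≃ₐ[k] kb) (c : kb) :
    s σ (a c) = a (σ c) := by
  apply h.inj
  rw [hs, ha, ha, hmap_single]; rfl

theorem IsPu.s_T (h : IsPu ψ ι) {s : (kb ≃ₐ[k] kb) →* (Kb ≃ₐ[K] Kb)}
    (hs : ∀ σ x, ι (s σ x) = hmap (σ : kb →+* kb) (ι x)) (σ : kb ≃ₐ[k] kb) {T : Kb} {r : ℚ}
    (hT : ι T = HahnSeries.single r 1) : s σ T = T := by
  apply h.inj
  rw [hs, hT, hmap_single, map_one]

theorem IsPu.T_pow (h : IsPu ψ ι) (m : ℕ) (hm : 0 < m) {T : Kb}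
    (hT : ι T = HahnSeries.single (1 / m : ℚ) 1) :
    T ^ m = algebraMap K Kb (ψ.symm (HahnSeries.single 1 1)) := by
  apply h.inj
  rw [map_pow, hT, h.base, RingEquiv.apply_symm_apply, emb_single, HahnSeries.single_pow,
    one_pow, (algebraMap k kb).map_one]
  have : m • (1 / m : ℚ) = ((1 : ℤ) : ℚ) := by
    have : (m : ℚ) ≠ 0 := by exact_mod_cast hm.ne'
    rw [nsmul_eq_mul]
    push_cast
    field_simp
  rw [this]

theorem eHom_single (m : ℕ) (hm : 0 < m) (n : ℤ) (c : kb) :
    eHom m hm (HahnSeries.single n c) = HahnSeries.single ((n : ℚ) / m) c := by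
  unfold eHom
  rw [HahnSeries.embDomainRingHom_apply, HahnSeries.embDomain_single]
  rfl

theorem expand_hmap (m : ℕ) (hm : 0 < m) (x : LaurentSeries k) :
    NP.expandHom m hm (hmap (algebraMap k kb) x) = hmap (algebraMap k kb) (NP.expandHom m hm x) := by
  ext N
  rw [hmap_coeff]
  by_cases hN : (m : ℤ) ∣ N
  · obtain ⟨n, rfl⟩ := hN
    rw [NP.expandHom_coeff, NP.expandHom_coeff, hmap_coeff]
  · rw [NP.expandHom_coeff_of_not_dvd _ _ _ _ hN, NP.expandHom_coeff_of_not_dvd _ _ _ _ hN,
      map_zero]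

theorem eHom_expand_emb (m : ℕ) (hm : 0 < m) (x : LaurentSeries k) :
    eHom m hm (hmap (algebraMap k kb) (NP.expandHom m hm x)) = emb k kb x := by
  rw [← expand_hmap]
  have h1 := eHom_expand 1 m one_pos hm (hmap (algebraMap k kb) x)
  unfold emb
  rw [RingHom.comp_apply, ← h1]
  exact (eHom_congr (mul_one m) _ _ _).symm

/-- The action of an automorphism in terms of coefficients. -/
theorem IsPu.cf [Algebra.IsAlgebraic K Kb] [IsAlgClosed kb] [Algebra.IsAlgebraic k kb]
    [IsAlgClosed Kb] [IsGalois k kb] (h : IsPu ψ ι) {a : kb →+* Kb}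
    (ha : ∀ c, ι (a c) = HahnSeries.single 0 c)
    (m : ℕ) (hm : 0 < m) {T : Kb} (hT : ι T = HahnSeries.single (1 / m : ℚ) 1)
    (σ : Kb ≃ₐ[K] Kb) (σ' : kb ≃ₐ[k] kb) (hσ : ∀ c, σ (a c) = a (σ' c)) :
    ∃ ζ : kbˣ, ζ ^ m = 1 ∧ σ T = a ζ * T ∧ ∀ x z, ι x = eHom m hm z →
      ι (σ x) = eHom m hm (sc ζ (hmap (σ' : kb →+* kb) z)) := by
  have hT0 : T ≠ 0 := by
    rintro rfl
    rw [map_zero] at hT
    have := congrArg (fun x => HahnSeries.coeff x (1 / m : ℚ)) hT
    simp at this
  obtain ⟨c, hc⟩ := root_unity_mem a m hm.ne' (σ T / T) (by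
    rw [div_pow, ← map_pow, h.T_pow m hm hT, AlgEquiv.commutes, ← h.T_pow m hm hT]
    exact div_self (pow_ne_zero _ hT0))
  have hσT : σ T = a c * T := by rw [hc, div_mul_cancel₀ _ hT0]
  have hc0 : c ≠ 0 := by
    rintro rfl
    rw [map_zero, zero_mul] at hσT
    exact hT0 ((map_eq_zero_iff σ σ.injective).mp hσT)
  have hcm : c ^ m = 1 := by
    apply a.injective
    rw [map_pow, hc, div_pow, ← map_pow, h.T_pow m hm hT, AlgEquiv.commutes,
      ← h.T_pow m hm hT, div_self (pow_ne_zero _ hT0), map_one]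
  refine ⟨Units.mk0 c hc0, Units.ext (by simpa using hcm), hσT, ?_⟩
  intro x z hx
  obtain ⟨d, e, y, hz, hx2⟩ := h.form' ha m hm hT hx
  rw [hx2, hz]
  simp only [map_sum, map_mul, map_pow, AlgEquiv.commutes, hσ, hσT]
  apply Finset.sum_congr rfl
  intro j _
  apply Finset.sum_congr rfl
  intro l _
  congr 1
  · rw [hmap_single, sc_single, eHom_single, ha, ha, hT, HahnSeries.single_mul_single,
      HahnSeries.single_pow, HahnSeries.single_mul_single]
    have e1 : (0 : ℚ) + (j : ℕ) • (0 + 1 / m : ℚ) = ((j : ℕ) : ℤ) / m := by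
      rw [nsmul_eq_mul]
      push_cast
      ring
    have e2 : σ' (e l) * (c * 1) ^ (j : ℕ) =
        (((Units.mk0 c hc0) ^ (((j : ℕ) : ℤ)) : kbˣ) : kb) * (σ' : kb →+* kb) (e l) := by
      rw [zpow_natCast, Units.val_pow_eq_pow_val, Units.val_mk0, mul_one, mul_comm]
      rfl
    rw [e1]
    congr 1
  · rw [h.base]
    have e1 : sc (Units.mk0 c hc0) (hmap (σ' : kb →+* kb) (hmap (algebraMap k kb)
        (NP.expandHom m hm (ψ (y j l))))) =
        hmap (algebraMap k kb) (NP.expandHom m hm (ψ (y j l))) := by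
      ext N
      rw [sc_coeff, hmap_coeff, hmap_coeff]
      have e2 : (σ' : kb →+* kb) (algebraMap k kb ((NP.expandHom m hm (ψ (y j l))).coeff N)) =
        algebraMap k kb ((NP.expandHom m hm (ψ (y j l))).coeff N) := σ'.commutes _
      rw [e2]
      by_cases hN : (m : ℤ) ∣ N
      · obtain ⟨n, rfl⟩ := hN
        have e3 : (Units.mk0 c hc0) ^ ((m : ℤ) * n) = 1 := by
          rw [zpow_mul, zpow_natCast]
          have : (Units.mk0 c hc0) ^ m = 1 := Units.ext (by simpa using hcm)
          rw [this, one_zpow]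
        rw [e3, Units.val_one, one_mul]
      · rw [NP.expandHom_coeff_of_not_dvd _ _ _ _ hN, map_zero, mul_zero]
    rw [e1, eHom_expand_emb]

end main

end LP319
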