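import Pool.Agent.Helper319LP.Def
import Pool.Agent.Helper319LP.Pu2

/-! Specialisation of torsors over a field of Laurent series to the residue field. -/

namespace LP319

universe u

open Polynomial Pool.Agent.Helper165.P1

set_option linter.unusedSectionVars false

/-- Galois automorphisms as ring automorphisms. -/
def galR (L F : Type*) [Field L] [Field F] [Algebra L F] : (F ≃ₐ[L] F) →* RingAut F where
  toFun σ := σ.toRingEquiv
  map_one' := rfl
  map_mul' _ _ := rfl

theorem galR_apply (L F : Type*) [Field L] [Field F] [Algebra L F] (σ : F ≃ₐ[L] F) (x : F) :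
    galR L F σ x = σ x := rfl

section

variable {ty : Ty} {n : ℕ} {L : Type u} [Field L]

theorem gact_eq (σ : GalG L) (g : GL (Idx ty n) (AlgebraicClosure L)) :
    gact σ g = ga ((galR L (AlgebraicClosure L) σ : RingAut _) : AlgebraicClosure L →+* _) g := rfl

theorem Torsor.isCoc (T : Torsor ty n L) : IsCoc (galR L (AlgebraicClosure L))
    (LieAlg ty n (AlgebraicClosure L)) T.m T.b := by
  have hc : ∃ S : Finset (AlgebraicClosure L), ∀ σ τ : GalG L, (∀ x ∈ S, τ x = x) →
      T.m (σ * τ) = T.m σ ∧ T.b (σ * τ) = T.b σ := by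
    classical
    obtain ⟨M, hM, h⟩ := T.fin
    refine ⟨Finset.univ.image (fun l => ((Module.finBasis L M l : M) : AlgebraicClosure L)), ?_⟩
    intro σ τ hτ
    apply h
    intro x hx
    have h1 := (Module.finBasis L M).sum_repr ⟨x, hx⟩
    have h2 : ∑ l, ((Module.finBasis L M).repr ⟨x, hx⟩ l) •
        ((Module.finBasis L M l : M) : AlgebraicClosure L) = x := by
      have := congrArg M.val h1
      rw [map_sum] at this
      simp only [map_smul] at this
      exact this
    rw [← h2, map_sum]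
    apply Finset.sum_congr rfl
    intro l _
    rw [map_smul, hτ _ (Finset.mem_image.mpr ⟨l, Finset.mem_univ _, rfl⟩)]
  obtain ⟨S, hS⟩ := hc
  exact
    { pc := ⟨T.m_mem, T.m_coc, ⟨S, fun σ τ hτ => (hS σ τ hτ).1⟩⟩
      mem := T.b_mem
      coc := T.b_coc
      cont := ⟨S, fun σ τ hτ => (hS σ τ hτ).2⟩ }

theorem Torsor.of_isCoc {m b : GalG L → GL (Idx ty n) (AlgebraicClosure L)}
    (h : IsCoc (galR L (AlgebraicClosure L)) (LieAlg ty n (AlgebraicClosure L)) m b) :
    ∃ T : Torsor ty n L, T.m = m ∧ T.b = b := by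
  classical
  obtain ⟨S, hS⟩ := h.pc.cont
  obtain ⟨S', hS'⟩ := h.cont
  refine ⟨⟨m, b, h.pc.nor, h.pc.coc, h.mem, h.coc,
    IntermediateField.adjoin L ((S ∪ S' : Finset _) : Set (AlgebraicClosure L)), ?_, ?_⟩, rfl, rfl⟩
  · apply IntermediateField.finiteDimensional_adjoin
    intro x _
    exact (Algebra.IsAlgebraic.isAlgebraic x).isIntegral
  · intro σ τ hτ
    constructor
    · apply hS
      intro x hx
      apply hτ
      apply IntermediateField.subset_adjoin
      simp [hx]
    · apply hS'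
      intro x hx
      apply hτ
      apply IntermediateField.subset_adjoin
      simp [hx]

/-- Every torsor acquires a point over a finite extension. -/
theorem Torsor.exists_point (T : Torsor ty n L) : ∃ M : IntermediateField L (AlgebraicClosure L),
    FiniteDimensional L M ∧ T.HasPoint M.val := by
  obtain ⟨M, hM, h⟩ := T.fin
  refine ⟨M, hM, 1, one_mem _, ?_⟩
  intro σ hσ
  have h1 : T.m 1 ∈ Cen (LieAlg ty n (AlgebraicClosure L)) := T.isCoc.pc.one
  have h2 : T.b 1 = 1 := by
    have h3 := T.b_coc 1 1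
    have h4 : gact (1 : GalG L) (T.b 1) = T.b 1 := by
      apply Units.ext
      ext i j
      rfl
    rw [h4, mul_one, ← G_comm_C (T.b_mem 1) h1, mul_inv_cancel_right] at h3
    exact left_eq_mul.mp h3
  have h5 := (h 1 σ (fun x hx => hσ ⟨x, hx⟩)).2
  rw [one_mul] at h5
  rw [h5, h2, map_one]
  group

end

section special

variable {k K : Type u} [Field k] [Field K] [CharZero k] [CharZero K] {ty : Ty} {n : ℕ}
  {ψ : K ≃+* LaurentSeries k}

/-- Specialisation of torsors. -/
theorem special {ι : AlgebraicClosure K →+* HQ (AlgebraicClosure k)} (h : IsPu ψ ι)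
    {a : AlgebraicClosure k →+* AlgebraicClosure K} (ha : ∀ c, ι (a c) = HahnSeries.single 0 c)
    (T : Torsor ty n K) :
    ∃ T0 : Torsor ty n k, ∀ (M : Type u) [Field M] [Algebra k M]
      (i : M →ₐ[k] AlgebraicClosure k), T0.HasPoint i →
      ∃ (m : ℕ) (_ : 0 < m) (t : AlgebraicClosure K), Even m ∧
        ι t = HahnSeries.single (1 / m : ℚ) 1 ∧
        ∃ g ∈ Gp (LieAlg ty n (AlgebraicClosure K)), ∀ σ : GalG K,
          (∀ x : M, σ (a (i x)) = a (i x)) → σ t = t →
          T.b σ = g⁻¹ * (T.m σ * gact σ g * (T.m σ)⁻¹) := by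
  classical
  obtain ⟨s, hs⟩ := h.exists_s
  let ρF : GalG k →* RingAut (AlgebraicClosure K) := (galR K (AlgebraicClosure K)).comp s
  let ρE : GalG k →* RingAut (AlgebraicClosure k) := galR k (AlgebraicClosure k)
  have hT := T.isCoc
  -- the restricted cocycle
  have hcontr : ∀ {α : Type u} (f : GalG K → α), Cont (galR K (AlgebraicClosure K)) f →
      Cont ρF (fun σ => f (s σ)) := by
    rintro α f ⟨S, hS⟩
    refine ⟨S, fun σ τ hτ => ?_⟩
    simp only
    rw [map_mul]
    exact hS _ _ hτ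
  have hTs : IsCoc ρF (LieAlg ty n (AlgebraicClosure K)) (fun σ => T.m (s σ))
      (fun σ => T.b (s σ)) :=
    { pc := ⟨fun σ => hT.pc.nor _, fun σ τ => by
        rw [map_mul]; exact hT.pc.coc _ _, hcontr _ hT.pc.cont⟩
      mem := fun σ => hT.mem _
      coc := fun σ τ => by
        rw [map_mul]; exact hT.coc _ _
      cont := hcontr _ hT.cont }
  let _ : Algebra (AlgebraicClosure k) (AlgebraicClosure K) := a.toAlgebra
  obtain ⟨m0, b0, h0, htr⟩ := transfer (E := AlgebraicClosure k) (F := AlgebraicClosure K)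
    (lcK ι) (fun x => lcK_alg ha x) (ρE := ρE) (ρF := ρF)
    (fun σ x => h.s_alg ha hs σ x) (fun σ x => lcK_hmap h hs σ x)
    (fun N hN x hx => lc_root ha N hN x hx) (fun N hN x hx => lc_uniq ha N hN x hx)
    (fun x => by
      have hP : minpoly K x ≠ 0 := minpoly.ne_zero (Algebra.IsAlgebraic.isAlgebraic x).isIntegral
      apply ((minpoly K x).aroots (AlgebraicClosure K)).toFinset.finite_toSet.subset
      rintro _ ⟨σ, rfl⟩
      simp only [Finset.mem_coe, Multiset.mem_toFinset]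
      rw [mem_aroots]
      refine ⟨hP, ?_⟩
      change aeval (s σ x) (minpoly K x) = 0
      rw [Polynomial.aeval_algHom_apply, minpoly.aeval, map_zero])
    (fun x => h.smooth hs x) hTs
  obtain ⟨T0, hT0m, hT0b⟩ := Torsor.of_isCoc h0
  refine ⟨T0, ?_⟩
  intro M _ _ i hi
  -- split over the fixing subgroup
  let Γ' : Subgroup (GalG k) :=
    { carrier := {σ | ∀ x : M, σ (i x) = i x}
      mul_mem' := fun {σ τ} hσ hτ x => by rw [AlgEquiv.mul_apply, hτ x, hσ x]
      one_mem' := fun x => rfl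
      inv_mem' := fun {σ} hσ x => by
        nth_rewrite 1 [← hσ x]
        rw [← AlgEquiv.mul_apply, inv_mul_cancel]; rfl }
  obtain ⟨g, hg, hg2⟩ := htr Γ' (by
    obtain ⟨g0, hg0, hg1⟩ := hi
    refine ⟨g0, hg0, fun σ hσ => ?_⟩
    have := hg1 σ hσ
    rw [hT0m, hT0b] at this
    exact this)
  obtain ⟨Sm, hSm⟩ := hT.pc.cont
  obtain ⟨Sb, hSb⟩ := hT.cont
  obtain ⟨Sg, hSg⟩ := ga_fix (ρ := galR K (AlgebraicClosure K)) g
  let S : Finset (AlgebraicClosure K) := Sm ∪ Sb ∪ Sg
  obtain ⟨m1, hm1, hS1⟩ := exists_common (E := AlgebraicClosure k)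
    (S.image (fun x => (⟨ι x, h.pui x⟩ : Pui (AlgebraicClosure k))))
  have hm : 0 < 2 * m1 := by omega
  have hz : ∀ x ∈ S, ∃ z, ι x = eHom (2 * m1) hm z := by
    intro x hx
    obtain ⟨z, hz⟩ := hS1 ⟨ι x, h.pui x⟩ (Finset.mem_image.mpr ⟨x, hx, rfl⟩)
    refine ⟨NP.expandHom 2 two_pos z, ?_⟩
    rw [eHom_expand m1 2 hm1 two_pos, hz]
  obtain ⟨t, ht⟩ := h.exists_T (1 / (2 * m1 : ℕ) : ℚ)
  refine ⟨2 * m1, hm, t, even_two_mul m1, ht, g, hg, ?_⟩
  intro σ hσM hσt
  obtain ⟨σ', hσ'⟩ := h.exists_bar ha σ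
  have hmem : σ' ∈ Γ' := by
    intro x
    apply a.injective
    rw [← hσ']
    exact hσM x
  have hagree : ∀ x ∈ S, σ x = s σ' x := by
    intro x hx
    obtain ⟨z, hz⟩ := hz x hx
    apply h.agree ha (2 * m1) hm ht hz σ (s σ')
    · intro c
      rw [hσ', h.s_alg ha hs]
    · rw [hσt, h.s_T hs σ' ht]
  have hfix : ∀ x ∈ S, ((s σ')⁻¹ * σ) x = x := by
    intro x hx
    rw [AlgEquiv.mul_apply, hagree x hx, ← AlgEquiv.mul_apply, inv_mul_cancel]; rfl
  have hσeq : σ = s σ' * ((s σ')⁻¹ * σ) := by group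
  have hmσ : T.m σ = T.m (s σ') := by
    rw [hσeq]
    exact hSm _ _ (fun x hx => hfix x (by simp [S, hx]))
  have hbσ : T.b σ = T.b (s σ') := by
    rw [hσeq]
    exact hSb _ _ (fun x hx => hfix x (by simp [S, hx]))
  have hgσ : gact σ g = gact (s σ') g := by
    have h1 := ga_ga (galR K (AlgebraicClosure K)) (s σ') ((s σ')⁻¹ * σ) g
    rw [hSg ((s σ')⁻¹ * σ) (fun x hx => hfix x (by simp [S, hx])), ← hσeq] at h1
    exact h1
  rw [hmσ, hbσ, hgσ]
  exact hg2 σ' hmem

end special

end LP319
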