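import Pool.Agent.Helper319LP.GS
import Pool.Agent.Helper319LP.Frm

/-! Generic elements of the Lie algebra are conjugate to regular diagonal elements. -/

namespace LP319

open Matrix MvPolynomial

set_option linter.unusedSectionVars false

section deriv

variable {I F κ : Type*} [Field F] [Fintype I] [Fintype κ] [DecidableEq κ]

/-- Directional derivative at `p` along `v`. -/
noncomputable def dv (p v : I → F) : MvPolynomial I F →ₗ[F] F :=
  ∑ i, v i • ((aeval (R := F) p).toLinearMap.comp ((pderiv i : Derivation F _ _) : _ →ₗ[F] _))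

theorem dv_apply (p v : I → F) (f : MvPolynomial I F) :
    dv p v f = ∑ i, v i * eval p (pderiv i f) := by
  simp only [dv, LinearMap.sum_apply, LinearMap.smul_apply, LinearMap.comp_apply, smul_eq_mul]
  rfl

theorem dv_mul (p v : I → F) (f g : MvPolynomial I F) :
    dv p v (f * g) = dv p v f * eval p g + eval p f * dv p v g := by
  simp only [dv_apply, Derivation.leibniz, smul_eq_mul, map_add, map_mul, Finset.sum_mul,
    Finset.mul_sum, ← Finset.sum_add_distrib]
  apply Finset.sum_congr rfl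
  intro i _
  ring

theorem dv_C (p v : I → F) (a : F) : dv p v (C a) = 0 := by
  simp [dv_apply]

theorem dv_X (p v : I → F) (i : I) : dv p v (X i) = v i := by
  classical
  rw [dv_apply, Finset.sum_eq_single i]
  · simp
  · intro j _ hj
    rw [pderiv_X_of_ne (Ne.symm hj)]; simp
  · simp

theorem dM_mul (p v : I → F) (A B : Matrix κ κ (MvPolynomial I F)) :
    (A * B).map (dv p v) = A.map (dv p v) * B.map (eval p) + A.map (eval p) * B.map (dv p v) := by
  ext i j
  simp only [Matrix.map_apply, Matrix.mul_apply, Matrix.add_apply, map_sum, dv_mul,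
    Finset.sum_add_distrib]

theorem dM_one (p v : I → F) : (1 : Matrix κ κ (MvPolynomial I F)).map (dv p v) = 0 := by
  ext i j
  rw [Matrix.map_apply, Matrix.one_apply]
  split_ifs
  · have := dv_C p v (1 : F)
    rw [map_one] at this
    exact this
  · simp

theorem eM_mul (p : I → F) (A B : Matrix κ κ (MvPolynomial I F)) :
    (A * B).map (eval p) = A.map (eval p) * B.map (eval p) := Matrix.map_mul

/-- The factor `1 + x E`. -/
noncomputable def fac (x : MvPolynomial I F) (E : Matrix κ κ F) :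
    Matrix κ κ (MvPolynomial I F) := 1 + x • E.map C

theorem eM_smul (p : I → F) (x : MvPolynomial I F) (E : Matrix κ κ F) :
    (x • E.map C).map (eval p) = eval p x • E := by
  ext i j
  simp [Matrix.map_apply, Matrix.smul_apply]

theorem dM_smul (p v : I → F) (x : MvPolynomial I F) (E : Matrix κ κ F) :
    (x • E.map C).map (dv p v) = dv p v x • E := by
  ext i j
  rw [Matrix.map_apply, Matrix.smul_apply, Matrix.map_apply, smul_eq_mul, dv_mul, dv_C, eval_C,
    mul_zero, add_zero]
  rfl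

theorem eM_fac (p : I → F) (x : MvPolynomial I F) (E : Matrix κ κ F) :
    (fac x E).map (eval p) = 1 + eval p x • E := by
  have : (fac x E).map (eval p) = (1 : Matrix κ κ (MvPolynomial I F)).map (eval p) +
      (x • E.map C).map (eval p) := Matrix.map_add _ (map_add _) _ _
  rw [this, eM_smul, Matrix.map_one _ (map_zero _) (map_one _)]

theorem dM_fac (p v : I → F) (x : MvPolynomial I F) (E : Matrix κ κ F) :
    (fac x E).map (dv p v) = dv p v x • E := by
  have : (fac x E).map (dv p v) = (1 : Matrix κ κ (MvPolynomial I F)).map (dv p v) +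
      (x • E.map C).map (dv p v) := Matrix.map_add _ (map_add _) _ _
  rw [this, dM_smul, dM_one, zero_add]

/-- Product of factors. -/
noncomputable def Pm (l : List (MvPolynomial I F × Matrix κ κ F)) :
    Matrix κ κ (MvPolynomial I F) := (l.map fun k => fac k.1 k.2).prod

theorem eM_Pm (p : I → F) (l : List (MvPolynomial I F × Matrix κ κ F)) :
    (Pm l).map (eval p) = (l.map fun k => 1 + eval p k.1 • k.2).prod := by
  induction l with
  | nil => simp [Pm, Matrix.map_one _ (map_zero (eval p)) (map_one _)]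
  | cons a l ih =>
    have : Pm (a :: l) = fac a.1 a.2 * Pm l := by simp [Pm]
    rw [this, eM_mul, ih, eM_fac]
    simp

theorem dM_Pm (p v : I → F) (l : List (MvPolynomial I F × Matrix κ κ F))
    (hl : ∀ k ∈ l, eval p k.1 = 0) :
    (Pm l).map (eval p) = 1 ∧ (Pm l).map (dv p v) = (l.map fun k => dv p v k.1 • k.2).sum := by
  induction l with
  | nil => simp [Pm, Matrix.map_one _ (map_zero (eval p)) (map_one _), dM_one]
  | cons a l ih =>
    have h1 : Pm (a :: l) = fac a.1 a.2 * Pm l := by simp [Pm]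
    obtain ⟨h2, h3⟩ := ih (fun k hk => hl k (List.mem_cons_of_mem _ hk))
    have h4 : eval p a.1 = 0 := hl a List.mem_cons_self
    constructor
    · rw [h1, eM_mul, h2, eM_fac, h4]; simp
    · rw [h1, dM_mul, h2, h3, eM_fac, dM_fac, h4]; simp

end deriv

section regular

variable {ty : Ty} {n : ℕ} {F : Type*} [Field F]

/-- The coefficient of the coroot `k` at the diagonal position `p`. -/
def hc (F : Type*) [Field F] (k : Rt ty × Fin n) (p : Idx ty n) : F :=
  if p.2 = k.2 then ((ip k.1.1 p.1.1 : ℤ) : F) else 0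

/-- The diagonal element with coordinates `y`. -/
noncomputable def Hy (y : Rt ty × Fin n → F) : Matrix (Idx ty n) (Idx ty n) F :=
  ∑ k, y k • rH ty n F k.1.1 k.2

theorem Hy_eq (y : Rt ty × Fin n → F) : Hy y = Matrix.diagonal (fun p => ∑ k, y k * hc F k p) := by
  ext p q
  unfold Hy
  rw [Matrix.sum_apply]
  by_cases h : p = q
  · subst h
    rw [Matrix.diagonal_apply_eq]
    apply Finset.sum_congr rfl
    intro k _
    rw [Matrix.smul_apply, rH, Matrix.diagonal_apply_eq, smul_eq_mul]; rfl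
  · rw [Matrix.diagonal_apply_ne _ h]
    apply Finset.sum_eq_zero
    intro k _
    rw [Matrix.smul_apply, rH, Matrix.diagonal_apply_ne _ h, smul_zero]

/-- The value of the root `c` on the component `j` at `Hy y`. -/
noncomputable def al (y : Rt ty × Fin n → F) (c : Rt ty × Fin n) : F :=
  ∑ k, y k * (if k.2 = c.2 then ((ip k.1.1 c.1.1 : ℤ) : F) else 0)

theorem Hy_comm (y : Rt ty × Fin n → F) (c : Rt ty × Fin n) :
    rE ty n F c.1.1 c.2 * Hy y - Hy y * rE ty n F c.1.1 c.2 = - al y c • rE ty n F c.1.1 c.2 := by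
  unfold Hy al
  rw [Finset.mul_sum, Finset.sum_mul, ← Finset.sum_sub_distrib, ← Finset.sum_neg_distrib,
    Finset.sum_smul]
  apply Finset.sum_congr rfl
  intro k _
  have h := rH_comm_rE (ty := ty) (n := n) (L := F) (b := k.1.1) (c := c.1.1) k.2 c.2
  rw [Matrix.mul_smul, Matrix.smul_mul, ← smul_sub, neg_smul, mul_smul, ← h, ← smul_neg,
    neg_sub]

theorem exists_reg [CharZero F] : ∃ y : Rt ty × Fin n → F, (∀ c, al y c ≠ 0) ∧
    ∀ p q : Idx ty n, p ≠ q → ∑ k, y k * hc F k p ≠ ∑ k, y k * hc F k q := by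
  classical
  let Q := (Rt ty × Fin n) ⊕ {pq : Idx ty n × Idx ty n // pq.1 ≠ pq.2}
  let co : Q → (Rt ty × Fin n → F) := Sum.elim
    (fun c k => if k.2 = c.2 then ((ip k.1.1 c.1.1 : ℤ) : F) else 0)
    (fun pq k => hc F k pq.1.1 - hc F k pq.1.2)
  let f : Q → Module.Dual F (Rt ty × Fin n → F) := fun q =>
    ∑ k, co q k • LinearMap.proj k
  have hf : ∀ q y, f q y = ∑ k, y k * co q k := by
    intro q y
    simp only [f, LinearMap.sum_apply, LinearMap.smul_apply, LinearMap.proj_apply, smul_eq_mul]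
    apply Finset.sum_congr rfl
    intro k _; ring
  have hex : ∀ q, ∃ y, f q y ≠ 0 := by
    intro q
    have hsing : ∀ k0, f q (Pi.single k0 1) = co q k0 := by
      intro k0
      rw [hf, Finset.sum_eq_single k0]
      · simp
      · intro k _ hk; rw [Pi.single_eq_of_ne hk, zero_mul]
      · simp
    rcases q with c | ⟨⟨p, q⟩, hpq⟩
    · refine ⟨Pi.single c 1, ?_⟩
      rw [hsing]
      simp only [co, Sum.elim_inl, if_true]
      rw [c.1.2.ipself]
      norm_num
    · by_cases h2 : p.2 = q.2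
      · have hne : p.1.1 ≠ q.1.1 := fun h => hpq (Prod.ext (Subtype.ext h) h2)
        have : ∃ b, IsRt ty b ∧ ip b p.1.1 ≠ ip b q.1.1 := by
          by_contra hcon
          push Not at hcon
          exact hne (sep p.1.2 q.1.2 hcon)
        obtain ⟨b, hb, hb2⟩ := this
        refine ⟨Pi.single (⟨b, hb⟩, p.2) 1, ?_⟩
        rw [hsing]
        simp only [co, Sum.elim_inr, hc, if_true, h2.symm]
        rw [sub_ne_zero]
        exact fun h => hb2 (Int.cast_injective h)
      · obtain ⟨b, hb, hb2⟩ := wt_nz p.1.2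
        refine ⟨Pi.single (⟨b, hb⟩, p.2) 1, ?_⟩
        rw [hsing]
        simp only [co, Sum.elim_inr, hc, if_true]
        rw [if_neg (fun h => h2 h.symm), sub_zero]
        exact Int.cast_ne_zero.mpr hb2
  obtain ⟨y, hy⟩ := Module.Dual.exists_forall_ne_zero_of_forall_exists f hex
  refine ⟨y, ?_, ?_⟩
  · intro c
    have := hy (Sum.inl c)
    rw [hf] at this
    exact this
  · intro p q hpq
    have := hy (Sum.inr ⟨(p, q), hpq⟩)
    rw [hf] at this
    simp only [co, Sum.elim_inr, mul_sub, Finset.sum_sub_distrib] at this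
    exact sub_ne_zero.mp this

end regular

section gen

variable {ty : Ty} {n : ℕ} {F : Type*} [Field F]

theorem lin_expand {κ : Type*} [Fintype κ] [DecidableEq κ] (l : Matrix κ κ F →ₗ[F] F)
    (A : Matrix κ κ F) : l A = ∑ p, ∑ q, l (Matrix.single p q 1) * A p q := by
  conv_lhs => rw [Matrix.matrix_eq_sum_single A]
  simp only [map_sum]
  apply Finset.sum_congr rfl; intro p _
  apply Finset.sum_congr rfl; intro q _
  have : Matrix.single p q (A p q) = A p q • Matrix.single p q (1 : F) := by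
    rw [Matrix.smul_single, smul_eq_mul, mul_one]
  rw [this, map_smul, smul_eq_mul, mul_comm]

/-- The group element with coordinates `a`. -/
noncomputable def gx (a : Rt ty × Fin n → F) : GL (Idx ty n) F :=
  ((Finset.univ : Finset (Rt ty × Fin n)).toList.map (fun k => rx k.1.2 k.2 (a k))).prod

theorem gx_mem [CharZero F] (a : Rt ty × Fin n → F) : gx a ∈ Gp (LieAlg ty n F) := by
  unfold gx
  apply list_prod_mem
  intro x hx
  rw [List.mem_map] at hx
  obtain ⟨k, _, rfl⟩ := hx
  exact rx_mem k.1.2 k.2 (a k)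

theorem gx_val (a : Rt ty × Fin n → F) : (gx a : Matrix (Idx ty n) (Idx ty n) F) =
    ((Finset.univ : Finset (Rt ty × Fin n)).toList.map
      (fun k => 1 + a k • rE ty n F k.1.1 k.2)).prod := by
  unfold gx
  have := map_list_prod (Units.coeHom (Matrix (Idx ty n) (Idx ty n) F))
    ((Finset.univ : Finset (Rt ty × Fin n)).toList.map (fun k => rx k.1.2 k.2 (a k)))
  rw [Units.coeHom_apply] at this
  rw [this, List.map_map]
  rfl

theorem gx_inv_val (a : Rt ty × Fin n → F) :
    (((gx a)⁻¹ : GL (Idx ty n) F) : Matrix (Idx ty n) (Idx ty n) F) =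
    ((Finset.univ : Finset (Rt ty × Fin n)).toList.reverse.map
      (fun k => 1 + a k • (- rE ty n F k.1.1 k.2))).prod := by
  unfold gx
  rw [List.prod_inv_reverse, List.map_map]
  have := map_list_prod (Units.coeHom (Matrix (Idx ty n) (Idx ty n) F))
    (((Finset.univ : Finset (Rt ty × Fin n)).toList.map
      (Inv.inv ∘ fun k => rx k.1.2 k.2 (a k))).reverse)
  rw [Units.coeHom_apply] at this
  rw [this, ← List.map_reverse, List.map_map]
  congr 1
  apply List.map_congr_left
  intro k _
  simp only [Function.comp_apply, Units.coeHom_apply]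
  rw [rx, uni_inv_val, smul_neg, sub_eq_add_neg]

/-- The universal conjugate. -/
noncomputable def UM (ty : Ty) (n : ℕ) (F : Type*) [Field F] : Matrix (Idx ty n) (Idx ty n)
    (MvPolynomial ((Rt ty × Fin n) ⊕ (Rt ty × Fin n)) F) :=
  Pm ((Finset.univ : Finset (Rt ty × Fin n)).toList.map
      (fun k => (X (Sum.inl k), rE ty n F k.1.1 k.2))) *
  (∑ k, (X (Sum.inr k) : MvPolynomial ((Rt ty × Fin n) ⊕ (Rt ty × Fin n)) F) •
    (rH ty n F k.1.1 k.2).map C) *
  Pm ((Finset.univ : Finset (Rt ty × Fin n)).toList.reverse.map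
      (fun k => (X (Sum.inl k), - rE ty n F k.1.1 k.2)))

theorem eM_sum (x : (Rt ty × Fin n) ⊕ (Rt ty × Fin n) → F) :
    (∑ k, (X (Sum.inr k) : MvPolynomial ((Rt ty × Fin n) ⊕ (Rt ty × Fin n)) F) •
    (rH ty n F k.1.1 k.2).map C).map (eval x) = Hy (fun k => x (Sum.inr k)) := by
  ext p q
  rw [Matrix.map_apply, Matrix.sum_apply, map_sum, Hy, Matrix.sum_apply]
  apply Finset.sum_congr rfl
  intro k _
  simp [Matrix.smul_apply]

theorem dM_sum (x v : (Rt ty × Fin n) ⊕ (Rt ty × Fin n) → F) :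
    (∑ k, (X (Sum.inr k) : MvPolynomial ((Rt ty × Fin n) ⊕ (Rt ty × Fin n)) F) •
    (rH ty n F k.1.1 k.2).map C).map (dv x v) = Hy (fun k => v (Sum.inr k)) := by
  ext p q
  rw [Matrix.map_apply, Matrix.sum_apply, map_sum, Hy, Matrix.sum_apply]
  apply Finset.sum_congr rfl
  intro k _
  rw [Matrix.smul_apply, Matrix.map_apply, smul_eq_mul, dv_mul, dv_C, dv_X, mul_zero, add_zero,
    eval_C, Matrix.smul_apply, smul_eq_mul]

theorem UM_eval (x : (Rt ty × Fin n) ⊕ (Rt ty × Fin n) → F) :
    (UM ty n F).map (eval x) = Ad (gx (fun k => x (Sum.inl k))) (Hy (fun k => x (Sum.inr k))) := by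
  unfold UM
  rw [eM_mul, eM_mul, eM_Pm, eM_Pm, eM_sum, List.map_map, List.map_map]
  unfold Ad
  rw [gx_val, gx_inv_val]
  simp only [Function.comp_def, eval_X]

theorem UM_dv (y : Rt ty × Fin n → F) (v : (Rt ty × Fin n) ⊕ (Rt ty × Fin n) → F) :
    (UM ty n F).map (dv (Sum.elim 0 y) v) =
      ∑ k, (- (v (Sum.inl k) * al y k)) • rE ty n F k.1.1 k.2 + Hy (fun k => v (Sum.inr k)) := by
  unfold UM
  obtain ⟨h1, h2⟩ := dM_Pm (Sum.elim 0 y) v ((Finset.univ : Finset (Rt ty × Fin n)).toList.map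
      (fun k => ((X (Sum.inl k) : MvPolynomial ((Rt ty × Fin n) ⊕ (Rt ty × Fin n)) F),
        rE ty n F k.1.1 k.2))) (by
    intro k hk
    rw [List.mem_map] at hk
    obtain ⟨a, _, rfl⟩ := hk
    simp)
  obtain ⟨h3, h4⟩ := dM_Pm (Sum.elim 0 y) v
      ((Finset.univ : Finset (Rt ty × Fin n)).toList.reverse.map
      (fun k => ((X (Sum.inl k) : MvPolynomial ((Rt ty × Fin n) ⊕ (Rt ty × Fin n)) F),
        - rE ty n F k.1.1 k.2))) (by
    intro k hk
    rw [List.mem_map] at hk
    obtain ⟨a, _, rfl⟩ := hk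
    simp)
  rw [dM_mul, dM_mul, eM_mul, h1, h2, h3, h4, eM_sum, dM_sum, List.map_map, List.map_map,
    List.map_reverse, List.sum_reverse, Finset.sum_map_toList, Finset.sum_map_toList]
  simp only [Function.comp_def, dv_X, Sum.elim_inr, Matrix.one_mul, Matrix.mul_one]
  have e1 : (fun k => y k) = y := rfl
  rw [e1]
  have e2 : ∀ k : Rt ty × Fin n, (- (v (Sum.inl k) * al y k)) • rE ty n F k.1.1 k.2 =
      v (Sum.inl k) • (rE ty n F k.1.1 k.2 * Hy y - Hy y * rE ty n F k.1.1 k.2) := by
    intro k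
    rw [Hy_comm, smul_smul, mul_neg]
  have e3 : ∑ k : Rt ty × Fin n, (- (v (Sum.inl k) * al y k)) • rE ty n F k.1.1 k.2 =
      (∑ k : Rt ty × Fin n, v (Sum.inl k) • rE ty n F k.1.1 k.2) * Hy y -
      Hy y * (∑ k : Rt ty × Fin n, v (Sum.inl k) • rE ty n F k.1.1 k.2) := by
    rw [Finset.sum_mul, Finset.mul_sum, ← Finset.sum_sub_distrib]
    apply Finset.sum_congr rfl
    intro k _
    rw [e2, smul_sub, Matrix.smul_mul, Matrix.mul_smul]
  rw [e3]
  simp only [smul_neg, Finset.sum_neg_distrib, Matrix.mul_neg]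
  abel

/-- Generic elements are conjugate to regular diagonal elements. -/
theorem gen_conj [IsAlgClosed F] [CharZero F] {J : Type*} [Fintype J]
    (bs : Module.Basis J F (LieAlg ty n F)) :
    ∃ D : MvPolynomial J F, D ≠ 0 ∧ ∀ w : J → F, eval w D ≠ 0 →
      ∃ g ∈ Gp (LieAlg ty n F), ∃ h : Idx ty n → F, Function.Injective h ∧
        (∑ j, w j • (bs j : Matrix (Idx ty n) (Idx ty n) F)) = Ad g (Matrix.diagonal h) := by
  classical
  have hext : ∀ j, ∃ l : Matrix (Idx ty n) (Idx ty n) F →ₗ[F] F,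
      ∀ X : LieAlg ty n F, l X.1 = bs.coord j X := by
    intro j
    obtain ⟨l, hl⟩ := LinearMap.exists_extend (bs.coord j)
    exact ⟨l, fun X => congrArg (fun f => f X) hl⟩
  choose l hl using hext
  obtain ⟨y0, hy0, hy1⟩ := exists_reg (ty := ty) (n := n) (F := F)
  let Ψ : J → MvPolynomial ((Rt ty × Fin n) ⊕ (Rt ty × Fin n)) F := fun j =>
    ∑ p, ∑ q, C (l j (Matrix.single p q 1)) * UM ty n F p q
  have hΨ1 : ∀ x j, eval x (Ψ j) = l j ((UM ty n F).map (eval x)) := by
    intro x j
    rw [lin_expand (l j)]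
    simp only [Ψ, map_sum, map_mul, eval_C, Matrix.map_apply]
  have hΨ2 : ∀ p v j, ∑ i, v i * eval p (pderiv i (Ψ j)) = l j ((UM ty n F).map (dv p v)) := by
    intro p v j
    rw [lin_expand (l j), ← dv_apply]
    simp only [Ψ, map_sum, dv_mul, dv_C, eval_C, Matrix.map_apply, zero_mul, zero_add]
  let hp : Idx ty n → MvPolynomial ((Rt ty × Fin n) ⊕ (Rt ty × Fin n)) F := fun p =>
    ∑ k, X (Sum.inr k) * C (hc F k p)
  have hhp : ∀ x p, eval x (hp p) = ∑ k, x (Sum.inr k) * hc F k p := by
    intro x p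
    simp only [hp, map_sum, map_mul, eval_X, eval_C]
  let F0 : MvPolynomial ((Rt ty × Fin n) ⊕ (Rt ty × Fin n)) F :=
    ∏ pq ∈ (Finset.univ : Finset (Idx ty n)).offDiag, (hp pq.1 - hp pq.2)
  have hF0e : ∀ x, eval x F0 ≠ 0 ↔ ∀ p q : Idx ty n, p ≠ q →
      ∑ k, x (Sum.inr k) * hc F k p ≠ ∑ k, x (Sum.inr k) * hc F k q := by
    intro x
    simp only [F0, map_prod, map_sub, hhp]
    rw [Finset.prod_ne_zero_iff]
    constructor
    · intro h p q hpq
      exact sub_ne_zero.mp (h (p, q) (by simp [hpq]))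
    · intro h pq hpq
      rw [Finset.mem_offDiag] at hpq
      exact sub_ne_zero.mpr (h pq.1 pq.2 hpq.2.2)
  have hF0 : F0 ≠ 0 := by
    intro h0
    have h1 := (hF0e (Sum.elim 0 y0)).mpr (by
      intro p q hpq
      simpa using hy1 p q hpq)
    rw [h0] at h1
    exact h1 (map_zero _)
  obtain ⟨D, hD, hD2⟩ := generic_surj Ψ (Sum.elim 0 y0) (by
    intro w
    obtain ⟨c, y, hcy⟩ := (mem_LieAlg_iff (∑ j, w j • (bs j : Matrix (Idx ty n) (Idx ty n) F))).mp
      (Submodule.sum_mem _ fun j _ => Submodule.smul_mem _ _ (bs j).2)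
    let A : Rt ty × Fin n → F := fun k => - (c k.1 k.2) / al y0 k
    let B : Rt ty × Fin n → F := fun k => y k.1 k.2
    refine ⟨Sum.elim A B, ?_⟩
    intro j
    rw [hΨ2, UM_dv]
    have e1 : ∑ k : Rt ty × Fin n, (- ((Sum.elim A B) (Sum.inl k) * al y0 k)) •
        rE ty n F k.1.1 k.2 + Hy (fun k : Rt ty × Fin n => (Sum.elim A B) (Sum.inr k)) =
        ∑ j, w j • (bs j : Matrix (Idx ty n) (Idx ty n) F) := by
      rw [hcy]
      congr 1
      · rw [← Finset.sum_product' (f := fun b j => c b j • rE ty n F b.1 j)]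
        apply Finset.sum_congr rfl
        intro k _
        simp only [Sum.elim_inl, A]
        rw [div_mul_cancel₀ _ (hy0 k), neg_neg]
      · unfold Hy
        rw [← Finset.sum_product' (f := fun b j => y b j • rH ty n F b.1 j)]
        rfl
    rw [e1]
    have e2 : (∑ j, w j • (bs j : Matrix (Idx ty n) (Idx ty n) F)) =
        ((∑ j, w j • bs j : LieAlg ty n F) : Matrix (Idx ty n) (Idx ty n) F) := by
      rw [Submodule.coe_sum]; rfl
    rw [e2, hl]
    simp [Finsupp.single_apply]) F0 hF0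
  refine ⟨D, hD, ?_⟩
  intro w hw
  obtain ⟨x, hx1, hx2⟩ := hD2 w hw
  refine ⟨gx (fun k => x (Sum.inl k)), gx_mem _, fun p => ∑ k, x (Sum.inr k) * hc F k p, ?_, ?_⟩
  · intro p q hpq
    by_contra hne
    exact (hF0e x).mp hx1 p q hne hpq
  · rw [← Hy_eq, ← UM_eval]
    -- both sides are in the Lie algebra with the same coordinates
    have hmem : (UM ty n F).map (eval x) ∈ LieAlg ty n F := by
      rw [UM_eval]
      refine ((gx_mem _).1 _).mp ?_
      unfold Hy
      exact Submodule.sum_mem _ fun k _ => Submodule.smul_mem _ _ (rH_mem k.1.2 k.2)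
    have h1 : (⟨(UM ty n F).map (eval x), hmem⟩ : LieAlg ty n F) = ∑ j, w j • bs j := by
      apply bs.ext_elem
      intro j
      have h2 := hx2 j
      rw [hΨ1] at h2
      have h3 := hl j ⟨(UM ty n F).map (eval x), hmem⟩
      rw [Module.Basis.coord_apply] at h3
      rw [← h3]
      simp only
      rw [h2]
      simp [Finsupp.single_apply]
    have h2 := congrArg (fun X : LieAlg ty n F => (X : Matrix (Idx ty n) (Idx ty n) F)) h1
    simp only [Submodule.coe_sum, Submodule.coe_smul] at h2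
    exact h2.symm

end gen

end LP319
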