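import Pool.Agent.Helper319LP.Lie

/-! Normaliser, centraliser and the group fixing all invariant multilinear forms. -/

namespace LP319

open Matrix

section general

variable {ι : Type*} [Fintype ι] [DecidableEq ι] {F : Type*} [Field F]

theorem Ad_mul (g h : GL ι F) (X : Matrix ι ι F) : Ad (g * h) X = Ad g (Ad h X) := by
  simp only [Ad, _root_.mul_inv_rev, Units.val_mul, Matrix.mul_assoc]

theorem Ad_one (X : Matrix ι ι F) : Ad (1 : GL ι F) X = X := by simp [Ad]

theorem Ad_inv_Ad (g : GL ι F) (X : Matrix ι ι F) : Ad g⁻¹ (Ad g X) = X := by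
  rw [← Ad_mul, inv_mul_cancel, Ad_one]

theorem Ad_Ad_inv (g : GL ι F) (X : Matrix ι ι F) : Ad g (Ad g⁻¹ X) = X := by
  rw [← Ad_mul, mul_inv_cancel, Ad_one]

/-- The normaliser in `GL` of a space of matrices. -/
def Nor (g : Submodule F (Matrix ι ι F)) : Subgroup (GL ι F) where
  carrier := {x | ∀ X, X ∈ g ↔ Ad x X ∈ g}
  mul_mem' := by
    intro a b ha hb X
    rw [Ad_mul, ← ha, ← hb]
  one_mem' := by intro X; rw [Ad_one]
  inv_mem' := by
    intro a ha X
    rw [ha (Ad a⁻¹ X), Ad_Ad_inv]

/-- The group of those elements of the normaliser that fix every invariant multilinear form. -/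
def Gp (g : Submodule F (Matrix ι ι F)) : Subgroup (GL ι F) where
  carrier := {x | x ∈ Nor g ∧ ∀ (d : ℕ) (φ : MultilinearMap F (fun _ : Fin d => (ι → F)) F),
    InvForm g φ → ∀ v, φ (fun i => (x : Matrix ι ι F).mulVec (v i)) = φ v}
  mul_mem' := by
    rintro a b ⟨ha, ha2⟩ ⟨hb, hb2⟩
    refine ⟨mul_mem ha hb, ?_⟩
    intro d φ hφ v
    have h1 := ha2 d φ hφ (fun i => (b : Matrix ι ι F).mulVec (v i))
    simp only [Matrix.mulVec_mulVec] at h1
    rw [Units.val_mul, h1]
    exact hb2 d φ hφ v
  one_mem' := ⟨one_mem _, fun d φ _ v => by simp⟩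
  inv_mem' := by
    rintro a ⟨ha, ha2⟩
    refine ⟨inv_mem ha, ?_⟩
    intro d φ hφ v
    have h1 := ha2 d φ hφ (fun i => ((a⁻¹ : GL ι F) : Matrix ι ι F).mulVec (v i))
    simp only [Matrix.mulVec_mulVec, ← Units.val_mul, mul_inv_cancel, Units.val_one,
      Matrix.one_mulVec] at h1
    exact h1.symm

/-- The centraliser in `GL` of a space of matrices. -/
def Cen (g : Submodule F (Matrix ι ι F)) : Subgroup (GL ι F) where
  carrier := {x | ∀ X ∈ g, Ad x X = X}
  mul_mem' := by
    intro a b ha hb X hX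
    rw [Ad_mul, hb X hX, ha X hX]
  one_mem' := by intro X _; exact Ad_one X
  inv_mem' := by
    intro a ha X hX
    have := ha X hX
    nth_rewrite 1 [← this]
    exact Ad_inv_Ad a X

theorem Ad_add (g : GL ι F) (X Y : Matrix ι ι F) : Ad g (X + Y) = Ad g X + Ad g Y := by
  simp only [Ad, mul_add, add_mul]

theorem Ad_smul (g : GL ι F) (a : F) (X : Matrix ι ι F) : Ad g (a • X) = a • Ad g X := by
  simp only [Ad, Matrix.mul_smul, Matrix.smul_mul]

theorem Ad_zero (g : GL ι F) : Ad g (0 : Matrix ι ι F) = 0 := by simp [Ad]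

theorem Ad_mul_mat (g : GL ι F) (X Y : Matrix ι ι F) : Ad g (X * Y) = Ad g X * Ad g Y := by
  have : ((g⁻¹ : GL ι F) : Matrix ι ι F) * (g : Matrix ι ι F) = 1 := by
    rw [← Units.val_mul, inv_mul_cancel, Units.val_one]
  calc Ad g (X * Y) = (g : Matrix ι ι F) * X * 1 * Y * ((g⁻¹ : GL ι F) : Matrix ι ι F) := by
        simp only [Ad, Matrix.mul_one, Matrix.mul_assoc]
    _ = _ := by rw [← this]; simp only [Ad, Matrix.mul_assoc]

theorem Ad_eq_iff (g : GL ι F) (X Y : Matrix ι ι F) :
    Ad g X = Y ↔ (g : Matrix ι ι F) * X = Y * (g : Matrix ι ι F) := by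
  constructor
  · rintro rfl
    unfold Ad
    rw [Matrix.mul_assoc _ _ (g : Matrix ι ι F), ← Units.val_mul, inv_mul_cancel, Units.val_one,
      Matrix.mul_one]
  · intro h
    unfold Ad
    rw [h, Matrix.mul_assoc, ← Units.val_mul, mul_inv_cancel, Units.val_one, Matrix.mul_one]

theorem Gp_le_Nor (g : Submodule F (Matrix ι ι F)) : Gp g ≤ Nor g := fun _ h => h.1

theorem Cen_le_Nor (g : Submodule F (Matrix ι ι F)) : Cen g ≤ Nor g := by
  intro z hz X
  constructor
  · intro hX; rw [hz X hX]; exact hX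
  · intro hX
    have h1 := (inv_mem hz : z⁻¹ ∈ Cen g) _ hX
    rw [Ad_inv_Ad] at h1
    rw [h1]; exact hX

/-- `Gp` is normalised by `Nor`. -/
theorem Gp_conj {g : Submodule F (Matrix ι ι F)} {m x : GL ι F} (hm : m ∈ Nor g)
    (hx : x ∈ Gp g) : m * x * m⁻¹ ∈ Gp g := by
  refine ⟨mul_mem (mul_mem hm hx.1) (inv_mem hm), ?_⟩
  intro d φ hφ v
  -- the transported form
  let ψ : MultilinearMap F (fun _ : Fin d => (ι → F)) F :=
    φ.compLinearMap (fun _ => Matrix.mulVecLin (m : Matrix ι ι F))
  have hψ : InvForm g ψ := by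
    intro X hX w
    have h1 := hφ (Ad m X) ((hm X).mp hX) (fun i => (m : Matrix ι ι F).mulVec (w i))
    rw [← h1]
    apply Finset.sum_congr rfl
    intro i _
    change φ _ = φ _
    congr 1
    funext j
    by_cases hij : j = i
    · subst hij
      simp only [Function.update_self, Matrix.mulVecLin_apply, Matrix.mulVec_mulVec]
      rw [((Ad_eq_iff m X _).mp rfl)]
    · simp only [Function.update_of_ne hij, Matrix.mulVecLin_apply]
  have h2 := hx.2 d ψ hψ (fun i => ((m⁻¹ : GL ι F) : Matrix ι ι F).mulVec (v i))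
  have h3 : ∀ w, ψ w = φ (fun i => (m : Matrix ι ι F).mulVec (w i)) := fun w => rfl
  rw [h3, h3] at h2
  simp only [Matrix.mulVec_mulVec] at h2
  have e1 : (m : Matrix ι ι F) * ((x : Matrix ι ι F) * ((m⁻¹ : GL ι F) : Matrix ι ι F)) =
      ((m * x * m⁻¹ : GL ι F) : Matrix ι ι F) := by
    simp only [Units.val_mul, Matrix.mul_assoc]
  have e2 : (m : Matrix ι ι F) * ((m⁻¹ : GL ι F) : Matrix ι ι F) = 1 := by
    rw [← Units.val_mul, mul_inv_cancel, Units.val_one]
  rw [e1, e2] at h2
  simpa using h2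

theorem Gp_conj' {g : Submodule F (Matrix ι ι F)} {m x : GL ι F} (hm : m ∈ Nor g)
    (hx : x ∈ Gp g) : m⁻¹ * x * m ∈ Gp g := by
  have := Gp_conj (inv_mem hm) hx
  rwa [inv_inv] at this

/-- The bilinear form with a given matrix, as a multilinear map. -/
def bil (A : Matrix ι ι F) : MultilinearMap F (fun _ : Fin 2 => (ι → F)) F where
  toFun v := v 0 ⬝ᵥ A.mulVec (v 1)
  map_update_add' := by
    intro _ v i x y
    fin_cases i
    · simp [Function.update, add_dotProduct]
    · simp [Function.update, Matrix.mulVec_add, dotProduct_add]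
  map_update_smul' := by
    intro _ v i x y
    fin_cases i
    · simp [Function.update]
    · simp [Function.update, Matrix.mulVec_smul]

theorem bil_apply (A : Matrix ι ι F) (v : Fin 2 → (ι → F)) : bil A v = v 0 ⬝ᵥ A.mulVec (v 1) := rfl

theorem bil_inv (g : Submodule F (Matrix ι ι F)) (A : Matrix ι ι F)
    (h : ∀ X ∈ g, X.transpose * A + A * X = 0) : InvForm g (bil A) := by
  intro X hX v
  rw [Fin.sum_univ_two, bil_apply, bil_apply]
  simp only [Function.update_self, Function.update_of_ne (show (1 : Fin 2) ≠ 0 by decide),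
    Function.update_of_ne (show (0 : Fin 2) ≠ 1 by decide)]
  have e1 : X.mulVec (v 0) ⬝ᵥ A.mulVec (v 1) = v 0 ⬝ᵥ (X.transpose * A).mulVec (v 1) := by
    rw [← Matrix.mulVec_mulVec, Matrix.mulVec_transpose, dotProduct_comm,
      Matrix.dotProduct_mulVec, dotProduct_comm]
  rw [e1, Matrix.mulVec_mulVec, ← dotProduct_add, ← Matrix.add_mulVec, h X hX]
  simp

theorem bil_mul (A M : Matrix ι ι F) (v : Fin 2 → (ι → F)) :
    bil A (fun k => M.mulVec (v k)) = bil (M.transpose * A * M) v := by
  rw [bil_apply, bil_apply, ← Matrix.mulVec_mulVec, ← Matrix.mulVec_mulVec,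
    Matrix.mulVec_transpose, dotProduct_comm, Matrix.dotProduct_mulVec, dotProduct_comm]

theorem bil_inj (A B : Matrix ι ι F) (h : ∀ v, bil A v = bil B v) : A = B := by
  ext i j
  have h2 := h ![Pi.single i 1, Pi.single j 1]
  rw [bil_apply, bil_apply] at h2
  simpa using h2

/-- Elements of `Gp` commute with the centraliser, given a nondegenerate invariant form. -/
theorem Gp_comm_Cen {g : Submodule F (Matrix ι ι F)} (A B : Matrix ι ι F)
    (hA : ∀ X ∈ g, X.transpose * A + A * X = 0) (hAB : A * B = 1)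
    {x z : GL ι F} (hx : x ∈ Gp g) (hz : z ∈ Cen g) : x * z = z * x := by
  have key : ∀ C : Matrix ι ι F, (∀ X ∈ g, X.transpose * C + C * X = 0) →
      (x : Matrix ι ι F).transpose * C * (x : Matrix ι ι F) = C := by
    intro C hC
    apply bil_inj
    intro v
    rw [← bil_mul]
    exact hx.2 2 (bil C) (bil_inv g C hC) v
  have h1 := key A hA
  have h2 := key ((z : Matrix ι ι F).transpose * A) (by
    intro X hX
    have h3 : (z : Matrix ι ι F) * X = X * (z : Matrix ι ι F) := (Ad_eq_iff z X X).mp (hz X hX)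
    have h4 : X.transpose * (z : Matrix ι ι F).transpose =
        (z : Matrix ι ι F).transpose * X.transpose := by
      rw [← Matrix.transpose_mul, ← Matrix.transpose_mul, h3]
    calc X.transpose * ((z : Matrix ι ι F).transpose * A) + (z : Matrix ι ι F).transpose * A * X
        = (z : Matrix ι ι F).transpose * (X.transpose * A + A * X) := by
          rw [← Matrix.mul_assoc, h4, Matrix.mul_add]; simp only [Matrix.mul_assoc]
      _ = 0 := by rw [hA X hX, Matrix.mul_zero])
  -- cancel
  have h5 : (x : Matrix ι ι F).transpose * (z : Matrix ι ι F).transpose * A * (x : Matrix ι ι F) =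
      (z : Matrix ι ι F).transpose * ((x : Matrix ι ι F).transpose * A * (x : Matrix ι ι F)) := by
    rw [h1, ← h2]
    simp only [Matrix.mul_assoc]
  have hxx : (x : Matrix ι ι F) * ((x⁻¹ : GL ι F) : Matrix ι ι F) = 1 := by
    rw [← Units.val_mul, mul_inv_cancel, Units.val_one]
  have h6 : (x : Matrix ι ι F).transpose * (z : Matrix ι ι F).transpose =
      (z : Matrix ι ι F).transpose * (x : Matrix ι ι F).transpose := by
    have h7 := congrArg (fun Y => Y * ((x⁻¹ : GL ι F) : Matrix ι ι F) * B) h5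
    beta_reduce at h7
    have e1 : (x : Matrix ι ι F).transpose * (z : Matrix ι ι F).transpose * A * (x : Matrix ι ι F) *
        ((x⁻¹ : GL ι F) : Matrix ι ι F) * B =
        (x : Matrix ι ι F).transpose * (z : Matrix ι ι F).transpose := by
      rw [Matrix.mul_assoc _ (x : Matrix ι ι F), hxx, Matrix.mul_one, Matrix.mul_assoc _ A B, hAB,
        Matrix.mul_one]
    have e2 : (z : Matrix ι ι F).transpose * ((x : Matrix ι ι F).transpose * A *
        (x : Matrix ι ι F)) * ((x⁻¹ : GL ι F) : Matrix ι ι F) * B =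
        (z : Matrix ι ι F).transpose * (x : Matrix ι ι F).transpose := by
      rw [← Matrix.mul_assoc, Matrix.mul_assoc _ (x : Matrix ι ι F), hxx, Matrix.mul_one,
        ← Matrix.mul_assoc, Matrix.mul_assoc _ A B, hAB, Matrix.mul_one]
    rw [e1, e2] at h7
    exact h7
  have h8 := congrArg Matrix.transpose h6
  rw [Matrix.transpose_mul, Matrix.transpose_mul, Matrix.transpose_transpose,
    Matrix.transpose_transpose] at h8
  apply Units.ext
  rw [Units.val_mul, Units.val_mul]
  exact h8.symm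

/-- A multilinear form killed by a square-zero matrix is fixed by its exponential. -/
theorem fix_of_inv [CharZero F] {d : ℕ} (φ : MultilinearMap F (fun _ : Fin d => (ι → F)) F)
    (X : Matrix ι ι F) (hX : X * X = 0)
    (hinv : ∀ v, ∑ i, φ (Function.update v i (X.mulVec (v i))) = 0) (v : Fin d → (ι → F)) :
    φ (fun i => (1 + X).mulVec (v i)) = φ v := by
  classical
  let w : Fin d → (ι → F) := fun i => X.mulVec (v i)
  have hXw : ∀ i, X.mulVec (w i) = 0 := by
    intro i
    simp only [w, Matrix.mulVec_mulVec, hX, Matrix.zero_mulVec]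
  let e : Finset (Fin d) → F := fun T => φ (T.piecewise w v)
  have h1 : φ (fun i => (1 + X).mulVec (v i)) = ∑ T : Finset (Fin d), e T := by
    have : (fun i => (1 + X).mulVec (v i)) = w + v := by
      funext i
      simp only [Matrix.add_mulVec, Matrix.one_mulVec, w, Pi.add_apply]
      rw [add_comm]
    rw [this, MultilinearMap.map_add_univ]
  have h2 : ∀ T : Finset (Fin d), ∑ i ∈ Tᶜ, e (insert i T) = 0 := by
    intro T
    have h3 := hinv (T.piecewise w v)
    rw [← Finset.sum_add_sum_compl T] at h3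
    have h4 : ∑ i ∈ T, φ (Function.update (T.piecewise w v) i (X.mulVec ((T.piecewise w v) i))) = 0 := by
      apply Finset.sum_eq_zero
      intro i hi
      rw [Finset.piecewise_eq_of_mem _ _ _ hi, hXw]
      exact φ.map_coord_zero i (by simp)
    rw [h4, zero_add] at h3
    rw [← h3]
    apply Finset.sum_congr rfl
    intro i hi
    have hi2 : i ∉ T := Finset.mem_compl.mp hi
    simp only [e]
    congr 1
    rw [Finset.piecewise_insert, Finset.piecewise_eq_of_notMem _ _ _ hi2]
  have h5 : ∀ r : ℕ, ∑ T ∈ Finset.powersetCard (r + 1) (Finset.univ : Finset (Fin d)), e T = 0 := by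
    intro r
    have h6 : ∑ T ∈ Finset.powersetCard r (Finset.univ : Finset (Fin d)),
        ∑ i ∈ Tᶜ, e (insert i T) =
        ∑ T ∈ Finset.powersetCard (r + 1) (Finset.univ : Finset (Fin d)), ∑ i ∈ T, e T := by
      rw [Finset.sum_sigma', Finset.sum_sigma']
      refine Finset.sum_bij' (fun a _ => ⟨insert a.2 a.1, a.2⟩) (fun a _ => ⟨a.1.erase a.2, a.2⟩)
        ?_ ?_ ?_ ?_ ?_
      · rintro ⟨T, i⟩ h
        simp only [Finset.mem_sigma, Finset.mem_powersetCard, Finset.subset_univ, true_and,
          Finset.mem_compl] at h ⊢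
        refine ⟨?_, Finset.mem_insert_self _ _⟩
        rw [Finset.card_insert_of_notMem h.2, h.1]
      · rintro ⟨T, i⟩ h
        simp only [Finset.mem_sigma, Finset.mem_powersetCard, Finset.subset_univ, true_and,
          Finset.mem_compl] at h ⊢
        refine ⟨?_, Finset.notMem_erase _ _⟩
        rw [Finset.card_erase_of_mem h.2, h.1]; rfl
      · rintro ⟨T, i⟩ h
        simp only [Finset.mem_sigma, Finset.mem_powersetCard, Finset.subset_univ, true_and,
          Finset.mem_compl] at h ⊢
        rw [Finset.erase_insert h.2]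
      · rintro ⟨T, i⟩ h
        simp only [Finset.mem_sigma, Finset.mem_powersetCard, Finset.subset_univ, true_and,
          Finset.mem_compl] at h ⊢
        rw [Finset.insert_erase h.2]
      · rintro ⟨T, i⟩ h
        rfl
    rw [Finset.sum_eq_zero (fun T _ => h2 T)] at h6
    have h7 : ∑ T ∈ Finset.powersetCard (r + 1) (Finset.univ : Finset (Fin d)), ∑ i ∈ T, e T =
        ((r + 1 : ℕ) : F) * ∑ T ∈ Finset.powersetCard (r + 1) (Finset.univ : Finset (Fin d)), e T := by
      rw [Finset.mul_sum]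
      apply Finset.sum_congr rfl
      intro T hT
      rw [Finset.sum_const, (Finset.mem_powersetCard.mp hT).2, nsmul_eq_mul]
    rw [h7] at h6
    rcases mul_eq_zero.mp h6.symm with h8 | h8
    · exact absurd h8 (Nat.cast_ne_zero.mpr (Nat.succ_ne_zero r))
    · exact h8
  rw [h1, ← Finset.powerset_univ, Finset.sum_powerset, Finset.sum_range_succ', Finset.sum_eq_zero
    (fun r _ => h5 r), zero_add]
  simp [e]

/-- The unipotent element `1 + X` for a square-zero matrix. -/
def uni (X : Matrix ι ι F) (hX : X * X = 0) : GL ι F where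
  val := 1 + X
  inv := 1 - X
  val_inv := by
    have : (1 + X) * (1 - X) = 1 - X * X := by noncomm_ring
    rw [this, hX, sub_zero]
  inv_val := by
    have : (1 - X) * (1 + X) = 1 - X * X := by noncomm_ring
    rw [this, hX, sub_zero]

theorem uni_val (X : Matrix ι ι F) (hX : X * X = 0) : (uni X hX : Matrix ι ι F) = 1 + X := rfl

theorem uni_inv_val (X : Matrix ι ι F) (hX : X * X = 0) :
    (((uni X hX)⁻¹ : GL ι F) : Matrix ι ι F) = 1 - X := rfl

theorem Ad_uni [CharZero F] (X Y : Matrix ι ι F) (hX : X * X = 0) : Ad (uni X hX) Y =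
    Y + (X * Y - Y * X) + (1 / 2 : F) • (X * (X * Y - Y * X) - (X * Y - Y * X) * X) := by
  unfold Ad
  rw [uni_val, uni_inv_val]
  have e1 : X * (X * Y - Y * X) - (X * Y - Y * X) * X = (-2 : F) • (X * Y * X) := by
    have : X * (X * Y - Y * X) - (X * Y - Y * X) * X = X * X * Y - (X * Y * X + X * Y * X)
        + Y * (X * X) := by noncomm_ring
    rw [this, hX, Matrix.zero_mul, Matrix.mul_zero, zero_sub, add_zero, ← two_smul F, neg_smul]
  rw [e1, smul_smul]
  have : (1 / 2 : F) * (-2) = -1 := by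
    have : (2 : F) ≠ 0 := two_ne_zero
    field_simp
  rw [this, neg_one_smul]
  noncomm_ring

theorem uni_mem_Nor [CharZero F] (g : Submodule F (Matrix ι ι F)) (X : Matrix ι ι F)
    (hX : X * X = 0) (hg : ∀ Y ∈ g, X * Y - Y * X ∈ g) : uni X hX ∈ Nor g := by
  have key : ∀ (X : Matrix ι ι F) (hX : X * X = 0) (_ : ∀ Y ∈ g, X * Y - Y * X ∈ g),
      ∀ Y ∈ g, Ad (uni X hX) Y ∈ g := by
    intro X hX hg Y hY
    rw [Ad_uni]
    exact g.add_mem (g.add_mem hY (hg Y hY)) (g.smul_mem _ (hg _ (hg Y hY)))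
  have hinv : (uni X hX)⁻¹ = uni (-X) (by simp [hX]) := by
    apply Units.ext
    rw [uni_inv_val, uni_val, sub_eq_add_neg]
  intro Y
  constructor
  · exact key X hX hg Y
  · intro h
    have h2 := key (-X) (by simp [hX]) (by
      intro Z hZ
      have : -X * Z - Z * -X = -(X * Z - Z * X) := by noncomm_ring
      rw [this]; exact g.neg_mem (hg Z hZ)) _ h
    rw [← hinv, Ad_inv_Ad] at h2
    exact h2

theorem uni_mem_Gp [CharZero F] (g : Submodule F (Matrix ι ι F)) (X : Matrix ι ι F)
    (hX : X * X = 0) (hXg : X ∈ g) (hg : ∀ Y ∈ g, X * Y - Y * X ∈ g) : uni X hX ∈ Gp g := by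
  refine ⟨uni_mem_Nor g X hX hg, ?_⟩
  intro d φ hφ v
  rw [uni_val]
  exact fix_of_inv φ X hX (hφ X hXg) v

end general

end LP319
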