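import Mathlib

/-! Milnor K-groups by generators and relations: definitions. -/

namespace LP319

universe u

section defs

variable (q : ℕ) (L : Type u) [Field L]

/-- Relations of the Milnor K-group: multilinearity and the Steinberg relation. -/
def KMRel : Set (FreeAbelianGroup (Fin q → Lˣ)) :=
  {x | ∃ (a : Fin q → Lˣ) (i : Fin q) (u v : Lˣ),
    x = FreeAbelianGroup.of (Function.update a i (u * v)) -
      FreeAbelianGroup.of (Function.update a i u) -
      FreeAbelianGroup.of (Function.update a i v)} ∪
  {x | ∃ (a : Fin q → Lˣ) (i j : Fin q), i ≠ j ∧ (a i : L) + (a j : L) = 1 ∧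
    x = FreeAbelianGroup.of a}

/-- The Milnor K-group of degree `q`. -/
def KM : Type u := FreeAbelianGroup (Fin q → Lˣ) ⧸ AddSubgroup.closure (KMRel q L)

noncomputable instance instKM : AddCommGroup (KM q L) := QuotientAddGroup.Quotient.addCommGroup _

end defs

section

variable {q : ℕ} {L : Type u} [Field L]

/-- The symbol `{a_1, ..., a_q}`. -/
noncomputable def sym (a : Fin q → Lˣ) : KM q L :=
  (QuotientAddGroup.mk (FreeAbelianGroup.of a) :
    FreeAbelianGroup (Fin q → Lˣ) ⧸ AddSubgroup.closure (KMRel q L))

end

end LP319
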