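import Pool.Agent.Helper319LP.D2

/-! The Lie algebra of type E6^n or E7^n acting on n copies of the 54- or 56-dimensional space,
its normaliser, and the simply connected group. -/

namespace LP319

open Matrix


section

variable {ty : Ty} {n : ℕ} {L : Type*} [Field L]

theorem rE_mem {b : Fin 8 → ℤ} (hb : IsRt ty b) (i : Fin n) : rE ty n L b i ∈ LieAlg ty n L :=
  Submodule.subset_span (Or.inl ⟨b, i, hb, rfl⟩)

theorem rH_mem {b : Fin 8 → ℤ} (hb : IsRt ty b) (i : Fin n) : rH ty n L b i ∈ LieAlg ty n L :=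
  Submodule.subset_span (Or.inr ⟨b, i, hb, rfl⟩)

theorem rE_apply (b : Fin 8 → ℤ) (i : Fin n) (p q : Idx ty n) :
    rE ty n L b i p q = if p.2 = i ∧ q.2 = i ∧ p.1.1 = q.1.1 + b then ((sg b q.1.1 : ℤ) : L)
      else 0 := rfl

open Classical in
theorem rE_mul (b c : Fin 8 → ℤ) (i j : Fin n) (p r : Idx ty n) :
    (rE ty n L b i * rE ty n L c j) p r =
      if i = j ∧ p.2 = i ∧ r.2 = i ∧ p.1.1 = r.1.1 + c + b ∧ IsWt ty (r.1.1 + c) then
        ((sg b (r.1.1 + c) * sg c r.1.1 : ℤ) : L) else 0 := by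
  rw [Matrix.mul_apply]
  simp only [rE_apply]
  split_ifs with h
  · obtain ⟨h1, h2, h3, h4, h5⟩ := h
    subst h1
    rw [Finset.sum_eq_single (⟨⟨r.1.1 + c, h5⟩, i⟩ : Idx ty n)]
    · simp [h2, h3, h4]
    · intro q _ hq
      by_cases h6 : q.2 = i ∧ r.2 = i ∧ q.1.1 = r.1.1 + c
      · exfalso
        apply hq
        refine Prod.ext (Subtype.ext h6.2.2) h6.1
      · rw [if_neg h6, mul_zero]
    · simp
  · apply Finset.sum_eq_zero
    intro q _
    by_cases h6 : q.2 = j ∧ r.2 = j ∧ q.1.1 = r.1.1 + c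
    · by_cases h7 : p.2 = i ∧ q.2 = i ∧ p.1.1 = q.1.1 + b
      · exfalso
        apply h
        obtain ⟨a1, a2, a3⟩ := h6
        obtain ⟨b1, b2, b3⟩ := h7
        have hij : i = j := b2.symm.trans a1
        refine ⟨hij, b1, a2.trans hij.symm, ?_, ?_⟩
        · rw [b3, a3]
        · rw [← a3]; exact q.1.2
      · rw [if_neg h7, zero_mul]
    · rw [if_neg h6, mul_zero]

theorem rE_sq {b : Fin 8 → ℤ} (hb : IsRt ty b) (i : Fin n) :
    rE ty n L b i * rE ty n L b i = 0 := by
  ext p r
  rw [rE_mul, if_neg]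
  · rfl
  · rintro ⟨-, -, -, h4, h5⟩
    have h6 := (isWt_add hb r.1.2).mp h5
    have h7 : IsWt ty (r.1.1 + b + b) := h4 ▸ p.1.2
    have h8 := (isWt_add hb h5).mp h7
    rw [ip_add_right, hb.ipself] at h8
    omega

theorem rE_comm_neg {b : Fin 8 → ℤ} (hb : IsRt ty b) (i : Fin n) :
    rE ty n L b i * rE ty n L (-b) i - rE ty n L (-b) i * rE ty n L b i = rH ty n L b i := by
  classical
  ext p r
  rw [Matrix.sub_apply, rE_mul, rE_mul, rH, Matrix.diagonal_apply]
  have h3 := ip_rt_wt hb r.1.2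
  have hval : sg b (r.1.1 + -b) * sg (-b) r.1.1 = -1 := by
    rw [sg_add_right, sg_neg_left, sg_neg_right, sg_self hb]
    have := sg_mul_self b r.1.1
    linarith
  have hval2 : sg (-b) (r.1.1 + b) * sg b r.1.1 = -1 := by
    rw [sg_add_right, sg_neg_left, sg_neg_left, sg_self hb]
    have := sg_mul_self b r.1.1
    linarith
  rw [hval, hval2]
  by_cases hpr : p = r
  · subst hpr
    rw [if_pos rfl]
    by_cases hi : p.2 = i
    · rw [if_pos hi]
      have e1 : IsWt ty (p.1.1 + -b) ↔ ip b p.1.1 = -1 := by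
        rw [isWt_add hb.neg p.1.2, ip_neg_left]; omega
      have e2 : IsWt ty (p.1.1 + b) ↔ ip b p.1.1 = 1 := isWt_add hb p.1.2
      by_cases h4 : ip b p.1.1 = 1
      · rw [if_neg, if_pos, h4]
        · push_cast; ring
        · exact ⟨rfl, hi, hi, by abel, e2.mpr h4⟩
        · rintro ⟨-, -, -, -, q⟩
          have := e1.mp q; omega
      · by_cases h5 : ip b p.1.1 = -1
        · rw [if_pos, if_neg, h5]
          · push_cast; ring
          · rintro ⟨-, -, -, -, q⟩
            have := e2.mp q; omega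
          · exact ⟨rfl, hi, hi, by abel, e1.mpr h5⟩
        · have h6 : ip b p.1.1 = 0 := by omega
          rw [if_neg, if_neg, h6]
          · simp
          · rintro ⟨-, -, -, -, q⟩
            have := e2.mp q; omega
          · rintro ⟨-, -, -, -, q⟩
            have := e1.mp q; omega
    · rw [if_neg hi, if_neg (fun h => hi h.2.1), if_neg (fun h => hi h.2.1), sub_zero]
  · rw [if_neg hpr, if_neg, if_neg, sub_zero]
    · rintro ⟨-, q1, q2, q3, -⟩
      exact hpr (Prod.ext (Subtype.ext (by rw [q3]; abel)) (q1.trans q2.symm))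
    · rintro ⟨-, q1, q2, q3, -⟩
      exact hpr (Prod.ext (Subtype.ext (by rw [q3]; abel)) (q1.trans q2.symm))

theorem rE_comm_rE {b c : Fin 8 → ℤ} (hb : IsRt ty b) (hc : IsRt ty c) (i j : Fin n) :
    rE ty n L b i * rE ty n L c j - rE ty n L c j * rE ty n L b i ∈ LieAlg ty n L := by
  classical
  by_cases hij : i = j
  swap
  · have : rE ty n L b i * rE ty n L c j - rE ty n L c j * rE ty n L b i = 0 := by
      ext p r
      rw [Matrix.sub_apply, rE_mul, rE_mul, if_neg (fun h => hij h.1),
        if_neg (fun h => hij h.1.symm)]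
      simp
    rw [this]; exact Submodule.zero_mem _
  subst hij
  -- facts about positions
  have hw1 : ∀ r : Idx ty n, IsWt ty (r.1.1 + c) ↔ ip c r.1.1 = 1 := fun r => isWt_add hc r.1.2
  have hw2 : ∀ r : Idx ty n, IsWt ty (r.1.1 + b) ↔ ip b r.1.1 = 1 := fun r => isWt_add hb r.1.2
  have hpos : ∀ p r : Idx ty n, p.1.1 = r.1.1 + c + b → ip b r.1.1 + ip c r.1.1 + ip b c = 2 := by
    intro p r h
    have h1 : ip p.1.1 p.1.1 = -1 := p.1.2.ipself
    rw [h] at h1
    simp only [ip_add_left, ip_add_right, r.1.2.ipself, hb.ipself, hc.ipself, ip_comm r.1.1 c,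
      ip_comm r.1.1 b, ip_comm c b] at h1
    omega
  have hcomm : ∀ r : Idx ty n, r.1.1 + c + b = r.1.1 + b + c := fun r => by abel
  by_cases h1 : ip b c = 1
  · have : rE ty n L b i * rE ty n L c i - rE ty n L c i * rE ty n L b i =
        ((sg b c : ℤ) : L) • rE ty n L (b + c) i := by
      ext p r
      rw [Matrix.sub_apply, rE_mul, rE_mul, Matrix.smul_apply, rE_apply, smul_eq_mul]
      by_cases hp : p.2 = i ∧ r.2 = i ∧ p.1.1 = r.1.1 + (b + c)
      · obtain ⟨p1, p2, p3⟩ := hp
        have p4 : p.1.1 = r.1.1 + c + b := by rw [p3]; abel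
        have p5 : p.1.1 = r.1.1 + b + c := by rw [p3]; abel
        have h2 := hpos p r p4
        have h3 := ip_rt_wt hb r.1.2
        have h4 := ip_rt_wt hc r.1.2
        rw [if_pos (⟨p1, p2, p3⟩ : _ ∧ _ ∧ _)]
        by_cases h5 : ip c r.1.1 = 1
        · have h6 : ip b r.1.1 = 0 := by omega
          rw [if_pos ⟨rfl, p1, p2, p4, (hw1 r).mpr h5⟩, if_neg (fun h => by
            have := (hw2 r).mp h.2.2.2.2; omega), sub_zero, sg_add_right, sg_add_left]
          push_cast; ring
        · have h6 : ip b r.1.1 = 1 := by omega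
          rw [if_neg (fun h => h5 ((hw1 r).mp h.2.2.2.2)), if_pos ⟨rfl, p1, p2, p5,
            (hw2 r).mpr h6⟩, zero_sub, sg_add_right, sg_add_left, sg_comm_one hb h1]
          push_cast; ring
      · rw [if_neg hp, if_neg, if_neg]
        · simp
        · rintro ⟨-, q1, q2, q3, -⟩
          exact hp ⟨q1, q2, by rw [q3]; abel⟩
        · rintro ⟨-, q1, q2, q3, -⟩
          exact hp ⟨q1, q2, by rw [q3]; abel⟩
    rw [this]
    exact Submodule.smul_mem _ _ (rE_mem ((isRt_add hb hc).mpr h1) i)
  by_cases h2 : ip b c = 2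
  · have hcb := eq_neg_of_ip hb hc h2
    subst hcb
    rw [rE_comm_neg hb]
    exact rH_mem hb i
  · have : rE ty n L b i * rE ty n L c i - rE ty n L c i * rE ty n L b i = 0 := by
      ext p r
      rw [Matrix.sub_apply, rE_mul, rE_mul]
      by_cases hp : p.2 = i ∧ r.2 = i ∧ p.1.1 = r.1.1 + c + b
      · obtain ⟨p1, p2, p3⟩ := hp
        have h4 := hpos p r p3
        have h5 := ip_rt_wt hb r.1.2
        have h6 := ip_rt_wt hc r.1.2
        have h7 : ip b c = 0 := by
          have := ip_rt_rt hb hc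
          omega
        have h8 : ip b r.1.1 = 1 := by omega
        have h9 : ip c r.1.1 = 1 := by omega
        rw [if_pos ⟨rfl, p1, p2, p3, (hw1 r).mpr h9⟩, if_pos ⟨rfl, p1, p2, by rw [p3]; abel,
          (hw2 r).mpr h8⟩, sg_add_right, sg_add_right, sg_comm_zero hb h7]
        push_cast
        simp
        ring
      · rw [if_neg, if_neg]
        · simp
        · rintro ⟨-, q1, q2, q3, -⟩
          exact hp ⟨q1, q2, by rw [q3]; abel⟩
        · rintro ⟨-, q1, q2, q3, -⟩
          exact hp ⟨q1, q2, by rw [q3]⟩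
    rw [this]; exact Submodule.zero_mem _

theorem rH_comm_rE {b c : Fin 8 → ℤ} (i j : Fin n) :
    rH ty n L b i * rE ty n L c j - rE ty n L c j * rH ty n L b i =
      (if i = j then ((ip b c : ℤ) : L) else 0) • rE ty n L c j := by
  ext p r
  rw [Matrix.sub_apply, rH, Matrix.diagonal_mul, Matrix.mul_diagonal, Matrix.smul_apply,
    rE_apply, smul_eq_mul]
  by_cases hp : p.2 = j ∧ r.2 = j ∧ p.1.1 = r.1.1 + c
  · rw [if_pos hp]
    obtain ⟨p1, p2, p3⟩ := hp
    rw [p1, p2, p3, ip_add_right]
    by_cases hij : j = i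
    · subst hij; simp; ring
    · have hij2 : ¬ i = j := fun h => hij h.symm
      simp [hij, hij2]
  · rw [if_neg hp]; simp

/-- The bracket with a root element preserves the Lie algebra. -/
theorem rE_comm_mem {b : Fin 8 → ℤ} (hb : IsRt ty b) (i : Fin n)
    {X : Matrix (Idx ty n) (Idx ty n) L} (hX : X ∈ LieAlg ty n L) :
    rE ty n L b i * X - X * rE ty n L b i ∈ LieAlg ty n L := by
  unfold LieAlg at hX
  induction hX using Submodule.span_induction with
  | mem x hx =>
    rcases hx with ⟨c, j, hc, rfl⟩ | ⟨c, j, hc, rfl⟩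
    · exact rE_comm_rE hb hc i j
    · have := rH_comm_rE (ty := ty) (L := L) (b := c) (c := b) j i
      have h2 : rE ty n L b i * rH ty n L c j - rH ty n L c j * rE ty n L b i =
        -(rH ty n L c j * rE ty n L b i - rE ty n L b i * rH ty n L c j) := by abel
      rw [h2, this]
      exact Submodule.neg_mem _ (Submodule.smul_mem _ _ (rE_mem hb i))
  | zero => simp
  | add x y _ _ hx hy =>
    have : rE ty n L b i * (x + y) - (x + y) * rE ty n L b i =
      (rE ty n L b i * x - x * rE ty n L b i) + (rE ty n L b i * y - y * rE ty n L b i) := by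
      rw [mul_add, add_mul]; abel
    rw [this]; exact Submodule.add_mem _ hx hy
  | smul a x _ hx =>
    have : rE ty n L b i * (a • x) - (a • x) * rE ty n L b i =
      a • (rE ty n L b i * x - x * rE ty n L b i) := by
      rw [smul_sub, Matrix.mul_smul, Matrix.smul_mul]
    rw [this]; exact Submodule.smul_mem _ _ hx

/-- Coordinates of elements of the Lie algebra. -/
theorem mem_LieAlg_iff (X : Matrix (Idx ty n) (Idx ty n) L) :
    X ∈ LieAlg ty n L ↔ ∃ c y : Rt ty → Fin n → L,
      X = ∑ b, ∑ j, c b j • rE ty n L b.1 j + ∑ b, ∑ j, y b j • rH ty n L b.1 j := by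
  constructor
  · intro hX
    unfold LieAlg at hX
    classical
    induction hX using Submodule.span_induction with
    | mem x hx =>
      rcases hx with ⟨b, i, hb, rfl⟩ | ⟨b, i, hb, rfl⟩
      · refine ⟨fun b' j => if b'.1 = b ∧ j = i then 1 else 0, fun _ _ => 0, ?_⟩
        rw [Finset.sum_eq_single (⟨b, hb⟩ : Rt ty), Finset.sum_eq_single i]
        · simp
        · intro j _ hj; simp [hj]
        · simp
        · intro c _ hc
          apply Finset.sum_eq_zero
          intro j _
          beta_reduce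
          rw [if_neg, zero_smul]
          rintro ⟨h1, -⟩
          exact hc (Subtype.ext h1)
        · simp
      · refine ⟨fun _ _ => 0, fun b' j => if b'.1 = b ∧ j = i then 1 else 0, ?_⟩
        rw [Finset.sum_eq_single (⟨b, hb⟩ : Rt ty) (f := fun b' : Rt ty => ∑ j,
          (if b'.1 = b ∧ j = i then (1 : L) else 0) • rH ty n L b'.1 j), Finset.sum_eq_single i]
        · simp
        · intro j _ hj; simp [hj]
        · simp
        · intro c _ hc
          apply Finset.sum_eq_zero
          intro j _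
          rw [if_neg, zero_smul]
          rintro ⟨h1, -⟩
          exact hc (Subtype.ext h1)
        · simp
    | zero => exact ⟨fun _ _ => 0, fun _ _ => 0, by simp⟩
    | add x z _ _ hx hz =>
      obtain ⟨c, y, rfl⟩ := hx
      obtain ⟨c', y', rfl⟩ := hz
      refine ⟨fun b j => c b j + c' b j, fun b j => y b j + y' b j, ?_⟩
      simp only [add_smul, Finset.sum_add_distrib]
      abel
    | smul a x _ hx =>
      obtain ⟨c, y, rfl⟩ := hx
      refine ⟨fun b j => a * c b j, fun b j => a * y b j, ?_⟩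
      simp only [mul_smul, Finset.smul_sum, smul_add]
  · rintro ⟨c, y, rfl⟩
    exact Submodule.add_mem _
      (Submodule.sum_mem _ fun b _ => Submodule.sum_mem _ fun j _ =>
        Submodule.smul_mem _ _ (rE_mem b.2 j))
      (Submodule.sum_mem _ fun b _ => Submodule.sum_mem _ fun j _ =>
        Submodule.smul_mem _ _ (rH_mem b.2 j))

open Classical in
/-- Off-diagonal entries. -/
theorem entry_off (c y : Rt ty → Fin n → L) (p q : Idx ty n) (hpq : p ≠ q) :
    (∑ b, ∑ j, c b j • rE ty n L b.1 j + ∑ b, ∑ j, y b j • rH ty n L b.1 j) p q =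
      if h : IsRt ty (p.1.1 - q.1.1) ∧ p.2 = q.2 then
        c ⟨p.1.1 - q.1.1, h.1⟩ p.2 * ((sg (p.1.1 - q.1.1) q.1.1 : ℤ) : L) else 0 := by
  rw [Matrix.add_apply]
  have h0 : (∑ b : Rt ty, ∑ j, y b j • rH ty n L b.1 j) p q = 0 := by
    rw [Matrix.sum_apply]
    apply Finset.sum_eq_zero
    intro b _
    rw [Matrix.sum_apply]
    apply Finset.sum_eq_zero
    intro j _
    rw [Matrix.smul_apply, rH, Matrix.diagonal_apply_ne _ hpq, smul_zero]
  rw [h0, add_zero, Matrix.sum_apply]
  simp only [Matrix.sum_apply, Matrix.smul_apply, rE_apply, smul_eq_mul]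
  split_ifs with h
  · obtain ⟨h1, h2⟩ := h
    rw [Finset.sum_eq_single (⟨p.1.1 - q.1.1, h1⟩ : Rt ty), Finset.sum_eq_single p.2]
    · rw [if_pos ⟨rfl, h2.symm, by simp⟩]
    · intro j _ hj
      rw [if_neg (fun h => hj h.1.symm), mul_zero]
    · simp
    · intro b _ hb
      apply Finset.sum_eq_zero
      intro j _
      rw [if_neg, mul_zero]
      rintro ⟨-, -, h5⟩
      apply hb
      apply Subtype.ext
      change b.1 = p.1.1 - q.1.1
      rw [h5]; abel
    · simp
  · apply Finset.sum_eq_zero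
    intro b _
    apply Finset.sum_eq_zero
    intro j _
    rw [if_neg, mul_zero]
    rintro ⟨h3, h4, h5⟩
    apply h
    refine ⟨?_, h3.trans h4.symm⟩
    have : p.1.1 - q.1.1 = b.1 := by rw [h5]; abel
    rw [this]; exact b.2

end

end LP319
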