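import Pool.Agent.Helper319LP.Conj

/-! Monomial elements of the normaliser. -/

namespace LP319

open Matrix

set_option linter.unusedSectionVars false

section diag

variable {ι : Type*} [Fintype ι] [DecidableEq ι] {F : Type*} [Field F]

/-- Invertible diagonal matrices. -/
def dg : (ι → Fˣ) →* GL ι F where
  toFun v :=
    { val := Matrix.diagonal fun p => ((v p : Fˣ) : F)
      inv := Matrix.diagonal fun p => (((v p)⁻¹ : Fˣ) : F)
      val_inv := by rw [Matrix.diagonal_mul_diagonal]; simp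
      inv_val := by rw [Matrix.diagonal_mul_diagonal]; simp }
  map_one' := by apply Units.ext; ext i j; simp
  map_mul' := by
    intro v w
    apply Units.ext
    simp [Matrix.diagonal_mul_diagonal]

theorem dg_val (v : ι → Fˣ) : (dg v : Matrix ι ι F) = Matrix.diagonal fun p => ((v p : Fˣ) : F) :=
  rfl

theorem dg_inv_val (v : ι → Fˣ) : (((dg v)⁻¹ : GL ι F) : Matrix ι ι F) =
    Matrix.diagonal fun p => (((v p)⁻¹ : Fˣ) : F) := rfl

theorem dg_inj {v w : ι → Fˣ} (h : dg v = dg w) : v = w := by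
  have h1 := congrArg (fun g : GL ι F => (g : Matrix ι ι F)) h
  simp only [dg_val] at h1
  funext p
  have h2 := congrFun (congrFun h1 p) p
  rw [Matrix.diagonal_apply_eq, Matrix.diagonal_apply_eq] at h2
  exact Units.ext h2

theorem Ad_dg (v : ι → Fˣ) (X : Matrix ι ι F) (p q : ι) :
    Ad (dg v) X p q = (v p : F) * X p q * (((v q)⁻¹ : Fˣ) : F) := by
  unfold Ad
  rw [dg_val, dg_inv_val, Matrix.mul_diagonal, Matrix.diagonal_mul]

theorem Ad_dg_diag (v : ι → Fˣ) (h : ι → F) :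
    Ad (dg v) (Matrix.diagonal h) = Matrix.diagonal h := by
  ext p q
  rw [Ad_dg]
  by_cases hpq : p = q
  · subst hpq
    rw [Matrix.diagonal_apply_eq, mul_comm, ← mul_assoc, ← Units.val_mul, inv_mul_cancel,
      Units.val_one, one_mul]
  · rw [Matrix.diagonal_apply_ne _ hpq]; simp

theorem mono_ne (N : GL ι F) (π : Equiv.Perm ι) (hπ : ∀ p q, p ≠ π q → (N : Matrix ι ι F) p q = 0)
    (q : ι) : (N : Matrix ι ι F) (π q) q ≠ 0 := by
  intro h0
  have h3 : (((N⁻¹ : GL ι F) : Matrix ι ι F) * (N : Matrix ι ι F)) q q = 1 := by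
    rw [← Units.val_mul, inv_mul_cancel, Units.val_one, Matrix.one_apply_eq]
  rw [Matrix.mul_apply, Finset.sum_eq_zero] at h3
  · exact zero_ne_one h3
  · intro r _
    by_cases hr : r = π q
    · rw [hr, h0, mul_zero]
    · rw [hπ r q hr, mul_zero]

theorem mono_mul {A B : Matrix ι ι F} (hA : Mono A) (hB : Mono B) : Mono (A * B) := by
  obtain ⟨π, hπ⟩ := hA
  obtain ⟨τ, hτ⟩ := hB
  refine ⟨π * τ, ?_⟩
  intro p r hpr
  rw [Matrix.mul_apply]
  apply Finset.sum_eq_zero
  intro q _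
  by_cases h1 : p = π q
  · by_cases h2 : q = τ r
    · exfalso; apply hpr; rw [h1, h2]; rfl
    · rw [hτ q r h2, mul_zero]
  · rw [hπ p q h1, zero_mul]

/-- Monomial invertible matrices. -/
def MonG (ι : Type*) [Fintype ι] [DecidableEq ι] (F : Type*) [Field F] : Subgroup (GL ι F) where
  carrier := {g | Mono (g : Matrix ι ι F)}
  mul_mem' := fun {a b} ha hb => by
    change Mono ((a * b : GL ι F) : Matrix ι ι F)
    rw [Units.val_mul]
    exact mono_mul ha hb
  one_mem' := by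
    refine ⟨1, ?_⟩
    intro p q hpq
    exact Matrix.one_apply_ne hpq
  inv_mem' := by
    intro N hN
    obtain ⟨π, hπ⟩ := hN
    refine ⟨π⁻¹, ?_⟩
    intro q p hqp
    have h1 : (((N⁻¹ : GL ι F) : Matrix ι ι F) * (N : Matrix ι ι F)) q (π⁻¹ p) = 0 := by
      rw [← Units.val_mul, inv_mul_cancel, Units.val_one, Matrix.one_apply_ne hqp]
    have h3 : π (π⁻¹ p) = p := by simp
    rw [Matrix.mul_apply, Finset.sum_eq_single (π (π⁻¹ p))] at h1
    · rcases mul_eq_zero.mp h1 with h2 | h2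
      · rw [h3] at h2; exact h2
      · exact absurd h2 (mono_ne N π hπ _)
    · intro r _ hr
      rw [hπ r _ hr, mul_zero]
    · simp

theorem dg_mem_MonG (v : ι → Fˣ) : dg v ∈ MonG ι F :=
  ⟨1, fun _ _ hpq => Matrix.diagonal_apply_ne _ hpq⟩

/-- Conjugating a diagonal matrix by a monomial one permutes the entries. -/
theorem mono_conj_dg {N : GL ι F} (hN : N ∈ MonG ι F) :
    ∃ π : Equiv.Perm ι, ∀ v : ι → Fˣ, N * dg v * N⁻¹ = dg (fun p => v (π p)) := by
  obtain ⟨π, hπ⟩ := hN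
  refine ⟨π⁻¹, ?_⟩
  intro v
  rw [mul_inv_eq_iff_eq_mul]
  apply Units.ext
  ext p q
  rw [Units.val_mul, Units.val_mul, dg_val, dg_val, Matrix.mul_diagonal, Matrix.diagonal_mul]
  by_cases h : p = π q
  · rw [h]; simp [mul_comm]
  · rw [hπ p q h]; simp

variable {E : Type*} [Field E] (lc : F →*₀ E)

theorem map_lc_mul (A B : Matrix ι ι F) (hA : Mono A) :
    (A * B).map lc = A.map lc * B.map lc := by
  obtain ⟨π, hπ⟩ := hA
  ext p r
  rw [Matrix.map_apply, Matrix.mul_apply, Matrix.mul_apply, Finset.sum_eq_single (π⁻¹ p),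
    Finset.sum_eq_single (π⁻¹ p), Matrix.map_apply, Matrix.map_apply, map_mul]
  · intro q _ hq
    rw [Matrix.map_apply, hπ p q, map_zero, zero_mul]
    intro h; apply hq; rw [h]; simp
  · simp
  · intro q _ hq
    rw [hπ p q, zero_mul]
    intro h; apply hq; rw [h]; simp
  · simp

theorem map_lc_one : (1 : Matrix ι ι F).map lc = 1 := by
  rw [Matrix.map_one _ (map_zero lc) (map_one lc)]

/-- Leading coefficients on monomial matrices. -/
def lcG : MonG ι F →* GL ι E where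
  toFun N :=
    { val := (N.1 : Matrix ι ι F).map lc
      inv := ((N.1⁻¹ : GL ι F) : Matrix ι ι F).map lc
      val_inv := by
        rw [← map_lc_mul lc _ _ N.2, ← Units.val_mul, mul_inv_cancel, Units.val_one, map_lc_one]
      inv_val := by
        rw [← map_lc_mul lc _ _ (inv_mem N.2), ← Units.val_mul, inv_mul_cancel, Units.val_one,
          map_lc_one] }
  map_one' := by apply Units.ext; exact map_lc_one lc
  map_mul' := by
    intro M N
    apply Units.ext
    exact map_lc_mul lc _ _ M.2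

theorem lcG_val (N : MonG ι F) : (lcG lc N : Matrix ι ι E) = (N.1 : Matrix ι ι F).map lc := rfl

theorem lcG_mono (N : MonG ι F) : lcG lc N ∈ MonG ι E := by
  obtain ⟨π, hπ⟩ := N.2
  refine ⟨π, ?_⟩
  intro p q hpq
  rw [lcG_val, Matrix.map_apply, hπ p q hpq, map_zero]

end diag

section nor

variable {ι : Type*} [Fintype ι] [DecidableEq ι] {F : Type*} [Field F]

theorem Ad_sub (g : GL ι F) (X Y : Matrix ι ι F) : Ad g (X - Y) = Ad g X - Ad g Y := by
  simp only [Ad, mul_sub, sub_mul]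

theorem mem_Nor_of {g : Submodule F (Matrix ι ι F)} {x : GL ι F} (h : ∀ X ∈ g, Ad x X ∈ g)
    (h' : ∀ X ∈ g, Ad x⁻¹ X ∈ g) : x ∈ Nor g := by
  intro X
  refine ⟨h X, ?_⟩
  intro hX
  have := h' _ hX
  rwa [Ad_inv_Ad] at this

variable {ty : Ty} {n : ℕ}

theorem Ad_LieAlg_of {x : GL (Idx ty n) F}
    (h : ∀ b i, IsRt ty b → ∃ (b' : Fin 8 → ℤ) (j : Fin n) (c : F), IsRt ty b' ∧
      Ad x (rE ty n F b i) = c • rE ty n F b' j) :
    ∀ X ∈ LieAlg ty n F, Ad x X ∈ LieAlg ty n F := by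
  intro X hX
  unfold LieAlg at hX
  induction hX using Submodule.span_induction with
  | mem x hx =>
    rcases hx with ⟨b, i, hb, rfl⟩ | ⟨b, i, hb, rfl⟩
    · obtain ⟨b', j, c, hb', he⟩ := h b i hb
      rw [he]
      exact Submodule.smul_mem _ _ (rE_mem hb' j)
    · obtain ⟨b', j, c, hb', he⟩ := h b i hb
      obtain ⟨b'', j', c', hb'', he'⟩ := h (-b) i hb.neg
      rw [← rE_comm_neg hb, Ad_sub, Ad_mul_mat, Ad_mul_mat, he, he']
      have : c • rE ty n F b' j * c' • rE ty n F b'' j' - c' • rE ty n F b'' j' * c • rE ty n F b' j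
          = (c * c') • (rE ty n F b' j * rE ty n F b'' j' - rE ty n F b'' j' * rE ty n F b' j) := by
        rw [Matrix.smul_mul, Matrix.mul_smul, Matrix.smul_mul, Matrix.mul_smul, smul_smul,
          smul_smul, smul_sub, mul_comm c' c]
      rw [this]
      exact Submodule.smul_mem _ _ (rE_comm_rE hb' hb'' j j')
  | zero => rw [Ad_zero]; exact Submodule.zero_mem _
  | add y z _ _ hy hz => rw [Ad_add]; exact Submodule.add_mem _ hy hz
  | smul a y _ hy => rw [Ad_smul]; exact Submodule.smul_mem _ _ hy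

theorem rE_ne {b : Fin 8 → ℤ} (hb : IsRt ty b) (i : Fin n) : ∃ p q : Idx ty n,
    p.1.1 - q.1.1 = b ∧ p.2 = i ∧ q.2 = i := by
  obtain ⟨l, hl, hbl⟩ := rt_nz hb
  refine ⟨(⟨l + b, (isWt_add hb hl).mpr hbl⟩, i), (⟨l, hl⟩, i), ?_, rfl, rfl⟩
  change l + b - l = b
  abel

theorem rE_apply_ne {b : Fin 8 → ℤ} {i : Fin n} {p q : Idx ty n} (h : p.1.1 - q.1.1 = b)
    (hp : p.2 = i) (hq : q.2 = i) : rE ty n F b i p q = ((sg b q.1.1 : ℤ) : F) := by
  rw [rE_apply, if_pos]
  refine ⟨hp, hq, ?_⟩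
  rw [← h]; abel

theorem sg_cast_ne (b l : Fin 8 → ℤ) : ((sg b l : ℤ) : F) ≠ 0 := by
  intro h0
  have := sg_mul_self b l
  have h1 : ((sg b l : ℤ) : F) * ((sg b l : ℤ) : F) = 1 := by
    rw [← Int.cast_mul, this, Int.cast_one]
  rw [h0, mul_zero] at h1
  exact zero_ne_one h1

theorem root_ne_zero {b : Fin 8 → ℤ} (hb : IsRt ty b) : b ≠ 0 := by
  rintro rfl
  have := hb.ipself
  rw [ip_zero_left] at this
  omega

/-- A diagonal element of the Lie algebra acts on root elements by scalars. -/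
theorem diag_comm {Y : Matrix (Idx ty n) (Idx ty n) F} (hY : Y ∈ LieAlg ty n F)
    (hd : ∀ p q, p ≠ q → Y p q = 0) (c : Rt ty × Fin n) :
    ∃ s : F, Y * rE ty n F c.1.1 c.2 - rE ty n F c.1.1 c.2 * Y = s • rE ty n F c.1.1 c.2 := by
  classical
  obtain ⟨e, y, hey⟩ := (mem_LieAlg_iff Y).mp hY
  have he : ∀ b j, e b j = 0 := by
    intro b j
    obtain ⟨p, q, h1, h2, h3⟩ := rE_ne b.2 j
    have hpq : p ≠ q := by
      rintro rfl
      rw [sub_self] at h1
      exact root_ne_zero b.2 h1.symm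
    have h4 := entry_off e y p q hpq
    rw [← hey, hd p q hpq, dif_pos ⟨by rw [h1]; exact b.2, h2.trans h3.symm⟩] at h4
    rcases mul_eq_zero.mp h4.symm with h5 | h5
    · have : (⟨p.1.1 - q.1.1, by rw [h1]; exact b.2⟩ : Rt ty) = b := Subtype.ext h1
      rw [this, h2] at h5
      exact h5
    · exact absurd h5 (sg_cast_ne _ _)
  have hY2 : Y = Hy (fun k : Rt ty × Fin n => y k.1 k.2) := by
    rw [hey]
    unfold Hy
    rw [← Finset.univ_product_univ, Finset.sum_product]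
    simp [he]
  refine ⟨al (fun k : Rt ty × Fin n => y k.1 k.2) c, ?_⟩
  have h6 := Hy_comm (fun k : Rt ty × Fin n => y k.1 k.2) c
  rw [← hY2] at h6
  rw [← neg_sub, h6, neg_smul, neg_neg]

/-- A monomial element of the normaliser permutes the root elements up to scalars. -/
theorem Ad_rE_mono [CharZero F] {N : GL (Idx ty n) F} (hN : N ∈ Nor (LieAlg ty n F))
    (hm : N ∈ MonG (Idx ty n) F) {b : Fin 8 → ℤ} (hb : IsRt ty b) (i : Fin n) :
    ∃ (b' : Fin 8 → ℤ) (j : Fin n) (c : F), IsRt ty b' ∧ c ≠ 0 ∧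
      Ad N (rE ty n F b i) = c • rE ty n F b' j := by
  classical
  obtain ⟨π, hπ⟩ := hm
  have hX : Ad N (rE ty n F b i) ∈ LieAlg ty n F := (hN _).mp (rE_mem hb i)
  obtain ⟨X, hXe⟩ : ∃ X, Ad N (rE ty n F b i) = X := ⟨_, rfl⟩
  rw [hXe] at hX ⊢
  have hXN : (N : Matrix _ _ F) * rE ty n F b i = X * (N : Matrix _ _ F) := (Ad_eq_iff _ _ _).mp hXe
  -- zero diagonal
  have hdiag : ∀ p, X p p = 0 := by
    intro p
    have h1 := congrFun (congrFun hXN p) (π⁻¹ p)
    rw [Matrix.mul_apply, Matrix.mul_apply, Finset.sum_eq_single (π⁻¹ p),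
      Finset.sum_eq_single p] at h1
    · have h2 : rE ty n F b i (π⁻¹ p) (π⁻¹ p) = 0 := by
        rw [rE_apply, if_neg]
        rintro ⟨-, -, h3⟩
        exact root_ne_zero hb (left_eq_add.mp h3)
      rw [h2, mul_zero] at h1
      rcases mul_eq_zero.mp h1.symm with h3 | h3
      · exact h3
      · exfalso
        have := mono_ne N π hπ (π⁻¹ p)
        rw [show π (π⁻¹ p) = p by simp] at this
        exact this h3
    · intro r _ hr
      rw [hπ r (π⁻¹ p) (by simpa using hr), mul_zero]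
    · simp
    · intro r _ hr
      rw [hπ p r (fun h => hr (by rw [h]; simp)), zero_mul]
    · simp
  -- eigenvector property
  have heig : ∀ k : Rt ty × Fin n, ∃ s : F, ∀ p q, X p q ≠ 0 → hc F k p - hc F k q = s := by
    intro k
    obtain ⟨Y, hY⟩ : ∃ Y, Ad N⁻¹ (rH ty n F k.1.1 k.2) = Y := ⟨_, rfl⟩
    have hYm : Y ∈ LieAlg ty n F := by
      rw [← hY]; exact ((inv_mem hN) _).mp (rH_mem k.1.2 k.2)
    have hYN : (N : Matrix _ _ F) * Y = rH ty n F k.1.1 k.2 * (N : Matrix _ _ F) := by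
      rw [← Ad_eq_iff, ← hY, Ad_Ad_inv]
    have hYd : ∀ p q, p ≠ q → Y p q = 0 := by
      intro p q hpq
      have h1 := congrFun (congrFun hYN (π p)) q
      rw [Matrix.mul_apply, Finset.sum_eq_single p, rH, Matrix.diagonal_mul,
        hπ (π p) q (fun h => hpq (π.injective h)), mul_zero] at h1
      · rcases mul_eq_zero.mp h1 with h3 | h3
        · exact absurd h3 (mono_ne N π hπ p)
        · exact h3
      · intro r _ hr
        rw [hπ (π p) r (fun h => hr (π.injective h).symm), zero_mul]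
      · simp
    obtain ⟨s, hs⟩ := diag_comm hYm hYd (⟨b, hb⟩, i)
    refine ⟨s, ?_⟩
    intro p q hpq
    have h1 : Ad N (Y * rE ty n F b i - rE ty n F b i * Y) = s • X := by
      rw [← hXe, ← Ad_smul]
      congr 1
    rw [Ad_sub, Ad_mul_mat, Ad_mul_mat, hXe, ← hY, Ad_Ad_inv] at h1
    have h2 := congrFun (congrFun h1 p) q
    rw [Matrix.sub_apply, rH, Matrix.diagonal_mul, Matrix.mul_diagonal, Matrix.smul_apply,
      smul_eq_mul] at h2
    have h3 : (hc F k p - hc F k q) * X p q = s * X p q := by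
      rw [← h2]; unfold hc; ring
    exact mul_right_cancel₀ hpq h3
  -- X is nonzero
  have hX0 : ∃ p q, X p q ≠ 0 := by
    by_contra hcon
    push Not at hcon
    have h1 : X = 0 := by ext p q; exact hcon p q
    rw [h1] at hXe
    have h2 : rE ty n F b i = 0 := by
      rw [← Ad_inv_Ad N (rE ty n F b i), hXe, Ad_zero]
    obtain ⟨p, q, h3, h4, h5⟩ := rE_ne hb i
    have h6 := rE_apply_ne (F := F) h3 h4 h5
    rw [h2] at h6
    exact sg_cast_ne (F := F) _ _ h6.symm
  obtain ⟨e, y, hey⟩ := (mem_LieAlg_iff X).mp hX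
  have hoff : ∀ p q, X p q ≠ 0 → IsRt ty (p.1.1 - q.1.1) ∧ p.2 = q.2 := by
    intro p q hpq
    have hne : p ≠ q := by rintro rfl; exact hpq (hdiag p)
    by_contra hcon
    apply hpq
    rw [hey, entry_off e y p q hne, dif_neg hcon]
  obtain ⟨p0, q0, hpq0⟩ := hX0
  obtain ⟨hr0, hc0⟩ := hoff p0 q0 hpq0
  have huniq : ∀ p q, X p q ≠ 0 → p.1.1 - q.1.1 = p0.1.1 - q0.1.1 ∧ p.2 = p0.2 := by
    intro p q hpq
    obtain ⟨hr, hcq⟩ := hoff p q hpq
    obtain ⟨s, hs⟩ := heig (⟨p0.1.1 - q0.1.1, hr0⟩, p0.2)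
    have h1 := hs p q hpq
    have h2 := hs p0 q0 hpq0
    rw [← h1] at h2
    unfold hc at h2
    simp only [if_true, hc0.symm] at h2
    rw [← Int.cast_sub, ← ip_sub_right, hr0.ipself] at h2
    by_cases hj : p.2 = p0.2
    · rw [if_pos hj, if_pos (hcq.symm.trans hj), ← Int.cast_sub, ← ip_sub_right] at h2
      have h3 := Int.cast_injective h2
      exact ⟨eq_of_ip hr0 hr h3.symm, hj⟩
    · exfalso
      rw [if_neg hj, if_neg (fun h => hj (hcq.trans h))] at h2
      norm_num at h2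
  refine ⟨p0.1.1 - q0.1.1, p0.2, e ⟨p0.1.1 - q0.1.1, hr0⟩ p0.2, hr0, ?_, ?_⟩
  · intro h0
    apply hpq0
    have hne : p0 ≠ q0 := by rintro h; rw [h] at hpq0; exact hpq0 (hdiag q0)
    rw [hey, entry_off e y p0 q0 hne, dif_pos ⟨hr0, hc0⟩, h0, zero_mul]
  · ext p q
    rw [Matrix.smul_apply, rE_apply, smul_eq_mul]
    by_cases h : p.2 = p0.2 ∧ q.2 = p0.2 ∧ p.1.1 = q.1.1 + (p0.1.1 - q0.1.1)
    · rw [if_pos h]
      obtain ⟨h1, h2, h3⟩ := h
      have h4 : p.1.1 - q.1.1 = p0.1.1 - q0.1.1 := by rw [h3]; abel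
      have hne : p ≠ q := by
        rintro rfl
        rw [sub_self] at h4
        exact root_ne_zero hr0 h4.symm
      rw [hey, entry_off e y p q hne, dif_pos ⟨by rw [h4]; exact hr0, h1.trans h2.symm⟩]
      have h5 : (⟨p.1.1 - q.1.1, by rw [h4]; exact hr0⟩ : Rt ty) = ⟨p0.1.1 - q0.1.1, hr0⟩ :=
        Subtype.ext h4
      rw [h5, h1, h4]
    · rw [if_neg h, mul_zero]
      by_contra hne
      obtain ⟨h1, h2⟩ := huniq p q hne
      obtain ⟨h3, h4⟩ := hoff p q hne
      apply h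
      refine ⟨h2, h4.symm.trans h2, ?_⟩
      rw [← h1]; abel

end nor

end LP319
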