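import Pool.Agent.Helper319LP.Stm
import Pool.Agent.Helper319LP.KM

/-! Residues and norms on Milnor K-groups: basic lemmas. -/

namespace EKn

open LP319 Polynomial

universe u

/-! ### Symbols -/

section sym

variable {q : ℕ} {F : Type u} [Field F]

theorem sym_cons_swap (a b : Fˣ) (u : Fin q → Fˣ) :
    sym (Fin.cons a (Fin.cons b u : Fin (q + 1) → Fˣ) : Fin (q + 2) → Fˣ) =
      - sym (Fin.cons b (Fin.cons a u : Fin (q + 1) → Fˣ) : Fin (q + 2) → Fˣ) := by
  have h01 : (0 : Fin (q + 2)) ≠ 1 := by
    intro h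
    exact absurd (congrArg Fin.val h) (by simp)
  have key : ∀ x y : Fˣ, (Fin.cons x (Fin.cons y u : Fin (q + 1) → Fˣ) : Fin (q + 2) → Fˣ) =
      Function.update (Function.update
        (Fin.cons 1 (Fin.cons 1 u : Fin (q + 1) → Fˣ) : Fin (q + 2) → Fˣ) 0 x) 1 y := by
    intro x y
    funext j
    refine Fin.cases ?_ (fun j => ?_) j
    · rw [Function.update_of_ne h01, Function.update_self, Fin.cons_zero]
    · refine Fin.cases ?_ (fun j => ?_) j
      · rw [Fin.succ_zero_eq_one, Function.update_self]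
        rfl
      · rw [Function.update_of_ne, Function.update_of_ne]
        · rfl
        · exact Fin.succ_ne_zero _
        · intro h
          have := congrArg Fin.val h
          simp at this
  rw [key a b, key b a]
  exact sym_swap _ h01 a b

theorem sym_cons_self (a : Fˣ) (u : Fin q → Fˣ) :
    sym (Fin.cons a (Fin.cons a u : Fin (q + 1) → Fˣ) : Fin (q + 2) → Fˣ) =
      sym (Fin.cons a (Fin.cons (-1) u : Fin (q + 1) → Fˣ) : Fin (q + 2) → Fˣ) := by
  have h01 : (0 : Fin (q + 2)) ≠ 1 := by
    intro h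
    exact absurd (congrArg Fin.val h) (by simp)
  have key : ∀ x y : Fˣ, (Fin.cons x (Fin.cons y u : Fin (q + 1) → Fˣ) : Fin (q + 2) → Fˣ) =
      Function.update (Function.update
        (Fin.cons 1 (Fin.cons 1 u : Fin (q + 1) → Fˣ) : Fin (q + 2) → Fˣ) 0 x) 1 y := by
    intro x y
    funext j
    refine Fin.cases ?_ (fun j => ?_) j
    · rw [Function.update_of_ne h01, Function.update_self, Fin.cons_zero]
    · refine Fin.cases ?_ (fun j => ?_) j
      · rw [Fin.succ_zero_eq_one, Function.update_self]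
        rfl
      · rw [Function.update_of_ne, Function.update_of_ne]
        · rfl
        · exact Fin.succ_ne_zero _
        · intro h
          have := congrArg Fin.val h
          simp at this
  rw [key a a, key a (-1)]
  exact sym_same _ h01 a

theorem cons_cons_swap (a b : Fˣ) (x : KM q F) :
    KM.cons a (KM.cons b x) = - KM.cons b (KM.cons a x) := by
  induction x using KM_induction with
  | h0 => simp
  | hs u => rw [KM.cons_sym, KM.cons_sym, KM.cons_sym, KM.cons_sym]; exact sym_cons_swap a b u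
  | hn x h => simp only [map_neg, h]
  | ha x y hx hy => simp only [map_add, hx, hy]; abel

theorem cons_cons_self (a : Fˣ) (x : KM q F) :
    KM.cons a (KM.cons a x) = KM.cons a (KM.cons (-1) x) := by
  induction x using KM_induction with
  | h0 => simp
  | hs u => rw [KM.cons_sym, KM.cons_sym, KM.cons_sym, KM.cons_sym]; exact sym_cons_self a u
  | hn x h => simp only [map_neg, h]
  | ha x y hx hy => simp only [map_add, hx, hy]

theorem cons_one (x : KM q F) : KM.cons 1 x = 0 := by
  have := KM.cons_mul 1 1 x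
  rw [one_mul] at this
  exact left_eq_add.mp this

theorem cons_inv (a : Fˣ) (x : KM q F) : KM.cons a⁻¹ x = - KM.cons a x := by
  have := KM.cons_mul a a⁻¹ x
  rw [mul_inv_cancel, cons_one] at this
  exact (neg_eq_of_add_eq_zero_right this.symm).symm

theorem cons_pow (a : Fˣ) (n : ℕ) (x : KM q F) : KM.cons (a ^ n) x = n • KM.cons a x := by
  induction n with
  | zero => rw [pow_zero, cons_one, zero_smul]
  | succ n ih => rw [pow_succ, KM.cons_mul, ih, succ_nsmul]

end sym

/-! ### The graph of the residue map -/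

section res

variable {q : ℕ} {F κ : Type u} [Field F] [Field κ] {p : Fˣ} {R : Fˣ → κˣ → Prop}

theorem Res.unif (u : Fin q → Fˣ) (c : Fin q → κˣ) (h : ∀ i, R (u i) (c i)) :
    ((sym (Fin.cons p u : Fin (q + 1) → Fˣ), sym c) : KM (q + 1) F × KM q κ) ∈ Res q p R :=
  AddSubgroup.subset_closure (Or.inl ⟨u, c, h, rfl⟩)

theorem Res.unit (u : Fin (q + 1) → Fˣ) (c : Fin (q + 1) → κˣ) (h : ∀ i, R (u i) (c i)) :
    ((sym u, 0) : KM (q + 1) F × KM q κ) ∈ Res q p R :=
  AddSubgroup.subset_closure (Or.inr ⟨u, c, h, rfl⟩)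

theorem Res.map {F' κ' : Type u} [Field F'] [Field κ'] {p' : F'ˣ} {R' : F'ˣ → κ'ˣ → Prop}
    (f : F →+* F') (g : κ →+* κ')
    (hR : ∀ u c, R u c → R' (Units.map (f : F →* F') u) (Units.map (g : κ →* κ') c))
    (r : F'ˣ) (c0 : κ'ˣ) (hr : R' r c0) (hp : Units.map (f : F →* F') p = p' * r)
    {Y : KM (q + 1) F} {z : KM q κ} (h : (Y, z) ∈ Res q p R) :
    ((KM.map f Y, KM.map g z) : KM (q + 1) F' × KM q κ') ∈ Res q p' R' := by
  have h1 : Res q p R ≤ (Res q p' R').comap (AddMonoidHom.prodMap (KM.map f) (KM.map g)) := by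
    unfold Res
    rw [AddSubgroup.closure_le]
    rintro w (⟨u, c, huc, rfl⟩ | ⟨u, c, huc, rfl⟩)
    · change ((KM.map f (sym (Fin.cons p u : Fin (q + 1) → Fˣ)), KM.map g (sym c)) :
        KM (q + 1) F' × KM q κ') ∈ Res q p' R'
      rw [← KM.cons_sym, KM.map_cons, hp, KM.cons_mul, KM.map_sym, KM.map_sym, KM.cons_sym,
        KM.cons_sym]
      have h2 := AddSubgroup.add_mem _
        (Res.unif (p := p') (R := R') (fun i => Units.map (f : F →* F') (u i))
          (fun i => Units.map (g : κ →* κ') (c i)) (fun i => hR _ _ (huc i)))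
        (Res.unit (p := p') (R := R') (Fin.cons r (fun i => Units.map (f : F →* F') (u i)))
          (Fin.cons c0 (fun i => Units.map (g : κ →* κ') (c i))) (by
            intro i
            refine Fin.cases ?_ (fun i => ?_) i
            · simpa using hr
            · simpa using hR _ _ (huc i)))
      rw [Prod.mk_add_mk, add_zero] at h2
      exact h2
    · change ((KM.map f (sym u), KM.map g 0) : KM (q + 1) F' × KM q κ') ∈ Res q p' R'
      rw [KM.map_sym, map_zero]
      exact Res.unit _ (fun i => Units.map (g : κ →* κ') (c i)) (fun i => hR _ _ (huc i))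
  exact h1 h

theorem Res.cons (c0 : Fˣ) (c0' : κˣ) (h0 : R c0 c0') {Y : KM (q + 1) F} {z : KM q κ}
    (h : (Y, z) ∈ Res q p R) :
    ((KM.cons c0 Y, -KM.cons c0' z) : KM (q + 2) F × KM (q + 1) κ) ∈ Res (q + 1) p R := by
  have h1 : Res q p R ≤ (Res (q + 1) p R).comap
      (AddMonoidHom.prodMap (KM.cons c0) (-(KM.cons c0'))) := by
    conv_lhs => unfold Res
    rw [AddSubgroup.closure_le]
    rintro w (⟨u, c, huc, rfl⟩ | ⟨u, c, huc, rfl⟩)
    · change ((KM.cons c0 (sym (Fin.cons p u : Fin (q + 1) → Fˣ)), -KM.cons c0' (sym c)) :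
        KM (q + 2) F × KM (q + 1) κ) ∈ Res (q + 1) p R
      rw [KM.cons_sym, KM.cons_sym, sym_cons_swap]
      have h2 := AddSubgroup.neg_mem _
        (Res.unif (p := p) (R := R) (Fin.cons c0 u : Fin (q + 1) → Fˣ)
          (Fin.cons c0' c : Fin (q + 1) → κˣ) (by
            intro i
            refine Fin.cases ?_ (fun i => ?_) i
            · simpa using h0
            · simpa using huc i))
      exact h2
    · change ((KM.cons c0 (sym u), -KM.cons c0' 0) :
        KM (q + 2) F × KM (q + 1) κ) ∈ Res (q + 1) p R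
      rw [KM.cons_sym, map_zero, neg_zero]
      exact Res.unit _ (Fin.cons c0' c) (by
            intro i
            refine Fin.cases ?_ (fun i => ?_) i
            · simpa using h0
            · simpa using huc i)
  exact h1 h

/-- The subgroup generated by symbols of units. -/
noncomputable def UnitK (q : ℕ) (R : Fˣ → κˣ → Prop) : AddSubgroup (KM q F) :=
  AddSubgroup.closure {w | ∃ u : Fin q → Fˣ, (∀ i, ∃ c, R (u i) c) ∧ w = sym u}

theorem UnitK.res {Y : KM (q + 1) F} (h : Y ∈ UnitK (q + 1) R) :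
    ((Y, 0) : KM (q + 1) F × KM q κ) ∈ Res q p R := by
  have h1 : UnitK (q + 1) R ≤ (Res q p R).comap (AddMonoidHom.inl (KM (q + 1) F) (KM q κ)) := by
    unfold UnitK
    rw [AddSubgroup.closure_le]
    rintro w ⟨u, hu, rfl⟩
    choose c hc using hu
    exact Res.unit u c hc
  exact h1 h

theorem UnitK.cons {Y : KM q F} (h : Y ∈ UnitK q R) (v : Fˣ) (hv : ∃ c, R v c) :
    KM.cons v Y ∈ UnitK (q + 1) R := by
  have h1 : UnitK q R ≤ (UnitK (q + 1) R).comap (KM.cons v) := by
    conv_lhs => unfold UnitK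
    rw [AddSubgroup.closure_le]
    rintro w ⟨u, hu, rfl⟩
    change KM.cons v (sym u) ∈ UnitK (q + 1) R
    rw [KM.cons_sym]
    refine AddSubgroup.subset_closure ⟨_, ?_, rfl⟩
    intro i
    refine Fin.cases ?_ (fun i => ?_) i
    · simpa using hv
    · simpa using hu i
  exact h1 h

theorem UnitK.map {F' : Type u} [Field F'] (f : F' →+* F)
    (hf : ∀ u : F'ˣ, ∃ c, R (Units.map (f : F' →* F) u) c) (Y : KM q F') :
    KM.map f Y ∈ UnitK q R := by
  induction Y using KM_induction with
  | h0 => rw [map_zero]; exact AddSubgroup.zero_mem _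
  | hs u =>
    rw [KM.map_sym]
    exact AddSubgroup.subset_closure ⟨_, fun i => hf (u i), rfl⟩
  | hn x h => rw [map_neg]; exact AddSubgroup.neg_mem _ h
  | ha x y hx hy => rw [map_add]; exact AddSubgroup.add_mem _ hx hy

/-- Residue of a product of the uniformiser with a constant. -/
theorem Res.const {F' : Type u} [Field F'] (f : F' →+* F) (g : F' →+* κ)
    (hf : ∀ u : F'ˣ, R (Units.map (f : F' →* F) u) (Units.map (g : F' →* κ) u)) (y : KM q F') :
    ((KM.cons p (KM.map f y), KM.map g y) : KM (q + 1) F × KM q κ) ∈ Res q p R := by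
  induction y using KM_induction with
  | h0 => simp only [map_zero]; exact AddSubgroup.zero_mem _
  | hs u =>
    rw [KM.map_sym, KM.map_sym, KM.cons_sym]
    exact Res.unif _ _ fun i => hf (u i)
  | hn x h =>
    simp only [map_neg]
    exact AddSubgroup.neg_mem _ h
  | ha x y hx hy =>
    simp only [map_add]
    exact AddSubgroup.add_mem _ hx hy

end res

end EKn
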