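import Pool.Agent.Helper319LP.NS

/-! Norms for simple extensions: degree, projection formula, roots of the variable. -/

namespace EKn

open LP319 Polynomial

universe u

section values

variable {L : Type u} [Field L]

theorem ratU_val (f : L[X]) (hf : f ≠ 0) :
    ((ratU f hf : (RatFunc L)ˣ) : RatFunc L) = algebraMap L[X] (RatFunc L) f := rfl

theorem ratU_one : ratU (1 : L[X]) one_ne_zero = 1 := by
  apply Units.ext
  rw [ratU_val, map_one, Units.val_one]

theorem ratU_mul (f g : L[X]) (hf : f ≠ 0) (hg : g ≠ 0) :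
    ratU (f * g) (mul_ne_zero hf hg) = ratU f hf * ratU g hg := by
  apply Units.ext
  rw [ratU_val, map_mul, Units.val_mul, ratU_val, ratU_val]

theorem ratU_pow (f : L[X]) (hf : f ≠ 0) (n : ℕ) :
    ratU (f ^ n) (pow_ne_zero n hf) = ratU f hf ^ n := by
  apply Units.ext
  rw [ratU_val, map_pow, Units.val_pow_eq_pow_val, ratU_val]

theorem exists_ratU (u : (RatFunc L)ˣ) : ∃ (f g : L[X]) (hf : f ≠ 0) (hg : g ≠ 0),
    u = ratU f hf / ratU g hg := by
  obtain ⟨f, g, hg, h⟩ := IsFractionRing.div_surjective (A := L[X]) (u : RatFunc L)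
  have hg0 : g ≠ 0 := nonZeroDivisors.ne_zero hg
  have hf0 : f ≠ 0 := by
    rintro rfl
    rw [map_zero, zero_div] at h
    exact Units.ne_zero u h.symm
  refine ⟨f, g, hf0, hg0, ?_⟩
  apply Units.ext
  rw [← h, Units.val_div_eq_div_val, ratU_val, ratU_val]

/-- Constants in the field of rational functions. -/
noncomputable def cR (L : Type u) [Field L] : L →+* RatFunc L :=
  (algebraMap L[X] (RatFunc L)).comp C

theorem cR_unit (u : Lˣ) : Units.map (cR L : L →* RatFunc L) u =
    ratU (C (u : L)) (C_ne_zero.mpr (Units.ne_zero u)) := by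
  apply Units.ext
  rfl

variable {M : Type u} [Field M] [Algebra L M]

theorem ValAt.poly (β : M) (f : L[X]) (hf : f ≠ 0) (c : Mˣ) (h : aeval β f = c) :
    ValAt β (ratU f hf) c := by
  refine ⟨f, 1, hf, one_ne_zero, ?_, ?_, ?_⟩
  · rw [ratU_one, div_one]
  · simp
  · simp [h]

theorem ValAt.poly' (β : M) (f : L[X]) (hf : f ≠ 0) (h : aeval β f ≠ 0) :
    ∃ c, ValAt β (ratU f hf) c :=
  ⟨Units.mk0 _ h, ValAt.poly β f hf _ rfl⟩

theorem ValAt.const (β : M) (u : Lˣ) : ValAt β (Units.map (cR L : L →* RatFunc L) u)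
    (Units.map (algebraMap L M : L →* M) u) := by
  rw [cR_unit]
  apply ValAt.poly
  rw [aeval_C]
  rfl

theorem ValInf.mk' (f g : L[X]) (hf : f ≠ 0) (hg : g ≠ 0) (c : Lˣ)
    (h1 : f.natDegree = g.natDegree) (h2 : f.leadingCoeff = c * g.leadingCoeff) :
    ValInf (ratU f hf / ratU g hg) c := ⟨f, g, hf, hg, rfl, h1, h2⟩

theorem ValInf.const (u : Lˣ) : ValInf (Units.map (cR L : L →* RatFunc L) u) u := by
  rw [cR_unit]
  have := ValInf.mk' (C (u : L)) 1 (C_ne_zero.mpr (Units.ne_zero u)) one_ne_zero u (by simp)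
    (by simp)
  rwa [ratU_one, div_one] at this

theorem ValInf.const' (u : Lˣ) : ValInf (Units.map (cR L : L →* RatFunc L) u)
    (Units.map (RingHom.id L : L →* L) u) := ValInf.const u

end values

section steps

variable {q : ℕ} {L M : Type u} [Field L] [Field M] [Algebra L M]

theorem unit_const (β : M) (y : KM q L) :
    KM.map (cR L) y ∈ UnitK q (ValAt β) :=
  UnitK.map (cR L) (fun u => ⟨_, ValAt.const β u⟩) y

theorem unitInf_const (y : KM q L) : KM.map (cR L) y ∈ UnitK q (ValInf (L := L)) :=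
  UnitK.map (cR L) (fun u => ⟨_, ValInf.const u⟩) y

theorem inf_X (y : KM q L) : HasResInf q (KM.cons (ratU X X_ne_zero) (KM.map (cR L) y)) (-y) := by
  have h1 := Res.const (p := (ratU (X : L[X]) X_ne_zero)⁻¹) (R := ValInf) (cR L) (RingHom.id L)
    ValInf.const' y
  rw [KM.map_id, cons_inv] at h1
  have h2 := AddSubgroup.neg_mem _ h1
  simp only [Prod.neg_mk, neg_neg] at h2
  exact h2

theorem HasResInf.add {Y Y' : KM (q + 1) (RatFunc L)} {x x' : KM q L} (h : HasResInf q Y x)
    (h' : HasResInf q Y' x') : HasResInf q (Y + Y') (x + x') :=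
  AddSubgroup.add_mem _ h h'

theorem HasResInf.neg {Y : KM (q + 1) (RatFunc L)} {x : KM q L} (h : HasResInf q Y x) :
    HasResInf q (-Y) (-x) :=
  AddSubgroup.neg_mem _ h

theorem HasResInf.nsmul {Y : KM (q + 1) (RatFunc L)} {x : KM q L} (h : HasResInf q Y x) (n : ℕ) :
    HasResInf q (n • Y) (n • x) :=
  AddSubgroup.nsmul_mem _ h n

theorem HasRes.add {β : M} {hβ : IsIntegral L β} {Y Y' : KM (q + 1) (RatFunc L)} {z z' : KM q M}
    (h : HasRes q β hβ Y z) (h' : HasRes q β hβ Y' z') : HasRes q β hβ (Y + Y') (z + z') :=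
  AddSubgroup.add_mem _ h h'

theorem HasRes.neg {β : M} {hβ : IsIntegral L β} {Y : KM (q + 1) (RatFunc L)} {z : KM q M}
    (h : HasRes q β hβ Y z) : HasRes q β hβ (-Y) (-z) :=
  AddSubgroup.neg_mem _ h

theorem HasRes.two {β : M} {hβ : IsIntegral L β} {v : (RatFunc L)ˣ} {c : Mˣ} (h : ValAt β v c)
    (y : KM q L) : HasRes (q + 1) β hβ (KM.cons (ratU (minpoly L β) (minpoly.ne_zero hβ))
      (KM.cons v (KM.map (cR L) y))) (KM.cons c (KM.map (algebraMap L M) y)) := by
  have h1 := Res.const (p := ratU (minpoly L β) (minpoly.ne_zero hβ)) (R := ValAt β) (cR L)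
    (algebraMap L M) (ValAt.const β) y
  have h2 := AddSubgroup.neg_mem _ (Res.cons v c h h1)
  simp only [Prod.neg_mk, neg_neg] at h2
  rw [cons_cons_swap, neg_neg] at h2
  exact h2

theorem inf_cons_monic (P : L[X]) (hP : P.Monic) {w : (RatFunc L)ˣ}
    (hw : ratU P hP.ne_zero = ratU X X_ne_zero ^ P.natDegree * w) : ValInf w 1 := by
  have h1 : w = ratU P hP.ne_zero / ratU (X ^ P.natDegree) (pow_ne_zero _ X_ne_zero) := by
    rw [hw, ratU_pow X X_ne_zero, mul_comm, mul_div_assoc, div_self', mul_one]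
  rw [h1]
  apply ValInf.mk'
  · rw [natDegree_X_pow]
  · rw [hP.leadingCoeff, leadingCoeff_X_pow]; simp

theorem normStep_deg {α : M} (hα : IsIntegral L α) (hgen : IntermediateField.adjoin L {α} = ⊤)
    (x : KM q L) :
    NormStep q L M (KM.map (algebraMap L M) x) ((minpoly L α).natDegree • x) := by
  refine ⟨α, hα, KM.cons (ratU (minpoly L α) (minpoly.ne_zero hα)) (KM.map (cR L) x), hgen, ?_,
    ?_, ?_⟩
  · exact Res.const (cR L) (algebraMap L M) (ValAt.const α) x
  · have hmon := minpoly.monic hα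
    obtain ⟨w, hw⟩ : ∃ w, ratU (minpoly L α) (minpoly.ne_zero hα) =
        ratU X X_ne_zero ^ (minpoly L α).natDegree * w := ⟨_, (mul_inv_cancel_left _ _).symm⟩
    have hw1 := inf_cons_monic _ hmon hw
    rw [hw, KM.cons_mul, cons_pow]
    have h1 := (inf_X x).nsmul (minpoly L α).natDegree
    have h2 : HasResInf q (KM.cons w (KM.map (cR L) x)) 0 :=
      UnitK.res (UnitK.cons (unitInf_const x) w ⟨1, hw1⟩)
    have h3 := h1.add h2
    rw [add_zero, smul_neg] at h3
    exact h3
  · intro M' _ _ β hβ hne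
    exact UnitK.res (UnitK.cons (unit_const β x) _ (ValAt.poly' _ _ _ hne))

theorem NormStep.cons {z : KM q M} {x : KM q L} (h : NormStep q L M z x) (c : Lˣ) :
    NormStep (q + 1) L M (KM.cons (Units.map (algebraMap L M : L →* M) c) z) (KM.cons c x) := by
  obtain ⟨α, hα, Y, hgen, h1, h2, h3⟩ := h
  refine ⟨α, hα, -KM.cons (Units.map (cR L : L →* RatFunc L) c) Y, hgen, ?_, ?_, ?_⟩
  · have := AddSubgroup.neg_mem _ (Res.cons _ _ (ValAt.const α c) h1)
    simp only [Prod.neg_mk, neg_neg] at this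
    exact this
  · have := AddSubgroup.neg_mem _ (Res.cons _ _ (ValInf.const c) h2)
    simp only [Prod.neg_mk, neg_neg, map_neg] at this
    exact this
  · intro M' _ _ β hβ hne
    have := AddSubgroup.neg_mem _ (Res.cons _ _ (ValAt.const β c) (h3 M' β hβ hne))
    simp only [Prod.neg_mk, neg_neg, map_zero] at this
    exact this

theorem normStep_root {s : M} (hs : IsIntegral L s) (hgen : IntermediateField.adjoin L {s} = ⊤)
    (m : ℕ) (hm : 0 < m) (hev : Even m) (t0 : Lˣ) (hP : minpoly L s = X ^ m - C (t0 : L))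
    (s' : Mˣ) (hs' : (s' : M) = s) (y : KM q L) :
    NormStep (q + 1) L M (KM.cons s' (KM.map (algebraMap L M) y)) (KM.cons (-t0) y) := by
  have hc : Units.map (cR L : L →* RatFunc L) (-t0) = ratU (C ((-t0 : Lˣ) : L))
    (C_ne_zero.mpr (Units.ne_zero _)) := cR_unit _
  refine ⟨s, hs, KM.cons (ratU (minpoly L s) (minpoly.ne_zero hs))
    (KM.cons (ratU X X_ne_zero) (KM.map (cR L) y)) +
    KM.cons (ratU X X_ne_zero) (KM.cons (Units.map (cR L : L →* RatFunc L) (-t0))
      (KM.map (cR L) y)), hgen, ?_, ?_, ?_⟩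
  · have h1 := HasRes.two (hβ := hs) (ValAt.poly s X X_ne_zero s' (by rw [aeval_X, hs'])) y
    have h2 : HasRes (q + 1) s hs (KM.cons (ratU X X_ne_zero)
        (KM.cons (Units.map (cR L : L →* RatFunc L) (-t0)) (KM.map (cR L) y))) 0 :=
      UnitK.res (UnitK.cons (UnitK.cons (unit_const s y) _ ⟨_, ValAt.const s (-t0)⟩) _
        ⟨_, ValAt.poly s X X_ne_zero s' (by rw [aeval_X, hs'])⟩)
    have h3 := h1.add h2
    rwa [add_zero] at h3
  · have hmon := minpoly.monic hs
    obtain ⟨w, hw⟩ : ∃ w, ratU (minpoly L s) (minpoly.ne_zero hs) =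
        ratU X X_ne_zero ^ (minpoly L s).natDegree * w := ⟨_, (mul_inv_cancel_left _ _).symm⟩
    have hw1 := inf_cons_monic _ hmon hw
    have hd : (minpoly L s).natDegree = m := by rw [hP, natDegree_X_pow_sub_C]
    rw [hw, KM.cons_mul, cons_pow, hd, cons_cons_self, ← map_nsmul, ← cons_pow, hev.neg_one_pow,
      cons_one, map_zero, zero_add]
    have h1 : HasResInf (q + 1) (KM.cons w (KM.cons (ratU X X_ne_zero) (KM.map (cR L) y))) 0 := by
      have h2 := Res.cons w 1 hw1 (inf_X y)
      rw [cons_one, neg_zero] at h2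
      exact h2
    have h2 : HasResInf (q + 1) (KM.cons (ratU X X_ne_zero)
        (KM.cons (Units.map (cR L : L →* RatFunc L) (-t0)) (KM.map (cR L) y)))
        (-KM.cons (-t0) y) := by
      have h3 := inf_X (KM.cons (-t0) y)
      rw [KM.map_cons] at h3
      exact h3
    have h3 := h1.add h2
    rwa [zero_add] at h3
  · intro M' _ _ β hβ hne
    by_cases hβ0 : β = 0
    · subst hβ0
      have hmin : minpoly L (0 : M') = X := minpoly.zero L M'
      have hX : ratU (minpoly L (0 : M')) (minpoly.ne_zero hβ) = ratU X X_ne_zero := by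
        apply Units.ext
        rw [ratU_val, ratU_val, hmin]
      have hval : ValAt (0 : M') (ratU (minpoly L s) (minpoly.ne_zero hs))
          (Units.map (algebraMap L M' : L →* M') (-t0)) := by
        apply ValAt.poly
        rw [hP]
        simp [hm.ne']
      have h1 := HasRes.two (hβ := hβ) hval y
      have h2 := HasRes.two (hβ := hβ) (ValAt.const (0 : M') (-t0)) y
      rw [hX] at h1 h2
      have h3 := h1.neg.add h2
      rw [neg_add_cancel, ← cons_cons_swap] at h3
      exact h3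
    · have hX : ∃ c, ValAt β (ratU (X : L[X]) X_ne_zero) c :=
        ValAt.poly' β X X_ne_zero (by rwa [aeval_X])
      have h1 : HasRes (q + 1) β hβ (KM.cons (ratU (minpoly L s) (minpoly.ne_zero hs))
          (KM.cons (ratU X X_ne_zero) (KM.map (cR L) y))) 0 :=
        UnitK.res (UnitK.cons (UnitK.cons (unit_const β y) _ hX) _ (ValAt.poly' _ _ _ hne))
      have h2 : HasRes (q + 1) β hβ (KM.cons (ratU X X_ne_zero)
          (KM.cons (Units.map (cR L : L →* RatFunc L) (-t0)) (KM.map (cR L) y))) 0 :=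
        UnitK.res (UnitK.cons (UnitK.cons (unit_const β y) _ ⟨_, ValAt.const β (-t0)⟩) _ hX)
      have h3 := h1.add h2
      rwa [add_zero] at h3

end steps

end EKn
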