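import Pool.Agent.Helper319LP.NS2

/-! Norms for simple extensions: base change. -/

namespace EKn

open LP319 Polynomial

universe u

section base

variable {q : ℕ} {L M L' M' : Type u} [Field L] [Field M] [Algebra L M] [Field L'] [Field M']
  [Algebra L' M']

/-- The map on rational functions induced by a field homomorphism. -/
noncomputable def fR (f : L →+* L') : RatFunc L →+* RatFunc L' :=
  IsFractionRing.lift (A := L[X]) (K := RatFunc L)
    (g := (algebraMap L'[X] (RatFunc L')).comp (Polynomial.mapRingHom f))
    ((RatFunc.algebraMap_injective L').comp (Polynomial.map_injective f f.injective))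

theorem fR_alg (f : L →+* L') (g : L[X]) :
    fR f (algebraMap L[X] (RatFunc L) g) = algebraMap L'[X] (RatFunc L') (g.map f) := by
  unfold fR
  rw [IsFractionRing.lift_algebraMap]
  rfl

theorem fR_ratU (f : L →+* L') (g : L[X]) (hg : g ≠ 0) :
    Units.map (fR f : RatFunc L →* RatFunc L') (ratU g hg) =
      ratU (g.map f) (Polynomial.map_ne_zero hg) := by
  apply Units.ext
  rw [Units.coe_map, ratU_val, ratU_val]
  exact fR_alg f g

theorem fR_cR (f : L →+* L') : (fR f).comp (cR L) = (cR L').comp f := by
  ext1 x
  change fR f (algebraMap L[X] (RatFunc L) (C x)) = algebraMap L'[X] (RatFunc L') (C (f x))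
  rw [fR_alg, map_C]

theorem aeval_compat (f : L →+* L') (g : M →+* M')
    (hfg : ∀ x, g (algebraMap L M x) = algebraMap L' M' (f x)) (β : M) (P : L[X]) :
    aeval (g β) (P.map f) = g (aeval β P) := by
  rw [aeval_def, aeval_def, eval₂_map, hom_eval₂]
  congr 1
  ext1 x
  exact (hfg x).symm

theorem ValAt.map (f : L →+* L') (g : M →+* M')
    (hfg : ∀ x, g (algebraMap L M x) = algebraMap L' M' (f x)) (β : M) {u : (RatFunc L)ˣ} {c : Mˣ}
    (h : ValAt β u c) : ValAt (g β) (Units.map (fR f : RatFunc L →* RatFunc L') u)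
      (Units.map (g : M →* M') c) := by
  obtain ⟨P, Q, hP, hQ, rfl, h1, h2⟩ := h
  refine ⟨P.map f, Q.map f, Polynomial.map_ne_zero hP, Polynomial.map_ne_zero hQ, ?_, ?_, ?_⟩
  · rw [_root_.map_div, fR_ratU, fR_ratU]
  · rw [aeval_compat f g hfg]
    exact (_root_.map_ne_zero g).mpr h1
  · rw [aeval_compat f g hfg, aeval_compat f g hfg, h2, map_mul]
    rfl

theorem ValInf.map (f : L →+* L') {u : (RatFunc L)ˣ} {c : Lˣ}
    (h : ValInf u c) : ValInf (Units.map (fR f : RatFunc L →* RatFunc L') u)
      (Units.map (f : L →* L') c) := by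
  obtain ⟨P, Q, hP, hQ, rfl, h1, h2⟩ := h
  refine ⟨P.map f, Q.map f, Polynomial.map_ne_zero hP, Polynomial.map_ne_zero hQ, ?_, ?_, ?_⟩
  · rw [_root_.map_div, fR_ratU, fR_ratU]
  · rw [natDegree_map, natDegree_map, h1]
  · rw [leadingCoeff_map, leadingCoeff_map, h2, map_mul]
    rfl

theorem adjoin_image (f : L →+* L') (g : M →+* M')
    (hfg : ∀ x, g (algebraMap L M x) = algebraMap L' M' (f x))
    (hgen : IntermediateField.adjoin L' (Set.range g) = ⊤) {α : M}
    (hα : IntermediateField.adjoin L {α} = ⊤) : IntermediateField.adjoin L' {g α} = ⊤ := by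
  rw [eq_top_iff, ← hgen, IntermediateField.adjoin_le_iff]
  rintro _ ⟨x, rfl⟩
  obtain ⟨E, hE⟩ : ∃ E, IntermediateField.adjoin L' {g α} = E := ⟨_, rfl⟩
  rw [hE]
  let S : IntermediateField L M :=
    { E.toSubfield.comap g with
      algebraMap_mem' := fun r => by
        change g (algebraMap L M r) ∈ E
        rw [hfg]
        exact E.algebraMap_mem _ }
  have h1 : IntermediateField.adjoin L {α} ≤ S := by
    rw [IntermediateField.adjoin_le_iff]
    rintro _ rfl
    change g _ ∈ E
    rw [← hE]
    exact IntermediateField.mem_adjoin_simple_self L' (g _)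
  rw [hα] at h1
  exact h1 (IntermediateField.mem_top (x := x))

theorem NormStep.base [CharZero L] (f : L →+* L') (g : M →+* M')
    (hfg : ∀ x, g (algebraMap L M x) = algebraMap L' M' (f x))
    (hgen : IntermediateField.adjoin L' (Set.range g) = ⊤)
    [FiniteDimensional L M] [FiniteDimensional L' M']
    (hdeg : Module.finrank L' M' = Module.finrank L M) {z : KM q M} {x : KM q L}
    (h : NormStep q L M z x) : NormStep q L' M' (KM.map g z) (KM.map f x) := by
  obtain ⟨α, hα, Y, hαgen, h1, h2, h3⟩ := h
  have hα' : IsIntegral L' (g α) := Algebra.IsIntegral.isIntegral _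
  have hgen' : IntermediateField.adjoin L' {g α} = ⊤ := adjoin_image f g hfg hgen hαgen
  have hmin : minpoly L' (g α) = (minpoly L α).map f := by
    have hd : minpoly L' (g α) ∣ (minpoly L α).map f := by
      apply minpoly.dvd
      rw [aeval_compat f g hfg, minpoly.aeval, map_zero]
    refine (Polynomial.eq_of_monic_of_dvd_of_natDegree_le (minpoly.monic hα')
      ((minpoly.monic hα).map f) hd ?_).symm
    rw [natDegree_map, ← IntermediateField.adjoin.finrank hα,
      ← IntermediateField.adjoin.finrank hα', hgen', hαgen, IntermediateField.finrank_top',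
      IntermediateField.finrank_top', hdeg]
  have hpU : Units.map (fR f : RatFunc L →* RatFunc L') (ratU (minpoly L α) (minpoly.ne_zero hα)) =
      ratU (minpoly L' (g α)) (minpoly.ne_zero hα') := by
    rw [fR_ratU]
    apply Units.ext
    rw [ratU_val, ratU_val, hmin]
  refine ⟨g α, hα', KM.map (fR f) Y, hgen', ?_, ?_, ?_⟩
  · refine Res.map (fR f) g (fun u c huc => ValAt.map f g hfg α huc) 1 1 ?_ ?_ h1
    · have := ValAt.const (L := L') (g α) 1
      rwa [map_one, map_one] at this
    · rw [mul_one]; exact hpU
  · have hp2 : Units.map (fR f : RatFunc L →* RatFunc L') (ratU (X : L[X]) X_ne_zero)⁻¹ =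
        (ratU (X : L'[X]) X_ne_zero)⁻¹ * 1 := by
      rw [mul_one, map_inv, fR_ratU]
      congr 1
      apply Units.ext
      rw [ratU_val, ratU_val, map_X]
    have h4 := Res.map (p' := (ratU (X : L'[X]) X_ne_zero)⁻¹) (R' := ValInf) (fR f) f
      (fun u c huc => ValInf.map f huc) 1 1 (by
        have := ValInf.const (L := L') 1
        rwa [map_one] at this) hp2 h2
    rw [map_neg] at h4
    exact h4
  · intro M'' _ _ β hβ hne
    let _ : Algebra L M'' := ((algebraMap L' M'').comp f).toAlgebra
    have hid : ∀ x, RingHom.id M'' (algebraMap L M'' x) = algebraMap L' M'' (f x) := fun x => rfl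
    have hae : ∀ P : L[X], aeval β (P.map f) = aeval β P := fun P =>
      aeval_compat f (RingHom.id M'') hid β P
    by_cases hint : IsIntegral L β
    · have h4 := h3 M'' β hint (by
        rw [← hae, ← hmin]
        exact hne)
      have hsep : ((minpoly L β).map f).Separable :=
        (minpoly.irreducible hint).separable.map
      obtain ⟨r, hr⟩ : minpoly L' β ∣ (minpoly L β).map f := by
        apply minpoly.dvd
        rw [hae, minpoly.aeval]
      have hr0 : r ≠ 0 := by
        rintro rfl
        rw [mul_zero] at hr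
        exact Polynomial.map_ne_zero (minpoly.ne_zero hint) hr
      have hrβ : aeval β r ≠ 0 := by
        intro h0
        rw [hr] at hsep
        have hco : IsCoprime (minpoly L' β) r := hsep.isCoprime
        obtain ⟨a, b, hab⟩ := hco
        have := congrArg (aeval β) hab
        rw [map_add, map_mul, map_mul, minpoly.aeval, h0, mul_zero, mul_zero, add_zero,
          map_one] at this
        exact zero_ne_one this
      obtain ⟨c0, hc0⟩ := ValAt.poly' β r hr0 hrβ
      have h5 := Res.map (p' := ratU (minpoly L' β) (minpoly.ne_zero hβ)) (R' := ValAt β) (fR f)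
        (RingHom.id M'') (fun u c huc => ValAt.map f (RingHom.id M'') hid β huc) (ratU r hr0) c0 hc0
        (by
          rw [fR_ratU, ← ratU_mul]
          apply Units.ext
          rw [ratU_val, ratU_val, hr]) h4
      rw [map_zero] at h5
      exact h5
    · have hall : ∀ P : L[X], P ≠ 0 → aeval β (P.map f) ≠ 0 := by
        intro P hP h0
        apply hint
        rw [hae] at h0
        exact IsAlgebraic.isIntegral ⟨P, hP, h0⟩
      refine UnitK.res (UnitK.map (fR f) ?_ Y)
      intro u
      obtain ⟨P, Q, hP, hQ, rfl⟩ := exists_ratU u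
      have hP' := hall P hP
      have hQ' := hall Q hQ
      refine ⟨Units.mk0 _ hP' / Units.mk0 _ hQ', P.map f, Q.map f, Polynomial.map_ne_zero hP,
        Polynomial.map_ne_zero hQ, ?_, hQ', ?_⟩
      · rw [_root_.map_div, fR_ratU, fR_ratU]
      · rw [Units.val_div_eq_div_val, Units.val_mk0, Units.val_mk0, div_mul_cancel₀ _ hQ']

end base

end EKn
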