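import Pool.Agent.Helper319LP.Ext

/-! The per-field theorem. -/

namespace LP319

universe u

open Polynomial Pool.Agent.Helper165.P1

set_option linter.unusedSectionVars false

section

variable {k K : Type u} [Field k] [Field K]

/-- The constants of a Laurent series field. -/
noncomputable def cst (ψ : K ≃+* LaurentSeries k) : k →+* K :=
  (ψ.symm : LaurentSeries k →+* K).comp HahnSeries.C

theorem cst_apply (ψ : K ≃+* LaurentSeries k) (x : k) :
    cst ψ x = ψ.symm (HahnSeries.single 0 x) := rfl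

/-- The variable of a Laurent series field. -/
noncomputable def var (ψ : K ≃+* LaurentSeries k) : Kˣ :=
  Units.mk0 (ψ.symm (HahnSeries.single 1 1)) (by
    intro h0
    have h1 := (map_eq_zero_iff ψ.symm ψ.symm.injective).mp h0
    exact HahnSeries.single_ne_zero (one_ne_zero (α := k)) h1)

theorem var_val (ψ : K ≃+* LaurentSeries k) :
    (var ψ : K) = ψ.symm (HahnSeries.single 1 1) := rfl

theorem norm_step [CharZero k] [CharZero K] (N : NormMaps.{u}) {q : ℕ} {ty : Ty} {n : ℕ}
    {ψ : K ≃+* LaurentSeries k}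
    {ι : AlgebraicClosure K →+* HQ (AlgebraicClosure k)} (h : IsPu ψ ι)
    {a : AlgebraicClosure k →+* AlgebraicClosure K} (ha : ∀ c, ι (a c) = HahnSeries.single 0 c)
    (T : Torsor ty n K) (M : Type u) [Field M] [Algebra k M] [FiniteDimensional k M]
    (i : M →ₐ[k] AlgebraicClosure k) (m : ℕ) (hm : 0 < m) (hev : Even m)
    {t : AlgebraicClosure K} (ht : ι t = HahnSeries.single (1 / m : ℚ) 1)
    (hpt : ∃ g ∈ Gp (LieAlg ty n (AlgebraicClosure K)), ∀ σ : GalG K,
          (∀ x : M, σ (a (i x)) = a (i x)) → σ t = t →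
          T.b σ = g⁻¹ * (T.m σ * gact σ g * (T.m σ)⁻¹)) (y : KM q M) :
    KM.cons (-(var ψ)) (KM.map (cst ψ) (N.N q k M y)) ∈ NormSub N (q + 1) T := by
  have hfd : FiniteDimensional K (Kc K a i) := Kc_fin i h ha
  have hint : IsIntegral (Kc K a i) t :=
    (Algebra.IsAlgebraic.isAlgebraic (R := Kc K a i) t).isIntegral
  have ht0 : t ≠ 0 := by
    rintro rfl
    rw [map_zero] at ht
    have := congrArg (fun x => HahnSeries.coeff x (1 / m : ℚ)) ht
    simp at this
  let P := IntermediateField.adjoin (Kc K a i) {t}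
  have hfd2 : FiniteDimensional (Kc K a i) P := IntermediateField.adjoin.finiteDimensional hint
  have hfd3 : FiniteDimensional K P := FiniteDimensional.trans K (Kc K a i) P
  let pb := IntermediateField.adjoin.powerBasis hint
  let tP : P := IntermediateField.AdjoinSimple.gen (Kc K a i) t
  have htP : algebraMap P (AlgebraicClosure K) tP = t := rfl
  have htP0 : tP ≠ 0 := by
    intro h0
    apply ht0
    rw [← htP, h0, map_zero]
  let π : (Kc K a i)ˣ := Units.map (algebraMap K (Kc K a i) : K →* Kc K a i) (var ψ)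
  have hnorm : Algebra.norm (Kc K a i) tP = -(algebraMap K (Kc K a i) (var ψ : K)) := by
    have h1 := Algebra.PowerBasis.norm_gen_eq_coeff_zero_minpoly pb
    have h2 : pb.gen = tP := IntermediateField.adjoin.powerBasis_gen hint
    have h3 : pb.dim = m := by
      have : pb.dim = (minpoly (Kc K a i) t).natDegree :=
        IntermediateField.adjoin.powerBasis_dim hint
      rw [this, minpoly_root i h ha m hm ht, natDegree_X_pow_sub_C]
    have h4 : minpoly (Kc K a i) tP = minpoly (Kc K a i) t :=
      IntermediateField.minpoly_gen (Kc K a i) t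
    rw [h2, h3, h4, minpoly_root i h ha m hm ht, hev.neg_one_pow, one_mul, coeff_sub,
      coeff_C_zero, coeff_X_pow, if_neg hm.ne, zero_sub] at h1
    exact h1
  -- the element upstairs
  let x1 : KM q (Kc K a i) := KM.map (aj K a i) y
  let z : KM (q + 1) P := KM.cons (Units.mk0 tP htP0) (KM.map (algebraMap (Kc K a i) P) x1)
  have e1 : N.N (q + 1) (Kc K a i) P z =
      KM.cons (Units.map (algebraMap K (Kc K a i) : K →* Kc K a i) (-(var ψ))) x1 := by
    rw [N.proj2]
    have hu : Units.map (Algebra.norm (Kc K a i) : P →* Kc K a i) (Units.mk0 tP htP0) =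
        Units.map (algebraMap K (Kc K a i) : K →* Kc K a i) (-(var ψ)) := by
      apply Units.ext
      change Algebra.norm (Kc K a i) tP = algebraMap K (Kc K a i) (-(var ψ : K))
      rw [hnorm, map_neg]
    rw [hu]
  have e2 : N.N (q + 1) K (Kc K a i) (N.N (q + 1) (Kc K a i) P z) =
      KM.cons (-(var ψ)) (N.N q K (Kc K a i) x1) := by
    rw [e1, N.proj1]
  have e3 : N.N q K (Kc K a i) x1 = KM.map (cst ψ) (N.N q k M y) := by
    apply N.bc q k M K (Kc K a i) (cst ψ) (aj K a i)
    · intro x
      apply Subtype.ext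
      change a (i (algebraMap k M x)) = _
      rw [i.commutes, h.a_alg ha]
      rfl
    · exact Kc_adjoin i h ha
    · exact Kc_finrank i h ha
  rw [← e3, ← e2, N.trans]
  apply AddSubgroup.subset_closure
  refine ⟨P, inferInstance, inferInstance, hfd3, (P.val.restrictScalars K), ?_, z, rfl⟩
  obtain ⟨g, hg, hg2⟩ := hpt
  refine ⟨g, hg, ?_⟩
  intro σ hσ
  apply hg2
  · intro x
    exact hσ (algebraMap (Kc K a i) P (aj K a i x))
  · exact hσ tP

theorem eHom_order {E : Type*} [Field E] (m : ℕ) (hm : 0 < m) (z : HahnSeries ℤ E) (hz : z ≠ 0) :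
    (eHom m hm z).order = (z.order : ℚ) / m := by
  have hne : eHom m hm z ≠ 0 := (_root_.map_ne_zero _).mpr hz
  have h0 : (eHom m hm z).coeff ((z.order : ℚ) / m) ≠ 0 := by
    rw [eHom_coeff]; exact HahnSeries.coeff_order_eq_zero.not.mpr hz
  apply le_antisymm (HahnSeries.order_le_of_coeff_ne_zero h0)
  have h3 : (eHom m hm z).coeff (eHom m hm z).order ≠ 0 :=
    HahnSeries.coeff_order_eq_zero.not.mpr hne
  by_cases h4 : ∃ N : ℤ, (N : ℚ) / m = (eHom m hm z).order
  · obtain ⟨N, hN⟩ := h4
    rw [← hN, eHom_coeff] at h3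
    have h6 := HahnSeries.order_le_of_coeff_ne_zero h3
    rw [← hN]
    exact (divHom_le m hm _ _).mpr h6
  · push Not at h4
    exact absurd (eHom_coeff_of_ne _ _ _ _ h4) h3

theorem eHom_lead {E : Type*} [Field E] (m : ℕ) (hm : 0 < m) (z : HahnSeries ℤ E) :
    (eHom m hm z).leadingCoeff = z.leadingCoeff := by
  by_cases hz : z = 0
  · subst hz; simp
  rw [HahnSeries.leadingCoeff_eq, eHom_order m hm z hz, eHom_coeff, HahnSeries.leadingCoeff_eq]

theorem hmap_order {R S : Type*} [Field R] [Field S] (f : R →+* S) (x : HahnSeries ℤ R) :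
    (hmap f x).order = x.order := by
  by_cases hx : x = 0
  · subst hx; simp
  have hs : ∀ g, (hmap f x).coeff g = 0 ↔ x.coeff g = 0 := by
    intro g
    rw [hmap_coeff, map_eq_zero]
  have hx' : hmap f x ≠ 0 := (_root_.map_ne_zero _).mpr hx
  apply le_antisymm
  · apply HahnSeries.order_le_of_coeff_ne_zero
    rw [Ne, hs]
    exact HahnSeries.coeff_order_eq_zero.not.mpr hx
  · apply HahnSeries.order_le_of_coeff_ne_zero
    rw [Ne, ← hs]
    exact HahnSeries.coeff_order_eq_zero.not.mpr hx'

/-- One-units have roots. -/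
theorem unit_root [CharZero k] [CharZero K] (ψ : K ≃+* LaurentSeries k) (d : ℕ) (hd : 0 < d)
    (u : Kˣ) (hord : (ψ u).order = 0) (hlead : (ψ u).leadingCoeff = 1) : ∃ w : Kˣ, w ^ d = u := by
  obtain ⟨ι, h⟩ := exists_isPu (kb := AlgebraicClosure k) (Kb := AlgebraicClosure K) ψ
  obtain ⟨a, ha⟩ := h.exists_alg
  have hu0 : lcK ι (algebraMap K (AlgebraicClosure K) (u : K)) = 1 := by
    rw [lcK_apply, h.base]
    unfold emb
    rw [RingHom.comp_apply, eHom_lead, hmap_leadingCoeff, hlead, map_one]
  have hψu : ψ (u : K) ≠ 0 := (_root_.map_ne_zero ψ).mpr (Units.ne_zero u)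
  obtain ⟨w, hw1, hw2⟩ := lc_root ha d hd.ne' _ hu0
  have hw0 : w ≠ 0 := by
    rintro rfl
    rw [map_zero] at hw1
    exact zero_ne_one hw1
  obtain ⟨m, hm, z, hz⟩ := h.pui w
  have hz0 : z ≠ 0 := by
    rintro rfl
    rw [map_zero] at hz
    exact hw0 ((map_eq_zero ι).mp hz.symm)
  -- the order of w is zero
  have hword : z.order = 0 := by
    have h1 : (ι w) ^ d = emb k (AlgebraicClosure k) (ψ u) := by rw [← map_pow, hw2, h.base]
    have h2 : d • (ι w).order = (emb k (AlgebraicClosure k) (ψ u)).order := by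
      rw [← h1, HahnSeries.order_pow]
    unfold emb at h2
    rw [RingHom.comp_apply, eHom_order 1 one_pos _ ((_root_.map_ne_zero _).mpr hψu), hmap_order,
      hord, ← hz, eHom_order m hm z hz0, nsmul_eq_mul] at h2
    simp only [Int.cast_zero, zero_div, mul_eq_zero, Nat.cast_eq_zero, hd.ne', false_or,
      div_eq_zero_iff, hm.ne', or_false, Int.cast_eq_zero] at h2
    exact h2
  have hfix : ∀ σ : GalG K, σ w = w := by
    intro σ
    obtain ⟨σ', hσ'⟩ := h.exists_bar ha σ
    obtain ⟨t, ht⟩ := h.exists_T (1 / m : ℚ)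
    obtain ⟨ζ, -, -, hcf⟩ := h.cf ha m hm ht σ σ' hσ'
    have h1 := hcf w z hz.symm
    have h2 : lcK ι (σ w) = 1 := by
      rw [lcK_apply, h1, eHom_lead, HahnSeries.leadingCoeff_eq]
      have h3 : (sc ζ (hmap (σ' : AlgebraicClosure k →+* _) z)).order = 0 := by
        have h4 : (hmap (σ' : AlgebraicClosure k →+* AlgebraicClosure k) z).order = 0 := by
          rw [hmap_order, hword]
        have h5 : hmap (σ' : AlgebraicClosure k →+* AlgebraicClosure k) z ≠ 0 :=
          (_root_.map_ne_zero _).mpr hz0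
        apply le_antisymm
        · apply HahnSeries.order_le_of_coeff_ne_zero
          rw [sc_coeff, zpow_zero, Units.val_one, one_mul, ← h4]
          exact HahnSeries.coeff_order_eq_zero.not.mpr h5
        · have h6 : sc ζ (hmap (σ' : AlgebraicClosure k →+* AlgebraicClosure k) z) ≠ 0 :=
            (_root_.map_ne_zero _).mpr h5
          have h7 := HahnSeries.coeff_order_eq_zero.not.mpr h6
          rw [sc_coeff] at h7
          have h8 := HahnSeries.order_le_of_coeff_ne_zero (right_ne_zero_of_mul h7)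
          rwa [h4] at h8
      rw [h3, sc_coeff, zpow_zero, Units.val_one, one_mul, hmap_coeff]
      have h9 : z.coeff 0 = 1 := by
        have : (ι w).leadingCoeff = 1 := hw1
        rw [← hz, eHom_lead, HahnSeries.leadingCoeff_eq, hword] at this
        exact this
      rw [h9, map_one]
    have h3 : σ w / w = 1 := by
      apply lc_uniq ha d hd.ne'
      · rw [map_div₀, h2, hw1, div_one]
      · rw [div_pow, ← map_pow, hw2, AlgEquiv.commutes, div_self]
        rw [← hw2]
        exact pow_ne_zero _ hw0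
    exact (div_eq_one_iff_eq hw0).mp h3
  have hmem := (InfiniteGalois.mem_range_algebraMap_iff_fixed (k := K) w).mpr hfix
  obtain ⟨v, hv⟩ := hmem
  have hv0 : v ≠ 0 := by
    rintro rfl
    rw [map_zero] at hv
    exact hw0 hv.symm
  refine ⟨Units.mk0 v hv0, ?_⟩
  apply Units.ext
  apply (algebraMap K (AlgebraicClosure K)).injective
  rw [Units.val_pow_eq_pow_val, Units.val_mk0, map_pow, hv, hw2]

/-- Rescaling as an isomorphism. -/
noncomputable def scE (c : kˣ) : LaurentSeries k ≃+* LaurentSeries k where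
  toFun := sc c
  invFun := sc c⁻¹
  left_inv x := by
    ext n
    rw [sc_coeff, sc_coeff, ← mul_assoc, ← Units.val_mul, inv_zpow, inv_mul_cancel, Units.val_one,
      one_mul]
  right_inv x := by
    ext n
    rw [sc_coeff, sc_coeff, ← mul_assoc, ← Units.val_mul, inv_zpow, mul_inv_cancel, Units.val_one,
      one_mul]
  map_mul' := map_mul (sc c)
  map_add' := map_add (sc c)

theorem cst_scE (ψ : K ≃+* LaurentSeries k) (c : kˣ) : cst (ψ.trans (scE c⁻¹)) = cst ψ := by
  ext1 x
  rw [cst_apply, cst_apply]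
  have h1 : (scE c⁻¹).symm (HahnSeries.single 0 x) = HahnSeries.single 0 x := by
    change sc c⁻¹⁻¹ (HahnSeries.single 0 x) = _
    rw [sc_single, zpow_zero, Units.val_one, one_mul]
  change ψ.symm ((scE c⁻¹).symm (HahnSeries.single 0 x)) = _
  rw [h1]

theorem var_scE (ψ : K ≃+* LaurentSeries k) (c : kˣ) :
    var (ψ.trans (scE c⁻¹)) = Units.map (cst ψ : k →* K) c * var ψ := by
  apply Units.ext
  rw [Units.val_mul, var_val, var_val, Units.coe_map]
  have h1 : (scE c⁻¹).symm (HahnSeries.single 1 1) = HahnSeries.single 1 (c : k) := by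
    change sc c⁻¹⁻¹ (HahnSeries.single 1 1) = _
    rw [sc_single, zpow_one, mul_one, inv_inv]
  change ψ.symm ((scE c⁻¹).symm (HahnSeries.single 1 1)) = _
  rw [h1]
  change _ = cst ψ c * _
  rw [cst_apply, ← map_mul, HahnSeries.single_mul_single, zero_add, mul_one]

/-- Generation of the multiplicative group. -/
theorem unit_gen (ψ : K ≃+* LaurentSeries k) :
    Subgroup.closure (Set.range (fun a : kˣ => Units.map (cst ψ : k →* K) a) ∪ {-(var ψ)} ∪
      {u : Kˣ | (ψ u).order = 0 ∧ (ψ u).leadingCoeff = 1}) = ⊤ := by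
  rw [eq_top_iff]
  intro x _
  let f : LaurentSeries k := ψ x
  have hf : f ≠ 0 := (_root_.map_ne_zero ψ).mpr (Units.ne_zero x)
  have hl : f.leadingCoeff ≠ 0 := HahnSeries.leadingCoeff_ne_zero.mpr hf
  let c : kˣ := Units.mk0 f.leadingCoeff hl
  let u : Kˣ := x * (Units.map (cst ψ : k →* K) c)⁻¹ * (var ψ ^ f.order)⁻¹
  have hψu : ψ (u : K) = f * HahnSeries.single (-f.order) (f.leadingCoeff)⁻¹ := by
    simp only [u]
    rw [Units.val_mul, Units.val_mul, map_mul, map_mul, Units.val_inv_eq_inv_val,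
      Units.val_inv_eq_inv_val, map_inv₀, map_inv₀, Units.coe_map]
    have h1 : ψ ((cst ψ : k →* K) (c : k)) = HahnSeries.single 0 f.leadingCoeff := by
      change ψ (cst ψ f.leadingCoeff) = _
      rw [cst_apply, RingEquiv.apply_symm_apply]
    have h2 : ψ ((var ψ ^ f.order : Kˣ) : K) = HahnSeries.single f.order 1 := by
      rw [Units.val_zpow_eq_zpow_val, map_zpow₀, var_val, RingEquiv.apply_symm_apply]
      exact (RatFunc.single_zpow f.order).symm
    rw [h1, h2, HahnSeries.inv_single, HahnSeries.inv_single, mul_assoc,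
      HahnSeries.single_mul_single, neg_zero, zero_add, inv_one, mul_one]
  have hu : (ψ (u : K)).order = 0 ∧ (ψ (u : K)).leadingCoeff = 1 := by
    rw [hψu]
    constructor
    · rw [HahnSeries.order_mul hf (HahnSeries.single_ne_zero (inv_ne_zero hl)),
        HahnSeries.order_single (inv_ne_zero hl), add_neg_cancel]
    · rw [lead_mul, HahnSeries.leadingCoeff_of_single, mul_inv_cancel₀ hl]
  have hx : x = Units.map (cst ψ : k →* K) c * (-1 * -(var ψ)) ^ f.order * u := by
    simp only [u]
    have h1 : (-1 * -(var ψ) : Kˣ) = var ψ := by simp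
    rw [h1]
    have : ∀ a b c : Kˣ, a = b * c * (a * b⁻¹ * c⁻¹) := by
      intro a b c
      rw [mul_assoc a, mul_comm a, ← mul_assoc, ← mul_inv_rev, mul_comm c b, mul_inv_cancel,
        one_mul]
    exact this _ _ _
  rw [hx]
  apply mul_mem
  · apply mul_mem
    · exact Subgroup.subset_closure (Or.inl (Or.inl ⟨c, rfl⟩))
    · apply Subgroup.zpow_mem
      apply mul_mem
      · exact Subgroup.subset_closure (Or.inl (Or.inl ⟨-1, by apply Units.ext; simp⟩))
      · exact Subgroup.subset_closure (Or.inl (Or.inr rfl))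
  · exact Subgroup.subset_closure (Or.inr hu)

/-- The per-field theorem. -/
theorem per_field [CharZero k] [CharZero K] (N : NormMaps.{u}) {q : ℕ} {ty : Ty}
    (ψ : K ≃+* LaurentSeries k)
    (H0 : ∀ (n : ℕ) (T0 : Torsor ty n k), NormSub N q T0 = ⊤) {n : ℕ} (T : Torsor ty n K) :
    NormSub N (q + 1) T = ⊤ := by
  -- norms of symbols with first entry minus the variable
  have key : ∀ (ψ : K ≃+* LaurentSeries k) (v : KM q k),
      KM.cons (-(var ψ)) (KM.map (cst ψ) v) ∈ NormSub N (q + 1) T := by
    intro ψ v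
    obtain ⟨ι, h⟩ := exists_isPu (kb := AlgebraicClosure k) (Kb := AlgebraicClosure K) ψ
    obtain ⟨a, ha⟩ := h.exists_alg
    obtain ⟨T0, hT0⟩ := special h ha T
    have hv : v ∈ NormSub N q T0 := by rw [H0]; trivial
    unfold NormSub at hv
    induction hv using AddSubgroup.closure_induction with
    | mem x hx =>
      obtain ⟨M, _, _, _, i, hi, y, rfl⟩ := hx
      obtain ⟨m, hm, t, hev, ht, hpt⟩ := hT0 M i hi
      exact norm_step N h ha T M i m hm hev ht hpt y
    | zero => rw [map_zero, map_zero]; exact AddSubgroup.zero_mem _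
    | add x y _ _ hx hy => rw [map_add, map_add]; exact AddSubgroup.add_mem _ hx hy
    | neg x _ hx => rw [map_neg, map_neg]; exact AddSubgroup.neg_mem _ hx
  obtain ⟨M, hM, hpt⟩ := T.exists_point
  have hd : 0 < Module.finrank K M := Module.finrank_pos
  refine KM_top (cst ψ) (-(var ψ)) (Module.finrank K M)
    {u : Kˣ | (ψ u).order = 0 ∧ (ψ u).leadingCoeff = 1}
    (fun u hu => unit_root ψ _ hd u hu.1 hu.2) (unit_gen ψ) _ ?_ ?_
  · intro x
    rw [← N.deg]
    apply AddSubgroup.subset_closure
    exact ⟨M, inferInstance, inferInstance, hM, M.val, hpt, _, rfl⟩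
  · intro c v
    have h1 := key (ψ.trans (scE c⁻¹)) v
    rw [cst_scE, var_scE, ← mul_neg] at h1
    exact h1

end

end LP319
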