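import Pool.Agent.Helper319LP.NS3
import Pool.Agent.Helper319LP.PF

/-! Norms along towers, and their base change to Laurent series. -/

namespace EKn

open LP319 Polynomial Pool.Agent.Helper165.P1

universe u

section towers

variable {q : ℕ} {L M : Type u} [Field L] [Field M] [Algebra L M]

theorem NormStep.fin {z : KM q M} {x : KM q L} (h : NormStep q L M z x) :
    FiniteDimensional L M := by
  obtain ⟨α, hα, -, hgen, -⟩ := h
  have h1 := IntermediateField.adjoin.finiteDimensional hα
  rw [hgen] at h1
  exact LinearEquiv.finiteDimensional (IntermediateField.topEquiv (F := L) (E := M)).toLinearEquiv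

theorem IsNorm.fin {z : KM q M} {x : KM q L} (h : IsNorm q L M z x) :
    FiniteDimensional L M := by
  induction h with
  | self x => infer_instance
  | step M P y z x h1 _ ih =>
    have := h1.fin
    exact FiniteDimensional.trans L M P

theorem IsNorm.cons {z : KM q M} {x : KM q L} (h : IsNorm q L M z x) (c : Lˣ) :
    IsNorm (q + 1) L M (KM.cons (Units.map (algebraMap L M : L →* M) c) z) (KM.cons c x) := by
  induction h with
  | self x => exact IsNorm.self _
  | step M P y z x h1 _ ih =>
    have h2 := h1.cons (Units.map (algebraMap L M : L →* M) c)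
    have h3 : Units.map (algebraMap M P : M →* P) (Units.map (algebraMap L M : L →* M) c) =
        Units.map (algebraMap L P : L →* P) c := by
      apply Units.ext
      exact (IsScalarTower.algebraMap_apply L M P c).symm
    rw [h3] at h2
    exact IsNorm.step M P _ _ _ h2 ih

theorem IsNorm.deg [CharZero L] [FiniteDimensional L M] (x : KM q L) :
    IsNorm q L M (KM.map (algebraMap L M) x) (Module.finrank L M • x) := by
  obtain ⟨α, hα⟩ := Field.exists_primitive_element L M
  have hint : IsIntegral L α := Algebra.IsIntegral.isIntegral α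
  have h1 := normStep_deg hint hα x
  rw [(Field.primitive_element_iff_minpoly_natDegree_eq L α).mp hα] at h1
  exact IsNorm.step L M _ _ _ h1 (IsNorm.self _)

end towers

section laurent

variable {k kb K Kb : Type u} [Field k] [Field kb] [Algebra k kb] [Field K] [Field Kb]
  [Algebra K Kb] {ψ : K ≃+* LaurentSeries k} {ι : Kb →+* HQ kb} [CharZero k] [CharZero K]
  [Algebra.IsAlgebraic K Kb] [IsAlgClosed Kb]

theorem IsNorm.base (h : IsPu ψ ι) {a : kb →+* Kb} (ha : ∀ c, ι (a c) = HahnSeries.single 0 c)
    {q : ℕ} {M : Type u} [Field M] [Algebra k M] {y : KM q M} {x : KM q k}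
    (hN : IsNorm q k M y x) (i : M →ₐ[k] kb) :
    IsNorm q K (Kc K a i) (KM.map (aj K a i) y) (KM.map (cst ψ) x) := by
  induction hN with
  | self x =>
    have hfd : FiniteDimensional K (Kc K a i) := Kc_fin i h ha
    have h1 := IsNorm.deg (L := K) (M := Kc K a i) (KM.map (cst ψ) x)
    rw [Kc_finrank i h ha, Module.finrank_self, one_smul, KM.map_map] at h1
    have h2 : (algebraMap K (Kc K a i)).comp (cst ψ) = aj K a i := by
      ext1 x
      apply Subtype.ext
      change algebraMap K Kb (cst ψ x) = a (i x)
      have h3 : i x = algebraMap k kb x := i.commutes x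
      rw [h3, h.a_alg ha]
      rfl
    rw [h2] at h1
    exact h1
  | step M P y z x h1 h2 ih =>
    have hM : FiniteDimensional k M := h2.fin
    have hMP : FiniteDimensional M P := h1.fin
    have hP : FiniteDimensional k P := FiniteDimensional.trans k M P
    have hM0 : CharZero M := charZero_of_injective_algebraMap (algebraMap k M).injective
    obtain ⟨i', hi'⟩ : ∃ i', i.comp (IsScalarTower.toAlgHom k M P) = i' := ⟨_, rfl⟩
    have hi2 : ∀ x, i' x = i (algebraMap M P x) := fun x => by rw [← hi']; rfl
    have hfd1 : FiniteDimensional K (Kc K a i) := Kc_fin i h ha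
    have hfd2 : FiniteDimensional K (Kc K a i') := Kc_fin i' h ha
    have hle : Kc K a i' ≤ Kc K a i := by
      unfold Kc
      rw [IntermediateField.adjoin_le_iff]
      rintro _ ⟨x, rfl⟩
      apply IntermediateField.subset_adjoin
      refine ⟨algebraMap M P x, ?_⟩
      simp only [hi2]
    let _ : Algebra (Kc K a i') (Kc K a i) :=
      ((IntermediateField.inclusion hle : Kc K a i' →ₐ[K] Kc K a i) :
        Kc K a i' →+* Kc K a i).toAlgebra
    have htow : IsScalarTower K (Kc K a i') (Kc K a i) := IsScalarTower.of_algebraMap_eq fun x => rfl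
    have hfd3 : FiniteDimensional (Kc K a i') (Kc K a i) :=
      FiniteDimensional.right K (Kc K a i') (Kc K a i)
    refine IsNorm.step (Kc K a i') (Kc K a i) _ _ _ ?_ (ih i')
    refine NormStep.base (aj K a i') (aj K a i) ?_ ?_ ?_ h1
    · intro x
      apply Subtype.ext
      change a (i (algebraMap M P x)) = a (i' x)
      rw [hi2]
    · rw [eq_top_iff]
      intro x _
      have h3 := Kc_adjoin i h ha
      have h4 : Algebra.adjoin K (Set.range (aj K a i)) ≤
          ((IntermediateField.adjoin (Kc K a i') (Set.range (aj K a i))).restrictScalars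
            K).toSubalgebra := by
        rw [Algebra.adjoin_le_iff]
        intro y hy
        exact IntermediateField.subset_adjoin (Kc K a i') _ hy
      rw [h3] at h4
      exact h4 (Algebra.mem_top (x := x))
    · have e1 := Module.finrank_mul_finrank K (Kc K a i') (Kc K a i)
      have e2 := Module.finrank_mul_finrank k M P
      rw [Kc_finrank i h ha, Kc_finrank i' h ha, ← e2] at e1
      exact Nat.eq_of_mul_eq_mul_left Module.finrank_pos e1

end laurent

end EKn
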