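import Pool.Agent.Helper165.P1.Pui

/-! The algebraic closure of a field of Laurent series inside Puiseux series. -/

namespace LP319

open Polynomial Pool.Agent.Helper165.P1

section hmap

variable {Γ : Type*} [AddCommGroup Γ] [LinearOrder Γ] [IsOrderedAddMonoid Γ]
variable {R S T : Type*} [Field R] [Field S] [Field T]

/-- The coefficientwise extension of a field homomorphism. -/
noncomputable def hmap (f : R →+* S) : HahnSeries Γ R →+* HahnSeries Γ S where
  toFun x := x.map f
  map_one' := HahnSeries.map_one f.toMonoidWithZeroHom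
  map_mul' x y := HahnSeries.map_mul (f : R →ₙ+* S)
  map_zero' := by ext; simp
  map_add' x y := by ext; simp

theorem hmap_coeff (f : R →+* S) (x : HahnSeries Γ R) (g : Γ) :
    (hmap f x).coeff g = f (x.coeff g) := rfl

theorem hmap_single (f : R →+* S) (g : Γ) (r : R) :
    hmap f (HahnSeries.single g r) = HahnSeries.single g (f r) := by
  ext h
  rw [hmap_coeff]
  by_cases hg : h = g
  · subst hg; simp
  · simp [HahnSeries.coeff_single_of_ne hg]

theorem hmap_leadingCoeff (f : R →+* S) (x : HahnSeries Γ R) :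
    (hmap f x).leadingCoeff = f x.leadingCoeff := by
  by_cases hx : x = 0
  · subst hx; simp
  have hs : ∀ g, (hmap f x).coeff g = 0 ↔ x.coeff g = 0 := by
    intro g
    rw [hmap_coeff, map_eq_zero]
  have hord : (hmap f x).order = x.order := by
    have hx' : hmap f x ≠ 0 := by rwa [_root_.map_ne_zero]
    apply le_antisymm
    · apply HahnSeries.order_le_of_coeff_ne_zero
      rw [Ne, hs]
      exact HahnSeries.coeff_order_eq_zero.not.mpr hx
    · apply HahnSeries.order_le_of_coeff_ne_zero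
      rw [Ne, ← hs]
      exact HahnSeries.coeff_order_eq_zero.not.mpr hx'
  rw [HahnSeries.leadingCoeff_eq, HahnSeries.leadingCoeff_eq, hord, hmap_coeff]

theorem lead_mul (x y : HahnSeries Γ R) :
    (x * y).leadingCoeff = x.leadingCoeff * y.leadingCoeff := by
  by_cases hx : x = 0
  · subst hx; simp
  by_cases hy : y = 0
  · subst hy; simp
  rw [HahnSeries.leadingCoeff_eq, HahnSeries.order_mul hx hy, HahnSeries.coeff_mul_order_add_order]

/-- The leading coefficient as a homomorphism. -/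
noncomputable def lead : HahnSeries Γ R →*₀ R where
  toFun x := x.leadingCoeff
  map_zero' := HahnSeries.leadingCoeff_zero
  map_one' := by
    rw [← HahnSeries.single_zero_one, HahnSeries.leadingCoeff_of_single]
  map_mul' := lead_mul

end hmap

section emb

variable {k kb : Type*} [Field k] [Field kb] [Algebra k kb]

/-- Laurent series as Hahn series with rational exponents. -/
noncomputable def emb (k kb : Type*) [Field k] [Field kb] [Algebra k kb] :
    LaurentSeries k →+* HQ kb :=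
  (eHom 1 one_pos).comp (hmap (algebraMap k kb))

theorem emb_coeff (x : LaurentSeries k) (n : ℤ) :
    (emb k kb x).coeff (n : ℚ) = algebraMap k kb (x.coeff n) := by
  have := eHom_coeff 1 one_pos (hmap (algebraMap k kb) x) n
  simp only [Nat.cast_one, div_one] at this
  exact this

theorem emb_coeff_ne (x : LaurentSeries k) (q : ℚ) (h : ∀ n : ℤ, (n : ℚ) ≠ q) :
    (emb k kb x).coeff q = 0 := by
  refine eHom_coeff_of_ne 1 one_pos _ _ ?_
  intro n
  simpa using h n

theorem emb_hmap (σ : kb ≃ₐ[k] kb) (x : LaurentSeries k) :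
    hmap (σ : kb →+* kb) (emb k kb x) = emb k kb x := by
  ext q
  rw [hmap_coeff]
  by_cases h : ∃ n : ℤ, (n : ℚ) = q
  · obtain ⟨n, rfl⟩ := h
    rw [emb_coeff]
    exact σ.commutes _
  · push Not at h
    rw [emb_coeff_ne x q h, map_zero]

theorem emb_single (n : ℤ) (c : k) :
    emb k kb (HahnSeries.single n c) = HahnSeries.single (n : ℚ) (algebraMap k kb c) := by
  ext q
  by_cases h : ∃ n : ℤ, (n : ℚ) = q
  · obtain ⟨m, rfl⟩ := h
    rw [emb_coeff]
    by_cases hmn : m = n
    · subst hmn; simp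
    · rw [HahnSeries.coeff_single_of_ne hmn, HahnSeries.coeff_single_of_ne (by simpa using hmn),
        map_zero]
  · push Not at h
    rw [emb_coeff_ne _ q h, HahnSeries.coeff_single_of_ne (h n).symm]

end emb

/-- Lifting a homomorphism through an injective one. -/
theorem liftThrough {A B C : Type*} [Ring A] [Ring B] [Ring C] (f : A →+* C) (i : B →+* C)
    (hi : Function.Injective i) (h : ∀ a, ∃ b, i b = f a) : ∃ g : A →+* B, ∀ a, i (g a) = f a := by
  choose g hg using h
  refine ⟨{ toFun := g, map_one' := ?_, map_mul' := ?_, map_zero' := ?_, map_add' := ?_ }, hg⟩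
  · apply hi; rw [hg, map_one, map_one]
  · intro x y; apply hi; rw [hg, map_mul, map_mul, hg, hg]
  · apply hi; rw [hg, map_zero, map_zero]
  · intro x y; apply hi; rw [hg, map_add, map_add, hg, hg]

section main

variable {k kb K Kb : Type*} [Field k] [Field kb] [Algebra k kb] [Field K] [Field Kb]
  [Algebra K Kb]

/-- An embedding of the algebraic closure of a Laurent series field into Puiseux series. -/
structure IsPu (ψ : K ≃+* LaurentSeries k) (ι : Kb →+* HQ kb) : Prop where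
  base : ∀ x : K, ι (algebraMap K Kb x) = emb k kb (ψ x)
  pui : ∀ x : Kb, ι x ∈ Pui kb

theorem exists_lift {K Kb M : Type*} [Field K] [Field Kb] [Field M] [Algebra K Kb]
    [Algebra.IsAlgebraic K Kb] [IsAlgClosed M] (j : K →+* M) :
    ∃ l : Kb →+* M, ∀ x, l (algebraMap K Kb x) = j x := by
  let _ : Algebra K M := j.toAlgebra
  let l : Kb →ₐ[K] M := IsAlgClosed.lift
  exact ⟨l, fun x => l.commutes x⟩

theorem exists_isPu [IsAlgClosed kb] [CharZero kb] [Algebra.IsAlgebraic K Kb]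
    (ψ : K ≃+* LaurentSeries k) : ∃ ι : Kb →+* HQ kb, IsPu ψ ι := by
  let j : K →+* Pui kb := (eP 1 one_pos).comp ((hmap (algebraMap k kb)).comp (ψ : K →+* _))
  obtain ⟨l, hl⟩ := exists_lift (Kb := Kb) j
  refine ⟨(Pui kb).subtype.comp l, ?_, ?_⟩
  · intro x
    change ((l (algebraMap K Kb x) : Pui kb) : HQ kb) = _
    rw [hl]
    rfl
  · intro x
    exact (l x).2

variable {ψ : K ≃+* LaurentSeries k} {ι : Kb →+* HQ kb}

theorem IsPu.inj (_ : IsPu ψ ι) : Function.Injective ι := ι.injective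

theorem IsPu.crit [IsAlgClosed Kb] (h : IsPu ψ ι) {P : K[X]} (hP : P ≠ 0) {y : HQ kb}
    (hy : eval₂ (ι.comp (algebraMap K Kb)) y P = 0) : ∃ x, ι x = y := by
  have h1 : (P.map (algebraMap K Kb)).Splits := IsAlgClosed.splits _
  have h2 : P.map (algebraMap K Kb) ≠ 0 := (Polynomial.map_ne_zero_iff
    (algebraMap K Kb).injective).mpr hP
  have h3 : eval y ((P.map (algebraMap K Kb)).map ι) = 0 := by
    rw [Polynomial.map_map, eval_map]; exact hy
  rw [h1.eq_prod_roots, Polynomial.map_mul, Polynomial.map_multiset_prod, eval_mul,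
    Polynomial.map_C, eval_C, mul_eq_zero] at h3
  rcases h3 with h3 | h3
  · exfalso
    rw [map_eq_zero] at h3
    exact h2 (leadingCoeff_eq_zero.mp h3)
  · rw [eval_multiset_prod, Multiset.prod_eq_zero_iff, Multiset.mem_map] at h3
    obtain ⟨p, hp, hp2⟩ := h3
    rw [Multiset.mem_map] at hp
    obtain ⟨q, hq, rfl⟩ := hp
    rw [Multiset.mem_map] at hq
    obtain ⟨a, _, rfl⟩ := hq
    refine ⟨a, ?_⟩
    simp at hp2
    exact (sub_eq_zero.mp hp2).symm

theorem IsPu.exists_C [IsAlgClosed Kb] [Algebra.IsAlgebraic k kb] (h : IsPu ψ ι) (c : kb) :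
    ∃ x, ι x = HahnSeries.single 0 c := by
  have hP : minpoly k c ≠ 0 := minpoly.ne_zero (Algebra.IsAlgebraic.isAlgebraic c).isIntegral
  refine h.crit (P := (minpoly k c).map ((ψ.symm : LaurentSeries k →+* K).comp HahnSeries.C))
    ((Polynomial.map_ne_zero_iff (RingHom.injective _)).mpr hP) ?_
  rw [eval₂_map]
  have h1 : (ι.comp (algebraMap K Kb)).comp ((ψ.symm : LaurentSeries k →+* K).comp
      (HahnSeries.C : k →+* LaurentSeries k)) =
      (HahnSeries.C : kb →+* HQ kb).comp (algebraMap k kb) := by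
    ext1 x
    simp only [RingHom.comp_apply, RingHom.coe_coe]
    rw [h.base, RingEquiv.apply_symm_apply]
    have := emb_single (k := k) (kb := kb) 0 x
    simpa using this
  rw [h1]
  have h2 : HahnSeries.single (0 : ℚ) c = (HahnSeries.C : kb →+* HQ kb) c := rfl
  rw [h2, ← Polynomial.hom_eval₂, ← Polynomial.aeval_def, minpoly.aeval, map_zero]

theorem IsPu.exists_T [IsAlgClosed Kb] (h : IsPu ψ ι) (r : ℚ) :
    ∃ x, ι x = HahnSeries.single r (1 : kb) := by
  let t : K := ψ.symm (HahnSeries.single r.num 1)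
  have hP : (X ^ r.den - C t : K[X]) ≠ 0 := X_pow_sub_C_ne_zero r.den_pos t
  refine h.crit hP ?_
  rw [eval₂_sub, eval₂_pow, eval₂_X, eval₂_C]
  simp only [RingHom.comp_apply]
  rw [h.base, RingEquiv.apply_symm_apply, emb_single, (algebraMap k kb).map_one,
    HahnSeries.single_pow, one_pow]
  have : r.den • r = (r.num : ℚ) := by
    rw [nsmul_eq_mul, mul_comm]
    exact Rat.mul_den_eq_num r
  rw [this, sub_self]

theorem IsPu.exists_single [IsAlgClosed Kb] [Algebra.IsAlgebraic k kb] (h : IsPu ψ ι) (r : ℚ)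
    (c : kb) : ∃ x, ι x = HahnSeries.single r c := by
  obtain ⟨x, hx⟩ := h.exists_C c
  obtain ⟨y, hy⟩ := h.exists_T r
  refine ⟨x * y, ?_⟩
  rw [map_mul, hx, hy, HahnSeries.single_mul_single, zero_add, mul_one]

theorem IsPu.exists_alg [IsAlgClosed Kb] [Algebra.IsAlgebraic k kb] (h : IsPu ψ ι) :
    ∃ a : kb →+* Kb, ∀ c, ι (a c) = HahnSeries.single 0 c :=
  liftThrough (HahnSeries.C : kb →+* HQ kb) ι h.inj h.exists_C

theorem IsPu.exists_hmap [IsAlgClosed Kb] [Algebra.IsAlgebraic K Kb] (h : IsPu ψ ι)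
    (σ : kb ≃ₐ[k] kb) (x : Kb) : ∃ y, ι y = hmap (σ : kb →+* kb) (ι x) := by
  have hP : minpoly K x ≠ 0 := minpoly.ne_zero (Algebra.IsAlgebraic.isAlgebraic x).isIntegral
  refine h.crit hP ?_
  have h1 : ι.comp (algebraMap K Kb) =
      (hmap (σ : kb →+* kb)).comp (ι.comp (algebraMap K Kb)) := by
    ext1 y
    simp only [RingHom.comp_apply]
    rw [h.base, emb_hmap]
  rw [h1, ← Polynomial.hom_eval₂, ← Polynomial.hom_eval₂, ← Polynomial.aeval_def, minpoly.aeval,
    map_zero, map_zero]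

theorem hmap_mul_apply (σ τ : kb ≃ₐ[k] kb) (x : HQ kb) :
    hmap ((σ * τ : kb ≃ₐ[k] kb) : kb →+* kb) x =
      hmap (σ : kb →+* kb) (hmap (τ : kb →+* kb) x) := by
  ext q; rfl

/-- The coefficientwise action of the Galois group. -/
theorem IsPu.exists_s [IsAlgClosed Kb] [Algebra.IsAlgebraic K Kb] (h : IsPu ψ ι) :
    ∃ s : (kb ≃ₐ[k] kb) →* (Kb ≃ₐ[K] Kb), ∀ σ x, ι (s σ x) = hmap (σ : kb →+* kb) (ι x) := by
  have h1 : ∀ σ : kb ≃ₐ[k] kb, ∃ g : Kb →+* Kb, ∀ x, ι (g x) = hmap (σ : kb →+* kb) (ι x) :=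
    fun σ => liftThrough ((hmap (σ : kb →+* kb)).comp ι) ι h.inj (h.exists_hmap σ)
  choose g hg using h1
  have hg1 : ∀ σ τ x, g σ (g τ x) = g (σ * τ) x := by
    intro σ τ x
    apply h.inj
    rw [hg, hg, hg, hmap_mul_apply]
  have hgone : ∀ x, g 1 x = x := by
    intro x
    apply h.inj
    rw [hg]
    ext q; rfl
  have hgK : ∀ σ (x : K), g σ (algebraMap K Kb x) = algebraMap K Kb x := by
    intro σ x
    apply h.inj
    rw [hg, h.base, emb_hmap]
  refine ⟨
    { toFun := fun σ => AlgEquiv.ofRingEquiv (f :=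
        { toFun := g σ
          invFun := g σ⁻¹
          left_inv := fun x => by rw [hg1, inv_mul_cancel, hgone]
          right_inv := fun x => by rw [hg1, mul_inv_cancel, hgone]
          map_mul' := map_mul (g σ)
          map_add' := map_add (g σ) }) (hgK σ)
      map_one' := by ext x; exact hgone x
      map_mul' := fun σ τ => by ext x; exact (hg1 σ τ x).symm }, ?_⟩
  intro σ x
  exact hg σ x

/-- Leading coefficient on the algebraic closure. -/
noncomputable def lcK (ι : Kb →+* HQ kb) : Kb →*₀ kb := lead.comp ι.toMonoidWithZeroHom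

theorem lcK_apply (ι : Kb →+* HQ kb) (x : Kb) : lcK ι x = (ι x).leadingCoeff := rfl

theorem lcK_hmap (h : IsPu ψ ι) {s : (kb ≃ₐ[k] kb) →* (Kb ≃ₐ[K] Kb)}
    (hs : ∀ σ x, ι (s σ x) = hmap (σ : kb →+* kb) (ι x)) (σ : kb ≃ₐ[k] kb) (x : Kb) :
    lcK ι (s σ x) = σ (lcK ι x) := by
  rw [lcK_apply, lcK_apply, hs, hmap_leadingCoeff]; rfl

theorem lcK_alg {a : kb →+* Kb} (ha : ∀ c, ι (a c) = HahnSeries.single 0 c) (c : kb) :
    lcK ι (a c) = c := by
  rw [lcK_apply, ha, HahnSeries.leadingCoeff_of_single]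

theorem lc_root [IsAlgClosed Kb] {a : kb →+* Kb} (ha : ∀ c, ι (a c) = HahnSeries.single 0 c)
    (N : ℕ) (hN : N ≠ 0) (x : Kb) (hx : lcK ι x = 1) : ∃ y, lcK ι y = 1 ∧ y ^ N = x := by
  obtain ⟨z, hz⟩ := IsAlgClosed.exists_pow_nat_eq x (Nat.pos_of_ne_zero hN)
  have h1 : lcK ι z ^ N = 1 := by rw [← map_pow, hz, hx]
  have h2 : lcK ι z ≠ 0 := by
    intro h0
    rw [h0, zero_pow hN] at h1
    exact zero_ne_one h1
  refine ⟨a (lcK ι z)⁻¹ * z, ?_, ?_⟩
  · rw [map_mul, lcK_alg ha, inv_mul_cancel₀ h2]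
  · rw [mul_pow, hz, ← map_pow, inv_pow, h1, inv_one, map_one, one_mul]

theorem mem_of_root [IsAlgClosed kb] (a : kb →+* Kb) (P : kb[X]) (hP : P ≠ 0) (x : Kb)
    (hx : eval₂ a x P = 0) : ∃ c, a c = x := by
  have h1 : P.Splits := IsAlgClosed.splits _
  rw [h1.eq_prod_roots, eval₂_mul, eval₂_C, mul_eq_zero] at hx
  rcases hx with hx | hx
  · exfalso
    rw [map_eq_zero] at hx
    exact hP (leadingCoeff_eq_zero.mp hx)
  · rw [eval₂_multiset_prod, Multiset.prod_eq_zero_iff, Multiset.mem_map] at hx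
    obtain ⟨p, hp, hp2⟩ := hx
    rw [Multiset.mem_map] at hp
    obtain ⟨c, _, rfl⟩ := hp
    refine ⟨c, ?_⟩
    rw [eval₂_sub, eval₂_X, eval₂_C] at hp2
    exact (sub_eq_zero.mp hp2).symm

theorem root_unity_mem [IsAlgClosed kb] (a : kb →+* Kb) (N : ℕ) (hN : N ≠ 0) (x : Kb)
    (hx : x ^ N = 1) : ∃ c, a c = x := by
  refine mem_of_root a (X ^ N - C 1) (X_pow_sub_C_ne_zero (Nat.pos_of_ne_zero hN) 1) x ?_
  rw [eval₂_sub, eval₂_pow, eval₂_X, eval₂_C, map_one, hx, sub_self]

theorem lc_uniq [IsAlgClosed kb] {a : kb →+* Kb} (ha : ∀ c, ι (a c) = HahnSeries.single 0 c)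
    (N : ℕ) (hN : N ≠ 0) (x : Kb) (hx : lcK ι x = 1) (hxN : x ^ N = 1) : x = 1 := by
  obtain ⟨c, rfl⟩ := root_unity_mem a N hN x hxN
  rw [lcK_alg ha] at hx
  rw [hx, map_one]

/-- Each element of the algebraic closure has its coefficients in a finite extension. -/
theorem IsPu.smooth [Algebra.IsAlgebraic K Kb] (h : IsPu ψ ι)
    {s : (kb ≃ₐ[k] kb) →* (Kb ≃ₐ[K] Kb)}
    (hs : ∀ σ x, ι (s σ x) = hmap (σ : kb →+* kb) (ι x)) (x : Kb) :
    ∃ S : Finset kb, (∀ τ : kb ≃ₐ[k] kb, (∀ y ∈ S, τ y = y) → s τ x = x) := by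
  classical
  -- the orbit is finite
  have hfin : (Set.range fun σ => s σ x).Finite := by
    have hP : minpoly K x ≠ 0 := minpoly.ne_zero (Algebra.IsAlgebraic.isAlgebraic x).isIntegral
    apply ((minpoly K x).aroots Kb).toFinset.finite_toSet.subset
    rintro _ ⟨σ, rfl⟩
    simp only [Finset.mem_coe, Multiset.mem_toFinset]
    rw [mem_aroots]
    refine ⟨hP, ?_⟩
    rw [Polynomial.aeval_algHom_apply, minpoly.aeval, map_zero]
  let H : Subgroup (kb ≃ₐ[k] kb) :=
    { carrier := {τ | s τ x = x}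
      mul_mem' := fun {σ τ} hσ hτ => by
        change s (σ * τ) x = x
        rw [map_mul, AlgEquiv.mul_apply, hτ, hσ]
      one_mem' := by change s 1 x = x; rw [map_one]; rfl
      inv_mem' := fun {σ} hσ => by
        change s σ⁻¹ x = x
        have h1 : s σ x = x := hσ
        nth_rewrite 1 [← h1]
        rw [← AlgEquiv.mul_apply, ← map_mul, inv_mul_cancel, map_one]; rfl }
  have hH : ∀ τ, τ ∈ H ↔ s τ x = x := fun τ => Iff.rfl
  have hfinH : Finite ((kb ≃ₐ[k] kb) ⧸ H) := by
    have : Finite (Set.range fun σ => s σ x) := hfin.to_subtype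
    let f : (kb ≃ₐ[k] kb) ⧸ H → Set.range fun σ => s σ x := fun c => ⟨s c.out x, ⟨c.out, rfl⟩⟩
    apply Finite.of_injective f
    intro c c' hcc
    have h2 : s c.out x = s c'.out x := congrArg Subtype.val hcc
    have h1 : c.out⁻¹ * c'.out ∈ H := by
      rw [hH, map_mul, AlgEquiv.mul_apply, ← h2, ← AlgEquiv.mul_apply, ← map_mul,
        inv_mul_cancel, map_one]
      rfl
    have h3 := QuotientGroup.eq.mpr h1
    rwa [QuotientGroup.out_eq', QuotientGroup.out_eq'] at h3
  have : Fintype ((kb ≃ₐ[k] kb) ⧸ H) := Fintype.ofFinite _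
  have hHc : ∀ τ, τ ∈ H ↔ ∀ r, τ ((ι x).coeff r) = (ι x).coeff r := by
    intro τ
    rw [hH]
    constructor
    · intro h1 r
      have h2 := hs τ x
      rw [h1] at h2
      conv_rhs => rw [h2]
      rfl
    · intro h1
      apply h.inj
      rw [hs]
      ext r
      exact h1 r
  -- choose witnesses
  have hw : ∀ c : (kb ≃ₐ[k] kb) ⧸ H, ∃ r : ℚ, c.out ∉ H →
      c.out ((ι x).coeff r) ≠ (ι x).coeff r := by
    intro c
    by_cases hc : c.out ∈ H
    · exact ⟨0, fun h1 => absurd hc h1⟩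
    · rw [hHc] at hc
      push Not at hc
      obtain ⟨r, hr⟩ := hc
      exact ⟨r, fun _ => hr⟩
  choose r hr using hw
  refine ⟨Finset.univ.image (fun c => (ι x).coeff (r c)), ?_⟩
  intro τ hτ
  obtain ⟨η, hη⟩ := QuotientGroup.mk_out_eq_mul H τ
  have h1 : τ ∈ H := by
    by_contra hcon
    have h2 : (Quotient.out (QuotientGroup.mk τ : (kb ≃ₐ[k] kb) ⧸ H)) ∉ H := by
      rw [hη]
      intro h3
      exact hcon ((Subgroup.mul_mem_cancel_right H η.2).mp h3)
    apply hr _ h2
    rw [hη, AlgEquiv.mul_apply, (hHc η).mp η.2]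
    exact hτ _ (Finset.mem_image.mpr ⟨_, Finset.mem_univ _, rfl⟩)
  exact h1

end main

end LP319
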