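import Pool.Agent.Helper319LP.D1

/-! The root and weight combinatorics of E6 and E7 inside the lattice of signature (1,7). -/

namespace LP319

theorem ip_add_left (x y z : Fin 8 → ℤ) : ip (x + y) z = ip x z + ip y z := by
  simp only [ip, Pi.add_apply, add_mul, Finset.sum_add_distrib]; ring

theorem ip_comm (x y : Fin 8 → ℤ) : ip x y = ip y x := by
  simp only [ip, mul_comm]

theorem ip_add_right (x y z : Fin 8 → ℤ) : ip x (y + z) = ip x y + ip x z := by
  rw [ip_comm, ip_add_left, ip_comm y, ip_comm z]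

theorem ip_smul_left (c : ℤ) (x y : Fin 8 → ℤ) : ip (c • x) y = c * ip x y := by
  simp only [ip, Pi.smul_apply, smul_eq_mul, mul_assoc, mul_sub, Finset.mul_sum]

theorem ip_smul_right (c : ℤ) (x y : Fin 8 → ℤ) : ip x (c • y) = c * ip x y := by
  rw [ip_comm, ip_smul_left, ip_comm]

theorem ip_neg_left (x y : Fin 8 → ℤ) : ip (-x) y = - ip x y := by
  have := ip_smul_left (-1) x y
  simpa using this

theorem ip_neg_right (x y : Fin 8 → ℤ) : ip x (-y) = - ip x y := by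
  rw [ip_comm, ip_neg_left, ip_comm]

theorem ip_sub_left (x y z : Fin 8 → ℤ) : ip (x - y) z = ip x z - ip y z := by
  rw [sub_eq_add_neg, ip_add_left, ip_neg_left]; ring

theorem ip_sub_right (x y z : Fin 8 → ℤ) : ip x (y - z) = ip x y - ip x z := by
  rw [sub_eq_add_neg, ip_add_right, ip_neg_right]; ring

theorem ip_zero_left (x : Fin 8 → ℤ) : ip 0 x = 0 := by simp [ip]

theorem ip_zero_right (x : Fin 8 → ℤ) : ip x 0 = 0 := by simp [ip]

theorem ip_Kv (x : Fin 8 → ℤ) : ip x Kv = -3 * x 0 - ∑ i : Fin 7, x i.succ := by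
  simp only [ip, Kv, Fin.cons_zero, Fin.cons_succ, mul_one]; ring

theorem ip_Kv_Kv : ip Kv Kv = 2 := by
  rw [ip_Kv]; simp [Kv]

theorem cauchy (x : Fin 8 → ℤ) :
    (∑ i : Fin 7, x i.succ) ^ 2 ≤ 7 * ∑ i : Fin 7, x i.succ * x i.succ := by
  have := sq_sum_le_card_mul_sum_sq (s := (Finset.univ : Finset (Fin 7))) (f := fun i => x i.succ)
  simpa [pow_two] using this

/-- Negative definiteness on the orthogonal of `Kv`. -/
theorem ip_nonpos (x : Fin 8 → ℤ) (h : ip x Kv = 0) : ip x x ≤ 0 := by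
  rw [ip_Kv] at h
  have hc := cauchy x
  have hs : ∑ i : Fin 7, x i.succ = -3 * x 0 := by linarith
  rw [hs] at hc
  unfold ip
  nlinarith

theorem eq_zero_of_ip (x : Fin 8 → ℤ) (h : ip x Kv = 0) (h2 : ip x x = 0) : x = 0 := by
  rw [ip_Kv] at h
  have hc := cauchy x
  have hs : ∑ i : Fin 7, x i.succ = -3 * x 0 := by linarith
  rw [hs] at hc
  unfold ip at h2
  have h3 : ∑ i : Fin 7, x i.succ * x i.succ = x 0 * x 0 := by linarith
  have h4 : x 0 = 0 := by
    rw [h3] at hc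
    have : x 0 * x 0 ≤ 0 := by nlinarith
    nlinarith [mul_self_nonneg (x 0), mul_self_eq_zero.mp (le_antisymm this (mul_self_nonneg (x 0)))]
  rw [h4, mul_zero] at h3
  have h5 := (Finset.sum_eq_zero_iff_of_nonneg (fun i _ => mul_self_nonneg (x (Fin.succ i)))).mp h3
  funext i
  refine Fin.cases h4 (fun j => ?_) i
  exact mul_self_eq_zero.mp (h5 j (Finset.mem_univ j))

theorem IsRt.ipself {ty : Ty} {x : Fin 8 → ℤ} (h : IsRt ty x) : ip x x = -2 := by
  cases ty <;> exact h.1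

theorem IsRt.ipK {ty : Ty} {x : Fin 8 → ℤ} (h : IsRt ty x) : ip x Kv = 0 := by
  cases ty
  · exact h.2.1
  · exact h.2

theorem IsWt.ipself {ty : Ty} {x : Fin 8 → ℤ} (h : IsWt ty x) : ip x x = -1 := by
  cases ty <;> exact h.1

theorem IsRt.neg {ty : Ty} {x : Fin 8 → ℤ} (h : IsRt ty x) : IsRt ty (-x) := by
  cases ty
  · refine ⟨?_, ?_, ?_⟩
    · rw [ip_neg_left, ip_neg_right, h.1]; rfl
    · rw [ip_neg_left, h.2.1]; rfl
    · simp [h.2.2]
  · refine ⟨?_, ?_⟩
    · rw [ip_neg_left, ip_neg_right, h.1]; rfl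
    · rw [ip_neg_left, h.2]; rfl

theorem isWt_add {ty : Ty} {b l : Fin 8 → ℤ} (hb : IsRt ty b) (hl : IsWt ty l) :
    IsWt ty (l + b) ↔ ip b l = 1 := by
  have e1 : ip (l + b) (l + b) = -3 + 2 * ip b l := by
    rw [ip_add_left, ip_add_right, ip_add_right, hl.ipself, hb.ipself, ip_comm l b]; ring
  have e2 : ip (l + b) Kv = ip l Kv := by rw [ip_add_left, hb.ipK, add_zero]
  cases ty
  · simp only [IsWt, e1, e2, Pi.add_apply] at *
    constructor
    · rintro ⟨h, -⟩; omega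
    · intro h; refine ⟨by omega, hl.2.1, ?_⟩
      rw [hl.2.2, hb.2.2]; rfl
  · simp only [IsWt, e1, e2] at *
    constructor
    · rintro ⟨h, -⟩; omega
    · intro h; exact ⟨by omega, hl.2⟩

theorem isRt_add {ty : Ty} {b c : Fin 8 → ℤ} (hb : IsRt ty b) (hc : IsRt ty c) :
    IsRt ty (b + c) ↔ ip b c = 1 := by
  have e1 : ip (b + c) (b + c) = -4 + 2 * ip b c := by
    rw [ip_add_left, ip_add_right, ip_add_right, hb.ipself, hc.ipself, ip_comm c b]; ring
  have e2 : ip (b + c) Kv = 0 := by rw [ip_add_left, hb.ipK, hc.ipK, add_zero]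
  cases ty
  · simp only [IsRt, e1, e2, Pi.add_apply]
    constructor
    · rintro ⟨h, -⟩; omega
    · intro h; refine ⟨by omega, trivial, ?_⟩
      rw [hb.2.2, hc.2.2]; rfl
  · simp only [IsRt, e1, e2]
    constructor
    · rintro ⟨h, -⟩; omega
    · intro h; exact ⟨by omega, trivial⟩

theorem ip_rt_rt {ty : Ty} {b c : Fin 8 → ℤ} (hb : IsRt ty b) (hc : IsRt ty c) :
    -2 ≤ ip b c ∧ ip b c ≤ 2 := by
  have e1 : ip (b + c) (b + c) = -4 + 2 * ip b c := by
    rw [ip_add_left, ip_add_right, ip_add_right, hb.ipself, hc.ipself, ip_comm c b]; ring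
  have e2 : ip (b + c) Kv = 0 := by rw [ip_add_left, hb.ipK, hc.ipK, add_zero]
  have e3 : ip (b - c) (b - c) = -4 - 2 * ip b c := by
    rw [ip_sub_left, ip_sub_right, ip_sub_right, hb.ipself, hc.ipself, ip_comm c b]; ring
  have e4 : ip (b - c) Kv = 0 := by rw [ip_sub_left, hb.ipK, hc.ipK, sub_zero]
  have h1 := ip_nonpos _ e2
  have h2 := ip_nonpos _ e4
  constructor <;> omega

theorem eq_neg_of_ip {ty : Ty} {b c : Fin 8 → ℤ} (hb : IsRt ty b) (hc : IsRt ty c)
    (h : ip b c = 2) : c = -b := by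
  have e1 : ip (b + c) (b + c) = 0 := by
    rw [ip_add_left, ip_add_right, ip_add_right, hb.ipself, hc.ipself, ip_comm c b, h]; ring
  have e2 : ip (b + c) Kv = 0 := by rw [ip_add_left, hb.ipK, hc.ipK, add_zero]
  have := eq_zero_of_ip _ e2 e1
  exact (neg_eq_of_add_eq_zero_right this).symm

theorem eq_of_ip {ty : Ty} {b c : Fin 8 → ℤ} (hb : IsRt ty b) (hc : IsRt ty c)
    (h : ip b c = -2) : c = b := by
  have := eq_neg_of_ip hb.neg hc (by rw [ip_neg_left, h]; rfl)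
  rw [this, neg_neg]

/-- The vector (-3;1,1,1,1,1,1,0). -/
def K6 : Fin 8 → ℤ := ![-3, 1, 1, 1, 1, 1, 1, 0]

theorem ip_K6 (x : Fin 8 → ℤ) (hx : x 7 = 0) : ip x K6 = ip x Kv := by
  rw [ip_Kv]
  simp only [ip, K6, Fin.sum_univ_succ, Fin.sum_univ_zero]
  simp
  linarith

theorem ip_K6_K6 : ip K6 K6 = 3 := by decide

theorem ip_K6_Kv : ip K6 Kv = 3 := by decide

theorem ip_rt_wt_le {ty : Ty} {b l : Fin 8 → ℤ} (hb : IsRt ty b) (hl : IsWt ty l) :
    ip b l ≤ 1 := by
  cases ty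
  · -- E6
    obtain ⟨h1, h2, h3⟩ := hl
    obtain ⟨g1, g2, g3⟩ := hb
    have k1 := ip_K6 l h3
    have k2 := ip_K6 b g3
    have key : ∀ e : ℤ, e * e = 1 → ip l Kv = -e → ip b l ≤ 1 := by
      intro e he hle
      have e1 : ip ((3 : ℤ) • l + e • K6 + (2 : ℤ) • b) Kv = 0 := by
        simp only [ip_add_left, ip_smul_left, g2, ip_K6_Kv, hle]; ring
      have e2 := ip_nonpos _ e1
      simp only [ip_add_left, ip_smul_left, ip_add_right, ip_smul_right, h1, g1,
        ip_comm l b, ip_comm K6 l, ip_comm K6 b, k1, k2, ip_K6_K6, hle, g2] at e2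
      nlinarith
    rcases h2 with h2 | h2
    · exact key 1 (by norm_num) h2
    · exact key (-1) (by norm_num) (by rw [h2]; norm_num)
  · obtain ⟨h1, h2⟩ := hl
    obtain ⟨g1, g2⟩ := hb
    have e1 : ip ((2 : ℤ) • l + Kv + (2 : ℤ) • b) Kv = 0 := by
      simp only [ip_add_left, ip_smul_left, g2, ip_Kv_Kv, h2]; ring
    have e2 := ip_nonpos _ e1
    simp only [ip_add_left, ip_smul_left, ip_add_right, ip_smul_right, h1, g1,
      ip_comm l b, ip_comm Kv l, ip_comm Kv b, ip_Kv_Kv, h2, g2] at e2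
    omega

theorem ip_rt_wt {ty : Ty} {b l : Fin 8 → ℤ} (hb : IsRt ty b) (hl : IsWt ty l) :
    -1 ≤ ip b l ∧ ip b l ≤ 1 := by
  refine ⟨?_, ip_rt_wt_le hb hl⟩
  have := ip_rt_wt_le hb.neg hl
  rw [ip_neg_left] at this
  omega

/-! ### signs -/

theorem Bf_add_left (x y z : Fin 8 → ℤ) : Bf (x + y) z = Bf x z + Bf y z := by
  simp only [Bf, Pi.add_apply, add_mul, Finset.sum_add_distrib, ite_add_zero]
  ring

theorem Bf_add_right (x y z : Fin 8 → ℤ) : Bf x (y + z) = Bf x y + Bf x z := by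
  simp only [Bf, Pi.add_apply, mul_add, Finset.sum_add_distrib, ite_add_zero]
  ring

theorem Bf_add_comm (x y : Fin 8 → ℤ) : Bf x y + Bf y x = ip x y + (∑ i, x i) * (∑ i, y i) := by
  simp only [Bf, ip, Fin.sum_univ_succ, Fin.sum_univ_zero]
  simp
  ring

theorem IsRt.sum {ty : Ty} {b : Fin 8 → ℤ} (hb : IsRt ty b) : ∑ i, b i = -2 * b 0 := by
  have h := hb.ipK
  rw [ip_Kv] at h
  rw [Fin.sum_univ_succ]
  linarith

theorem Bf_self {ty : Ty} {b : Fin 8 → ℤ} (hb : IsRt ty b) : Bf b b = 2 * (b 0 * b 0) - 1 := by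
  have h := Bf_add_comm b b
  rw [hb.sum, hb.ipself] at h
  linarith

theorem sg_mul_self (x y : Fin 8 → ℤ) : sg x y * sg x y = 1 := by
  unfold sg
  rw [← Units.val_mul, ← Int.negOnePow_add, Int.negOnePow_even _ ⟨_, rfl⟩]; rfl

theorem sg_ne_zero (x y : Fin 8 → ℤ) : sg x y ≠ 0 := Units.ne_zero _

theorem sg_add_left (x y z : Fin 8 → ℤ) : sg (x + y) z = sg x z * sg y z := by
  unfold sg
  rw [Bf_add_left, Int.negOnePow_add, Units.val_mul]

theorem sg_add_right (x y z : Fin 8 → ℤ) : sg x (y + z) = sg x y * sg x z := by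
  unfold sg
  rw [Bf_add_right, Int.negOnePow_add, Units.val_mul]

theorem sg_self {ty : Ty} {b : Fin 8 → ℤ} (hb : IsRt ty b) : sg b b = -1 := by
  unfold sg
  rw [Bf_self hb, Int.negOnePow_odd]
  · rfl
  · exact ⟨b 0 * b 0 - 1, by ring⟩

theorem Bf_neg_left (x y : Fin 8 → ℤ) : Bf (-x) y = - Bf x y := by
  have := Bf_add_left x (-x) y
  rw [add_neg_cancel] at this
  have h0 : Bf 0 y = 0 := by simp [Bf]
  linarith

theorem Bf_neg_right (x y : Fin 8 → ℤ) : Bf x (-y) = - Bf x y := by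
  have := Bf_add_right x y (-y)
  rw [add_neg_cancel] at this
  have h0 : Bf x 0 = 0 := by simp [Bf]
  linarith

theorem sg_neg_left (x y : Fin 8 → ℤ) : sg (-x) y = sg x y := by
  unfold sg; rw [Bf_neg_left, Int.negOnePow_neg]

theorem sg_neg_right (x y : Fin 8 → ℤ) : sg x (-y) = sg x y := by
  unfold sg; rw [Bf_neg_right, Int.negOnePow_neg]

/-- For roots, swapping costs the parity of the product. -/
theorem sg_comm {ty : Ty} {b c : Fin 8 → ℤ} (hb : IsRt ty b) :
    sg b c * sg c b = ((ip b c).negOnePow : ℤˣ) := by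
  unfold sg
  rw [← Units.val_mul, ← Int.negOnePow_add, Bf_add_comm, hb.sum, Int.negOnePow_add]
  rw [Int.negOnePow_even (-2 * b 0 * ∑ i, c i) ⟨- b 0 * ∑ i, c i, by ring⟩, mul_one]

theorem sg_comm_zero {ty : Ty} {b c : Fin 8 → ℤ} (hb : IsRt ty b) (h : ip b c = 0) :
    sg c b = sg b c := by
  have h1 := sg_comm (c := c) hb
  rw [h, Int.negOnePow_zero, Units.val_one] at h1
  have h2 := sg_mul_self b c
  have h3 := sg_ne_zero b c
  exact mul_left_cancel₀ h3 (h1.trans h2.symm)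

theorem sg_comm_one {ty : Ty} {b c : Fin 8 → ℤ} (hb : IsRt ty b) (h : ip b c = 1) :
    sg c b = - sg b c := by
  have h1 := sg_comm (c := c) hb
  rw [h, Int.negOnePow_one, Units.val_neg, Units.val_one] at h1
  have h2 := sg_mul_self b c
  have h3 := sg_ne_zero b c
  apply mul_left_cancel₀ h3
  rw [h1, mul_neg, h2]

/-! ### special roots, separation -/

theorem root0 (ty : Ty) : IsRt ty ![1, -1, -1, -1, 0, 0, 0, 0] := by
  cases ty
  · exact ⟨by decide, by decide, by decide⟩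
  · exact ⟨by decide, by decide⟩

theorem root12 (ty : Ty) : IsRt ty ![0, 1, -1, 0, 0, 0, 0, 0] := by
  cases ty
  · exact ⟨by decide, by decide, by decide⟩
  · exact ⟨by decide, by decide⟩

theorem root23 (ty : Ty) : IsRt ty ![0, 0, 1, -1, 0, 0, 0, 0] := by
  cases ty
  · exact ⟨by decide, by decide, by decide⟩
  · exact ⟨by decide, by decide⟩

theorem root34 (ty : Ty) : IsRt ty ![0, 0, 0, 1, -1, 0, 0, 0] := by
  cases ty
  · exact ⟨by decide, by decide, by decide⟩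
  · exact ⟨by decide, by decide⟩

theorem root45 (ty : Ty) : IsRt ty ![0, 0, 0, 0, 1, -1, 0, 0] := by
  cases ty
  · exact ⟨by decide, by decide, by decide⟩
  · exact ⟨by decide, by decide⟩

theorem root56 (ty : Ty) : IsRt ty ![0, 0, 0, 0, 0, 1, -1, 0] := by
  cases ty
  · exact ⟨by decide, by decide, by decide⟩
  · exact ⟨by decide, by decide⟩

theorem root67 : IsRt .E7 ![0, 0, 0, 0, 0, 0, 1, -1] :=
  ⟨by decide, by decide⟩

theorem ip_expand (x y : Fin 8 → ℤ) : ip x y =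
    x 0 * y 0 - (x 1 * y 1 + x 2 * y 2 + x 3 * y 3 + x 4 * y 4 + x 5 * y 5 + x 6 * y 6
      + x 7 * y 7) := by
  simp only [ip, Fin.sum_univ_succ, Fin.sum_univ_zero]
  simp
  ring

/-- A vector orthogonal to all roots is determined by one coordinate. -/
theorem orth {ty : Ty} {x : Fin 8 → ℤ} (h : ∀ b, IsRt ty b → ip b x = 0) :
    x 1 = x 2 ∧ x 2 = x 3 ∧ x 3 = x 4 ∧ x 4 = x 5 ∧ x 5 = x 6 ∧ x 0 = - (3 * x 1) ∧
      (ty = .E7 → x 6 = x 7) := by
  have h0 := h _ (root0 ty)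
  have h1 := h _ (root12 ty)
  have h2 := h _ (root23 ty)
  have h3 := h _ (root34 ty)
  have h4 := h _ (root45 ty)
  have h5 := h _ (root56 ty)
  rw [ip_expand] at h0 h1 h2 h3 h4 h5
  simp at h0 h1 h2 h3 h4 h5
  refine ⟨by omega, by omega, by omega, by omega, by omega, by omega, ?_⟩
  intro hty
  subst hty
  have h6 := h _ root67
  rw [ip_expand] at h6
  simp at h6
  omega

theorem Kv_expand (x : Fin 8 → ℤ) : ip x Kv =
    -3 * x 0 - (x 1 + x 2 + x 3 + x 4 + x 5 + x 6 + x 7) := by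
  rw [ip_expand]; simp [Kv]
  have e1 : (Fin.cons (-3 : ℤ) (fun _ => 1) : Fin 8 → ℤ) = ![-3, 1, 1, 1, 1, 1, 1, 1] := by decide
  rw [e1]
  simp
  ring

theorem sep {ty : Ty} {l m : Fin 8 → ℤ} (hl : IsWt ty l) (hm : IsWt ty m)
    (h : ∀ b, IsRt ty b → ip b l = ip b m) : l = m := by
  have h1 : ∀ b, IsRt ty b → ip b (l - m) = 0 := by
    intro b hb; rw [ip_sub_right, h b hb, sub_self]
  have h2 := orth h1
  have h3 : ip (l - m) Kv = ip l Kv - ip m Kv := ip_sub_left _ _ _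
  rw [Kv_expand] at h3
  simp only [Pi.sub_apply] at h2 h3
  cases ty
  · obtain ⟨-, l2, l3⟩ := hl
    obtain ⟨-, m2, m3⟩ := hm
    obtain ⟨a1, a2, a3, a4, a5, a6, -⟩ := h2
    funext i
    fin_cases i <;> simp <;> omega
  · obtain ⟨-, l2⟩ := hl
    obtain ⟨-, m2⟩ := hm
    obtain ⟨a1, a2, a3, a4, a5, a6, a7⟩ := h2
    have a8 := a7 rfl
    funext i
    fin_cases i <;> simp <;> omega

theorem wt_nz {ty : Ty} {l : Fin 8 → ℤ} (hl : IsWt ty l) : ∃ b, IsRt ty b ∧ ip b l ≠ 0 := by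
  by_contra hcon
  push Not at hcon
  have h2 := orth hcon
  cases ty
  · obtain ⟨-, l2, l3⟩ := hl
    rw [Kv_expand] at l2
    obtain ⟨a1, a2, a3, a4, a5, a6, -⟩ := h2
    omega
  · obtain ⟨-, l2⟩ := hl
    rw [Kv_expand] at l2
    obtain ⟨a1, a2, a3, a4, a5, a6, a7⟩ := h2
    have a8 := a7 rfl
    omega

theorem wt_single (ty : Ty) (i : Fin 6) : IsWt ty (Pi.single (i.castSucc.succ) 1) := by
  cases ty
  · refine ⟨?_, ?_, ?_⟩ <;> revert i <;> decide
  · refine ⟨?_, ?_⟩ <;> revert i <;> decide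

theorem wt_single7 : IsWt .E7 (Pi.single 7 1) := ⟨by decide, by decide⟩

theorem ip_single (b : Fin 8 → ℤ) (i : Fin 7) : ip b (Pi.single i.succ 1) = - b i.succ := by
  unfold ip
  rw [Finset.sum_eq_single i]
  · simp
  · intro j _ hj
    rw [Pi.single_eq_of_ne (by simpa using hj), mul_zero]
  · simp

/-- Each root pairs to 1 with some weight. -/
theorem rt_nz {ty : Ty} {b : Fin 8 → ℤ} (hb : IsRt ty b) : ∃ l, IsWt ty l ∧ ip b l = 1 := by
  have h1 : ∃ l, IsWt ty l ∧ ip b l ≠ 0 := by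
    by_contra hcon
    push Not at hcon
    have h2 : ∀ i : Fin 7, b i.succ = 0 := by
      intro i
      refine Fin.lastCases ?_ (fun j => ?_) i
      · cases ty
        · exact hb.2.2
        · have := hcon _ wt_single7
          have h3 := ip_single b (Fin.last 6)
          change ip b (Pi.single 7 1) = _ at h3
          rw [this] at h3
          exact (neg_eq_zero.mp h3.symm)
      · have := hcon _ (wt_single ty j)
        have h3 := ip_single b j.castSucc
        rw [this] at h3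
        exact (neg_eq_zero.mp h3.symm)
    have h3 := hb.ipK
    have h4 := hb.ipself
    rw [ip_Kv] at h3
    unfold ip at h4
    simp only [h2, Finset.sum_const_zero, mul_zero, sub_zero] at h3 h4
    have : b 0 = 0 := by omega
    rw [this] at h4
    omega
  obtain ⟨l, hl, hne⟩ := h1
  have h2 := ip_rt_wt hb hl
  by_cases h3 : ip b l = 1
  · exact ⟨l, hl, h3⟩
  · have h4 : ip b l = -1 := by omega
    refine ⟨l + -b, ?_, ?_⟩
    · rw [isWt_add hb.neg hl, ip_neg_left, h4]; rfl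
    · rw [ip_add_right, ip_neg_right, hb.ipself, h4]; rfl

/-! ### the duality of weights -/

/-- The sum of a weight and its partner: `-Kv` for E7 and 0 for E6. -/
def kap : Ty → Fin 8 → ℤ
  | .E6 => 0
  | .E7 => -Kv

theorem ip_kap {ty : Ty} {b : Fin 8 → ℤ} (hb : IsRt ty b) : ip b (kap ty) = 0 := by
  cases ty
  · exact ip_zero_right b
  · simp only [kap]; rw [ip_neg_right, hb.ipK]; rfl

theorem isWt_kap_sub {ty : Ty} {l : Fin 8 → ℤ} (hl : IsWt ty l) : IsWt ty (kap ty - l) := by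
  cases ty
  · obtain ⟨h1, h2, h3⟩ := hl
    simp only [kap, zero_sub]
    refine ⟨?_, ?_, ?_⟩
    · rw [ip_neg_left, ip_neg_right, h1]; rfl
    · rw [ip_neg_left]; omega
    · simp [h3]
  · obtain ⟨h1, h2⟩ := hl
    simp only [kap]
    refine ⟨?_, ?_⟩
    · rw [ip_sub_left, ip_sub_right, ip_sub_right, ip_neg_left, ip_neg_right, ip_Kv_Kv, h1,
        ip_neg_left, ip_neg_right, ip_comm Kv l, h2]; rfl
    · rw [ip_sub_left, ip_neg_left, ip_Kv_Kv, h2]; rfl

/-! ### finiteness -/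

theorem bounded {ty : Ty} {x : Fin 8 → ℤ} (h : IsRt ty x ∨ IsWt ty x) :
    (fun _ => (-6 : ℤ)) ≤ x ∧ x ≤ (fun _ => (6 : ℤ)) := by
  have h1 : -2 ≤ ip x x ∧ -1 ≤ ip x Kv ∧ ip x Kv ≤ 1 := by
    rcases h with h | h
    · rw [h.ipself, h.ipK]; norm_num
    · rw [h.ipself]
      refine ⟨by norm_num, ?_⟩
      cases ty
      · have := h.2.1; omega
      · have := h.2; omega
  obtain ⟨h2, h3, h4⟩ := h1
  have hc := cauchy x
  rw [ip_Kv] at h3 h4
  have h5 : (∑ i : Fin 7, x i.succ * x i.succ) ≤ 2 + x 0 * x 0 := by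
    unfold ip at h2; linarith
  obtain ⟨e, he⟩ : ∃ e, ∑ i : Fin 7, x i.succ = e := ⟨_, rfl⟩
  obtain ⟨S, hS⟩ : ∃ S, ∑ i : Fin 7, x i.succ * x i.succ = S := ⟨_, rfl⟩
  rw [he] at h3 h4 hc
  rw [hS] at h5 hc
  have h6 : -5 ≤ x 0 ∧ x 0 ≤ 5 := by
    constructor <;> nlinarith
  have h7 : x 0 * x 0 ≤ 25 := by nlinarith
  have h8 : ∀ i : Fin 7, x i.succ * x i.succ ≤ 27 := by
    intro i
    have : x i.succ * x i.succ ≤ S := by
      rw [← hS]
      exact Finset.single_le_sum (f := fun i : Fin 7 => x i.succ * x i.succ)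
        (fun j _ => mul_self_nonneg _) (Finset.mem_univ i)
    linarith
  constructor
  · intro i
    refine Fin.cases ?_ (fun j => ?_) i
    · simp only; omega
    · have := h8 j; simp only; nlinarith
  · intro i
    refine Fin.cases ?_ (fun j => ?_) i
    · simp only; omega
    · have := h8 j; simp only; nlinarith

theorem finite_Wt (ty : Ty) : Finite (Wt ty) :=
  ((Set.finite_Icc (fun _ => (-6 : ℤ)) (fun _ => (6 : ℤ))).subset
    (fun _ hx => bounded (Or.inr hx))).to_subtype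

theorem finite_Rt (ty : Ty) : Finite (Rt ty) :=
  ((Set.finite_Icc (fun _ => (-6 : ℤ)) (fun _ => (6 : ℤ))).subset
    (fun _ hx => bounded (Or.inl hx))).to_subtype

end LP319
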