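import Pool.Agent.Helper319LP.D2
import Pool.Agent.Helper319LP.KDef

/-! The statement: torsors under isotypical simply connected groups of type E6 or E7 over fields
of characteristic zero, norms on Milnor K-groups, and the property C^q. -/

namespace EKn

open LP319 Polynomial

universe u

/-! ### Torsors -/

/-- The absolute Galois group (for fields of characteristic zero). -/
def Gal (L : Type u) [Field L] : Type u := AlgebraicClosure L ≃ₐ[L] AlgebraicClosure L

noncomputable instance instGal (L : Type u) [Field L] : Group (Gal L) := AlgEquiv.aut

/-- The action of the Galois group on the algebraic closure. -/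
noncomputable def act {L : Type u} [Field L] (σ : Gal L) : AlgebraicClosure L →+* AlgebraicClosure L :=
  RingEquiv.toRingHom (AlgEquiv.toRingEquiv σ)

/-- Invertible matrices over the algebraic closure, acting on the 54n- or 56n-dimensional
representation. -/
def GLb (ty : Ty) (n : ℕ) (L : Type u) [Field L] : Type u := GL (Idx ty n) (AlgebraicClosure L)

/-- A field homomorphism applied to the entries of an invertible matrix. -/
def mapGL {ι F F' : Type*} [Fintype ι] [DecidableEq ι] [Field F] [Field F'] (f : F →+* F')
    (x : GL ι F) : GL ι F' :=
  Matrix.GeneralLinearGroup.map f x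

section groups

variable (ty : Ty) (n : ℕ) (L : Type u) [Field L]

noncomputable instance instGLb : Group (GLb ty n L) := Units.instGroup

variable {ty n L}

/-- `x` lies in the normaliser of the Lie algebra of type `ty^n`. -/
def NorL (x : GLb ty n L) : Prop := IsNor (LieAlg ty n (AlgebraicClosure L)) x

/-- `x` lies in the centraliser of the Lie algebra of type `ty^n`. -/
def CenL (x : GLb ty n L) : Prop := IsCen (LieAlg ty n (AlgebraicClosure L)) x

/-- `x` lies in the split simply connected group of type `ty^n`: it normalises the Lie algebra and
fixes all its invariant multilinear forms. -/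
def GpL (x : GLb ty n L) : Prop := IsGp (LieAlg ty n (AlgebraicClosure L)) x

end groups

section torsors

variable {ty : Ty} {n : ℕ} {L : Type u} [Field L]

/-- The entrywise Galois action on matrices. -/
noncomputable def gal (σ : Gal L) (x : GLb ty n L) : GLb ty n L := mapGL (act σ) x

/-- The Galois action twisted by `m`. -/
noncomputable def tw (m : Gal L → GLb ty n L) (σ : Gal L) (x : GLb ty n L) : GLb ty n L :=
  m σ * gal σ x * (m σ)⁻¹

/-- A function on the Galois group that factors, by right translation, through the Galois group
of a finite extension. -/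
def Conts {A : Type*} (f : Gal L → A) : Prop :=
  ∃ M : IntermediateField L (AlgebraicClosure L), FiniteDimensional L M ∧
    ∀ σ τ, (∀ x ∈ M, act τ x = x) → f (σ * τ) = f σ

variable (ty n L)

/-- A torsor under an isotypical simply connected group of type `ty` over a field `L` of
characteristic zero, with `n` geometric factors.

`m` is a continuous 1-cocycle in the automorphism group of the split Lie algebra of type `ty^n`,
each automorphism being written as conjugation by an element of the normaliser; it gives a form of
the split simply connected group. `b` is a continuous 1-cocycle with values in this form. -/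
structure Torsor where
  m : Gal L → GLb ty n L
  b : Gal L → GLb ty n L
  m_mem : ∀ σ, NorL (m σ)
  m_coc : ∀ σ τ, CenL (m σ * gal σ (m τ) * (m (σ * τ))⁻¹)
  b_mem : ∀ σ, GpL (b σ)
  b_coc : ∀ σ τ, b (σ * τ) = b σ * tw m σ (b τ)
  m_cont : Conts m
  b_cont : Conts b

variable {ty n L}

/-- The torsor has a point over the extension `M` of `L`, embedded by `i` in the algebraic
closure. -/
def Torsor.HasPoint (T : Torsor ty n L) {M : Type u} [Field M] [Algebra L M]
    (i : M →ₐ[L] AlgebraicClosure L) : Prop :=
  ∃ g, GpL g ∧ ∀ σ : Gal L, (∀ x : M, act σ (i x) = i x) → T.b σ = g⁻¹ * tw T.m σ g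

end torsors

/-! ### Norms on Milnor K-groups -/

/-- The graph of the residue map in Milnor K-theory, for a discrete valuation of `F` with
uniformiser `p` and residue field `κ`, where `R u c` says that the unit `u` reduces to `c`. -/
noncomputable def Res (q : ℕ) {F κ : Type u} [Field F] [Field κ] (p : Fˣ) (R : Fˣ → κˣ → Prop) :
    AddSubgroup (KM (q + 1) F × KM q κ) :=
  AddSubgroup.closure
    ({w | ∃ (u : Fin q → Fˣ) (c : Fin q → κˣ), (∀ i, R (u i) (c i)) ∧
        w = (sym (Fin.cons p u), sym c)} ∪
      {w | ∃ (u : Fin (q + 1) → Fˣ) (c : Fin (q + 1) → κˣ), (∀ i, R (u i) (c i)) ∧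
        w = (sym u, 0)})

section norms

variable {L : Type u} [Field L]

/-- A nonzero polynomial as a unit of the field of rational functions. -/
noncomputable def ratU (f : L[X]) (hf : f ≠ 0) : (RatFunc L)ˣ :=
  Units.mk0 (algebraMap L[X] (RatFunc L) f) (RatFunc.algebraMap_ne_zero hf)

/-- The rational function `u` has the nonzero value `c` at `β`. -/
def ValAt {M : Type u} [Field M] [Algebra L M] (β : M) (u : (RatFunc L)ˣ) (c : Mˣ) : Prop :=
  ∃ (f g : L[X]) (hf : f ≠ 0) (hg : g ≠ 0), u = ratU f hf / ratU g hg ∧
    aeval β g ≠ 0 ∧ aeval β f = c * aeval β g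

/-- The rational function `u` has the nonzero value `c` at infinity. -/
def ValInf (u : (RatFunc L)ˣ) (c : Lˣ) : Prop :=
  ∃ (f g : L[X]) (hf : f ≠ 0) (hg : g ≠ 0), u = ratU f hf / ratU g hg ∧
    f.natDegree = g.natDegree ∧ f.leadingCoeff = c * g.leadingCoeff

/-- `Y` has the residue `z` at the point `β`, which is algebraic over `L`. -/
def HasRes (q : ℕ) {M : Type u} [Field M] [Algebra L M] (β : M) (hβ : IsIntegral L β)
    (Y : KM (q + 1) (RatFunc L)) (z : KM q M) : Prop :=
  (Y, z) ∈ Res q (ratU (minpoly L β) (minpoly.ne_zero hβ)) (ValAt β)

/-- `Y` has the residue `x` at infinity. -/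
def HasResInf (q : ℕ) (Y : KM (q + 1) (RatFunc L)) (x : KM q L) : Prop :=
  (Y, x) ∈ Res q (ratU X X_ne_zero)⁻¹ ValInf

/-- Norm for a simple extension `M = L(α)`: `x` is the norm of `z` if some `Y` in the Milnor
K-group of the field of rational functions has residue `z` at `α`, residue zero at all points that
are not conjugate to `α`, and residue `-x` at infinity. -/
def NormStep (q : ℕ) (L M : Type u) [Field L] [Field M] [Algebra L M] (z : KM q M) (x : KM q L) :
    Prop :=
  ∃ (α : M) (hα : IsIntegral L α) (Y : KM (q + 1) (RatFunc L)), IntermediateField.adjoin L {α} = ⊤ ∧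
    HasRes q α hα Y z ∧ HasResInf q Y (-x) ∧
    ∀ (M' : Type u) [Field M'] [Algebra L M'] (β : M') (hβ : IsIntegral L β),
      aeval β (minpoly L α) ≠ 0 → HasRes q β hβ Y 0

/-- `IsNorm q L M z x`: the element `x` of the Milnor K-group of `L` is the norm of the element
`z` of the Milnor K-group of the finite extension `M`, computed along a tower of simple
extensions. -/
inductive IsNorm (q : ℕ) (L : Type u) [Field L] :
    ∀ (M : Type u) [Field M] [Algebra L M], KM q M → KM q L → Prop
  | self (x : KM q L) : IsNorm q L L x x
  | step (M P : Type u) [Field M] [Field P] [Algebra L M] [Algebra M P] [Algebra L P]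
      [IsScalarTower L M P] (y : KM q P) (z : KM q M) (x : KM q L) :
      NormStep q M P y z → IsNorm q L M z x → IsNorm q L P y x

/-- The subgroup `N_q` of the Milnor K-group generated by the norms from the finite extensions
over which the torsor has a point. -/
noncomputable def NormSub (q : ℕ) {ty : Ty} {n : ℕ} (T : Torsor ty n L) : AddSubgroup (KM q L) :=
  AddSubgroup.closure {x | ∃ (M : Type u) (_ : Field M) (_ : Algebra L M)
    (i : M →ₐ[L] AlgebraicClosure L) (y : KM q M), T.HasPoint i ∧ IsNorm q L M y x}

end norms

/-- The property C^q for the Killing-Cartan type `ty`: over every finite extension `L` of `K`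
and for every torsor under an isotypical group of type `ty` over `L`, the norms generate. -/
def HasC (ty : Ty) (q : ℕ) (K : Type u) [Field K] : Prop :=
  ∀ (L : Type u) [Field L] [Algebra K L] [FiniteDimensional K L] (n : ℕ) (T : Torsor ty n L),
    NormSub q T = ⊤

end EKn
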