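import Pool.Agent.Helper319LP.Bas

/-! Transfer of cocycle pairs along leading coefficients. -/

namespace LP319

open Matrix

set_option linter.unusedSectionVars false

/-- Averaging over a subgroup of finite index. -/
theorem averaging {Γ T : Type*} [Group Γ] [CommGroup T] (α : Γ → T →* T) (U A B : Subgroup T)
    (hAU : A ≤ U) (hdiv : ∀ N : ℕ, N ≠ 0 → ∀ x ∈ U, ∃ y ∈ U, y ^ N = x)
    (hA : ∀ N : ℕ, N ≠ 0 → ∀ x ∈ U, x ^ N ∈ A → x ∈ A)
    (hB : ∀ N : ℕ, N ≠ 0 → ∀ x ∈ U, x ^ N ∈ B → x ∈ B)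
    (hα : ∀ σ, ∀ x ∈ U, α σ x ∈ U)
    (Δ : Subgroup Γ) [Finite (Γ ⧸ Δ)] (y : Γ → T) (hy : ∀ σ, y σ ∈ A)
    (hinv : ∀ σ, ∀ τ ∈ Δ, y (σ * τ) = y σ)
    (hcoc : ∀ σ τ, y (σ * τ) * (y σ * α σ (y τ))⁻¹ ∈ B) :
    ∃ u ∈ A, ∀ σ, y σ * (u⁻¹ * α σ u)⁻¹ ∈ B := by
  classical
  have : Fintype (Γ ⧸ Δ) := Fintype.ofFinite _
  obtain ⟨Y, hY⟩ : ∃ Y, ∏ c : Γ ⧸ Δ, y c.out = Y := ⟨_, rfl⟩
  have hYA : Y ∈ A := by rw [← hY]; exact Subgroup.prod_mem _ fun c _ => hy _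
  have hN : Fintype.card (Γ ⧸ Δ) ≠ 0 := Fintype.card_ne_zero
  obtain ⟨u, huU, hu⟩ := hdiv _ hN Y⁻¹ (inv_mem (hAU hYA))
  have huA : u ∈ A := hA _ hN u huU (by rw [hu]; exact inv_mem hYA)
  refine ⟨u, huA, ?_⟩
  intro σ
  have hout : ∀ τ : Γ, y (Quotient.out (QuotientGroup.mk τ : Γ ⧸ Δ)) = y τ := by
    intro τ
    obtain ⟨η, hη⟩ := QuotientGroup.mk_out_eq_mul Δ τ
    rw [hη]
    exact hinv τ η η.2
  have h1 : ∏ c : Γ ⧸ Δ, y (σ * c.out) = Y := by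
    rw [← hY]
    refine Fintype.prod_equiv (MulAction.toPerm σ) _ _ ?_
    intro c
    rw [MulAction.toPerm_apply, ← hout (σ * c.out)]
    congr 2
    conv_rhs => rw [← QuotientGroup.out_eq' c]
    rfl
  have h2 : ∏ c : Γ ⧸ Δ, (y (σ * c.out) * (y σ * α σ (y c.out))⁻¹) ∈ B :=
    Subgroup.prod_mem _ fun c _ => hcoc σ c.out
  rw [Finset.prod_mul_distrib, h1, Finset.prod_inv_distrib, Finset.prod_mul_distrib,
    Finset.prod_const, Finset.card_univ, ← map_prod, hY] at h2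
  apply hB _ hN
  · exact mul_mem (hAU (hy σ)) (inv_mem (mul_mem (inv_mem huU) (hα σ u huU)))
  · have h3 : (y σ * (u⁻¹ * α σ u)⁻¹) ^ Fintype.card (Γ ⧸ Δ) =
        (Y * (y σ ^ Fintype.card (Γ ⧸ Δ) * α σ Y)⁻¹)⁻¹ := by
      have h4 : u ^ Fintype.card (Γ ⧸ Δ) = Y⁻¹ := hu
      rw [mul_pow, inv_pow, mul_pow, inv_pow, ← map_pow, h4, map_inv, inv_inv]
      simp only [_root_.mul_inv_rev, inv_inv]
      rw [mul_assoc]
    rw [h3]
    exact inv_mem h2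

section

variable {Γ : Type*} [Group Γ] {ι : Type*} [Fintype ι] [DecidableEq ι] {F : Type*} [Field F]

/-- A cocycle `b` with values in the group, for the action twisted by `m`. -/
structure IsCoc (ρ : Γ →* RingAut F) (g : Submodule F (Matrix ι ι F)) (m b : Γ → GL ι F) :
    Prop where
  pc : PC ρ g m
  mem : ∀ σ, b σ ∈ Gp g
  coc : ∀ σ τ, b (σ * τ) = b σ * (m σ * ga (ρ σ : F →+* F) (b τ) * (m σ)⁻¹)
  cont : Cont ρ b

/-- The cocycle becomes trivial on a subgroup. -/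
def SplitOn (ρ : Γ →* RingAut F) (g : Submodule F (Matrix ι ι F)) (m b : Γ → GL ι F)
    (Γ' : Subgroup Γ) : Prop :=
  ∃ x ∈ Gp g, ∀ σ ∈ Γ', b σ = x⁻¹ * (m σ * ga (ρ σ : F →+* F) x * (m σ)⁻¹)

theorem ga_ga (ρ : Γ →* RingAut F) (σ τ : Γ) (x : GL ι F) :
    ga (ρ (σ * τ) : F →+* F) x = ga (ρ σ : F →+* F) (ga (ρ τ : F →+* F) x) := by
  apply Units.ext
  ext i j
  rw [ga_val, ga_val, ga_val, Matrix.map_apply, Matrix.map_apply, Matrix.map_apply, map_mul]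
  rfl

theorem Cont.comp2 {ρ : Γ →* RingAut F} {α β γ : Type*} {f : Γ → α} {f' : Γ → β}
    (h : Cont ρ f) (h' : Cont ρ f') (Φ : α → β → γ) : Cont ρ (fun σ => Φ (f σ) (f' σ)) := by
  classical
  obtain ⟨S, hS⟩ := h
  obtain ⟨S', hS'⟩ := h'
  refine ⟨S ∪ S', ?_⟩
  intro σ τ hτ
  simp only
  rw [hS σ τ (fun x hx => hτ x (Finset.mem_union_left _ hx)),
    hS' σ τ (fun x hx => hτ x (Finset.mem_union_right _ hx))]

theorem Cont.comp1 {ρ : Γ →* RingAut F} {α γ : Type*} {f : Γ → α}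
    (h : Cont ρ f) (Φ : α → γ) : Cont ρ (fun σ => Φ (f σ)) := by
  obtain ⟨S, hS⟩ := h
  exact ⟨S, fun σ τ hτ => by simp only; rw [hS σ τ hτ]⟩

theorem ga_fix {ρ : Γ →* RingAut F} (x : GL ι F) : ∃ S : Finset F, ∀ τ, (∀ y ∈ S, ρ τ y = y) →
    ga (ρ τ : F →+* F) x = x := by
  classical
  refine ⟨Finset.univ.image (fun p : ι × ι => (x : Matrix ι ι F) p.1 p.2), ?_⟩
  intro τ hτ
  apply Units.ext
  ext i j
  exact hτ _ (Finset.mem_image.mpr ⟨(i, j), Finset.mem_univ _, rfl⟩)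

theorem cont_ga (ρ : Γ →* RingAut F) (x : GL ι F) : Cont ρ (fun σ => ga (ρ σ : F →+* F) x) := by
  obtain ⟨S, hS⟩ := ga_fix (ρ := ρ) x
  refine ⟨S, ?_⟩
  intro σ τ hτ
  simp only
  rw [ga_ga, hS τ hτ]

end

section

variable {Γ : Type*} [Group Γ] {ty : Ty} {n : ℕ} {F : Type*} [Field F]

theorem Gp_auto {F' : Type*} [Field F'] (f : F →+* F') {x : GL (Idx ty n) F}
    (hx : x ∈ Gp (LieAlg ty n F)) : ga f x ∈ Gp (LieAlg ty n F') := by
  let _ : Algebra F F' := f.toAlgebra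
  exact Gp_map hx

theorem Nor_auto {F' : Type*} [Field F'] (f : F →+* F') {x : GL (Idx ty n) F}
    (hx : x ∈ Nor (LieAlg ty n F)) : ga f x ∈ Nor (LieAlg ty n F') := by
  let _ : Algebra F F' := f.toAlgebra
  exact Nor_map hx

theorem Cen_auto {F' : Type*} [Field F'] (f : F →+* F') {x : GL (Idx ty n) F}
    (hx : x ∈ Cen (LieAlg ty n F)) : ga f x ∈ Cen (LieAlg ty n F') := by
  let _ : Algebra F F' := f.toAlgebra
  exact Cen_map hx

theorem Cen_conj {m z : GL (Idx ty n) F} (hm : m ∈ Nor (LieAlg ty n F))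
    (hz : z ∈ Cen (LieAlg ty n F)) : m * z * m⁻¹ ∈ Cen (LieAlg ty n F) := by
  intro X hX
  rw [Ad_mul, Ad_mul, hz _ (((inv_mem hm) X).mp hX), Ad_Ad_inv]

variable {ρ : Γ →* RingAut F} {m b : Γ → GL (Idx ty n) F}

theorem IsCoc.pcn (h : IsCoc ρ (LieAlg ty n F) m b) :
    PC ρ (LieAlg ty n F) (fun σ => b σ * m σ) where
  nor σ := mul_mem (h.mem σ).1 (h.pc.nor σ)
  coc σ τ := by
    have h1 : b σ * m σ * ga (ρ σ : F →+* F) (b τ * m τ) * (b (σ * τ) * m (σ * τ))⁻¹ =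
        b (σ * τ) * (m σ * ga (ρ σ : F →+* F) (m τ) * (m (σ * τ))⁻¹) * (b (σ * τ))⁻¹ := by
      rw [h.coc σ τ, map_mul]
      group
    rw [h1, G_comm_C (h.mem _) (h.pc.coc σ τ), mul_inv_cancel_right]
    exact h.pc.coc σ τ
  cont := h.cont.comp2 h.pc.cont (fun x y => x * y)

/-- Change of base points. -/
theorem IsCoc.twist (h : IsCoc ρ (LieAlg ty n F) m b) {x y : GL (Idx ty n) F}
    (hx : x ∈ Gp (LieAlg ty n F)) (hy : y ∈ Gp (LieAlg ty n F)) :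
    IsCoc ρ (LieAlg ty n F) (fun σ => x⁻¹ * m σ * ga (ρ σ : F →+* F) x)
      (fun σ => y⁻¹ * b σ * (m σ * ga (ρ σ : F →+* F) (y * x⁻¹) * (m σ)⁻¹) * x) where
  pc :=
    { nor := fun σ => mul_mem (mul_mem (inv_mem hx.1) (h.pc.nor σ)) (Nor_auto _ hx.1)
      coc := fun σ τ => by
        have h1 : x⁻¹ * m σ * ga (ρ σ : F →+* F) x * ga (ρ σ : F →+* F)
            (x⁻¹ * m τ * ga (ρ τ : F →+* F) x) *
            (x⁻¹ * m (σ * τ) * ga (ρ (σ * τ) : F →+* F) x)⁻¹ =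
            x⁻¹ * (m σ * ga (ρ σ : F →+* F) (m τ) * (m (σ * τ))⁻¹) * x := by
          rw [ga_ga]
          simp only [map_mul, map_inv]
          group
        rw [h1, G_comm_C (inv_mem hx) (h.pc.coc σ τ), inv_mul_cancel_right]
        exact h.pc.coc σ τ
      cont := (h.pc.cont.comp2 (cont_ga ρ x) (fun u v => x⁻¹ * u * v)) }
  mem σ := mul_mem (mul_mem (mul_mem (inv_mem hy) (h.mem σ))
    (Gp_conj (h.pc.nor σ) (Gp_auto _ (mul_mem hy (inv_mem hx))))) hx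
  coc σ τ := by
    have h1 := h.coc σ τ
    have h2 : m (σ * τ) * ga (ρ (σ * τ) : F →+* F) (y * x⁻¹) * (m (σ * τ))⁻¹ =
        m σ * ga (ρ σ : F →+* F) (m τ) * ga (ρ (σ * τ) : F →+* F) (y * x⁻¹) *
          (m σ * ga (ρ σ : F →+* F) (m τ))⁻¹ := by
      have h3 := h.pc.coc σ τ
      obtain ⟨z, hz⟩ : ∃ z, m σ * ga (ρ σ : F →+* F) (m τ) * (m (σ * τ))⁻¹ = z := ⟨_, rfl⟩
      rw [hz] at h3
      have h4 : m σ * ga (ρ σ : F →+* F) (m τ) = z * m (σ * τ) := by rw [← hz]; group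
      rw [h4]
      have h5 := G_comm_C (Gp_conj (h.pc.nor (σ * τ))
        (Gp_auto (ρ (σ * τ) : F →+* F) (mul_mem hy (inv_mem hx)))) h3
      calc m (σ * τ) * ga (ρ (σ * τ) : F →+* F) (y * x⁻¹) * (m (σ * τ))⁻¹
          = m (σ * τ) * ga (ρ (σ * τ) : F →+* F) (y * x⁻¹) * (m (σ * τ))⁻¹ * z * z⁻¹ := by group
        _ = z * (m (σ * τ) * ga (ρ (σ * τ) : F →+* F) (y * x⁻¹) * (m (σ * τ))⁻¹) * z⁻¹ := by
            rw [h5]
        _ = _ := by group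
    rw [h2, h1, ga_ga]
    simp only [map_mul, map_inv]
    group
  cont := by
    have h1 := (h.pc.cont.comp2 (cont_ga ρ (y * x⁻¹)) (fun u v => u * v * u⁻¹))
    exact h.cont.comp2 h1 (fun u v => y⁻¹ * u * v * x)

theorem IsCoc.twist_split {x y : GL (Idx ty n) F}
    (hx : x ∈ Gp (LieAlg ty n F)) (hy : y ∈ Gp (LieAlg ty n F)) {Γ' : Subgroup Γ}
    (h2 : SplitOn ρ (LieAlg ty n F) (fun σ => x⁻¹ * m σ * ga (ρ σ : F →+* F) x)
      (fun σ => y⁻¹ * b σ * (m σ * ga (ρ σ : F →+* F) (y * x⁻¹) * (m σ)⁻¹) * x) Γ') :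
    SplitOn ρ (LieAlg ty n F) m b Γ' := by
  obtain ⟨w, hw, hw2⟩ := h2
  refine ⟨x * w * y⁻¹, mul_mem (mul_mem hx hw) (inv_mem hy), ?_⟩
  intro σ hσ
  have h1 := hw2 σ hσ
  simp only [map_mul, map_inv] at h1 ⊢
  have h3 : b σ = y * (y⁻¹ * b σ * (m σ * (ga (ρ σ : F →+* F) y * (ga (ρ σ : F →+* F) x)⁻¹) *
      (m σ)⁻¹) * x) * x⁻¹ * (m σ * (ga (ρ σ : F →+* F) y * (ga (ρ σ : F →+* F) x)⁻¹) *
      (m σ)⁻¹)⁻¹ := by group
  rw [h3, h1]
  group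

end

section main

variable {Γ : Type*} [Group Γ] {ty : Ty} {n : ℕ} {F : Type*} [Field F] {E : Type*} [Field E]
  [Algebra E F]

/-- Monomial matrices with trivial leading part are diagonal. -/
theorem diag_of_lc_one {ι : Type*} [Fintype ι] [DecidableEq ι] (lc : F →*₀ E) (N : MonG ι F)
    (h : lcG lc N = 1) : ∃ v : ι → Fˣ, dg v = N.1 ∧ ∀ p, lc (v p : F) = 1 := by
  obtain ⟨π, hπ⟩ := N.2
  have h1 : ∀ p q, lc ((N.1 : Matrix ι ι F) p q) = (1 : Matrix ι ι E) p q := by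
    intro p q
    have := congrArg (fun g : GL ι E => (g : Matrix ι ι E) p q) h
    simpa [lcG_val] using this
  have h2 : ∀ q, π q = q := by
    intro q
    by_contra hne
    have h3 := h1 (π q) q
    rw [Matrix.one_apply_ne hne, map_eq_zero] at h3
    exact mono_ne N.1 π hπ q h3
  have h4 : ∀ q, (N.1 : Matrix ι ι F) q q ≠ 0 := by
    intro q
    have := mono_ne N.1 π hπ q
    rwa [h2] at this
  refine ⟨fun p => Units.mk0 _ (h4 p), ?_, ?_⟩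
  · apply Units.ext
    ext p q
    rw [dg_val]
    by_cases hpq : p = q
    · subst hpq; simp
    · rw [Matrix.diagonal_apply_ne _ hpq, hπ p q (by rwa [h2])]
  · intro p
    have := h1 p p
    rw [Matrix.one_apply_eq] at this
    exact this

theorem ga_dg {ι : Type*} [Fintype ι] [DecidableEq ι] {F' : Type*} [Field F'] (f : F →+* F')
    (v : ι → Fˣ) : ga f (dg v) = dg (fun p => Units.map (f : F →* F') (v p)) := by
  apply Units.ext
  rw [ga_val, dg_val, dg_val, Matrix.diagonal_map (map_zero f)]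
  rfl

theorem ga_mono {ι : Type*} [Fintype ι] [DecidableEq ι] {F' : Type*} [Field F'] (f : F →+* F')
    {N : GL ι F} (hN : N ∈ MonG ι F) : ga f N ∈ MonG ι F' := by
  obtain ⟨π, hπ⟩ := hN
  refine ⟨π, ?_⟩
  intro p q hpq
  rw [ga_val, Matrix.map_apply, hπ p q hpq, map_zero]

/-- The twisted action on diagonal matrices. -/
theorem exists_alpha {ι : Type*} [Fintype ι] [DecidableEq ι] {ρ : Γ →* RingAut F}
    (N : Γ → GL ι F) (hN : ∀ σ, N σ ∈ MonG ι F) (lc : F →*₀ E)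
    (hlcρ : ∀ σ x, lc x = 1 → lc (ρ σ x) = 1) :
    ∃ α : Γ → (ι → Fˣ) →* (ι → Fˣ),
      (∀ σ v, dg (α σ v) = N σ * ga (ρ σ : F →+* F) (dg v) * (N σ)⁻¹) ∧
      (∀ σ v, (∀ p, lc (v p : F) = 1) → ∀ p, lc (α σ v p : F) = 1) := by
  choose π hπ using fun σ => mono_conj_dg (hN σ)
  refine ⟨fun σ =>
    { toFun := fun v p => Units.map ((ρ σ : F →+* F) : F →* F) (v (π σ p))
      map_one' := by funext p; simp
      map_mul' := by intro v w; funext p; simp }, ?_, ?_⟩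
  · intro σ v
    rw [ga_dg, hπ]
    rfl
  · intro σ v hv p
    exact hlcρ σ _ (hv (π σ p))

theorem transfer_mono [CharZero F] (lc : F →*₀ E) (hlc : ∀ x : E, lc (algebraMap E F x) = x)
    {ρE : Γ →* RingAut E} {ρF : Γ →* RingAut F}
    (hρ : ∀ σ x, ρF σ (algebraMap E F x) = algebraMap E F (ρE σ x))
    (hρlc : ∀ σ x, lc (ρF σ x) = ρE σ (lc x))
    (hroot : ∀ N : ℕ, N ≠ 0 → ∀ x : F, lc x = 1 → ∃ y : F, lc y = 1 ∧ y ^ N = x)
    (huniq : ∀ N : ℕ, N ≠ 0 → ∀ x : F, lc x = 1 → x ^ N = 1 → x = 1)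
    (hfin : ∀ x : F, (Set.range fun σ => ρF σ x).Finite)
    (hsm : ∀ x : F, ∃ S : Finset E, ∀ τ, (∀ y ∈ S, ρE τ y = y) → ρF τ x = x)
    {m b : Γ → GL (Idx ty n) F} (h : IsCoc ρF (LieAlg ty n F) m b)
    (hm : ∀ σ, m σ ∈ MonG (Idx ty n) F) (hb : ∀ σ, b σ ∈ MonG (Idx ty n) F) :
    ∃ m0 b0 : Γ → GL (Idx ty n) E, IsCoc ρE (LieAlg ty n E) m0 b0 ∧ ∀ Γ' : Subgroup Γ,
      SplitOn ρE (LieAlg ty n E) m0 b0 Γ' → SplitOn ρF (LieAlg ty n F) m b Γ' := by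
  classical
  -- continuity transfer
  have hcont : ∀ {α : Type _} (f : Γ → α), Cont ρF f → Cont ρE f := by
    intro α f hf
    obtain ⟨S, hS⟩ := hf
    choose T hT using hsm
    refine ⟨S.biUnion T, ?_⟩
    intro σ τ hτ
    apply hS
    intro x hx
    apply hT
    intro y hy
    exact hτ y (Finset.mem_biUnion.mpr ⟨x, hx, hy⟩)
  let mM : Γ → MonG (Idx ty n) F := fun σ => ⟨m σ, hm σ⟩
  let bM : Γ → MonG (Idx ty n) F := fun σ => ⟨b σ, hb σ⟩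
  let sM : Γ → MonG (Idx ty n) F → MonG (Idx ty n) F := fun σ N =>
    ⟨ga (ρF σ : F →+* F) N.1, ga_mono _ N.2⟩
  have hsM : ∀ σ N, lcG lc (sM σ N) = ga (ρE σ : E →+* E) (lcG lc N) := by
    intro σ N
    apply Units.ext
    ext p q
    exact hρlc σ _
  let m0 : Γ → GL (Idx ty n) E := fun σ => lcG lc (mM σ)
  let b0 : Γ → GL (Idx ty n) E := fun σ => lcG lc (bM σ)
  have hm0N : ∀ σ, m0 σ ∈ Nor (LieAlg ty n E) := fun σ => lcG_Nor lc hlc _ (h.pc.nor σ)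
  have hb0G : ∀ σ, b0 σ ∈ Gp (LieAlg ty n E) := fun σ => lcG_Gp lc hlc _ (h.mem σ)
  have hb0c : ∀ σ τ, b0 (σ * τ) = b0 σ * (m0 σ * ga (ρE σ : E →+* E) (b0 τ) * (m0 σ)⁻¹) := by
    intro σ τ
    have h1 : bM (σ * τ) = bM σ * (mM σ * sM σ (bM τ) * (mM σ)⁻¹) := Subtype.ext (h.coc σ τ)
    have h2 := congrArg (lcG lc) h1
    rw [map_mul, map_mul, map_mul, map_inv, hsM] at h2
    exact h2
  have hm0c : ∀ σ τ, m0 σ * ga (ρE σ : E →+* E) (m0 τ) * (m0 (σ * τ))⁻¹ ∈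
      Cen (LieAlg ty n E) := by
    intro σ τ
    have h1 := lcG_Cen lc hlc (mM σ * sM σ (mM τ) * (mM (σ * τ))⁻¹) (h.pc.coc σ τ)
    rw [map_mul, map_mul, map_inv, hsM] at h1
    exact h1
  have h0 : IsCoc ρE (LieAlg ty n E) m0 b0 :=
    { pc := ⟨hm0N, hm0c, hcont _ (by
        obtain ⟨S, hS⟩ := h.pc.cont
        refine ⟨S, fun σ τ hτ => ?_⟩
        have : mM (σ * τ) = mM σ := Subtype.ext (hS σ τ hτ)
        simp only [m0, this])⟩
      mem := hb0G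
      coc := hb0c
      cont := hcont _ (by
        obtain ⟨S, hS⟩ := h.cont
        refine ⟨S, fun σ τ hτ => ?_⟩
        have : bM (σ * τ) = bM σ := Subtype.ext (hS σ τ hτ)
        simp only [b0, this]) }
  refine ⟨m0, b0, h0, ?_⟩
  -- the pair over E seen over F
  let mF : Γ → GL (Idx ty n) F := fun σ => ga (algebraMap E F) (m0 σ)
  let bF : Γ → GL (Idx ty n) F := fun σ => ga (algebraMap E F) (b0 σ)
  have hmFN : ∀ σ, mF σ ∈ Nor (LieAlg ty n F) := fun σ => Nor_map (hm0N σ)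
  have hbFG : ∀ σ, bF σ ∈ Gp (LieAlg ty n F) := fun σ => Gp_map (hb0G σ)
  have hgaga : ∀ σ (x : GL (Idx ty n) E), ga (ρF σ : F →+* F) (ga (algebraMap E F) x) =
      ga (algebraMap E F) (ga (ρE σ : E →+* E) x) := by
    intro σ x
    apply Units.ext
    ext p q
    exact hρ σ _
  have hmFc : ∀ σ τ, mF σ * ga (ρF σ : F →+* F) (mF τ) * (mF (σ * τ))⁻¹ ∈
      Cen (LieAlg ty n F) := by
    intro σ τ
    have := Cen_map (F := F) (hm0c σ τ)
    simpa only [mF, map_mul, map_inv, hgaga] using this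
  have hbFc : ∀ σ τ, bF (σ * τ) = bF σ * (mF σ * ga (ρF σ : F →+* F) (bF τ) * (mF σ)⁻¹) := by
    intro σ τ
    have := congrArg (ga (algebraMap E F)) (hb0c σ τ)
    simpa only [bF, mF, map_mul, map_inv, hgaga] using this
  have hmFM : ∀ σ, mF σ ∈ MonG (Idx ty n) F := fun σ => ga_mono _ (lcG_mono lc _)
  have hbFM : ∀ σ, bF σ ∈ MonG (Idx ty n) F := fun σ => ga_mono _ (lcG_mono lc _)
  have hlcF : ∀ (x : GL (Idx ty n) E) (hx : ga (algebraMap E F) x ∈ MonG (Idx ty n) F),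
      lcG lc ⟨ga (algebraMap E F) x, hx⟩ = x := by
    intro x hx
    apply Units.ext
    ext p q
    exact hlc _
  have hlcρ : ∀ σ x, lc x = 1 → lc (ρF σ x) = 1 := by
    intro σ x hx
    rw [hρlc, hx, map_one]
  -- the group U
  let U : Subgroup (Idx ty n → Fˣ) :=
    { carrier := {v | ∀ p, lc (v p : F) = 1}
      mul_mem' := fun {v w} hv hw p => by
        rw [Pi.mul_apply, Units.val_mul, map_mul, hv p, hw p, mul_one]
      one_mem' := fun p => by simp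
      inv_mem' := fun {v} hv p => by
        rw [Pi.inv_apply, Units.val_inv_eq_inv_val, map_inv₀, hv p, inv_one] }
  have hU : ∀ v, v ∈ U ↔ ∀ p, lc (v p : F) = 1 := fun v => Iff.rfl
  have hUdiv : ∀ N : ℕ, N ≠ 0 → ∀ x ∈ U, ∃ y ∈ U, y ^ N = x := by
    intro N hN x hx
    choose y hy1 hy2 using fun p => hroot N hN (x p : F) (hx p)
    have hy0 : ∀ p, y p ≠ 0 := by
      intro p h0
      have := hy1 p
      rw [h0, map_zero] at this
      exact zero_ne_one this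
    refine ⟨fun p => Units.mk0 (y p) (hy0 p), hy1, ?_⟩
    funext p
    apply Units.ext
    simp [hy2]
  have huniq2 : ∀ N : ℕ, N ≠ 0 → ∀ x y : Fˣ, lc (x : F) = 1 → lc (y : F) = 1 → x ^ N = y ^ N →
      x = y := by
    intro N hN x y hx hy hxy
    have h1 : ((x * y⁻¹ : Fˣ) : F) = 1 := by
      apply huniq N hN
      · rw [Units.val_mul, map_mul, hx, Units.val_inv_eq_inv_val, map_inv₀, hy]; simp
      · rw [← Units.val_pow_eq_pow_val, mul_pow, inv_pow, hxy, mul_inv_cancel, Units.val_one]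
    exact mul_inv_eq_one.mp (Units.ext h1)
  have hrootNor : ∀ N : ℕ, N ≠ 0 → ∀ x ∈ U, dg (x ^ N) ∈ Nor (LieAlg ty n F) →
      dg x ∈ Nor (LieAlg ty n F) := by
    intro N hN x hx h1
    rw [dg_Nor_iff] at h1 ⊢
    intro p q p' q' hs
    have h2 := h1 p q p' q' hs
    apply huniq2 N hN
    · rw [Units.val_mul, map_mul, hx p, Units.val_inv_eq_inv_val, map_inv₀, hx q]; simp
    · rw [Units.val_mul, map_mul, hx p', Units.val_inv_eq_inv_val, map_inv₀, hx q']; simp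
    · rw [mul_pow, mul_pow, inv_pow, inv_pow]
      exact h2
  have hrootCen : ∀ N : ℕ, N ≠ 0 → ∀ x ∈ U, dg (x ^ N) ∈ Cen (LieAlg ty n F) →
      dg x ∈ Cen (LieAlg ty n F) := by
    intro N hN x hx h1
    rw [dg_Cen_iff] at h1 ⊢
    intro p q hr hpq
    exact huniq2 N hN _ _ (hx p) (hx q) (h1 p q hr hpq)
  have hrootGp : ∀ N : ℕ, N ≠ 0 → ∀ x ∈ U, dg (x ^ N) ∈ Gp (LieAlg ty n F) →
      dg x ∈ Gp (LieAlg ty n F) := by
    intro N hN x hx h1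
    rw [dg_Gp_iff] at h1 ⊢
    refine ⟨hrootNor N hN x hx h1.1, ?_⟩
    intro d φ hφ μ hμ
    have h2 := h1.2 d φ hφ μ hμ
    apply huniq2 N hN
    · rw [Units.coe_prod, map_prod]
      exact Finset.prod_eq_one fun i _ => hx (μ i)
    · simp
    · rw [one_pow, ← h2, ← Finset.prod_pow]
      rfl
  -- first averaging
  have hyex : ∀ σ, ∃ v : Idx ty n → Fˣ, dg v = m σ * (mF σ)⁻¹ ∧ ∀ p, lc (v p : F) = 1 := by
    intro σ
    exact diag_of_lc_one lc (mM σ * (⟨mF σ, hmFM σ⟩ : MonG (Idx ty n) F)⁻¹) (by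
      rw [map_mul, map_inv, hlcF]
      exact mul_inv_cancel _)
  choose y hy1 hy2 using hyex
  obtain ⟨α, hα1, hα2⟩ := exists_alpha mF hmFM lc hlcρ
  obtain ⟨Sm, hSm⟩ := h.pc.cont
  obtain ⟨Sb, hSb⟩ := h.cont
  have hm0inv : ∀ σ τ, (∀ x ∈ Sm, ρF τ x = x) → m0 (σ * τ) = m0 σ := by
    intro σ τ hτ
    have : mM (σ * τ) = mM σ := Subtype.ext (hSm σ τ hτ)
    simp only [m0, this]
  have hb0inv : ∀ σ τ, (∀ x ∈ Sb, ρF τ x = x) → b0 (σ * τ) = b0 σ := by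
    intro σ τ hτ
    have : bM (σ * τ) = bM σ := Subtype.ext (hSb σ τ hτ)
    simp only [b0, this]
  have := Stb_finite ρF hfin Sm
  have := Stb_finite ρF hfin Sb
  let A1 : Subgroup (Idx ty n → Fˣ) := U ⊓ (Nor (LieAlg ty n F)).comap dg
  let B1 : Subgroup (Idx ty n → Fˣ) := U ⊓ (Cen (LieAlg ty n F)).comap dg
  obtain ⟨u, hu, hu2⟩ := averaging α U A1 B1 inf_le_left hUdiv
    (fun N hN x hx hxN => ⟨hx, hrootNor N hN x hx hxN.2⟩)
    (fun N hN x hx hxN => ⟨hx, hrootCen N hN x hx hxN.2⟩)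
    (fun σ x hx => hα2 σ x hx) (Stb ρF Sm) y
    (fun σ => ⟨hy2 σ, by
      change dg (y σ) ∈ Nor _
      rw [hy1]
      exact mul_mem (h.pc.nor σ) (inv_mem (hmFN σ))⟩)
    (fun σ τ hτ => by
      apply dg_inj
      rw [hy1, hy1]
      simp only [mF]
      rw [hSm σ τ hτ, hm0inv σ τ hτ])
    (fun σ τ => by
      refine ⟨U.mul_mem (hy2 _) (U.inv_mem (U.mul_mem (hy2 σ) (hα2 σ _ (hy2 τ)))), ?_⟩
      change dg _ ∈ Cen _
      have e1 : dg (y (σ * τ) * (y σ * α σ (y τ))⁻¹) =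
          (m (σ * τ) * (mF (σ * τ))⁻¹) *
          (mF σ * ga (ρF σ : F →+* F) (mF τ) * (mF (σ * τ))⁻¹) *
          (m (σ * τ) * (mF (σ * τ))⁻¹)⁻¹ *
          (m σ * ga (ρF σ : F →+* F) (m τ) * (m (σ * τ))⁻¹)⁻¹ := by
        rw [map_mul, map_inv, map_mul, hα1, hy1, hy1, hy1]
        simp only [map_mul, map_inv]
        group
      rw [e1]
      exact mul_mem (Cen_conj (mul_mem (h.pc.nor _) (inv_mem (hmFN _))) (hmFc σ τ))
        (inv_mem (h.pc.coc σ τ)))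
  obtain ⟨ut, hut⟩ : ∃ ut : GL (Idx ty n) F, dg u = ut := ⟨_, rfl⟩
  have hutN : ut ∈ Nor (LieAlg ty n F) := by rw [← hut]; exact hu.2
  have hceq : ∀ σ, ∃ c ∈ Cen (LieAlg ty n F),
      m σ = c * ut⁻¹ * mF σ * ga (ρF σ : F →+* F) ut := by
    intro σ
    refine ⟨dg (y σ * (u⁻¹ * α σ u)⁻¹), (hu2 σ).2, ?_⟩
    rw [map_mul, map_inv, map_mul, hα1, map_inv, hy1, hut]
    group
  have hcQ : ∀ c ∈ Cen (LieAlg ty n F), ∀ Q ∈ Gp (LieAlg ty n F),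
      c * (ut⁻¹ * Q * ut) * c⁻¹ = ut⁻¹ * Q * ut := by
    intro c hc Q hQ
    rw [← G_comm_C (Gp_conj' hutN hQ) hc, mul_inv_cancel_right]
  have hconj : ∀ σ, ∀ x ∈ Gp (LieAlg ty n F),
      m σ * ga (ρF σ : F →+* F) (ut⁻¹ * x * ut) * (m σ)⁻¹ =
        ut⁻¹ * (mF σ * ga (ρF σ : F →+* F) x * (mF σ)⁻¹) * ut := by
    intro σ x hx
    obtain ⟨c, hc, hmc⟩ := hceq σ
    rw [← hcQ c hc _ (Gp_conj (hmFN σ) (Gp_auto _ hx)), hmc]
    simp only [map_mul, map_inv]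
    group
  -- second averaging
  let b2 : Γ → GL (Idx ty n) F := fun σ => ut * b σ * ut⁻¹
  have hb2G : ∀ σ, b2 σ ∈ Gp (LieAlg ty n F) := fun σ => Gp_conj hutN (h.mem σ)
  have hb2c : ∀ σ τ, b2 (σ * τ) = b2 σ * (mF σ * ga (ρF σ : F →+* F) (b2 τ) * (mF σ)⁻¹) := by
    intro σ τ
    have h1 := hconj σ (b2 τ) (hb2G τ)
    have h2 : ut⁻¹ * b2 τ * ut = b τ := by simp only [b2]; group
    rw [h2] at h1
    have h3 : b2 (σ * τ) = ut * (b σ * (m σ * ga (ρF σ : F →+* F) (b τ) * (m σ)⁻¹)) * ut⁻¹ := by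
      simp only [b2]
      rw [h.coc σ τ]
    rw [h3, h1]
    simp only [b2]
    group
  have hutM : ut ∈ MonG (Idx ty n) F := by rw [← hut]; exact dg_mem_MonG u
  have hutlc : lcG lc ⟨ut, hutM⟩ = 1 := by
    apply Units.ext
    ext p q
    rw [lcG_val, Matrix.map_apply, Units.val_one]
    simp only [← hut, dg_val]
    by_cases hpq : p = q
    · subst hpq
      rw [Matrix.diagonal_apply_eq, Matrix.one_apply_eq]
      exact hu.1 p
    · rw [Matrix.diagonal_apply_ne _ hpq, Matrix.one_apply_ne hpq, map_zero]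
  have heex : ∀ σ, ∃ v : Idx ty n → Fˣ, dg v = b2 σ * (bF σ)⁻¹ ∧ ∀ p, lc (v p : F) = 1 := by
    intro σ
    exact diag_of_lc_one lc ((⟨ut, hutM⟩ : MonG (Idx ty n) F) * bM σ *
      (⟨ut, hutM⟩ : MonG (Idx ty n) F)⁻¹ * (⟨bF σ, hbFM σ⟩ : MonG (Idx ty n) F)⁻¹) (by
      rw [map_mul, map_mul, map_mul, map_inv, map_inv, hlcF, hutlc]
      simp only [one_mul, inv_one, mul_one]
      exact mul_inv_cancel _)
  choose e he1 he2 using heex
  let nF : Γ → GL (Idx ty n) F := fun σ => bF σ * mF σ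
  obtain ⟨β, hβ1, hβ2⟩ := exists_alpha nF (fun σ => mul_mem (hbFM σ) (hmFM σ)) lc hlcρ
  let A2 : Subgroup (Idx ty n → Fˣ) := U ⊓ (Gp (LieAlg ty n F)).comap dg
  obtain ⟨w, hw, hw2⟩ := averaging β U A2 ⊥ inf_le_left hUdiv
    (fun N hN x hx hxN => ⟨hx, hrootGp N hN x hx hxN.2⟩)
    (fun N hN x hx hxN => by
      rw [Subgroup.mem_bot] at hxN ⊢
      funext p
      exact huniq2 N hN _ _ (hx p) (by simp) (by
        have := congrFun hxN p
        simpa using this))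
    (fun σ x hx => hβ2 σ x hx) (Stb ρF Sb) e
    (fun σ => ⟨he2 σ, by
      change dg (e σ) ∈ Gp _
      rw [he1]
      exact mul_mem (hb2G σ) (inv_mem (hbFG σ))⟩)
    (fun σ τ hτ => by
      apply dg_inj
      rw [he1, he1]
      simp only [bF, b2]
      rw [hSb σ τ hτ, hb0inv σ τ hτ])
    (fun σ τ => by
      rw [Subgroup.mem_bot, mul_inv_eq_one]
      apply dg_inj
      rw [map_mul, hβ1, he1, he1, he1, hb2c, hbFc]
      simp only [map_mul, map_inv, nF]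
      group)
  obtain ⟨wt, hwt⟩ : ∃ wt : GL (Idx ty n) F, dg w = wt := ⟨_, rfl⟩
  have hwtG : wt ∈ Gp (LieAlg ty n F) := by rw [← hwt]; exact hw.2
  have hb2w : ∀ σ, b2 σ = wt⁻¹ * bF σ * (mF σ * ga (ρF σ : F →+* F) wt * (mF σ)⁻¹) := by
    intro σ
    have h1 := hw2 σ
    rw [Subgroup.mem_bot, mul_inv_eq_one] at h1
    have h2 := congrArg dg h1
    rw [he1, map_mul, map_inv, hβ1, hwt] at h2
    have h3 : b2 σ = b2 σ * (bF σ)⁻¹ * bF σ := by group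
    rw [h3, h2]
    simp only [nF]
    group
  -- conclusion
  rintro Γ' ⟨g0, hg0, hg1⟩
  have hG : ga (algebraMap E F) g0 ∈ Gp (LieAlg ty n F) := Gp_map hg0
  refine ⟨ut⁻¹ * (ga (algebraMap E F) g0 * wt) * ut, Gp_conj' hutN (mul_mem hG hwtG), ?_⟩
  intro σ hσ
  rw [hconj σ _ (mul_mem hG hwtG)]
  have h1 : bF σ = (ga (algebraMap E F) g0)⁻¹ *
      (mF σ * ga (ρF σ : F →+* F) (ga (algebraMap E F) g0) * (mF σ)⁻¹) := by
    have := congrArg (ga (algebraMap E F)) (hg1 σ hσ)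
    simpa only [bF, mF, map_mul, map_inv, hgaga] using this
  have h2 : b σ = ut⁻¹ * b2 σ * ut := by simp only [b2]; group
  rw [h2, hb2w, h1]
  simp only [map_mul, map_inv]
  group

/-- The transfer theorem. -/
theorem transfer [IsAlgClosed F] [CharZero F] (lc : F →*₀ E)
    (hlc : ∀ x : E, lc (algebraMap E F x) = x)
    {ρE : Γ →* RingAut E} {ρF : Γ →* RingAut F}
    (hρ : ∀ σ x, ρF σ (algebraMap E F x) = algebraMap E F (ρE σ x))
    (hρlc : ∀ σ x, lc (ρF σ x) = ρE σ (lc x))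
    (hroot : ∀ N : ℕ, N ≠ 0 → ∀ x : F, lc x = 1 → ∃ y : F, lc y = 1 ∧ y ^ N = x)
    (huniq : ∀ N : ℕ, N ≠ 0 → ∀ x : F, lc x = 1 → x ^ N = 1 → x = 1)
    (hfin : ∀ x : F, (Set.range fun σ => ρF σ x).Finite)
    (hsm : ∀ x : F, ∃ S : Finset E, ∀ τ, (∀ y ∈ S, ρE τ y = y) → ρF τ x = x)
    {m b : Γ → GL (Idx ty n) F} (h : IsCoc ρF (LieAlg ty n F) m b) :
    ∃ m0 b0 : Γ → GL (Idx ty n) E, IsCoc ρE (LieAlg ty n E) m0 b0 ∧ ∀ Γ' : Subgroup Γ,
      SplitOn ρE (LieAlg ty n E) m0 b0 Γ' → SplitOn ρF (LieAlg ty n F) m b Γ' := by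
  obtain ⟨x, hx, hx2⟩ := exists_mono hfin h.pc
  obtain ⟨z, hz, hz2⟩ := exists_mono hfin h.pcn
  have h1 := h.twist hx hz
  obtain ⟨m0, b0, h0, h2⟩ := transfer_mono lc hlc hρ hρlc hroot huniq hfin hsm h1 hx2 (by
    intro σ
    have e1 : z⁻¹ * b σ * (m σ * ga (ρF σ : F →+* F) (z * x⁻¹) * (m σ)⁻¹) * x =
        (z⁻¹ * (b σ * m σ) * ga (ρF σ : F →+* F) z) *
        (x⁻¹ * m σ * ga (ρF σ : F →+* F) x)⁻¹ := by
      simp only [map_mul, map_inv]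
      group
    rw [e1]
    exact mul_mem (hz2 σ) (inv_mem (hx2 σ)))
  exact ⟨m0, b0, h0, fun Γ' hs => IsCoc.twist_split hx hz (h2 Γ' hs)⟩

end main

end LP319
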